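import Pool.Agent.OrthCoord.Contract

set_option autoImplicit false
open Bundle Set ContinuousLinearMap
open scoped Manifold ContDiff Topology ComplexConjugate

namespace Pool.Agent.OrthCoord

/-- The change of coordinates between the two charts. -/
noncomputable def swap (y : E 4) : E 4 := mkC ((Wc y)⁻¹, Lc y * Wc y)

@[simp] theorem Wc_swap (y : E 4) : Wc (swap y) = (Wc y)⁻¹ := by simp [swap]
@[simp] theorem Lc_swap (y : E 4) : Lc (swap y) = Lc y * Wc y := by simp [swap]

theorem swap_swap {y : E 4} (hy : Wc y ≠ 0) : swap (swap y) = y := by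
  apply ext_WL
  · simp
  · simp [hy]

theorem contDiffAt_swap {y : E 4} (hy : Wc y ≠ 0) : ContDiffAt ℝ ∞ swap y :=
  mkC.contDiff.contDiffAt.comp y
    ((Wc.contDiff.contDiffAt.inv hy).prodMk
      (Lc.contDiff.contDiffAt.mul Wc.contDiff.contDiffAt))

theorem fibreNorm_swap {y : E 4} (hy : Wc y ≠ 0) : fibreNorm (swap y) = fibreNorm y := by
  unfold fibreNorm
  rw [Wc_swap, Lc_swap, norm_mul, norm_inv]
  have : ‖Wc y‖ ≠ 0 := norm_ne_zero_iff.2 hy
  field_simp
  ring

theorem contract_swap {δ : ℝ} {y : E 4} (hy : Wc y ≠ 0) :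
    contract δ (swap y) = swap (contract δ y) := by
  apply ext_WL
  · simp
  · simp only [Lc_contract, Lc_swap, Wc_contract, fibreNorm_swap hy]
    ring

theorem fderiv_Wc_comp {f : E 4 → E 4} {y : E 4} (hf : DifferentiableAt ℝ f y) (u : E 4) :
    Wc (fderiv ℝ f y u) = fderiv ℝ (fun z => Wc (f z)) y u := by
  have h := (Wc.hasFDerivAt (x := f y)).comp y hf.hasFDerivAt
  have h' : HasFDerivAt (fun z => Wc (f z)) (Wc.comp (fderiv ℝ f y)) y := h
  rw [h'.fderiv]
  rfl

theorem fderiv_Lc_comp {f : E 4 → E 4} {y : E 4} (hf : DifferentiableAt ℝ f y) (u : E 4) :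
    Lc (fderiv ℝ f y u) = fderiv ℝ (fun z => Lc (f z)) y u := by
  have h := (Lc.hasFDerivAt (x := f y)).comp y hf.hasFDerivAt
  have h' : HasFDerivAt (fun z => Lc (f z)) (Lc.comp (fderiv ℝ f y)) y := h
  rw [h'.fderiv]
  rfl

theorem Wc_fderiv_swap {y : E 4} (hy : Wc y ≠ 0) (u : E 4) :
    Wc (fderiv ℝ swap y u) = -(Wc u / Wc y ^ 2) := by
  rw [fderiv_Wc_comp ((contDiffAt_swap hy).differentiableAt (by simp))]
  have h1 : HasFDerivAt (fun z : E 4 => Wc z) Wc y := Wc.hasFDerivAt
  have h2 := (((hasDerivAt_inv hy).hasFDerivAt.restrictScalars ℝ).comp y h1)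
  have h3 : (fun z : E 4 => Wc (swap z)) = (fun w : ℂ => w⁻¹) ∘ fun z => Wc z := by
    funext z; simp
  rw [h3]
  erw [h2.fderiv]
  simp
  ring

/-- Comparison of the two coordinate systems near a point of the first chart with `|w| > 1`. -/
theorem compare {ε : ℂ → ℝ} (hε : ContDiff ℝ ∞ ε) (hout : ∀ w, 1 ≤ ‖w‖ → ε w = 0) (δ : ℝ)
    {y : E 4} (hy : 1 < ‖Wc y‖) (u : E 4) :
    Wc (fderiv ℝ (Psi ε ∘ contract δ) y u) =
        -(conj (Wc y)) ^ 3 * conj (Wc (fderiv ℝ (contract δ) (swap y) (fderiv ℝ swap y u))) ∧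
    Lc (fderiv ℝ (Psi ε ∘ contract δ) y u) =
        Lc (fderiv ℝ (contract δ) (swap y) (fderiv ℝ swap y u)) := by
  have hy0 : Wc y ≠ 0 := by
    intro h; rw [h, norm_zero] at hy; linarith
  have hPc : ContDiff ℝ ∞ (Psi ε ∘ contract δ) := (contDiff_Psi hε).comp (contDiff_contract δ)
  have hPd : DifferentiableAt ℝ (Psi ε ∘ contract δ) y :=
    hPc.contDiffAt.differentiableAt (by simp)
  have hcd : ∀ z, DifferentiableAt ℝ (contract δ) z := fun z =>
    (contDiff_contract δ).contDiffAt.differentiableAt (by simp)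
  have hsd : DifferentiableAt ℝ swap y := (contDiffAt_swap hy0).differentiableAt (by simp)
  have hev : ∀ᶠ z in 𝓝 y, 1 < ‖Wc z‖ :=
    (isOpen_lt continuous_const Wc.continuous.norm).mem_nhds hy
  constructor
  · rw [fderiv_Wc_comp hPd, fderiv_Wc_comp (hcd _)]
    have h1 : (fun z => Wc ((Psi ε ∘ contract δ) z)) =ᶠ[𝓝 y]
        (fun w : ℂ => w ^ 2 * (1 / 2)) ∘ fun z => conj (Wc z) := by
      filter_upwards [hev] with z hz
      simp [Psi, hout _ hz.le]
      ring
    have h2 : HasFDerivAt (fun y : E 4 => conj (Wc y))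
        ((Complex.conjCLE : ℂ →L[ℝ] ℂ).comp Wc) y :=
      ((Complex.conjCLE : ℂ →L[ℝ] ℂ).hasFDerivAt).comp y Wc.hasFDerivAt
    have h3 := (((((hasDerivAt_id (conj (Wc y))).pow 2).mul_const (1 / 2 : ℂ)).hasFDerivAt.restrictScalars
      ℝ).comp y h2)
    have h4 : fderiv ℝ (fun z => Wc (contract δ z)) (swap y) = Wc := by
      have : (fun z => Wc (contract δ z)) = fun z => Wc z := by funext z; simp
      rw [this]
      exact Wc.hasFDerivAt.fderiv
    rw [h1.fderiv_eq, h4, Wc_fderiv_swap hy0]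
    erw [h3.fderiv]
    simp
    field_simp
  · rw [fderiv_Lc_comp hPd]
    have h1 : (fun z => Lc ((Psi ε ∘ contract δ) z)) =ᶠ[𝓝 y]
        fun z => Lc ((contract δ ∘ swap) z) := by
      filter_upwards [hev] with z hz
      have hz0 : Wc z ≠ 0 := by
        intro h; rw [h, norm_zero] at hz; linarith
      have h2 : contract δ (swap z) = swap (contract δ z) := contract_swap hz0
      simp only [Function.comp, h2]
      simp [Psi, hout _ hz.le]
      ring
    have h2 : DifferentiableAt ℝ (contract δ ∘ swap) y := (hcd _).comp y hsd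
    rw [h1.fderiv_eq, ← fderiv_Lc_comp h2, fderiv_comp y (hcd _) hsd]
    rfl

variable {X : Type} [TopologicalSpace X] [ChartedSpace (E 4) X] {a b : E 4 → X}

theorem zOne_eq (y : E 4) : zOne y = Wc y := by rw [Wc_apply]; rfl

theorem zTwo_eq (y : E 4) : zTwo y = Lc y := by rw [Lc_apply]; rfl

theorem IsBlowUp.eq_iff (H : IsBlowUp X a b) (y z : E 4) :
    a y = b z ↔ Wc y * Wc z = 1 ∧ Lc z = Lc y * Wc y := by
  rw [H.glue, zOne_eq, zOne_eq, zTwo_eq, zTwo_eq]

theorem IsBlowUp.eq_swap (H : IsBlowUp X a b) {y : E 4} (hy : Wc y ≠ 0) :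
    a y = b (swap y) := by
  rw [H.eq_iff]
  simp [hy]

theorem IsBlowUp.eq_swap' (H : IsBlowUp X a b) {y : E 4} (hy : Wc y ≠ 0) :
    b y = a (swap y) := by
  have h1 : Wc (swap y) ≠ 0 := by simpa using hy
  rw [H.eq_swap h1, swap_swap hy]

theorem IsBlowUp.swap_of_eq (H : IsBlowUp X a b) {y z : E 4} (h : a y = b z) :
    Wc y ≠ 0 ∧ Wc z ≠ 0 ∧ z = swap y ∧ y = swap z := by
  rw [H.eq_iff] at h
  have hy : Wc y ≠ 0 := by
    intro h0; rw [h0, zero_mul] at h; exact zero_ne_one h.1
  have hz : Wc z ≠ 0 := by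
    intro h0; rw [h0, mul_zero] at h; exact zero_ne_one h.1
  have h1 : z = swap y := by
    apply ext_WL
    · rw [Wc_swap]
      exact eq_inv_of_mul_eq_one_right h.1
    · rw [Lc_swap]; exact h.2
  exact ⟨hy, hz, h1, by rw [h1, swap_swap hy]⟩

theorem dp_inj {f : E 4 → X} (hf : IsLocalDiffeomorph (𝓡 4) (𝓡 4) ∞ f) (y : E 4) :
    Function.Injective (dp f y) := by
  obtain ⟨Φ, h1, h2⟩ := hf y
  exact dp_injective Φ f h2 h1

/-- The chain rule along the change of coordinates. -/
theorem dp_swap {f g : E 4 → X} (hg : IsLocalDiffeomorph (𝓡 4) (𝓡 4) ∞ g)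
    (hfg : ∀ y, Wc y ≠ 0 → f y = g (swap y)) {y : E 4} (hy : Wc y ≠ 0) (u : E 4) :
    dp f y u = dp g (swap y) (fderiv ℝ swap y u) := by
  have h1 : f =ᶠ[𝓝 y] g ∘ swap := by
    have : ∀ᶠ z in 𝓝 y, Wc z ≠ 0 :=
      (isOpen_ne.preimage Wc.continuous).mem_nhds hy
    filter_upwards [this] with z hz
    exact hfg z hz
  have hs : MDifferentiableAt (𝓡 4) (𝓡 4) swap y :=
    ((contDiffAt_swap hy).differentiableAt (by simp)).mdifferentiableAt
  have h2 := mfderiv_comp y ((hg (swap y)).mdifferentiableAt (by simp)) hs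
  have h5 : dp f y = dp (g ∘ swap) y := h1.mfderiv_eq
  have h6 : dp (g ∘ swap) y u = dp g (swap y) (dp swap y u) := DFunLike.congr_fun h2 u
  have h4 : dp swap y = fderiv ℝ swap y := mfderiv_eq_fderiv
  rw [h5, h6, h4]

theorem sum_single {i j : Fin 4} (hij : i ≠ j) {x y : E 4}
    (hx : x = EuclideanSpace.single i 1) (hy : y = EuclideanSpace.single j 1) :
    ∑ k, x k * y k = 0 := by
  rw [sum_mul, hx, hy, re_W_single hij, re_L_single hij, add_zero]

/-- The blow-up of the complex plane at the origin carries mutually diagonal local metrics. -/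
theorem IsBlowUp.mutuallyDiagonal (H : IsBlowUp X a b) :
    ∃ (V : Bool → Set (E 4)) (p : Bool → E 4 → X) (q : Bool → E 4 → E 4)
      (h : Bool → E 4 → Fin 4 → ℝ), MutuallyDiagonal 4 X V p q h := by
  obtain ⟨ε, ε₀, hε, h0, h1, hnn, hin, hout, hd⟩ := exists_cutoff
  set δ : ℝ := ε₀ / 4 with hδdef
  have hδ : 0 < δ := by positivity
  have hopen2 : IsOpen {y : E 4 | ‖Wc y‖ < 2} := isOpen_lt Wc.continuous.norm continuous_const
  have hopen1 : IsOpen {y : E 4 | ‖Wc y‖ < 1} := isOpen_lt Wc.continuous.norm continuous_const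
  have hopenL : IsOpen {y : E 4 | ‖Lc y‖ < ε₀ / 4} := isOpen_lt Lc.continuous.norm continuous_const
  have hPsi : IsLocalDiffeomorphOn (𝓡 4) (𝓡 4) ∞ (Psi ε) {y : E 4 | ‖Lc y‖ < ε₀ / 4} :=
    isLocalDiffeomorphOn_of_injective hopenL (contDiff_Psi hε).contDiffOn
      fun y hy => Psi_injective hε h0 h1 hnn hin hd hy
  have hcon := contract_isLocalDiffeomorph hδ
  refine ⟨fun i => bif i then {y | ‖Wc y‖ < 2} else {y | ‖Wc y‖ < 1},
    fun i => bif i then a else b,
    fun i => bif i then Psi ε ∘ contract δ else contract δ,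
    fun _ _ _ => 1,
    { isOpen := ?_
      localDiffeo := ?_
      coordinates := ?_
      cover := ?_
      smooth := fun _ _ => contDiffOn_const
      pos := fun _ _ _ _ => one_pos
      diagonal := ?_ }⟩
  · rintro (_ | _)
    · exact hopen1
    · exact hopen2
  · rintro (_ | _) y
    · exact H.locB _
    · exact H.locA _
  · rintro (_ | _) y
    · exact hcon _
    · exact (hcon _).comp _ _ (hPsi ⟨contract δ y, norm_Lc_contract_lt hδ _⟩)
  · intro x
    rcases H.cover x with ⟨y, rfl⟩ | ⟨y, rfl⟩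
    · rcases lt_or_ge ‖Wc y‖ 2 with hy | hy
      · exact ⟨true, y, hy, rfl⟩
      · have hy0 : Wc y ≠ 0 := by
          intro h; rw [h, norm_zero] at hy; linarith
        refine ⟨false, swap y, ?_, (H.eq_swap hy0).symm⟩
        change ‖Wc (swap y)‖ < 1
        rw [Wc_swap, norm_inv]
        exact inv_lt_one_of_one_lt₀ (by linarith)
    · rcases lt_or_ge ‖Wc y‖ 1 with hy | hy
      · exact ⟨false, y, hy, rfl⟩
      · have hy0 : Wc y ≠ 0 := by
          intro h; rw [h, norm_zero] at hy; linarith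
        refine ⟨true, swap y, ?_, (H.eq_swap' hy0).symm⟩
        change ‖Wc (swap y)‖ < 2
        rw [Wc_swap, norm_inv]
        have : ‖Wc y‖⁻¹ ≤ 1 := inv_le_one_of_one_le₀ hy
        linarith
  · rintro (_ | _) (_ | _) y hy z hz hyz i j hij u v u' v' hu hv hu' hv'
    · have hyz' : b y = b z := hyz
      obtain rfl := H.injB hyz'
      obtain rfl := dp_inj H.locB y hu
      obtain rfl := dp_inj H.locB y hv
      simp only [one_mul]
      exact sum_single hij hu' hv'
    · have hyz' : b y = a z := hyz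
      obtain ⟨hz0, hy0, h2, h3⟩ := H.swap_of_eq hyz'.symm
      have hz1 : 1 < ‖Wc z‖ := by
        have : ‖Wc y‖ < 1 := hy
        rw [h2, Wc_swap, norm_inv] at this
        exact (inv_lt_one₀ (norm_pos_iff.2 hz0)).1 this
      have hu2 : u = fderiv ℝ swap z u' := by
        apply dp_inj H.locB y
        rw [h2]
        rw [h2] at hu
        exact hu.trans (dp_swap H.locB (fun y hy => H.eq_swap hy) hz0 u')
      have hv2 : v = fderiv ℝ swap z v' := by
        apply dp_inj H.locB y
        rw [h2]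
        rw [h2] at hv
        exact hv.trans (dp_swap H.locB (fun y hy => H.eq_swap hy) hz0 v')
      obtain ⟨c1, c2⟩ := compare hε hout δ hz1 u'
      obtain ⟨c3, c4⟩ := compare hε hout δ hz1 v'
      rw [← h2, ← hu2] at c1 c2
      rw [← h2, ← hv2] at c3 c4
      simp only [one_mul]
      have hκ : -(conj (Wc z)) ^ 3 ≠ 0 := by
        have : conj (Wc z) ≠ 0 := by simpa using hz0
        exact neg_ne_zero.2 (pow_ne_zero 3 this)
      exact orth_backward hκ hij hu' hv' c1 c3 c2 c4
    · have hyz' : a y = b z := hyz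
      obtain ⟨hy0, hz0, h2, h3⟩ := H.swap_of_eq hyz'
      have hy1 : 1 < ‖Wc y‖ := by
        have : ‖Wc z‖ < 1 := hz
        rw [h2, Wc_swap, norm_inv] at this
        exact (inv_lt_one₀ (norm_pos_iff.2 hy0)).1 this
      have hu2 : u' = fderiv ℝ swap y u := by
        apply dp_inj H.locB z
        rw [h2]
        rw [h2] at hu
        exact hu.symm.trans (dp_swap H.locB (fun y hy => H.eq_swap hy) hy0 u)
      have hv2 : v' = fderiv ℝ swap y v := by
        apply dp_inj H.locB z
        rw [h2]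
        rw [h2] at hv
        exact hv.symm.trans (dp_swap H.locB (fun y hy => H.eq_swap hy) hy0 v)
      obtain ⟨c1, c2⟩ := compare hε hout δ hy1 u
      obtain ⟨c3, c4⟩ := compare hε hout δ hy1 v
      rw [← h2, ← hu2] at c1 c2
      rw [← h2, ← hv2] at c3 c4
      simp only [one_mul]
      exact orth_forward hij hu' hv' c1 c3 c2 c4
    · have hyz' : a y = a z := hyz
      obtain rfl := H.injA hyz'
      obtain rfl := dp_inj H.locA y hu
      obtain rfl := dp_inj H.locA y hv
      simp only [one_mul]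
      exact sum_single hij hu' hv'

end Pool.Agent.OrthCoord
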