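import Pool.Agent.OrthCoord.Section

set_option autoImplicit false
open Bundle Set ContinuousLinearMap
open scoped Manifold ContDiff Topology

namespace Pool.Agent.OrthCoord

/-- The unit ball of a positive definite form on `ℝⁿ` is bounded. -/
theorem bounded_of_pos {n : ℕ} (b : E n →L[ℝ] E n →L[ℝ] ℝ) (hb : ∀ v, v ≠ 0 → 0 < b v v) :
    Bornology.IsVonNBounded ℝ {v : E n | b v v < 1} := by
  rw [NormedSpace.isVonNBounded_iff]
  rcases subsingleton_or_nontrivial (E n) with hs | hn
  · exact (Set.subsingleton_of_subsingleton).finite.isBounded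
  · have hS : IsCompact (Metric.sphere (0 : E n) 1) := isCompact_sphere _ _
    have hne : (Metric.sphere (0 : E n) 1).Nonempty := NormedSpace.sphere_nonempty.2 zero_le_one
    have hc : Continuous fun v : E n => b v v := by fun_prop
    obtain ⟨w, hw, hmin⟩ := hS.exists_isMinOn hne hc.continuousOn
    have hw0 : w ≠ 0 := by rintro rfl; simp at hw
    have hcpos : 0 < b w w := hb w hw0
    have key : ∀ v : E n, b w w * ‖v‖ ^ 2 ≤ b v v := by
      intro v
      rcases eq_or_ne v 0 with rfl | hv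
      · simp
      · have hv' : ‖v‖ ≠ 0 := norm_ne_zero_iff.2 hv
        have h1 : ‖v‖⁻¹ • v ∈ Metric.sphere (0 : E n) 1 := by
          simp [norm_smul, hv]
        have h2 : b w w ≤ b (‖v‖⁻¹ • v) (‖v‖⁻¹ • v) := hmin h1
        have h3 : b (‖v‖⁻¹ • v) (‖v‖⁻¹ • v) = (‖v‖ ^ 2)⁻¹ * b v v := by
          simp only [map_smul, ContinuousLinearMap.smul_apply, smul_eq_mul]
          field_simp
        rw [h3] at h2
        have h4 : 0 < ‖v‖ ^ 2 := by positivity
        calc b w w * ‖v‖ ^ 2 ≤ ((‖v‖ ^ 2)⁻¹ * b v v) * ‖v‖ ^ 2 :=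
              mul_le_mul_of_nonneg_right h2 h4.le
          _ = b v v := by field_simp
    rw [isBounded_iff_forall_norm_le]
    refine ⟨√(1 / b w w), fun v hv => ?_⟩
    have h5 : b w w * ‖v‖ ^ 2 < 1 := lt_of_le_of_lt (key v) hv
    apply Real.le_sqrt_of_sq_le
    rw [le_div_iff₀ hcpos]
    linarith

end Pool.Agent.OrthCoord
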