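import Pool.Agent.OrthCoord.TurnSum

set_option autoImplicit false
open Bundle Set ContinuousLinearMap
open scoped Manifold ContDiff Topology

namespace Pool.Agent.OrthCoord

variable {k : ℕ} {ι : Type} {N M : Type} [TopologicalSpace N] [ChartedSpace (E (k + 4)) N]
  [TopologicalSpace M] [ChartedSpace (E (k + 4)) M]

/-- Gluing along circle tubes whose coordinates are orthogonal for `g` after turning. -/
theorem IsTubeSum.hasOrthogonalMetric_of_turnAdapted [Finite ι] [IsManifold (𝓡 (k + 4)) ∞ N]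
    [IsManifold (𝓡 (k + 4)) ∞ M] {T : ι → Bool → E (k + 4) → N}
    (hT : Tubes (k + 4) (discDirs k) (turns k) T) {i : N → M}
    (H : IsTubeSum (k + 4) (discDirs k) T i) (g : RMetric (k + 4) N)
    (hg : HasOrthCoords (k + 4) g) (α : ι → Bool → ℝ) (hA : TurnAdapted k g T α) :
    HasOrthogonalMetric (k + 4) M := by
  have hW : IsOpen {u : E (k + 4) | rad (discDirs k) u < 2} :=
    isOpen_lt (continuous_rad _) continuous_const
  have hloc : ∀ a j u, rad (discDirs k) u < 2 →
      IsLocalDiffeomorphAt (𝓡 (k + 4)) (𝓡 (k + 4)) ∞ (fun v => T a j (turn (α a j) v)) u := by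
    intro a j u hu
    have h1 : IsLocalDiffeomorphAt (𝓡 (k + 4)) (𝓡 (k + 4)) ∞ (T a j) (turn (α a j) u) :=
      hT.loc a j _ (by rw [rad_turn]; exact hu)
    exact (localDiffeo_turn (α a j) u).comp _ _ h1
  refine H.hasOrthogonalMetric_of_turned hT (β := fun y => form g y) ?_ α
    (w := fun a j u p => coef g (fun v => T a j (turn (α a j) v)) u p p) ?_ ?_ ?_
  · intro y
    obtain ⟨U, φ, ψ, hU, hx, hU', h1, h2, h3, h4, h5⟩ := hg y
    exact diagAt_of_chart g hU hx hU' h1 h2 h3 h4 h5
  · intro a j p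
    exact contDiffOn_coef g hW (fun v hv => (hloc a j v hv).contMDiffAt.contMDiffWithinAt) p p
  · intro a j u p hu
    refine g.pos (T a j (turn (α a j) u))
      (dp (fun v => T a j (turn (α a j) v)) u (basisVec p)) ?_
    intro h0
    have h6 : (basisVec p : E (k + 4)) = 0 := mfderiv_injective (hloc a j u hu)
      (h0.trans (map_zero (dp (fun v => T a j (turn (α a j) v)) u)).symm)
    have h7 := congrArg (fun v : E (k + 4) => v p) h6
    simp at h7
  · intro a j u hu x y
    exact bilin_expand (form g (T a j (turn (α a j) u)))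
      (dp (fun v => T a j (turn (α a j) v)) u) (fun p q hpq => hA a j u hu p q hpq) x y

theorem turn_int_add {u v : E (k + 4)} (m : ℤ) : turn m v - turn m u ∈ turns k ↔
    v - u ∈ turns k := by
  obtain ⟨n10, n20, n30, n21, n31, n32⟩ := ne_facts (k := k)
  have key : ∀ (m : ℤ) (u v : E (k + 4)), v - u ∈ turns k → turn m v - turn m u ∈ turns k := by
    intro m u v h
    obtain ⟨l, hl⟩ := id h
    have h0 : v 0 = u 0 + l * (2 * Real.pi) := by
      have h1 : v 0 - u 0 = (v - u) 0 := rfl
      rw [hl] at h1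
      simp at h1
      linarith
    have hj : ∀ j, j ≠ 0 → v j = u j := by
      intro j hj
      have h1 := turns_apply h hj
      rw [PiLp.sub_apply] at h1
      linarith
    have e1 : (m : ℝ) * v 0 = m * u 0 + ((m * l : ℤ) : ℝ) * (2 * Real.pi) := by
      rw [h0]
      push_cast
      ring
    refine mem_turns (m := l) ?_ fun j hj0 => ?_
    · rw [PiLp.sub_apply, turn_zero_apply, turn_zero_apply, h0]
      ring
    · rw [PiLp.sub_apply]
      by_cases h2 : j = 2
      · rw [h2, turn_two, turn_two, e1, hj 2 n20, hj 3 n30, Real.cos_add_int_mul_two_pi,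
          Real.sin_add_int_mul_two_pi, sub_self]
      by_cases h3 : j = 3
      · rw [h3, turn_three, turn_three, e1, hj 2 n20, hj 3 n30, Real.cos_add_int_mul_two_pi,
          Real.sin_add_int_mul_two_pi, sub_self]
      rw [turn_other _ _ h2 h3, turn_other _ _ h2 h3, hj j hj0, sub_self]
  constructor
  · intro h
    have h1 := key (-m) _ _ h
    push_cast at h1
    rwa [turn_neg_turn, turn_neg_turn] at h1
  · exact key m u v

theorem localDiffeo_framed (m : ℤ) (u : E (k + 4)) :
    IsLocalDiffeomorphAt (𝓡 (k + 4)) (𝓡 (k + 4)) ∞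
      (fun v : E (k + 4) => evenTube (turn m v)) u :=
  (localDiffeo_turn (m : ℝ) u).comp _ _ (localDiffeo_evenTube (turn m u))

theorem tubes_framedTubes [T2Space N] (m : Bool → ℤ) {φ : Bool → E (k + 4) → N}
    (h : TwoDiscs (k + 4) φ) : Tubes (k + 4) (discDirs k) (turns k) (framedTubes m φ) := by
  have hlt : ∀ (j : Bool) {u : E (k + 4)}, rad (discDirs k) u < 2 →
      ‖evenTube (turn (m j) u)‖ < 2 := by
    intro j u hu
    exact (norm_evenTube_lt (by rw [rad_turn]; exact hu)).trans (by norm_num)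
  have hloc : ∀ (a : Unit) (j : Bool) u, rad (discDirs k) u < 2 →
      LocDiffeoAt (k + 4) (framedTubes m φ a j) u := by
    intro a j u hu
    have h1 : IsLocalDiffeomorphAt (𝓡 (k + 4)) (𝓡 (k + 4)) ∞ (φ j) (evenTube (turn (m j) u)) :=
      h.loc j _ (hlt j hu)
    exact (localDiffeo_framed (m j) u).comp _ _ h1
  have hinj : ∀ (a : Unit) (j : Bool) (b : Unit) (l : Bool) (u v : E (k + 4)),
      rad (discDirs k) u < 2 → rad (discDirs k) v < 2 →
      (framedTubes m φ a j u = framedTubes m φ b l v ↔ a = b ∧ j = l ∧ v - u ∈ turns k) := by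
    intro a j b l u v hu hv
    change φ j (evenTube (turn (m j) u)) = φ l (evenTube (turn (m l) v)) ↔ _
    constructor
    · intro hh
      obtain ⟨h1, h2⟩ := h.inj _ _ _ _ (hlt j hu) (hlt l hv) hh
      subst h1
      exact ⟨rfl, rfl, (turn_int_add (m j)).1 (evenTube_eq_iff.1 h2)⟩
    · rintro ⟨-, rfl, hh⟩
      rw [evenTube_eq_iff.2 ((turn_int_add (m j)).2 hh)]
  refine ⟨hloc, hinj, fun w hw => normalPart_turns hw, fun a j r hr => ?_⟩
  rw [image_period (f := framedTubes m φ a j) (r := r)]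
  · refine ((isCompact_period k r).image_of_continuousOn fun u hu => ?_).isClosed
    have h1 : rad (discDirs k) u ≤ r := hu.1
    have h2 : IsLocalDiffeomorphAt (𝓡 (k + 4)) (𝓡 (k + 4)) ∞ (framedTubes m φ a j) u :=
      hloc a j u (by linarith)
    exact h2.contMDiffAt.continuousAt.continuousWithinAt
  · intro u w hw hu
    have h2 : rad (discDirs k) (u + w) < 2 := by
      rw [rad_add_period _ (normalPart_turns hw)]
      linarith
    refine ((hinj a j a j u (u + w) (by linarith) h2).2 ⟨rfl, rfl, ?_⟩).symm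
    rw [add_sub_cancel_left]
    exact hw

theorem hasOrthogonalMetric_framed [T2Space N] [IsManifold (𝓡 (k + 4)) ∞ N]
    [IsManifold (𝓡 (k + 4)) ∞ M] (m : Bool → ℤ) {φ : Bool → E (k + 4) → N}
    (h : TwoDiscs (k + 4) φ) {i : N → M}
    (H : IsTubeSum (k + 4) (discDirs k) (framedTubes m φ) i)
    (hN : HasOrthogonalMetric (k + 4) N) : HasOrthogonalMetric (k + 4) M := by
  obtain ⟨b, hb⟩ := hN.diagAt
  have hdisc := isDisc_of_twoDiscs h
  obtain ⟨b₁, hb₁D, hb₁out, hb₁c⟩ := (hdisc false).flat hb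
  obtain ⟨b₂, hb₂D, hb₂out, hb₂c⟩ := (hdisc true).flat hb₁D
  have hdisj : ∀ u, ‖u‖ < 2 → φ false u ∉ Core (φ true) (9 / 5) := by
    rintro u hu ⟨v, hv, hvu⟩
    rw [mem_closedBall_zero_iff] at hv
    have h1 := (h.inj true false v u (by linarith) hu hvu).1
    simp at h1
  have hflat : ∀ j u, ‖u‖ < 6 / 5 → ∀ a c : E (k + 4),
      b₂ (φ j u) (dm (φ j) u a) (dm (φ j) u c) = inner ℝ a c := by
    intro j u hu a c
    cases j
    · rw [hb₂out _ (hdisj u (by linarith))]
      exact hb₁c u hu a c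
    · exact hb₂c u hu a c
  refine H.hasOrthogonalMetric_of_turned (tubes_framedTubes m h) (β := b₂) hb₂D
    (fun _ j => -(m j : ℝ)) (w := fun _ _ => evenW) (fun _ _ p => (contDiff_evenW p).contDiffOn)
    (fun _ _ u p _ => evenW_pos u p) ?_
  intro a j u hu x y
  have hfun : (fun v : E (k + 4) => framedTubes m φ a j (turn (-(m j : ℝ)) v)) =
      φ j ∘ evenTube := by
    funext v
    change φ j (evenTube (turn (m j) (turn (-(m j : ℝ)) v))) = φ j (evenTube v)
    rw [turn_turn_neg]
  have hpt : framedTubes m φ a j (turn (-(m j : ℝ)) u) = φ j (evenTube u) := congrFun hfun u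
  have hn := norm_evenTube_lt hu
  have hφ := (hdisc j).loc (evenTube u) (by linarith)
  rw [hfun, hpt, dm_comp (f := evenTube) (h := φ j) hφ (localDiffeo_evenTube u) x,
    dm_comp (f := evenTube) (h := φ j) hφ (localDiffeo_evenTube u) y,
    hflat j (evenTube u) hn, dm_eq_fderiv, inner_fderiv_evenTube]

end Pool.Agent.OrthCoord
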