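import Pool.Agent.OrthCoord.Pullback

set_option autoImplicit false
open Bundle Set ContinuousLinearMap
open scoped Manifold ContDiff Topology

namespace Pool.Agent.OrthCoord

variable {n : ℕ} {M : Type} [TopologicalSpace M] [ChartedSpace (E n) M]
  [IsManifold (𝓡 n) ∞ M]

/-- The coordinate vector fields of a smooth parametrisation are smooth. -/
theorem contMDiffAt_coord_field {ψ : E n → M} {z₀ : E n}
    (hψ : ContMDiffAt (𝓡 n) (𝓡 n) ∞ ψ z₀) (e : E n) :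
    ContMDiffAt (𝓡 n) ((𝓡 n).prod 𝓘(ℝ, E n)) ∞
      (fun z => TotalSpace.mk' (E n) (E := (TangentSpace (𝓡 n) : M → Type)) (ψ z)
        (mfderiv (𝓡 n) (𝓡 n) ψ z e)) z₀ := by
  have h1 := hψ.mfderiv_const (m := ∞) (by simp)
  have hv : ContMDiffAt (𝓡 n) ((𝓡 n).prod 𝓘(ℝ, E n)) ∞
      (fun z : E n => TotalSpace.mk' (E n) (E := (TangentSpace (𝓡 n) : E n → Type)) z e) z₀ := by
    rw [← contMDiffWithinAt_univ]
    exact contMDiffWithinAt_vectorSpace_iff_contDiffWithinAt.2 contDiffWithinAt_const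
  exact ContMDiffAt.clm_apply_of_inCoordinates (ϕ := fun z => mfderiv (𝓡 n) (𝓡 n) ψ z)
    (b₁ := id) (b₂ := ψ) (v := fun z => e) h1 hv hψ

/-- The coefficients of a smooth metric in smooth coordinates are smooth. -/
theorem contDiffOn_coef (g : RMetric n M) {ψ : E n → M} {W : Set (E n)} (hW : IsOpen W)
    (hψ : SmoothOn n ψ W) (i j : Fin n) : ContDiffOn ℝ ∞ (fun z => coef g ψ z i j) W := by
  intro z₀ hz₀
  have hψz : ContMDiffAt (𝓡 n) (𝓡 n) ∞ ψ z₀ := (hψ z₀ hz₀).contMDiffAt (hW.mem_nhds hz₀)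
  have hg : ContMDiffAt (𝓡 n) ((𝓡 n).prod 𝓘(ℝ, E n →L[ℝ] E n →L[ℝ] ℝ)) ∞
      (fun z => TotalSpace.mk' (E n →L[ℝ] E n →L[ℝ] ℝ)
        (E := fun y : M => TangentSpace (𝓡 n) y →L[ℝ] TangentSpace (𝓡 n) y →L[ℝ] ℝ) (ψ z)
        (g.inner (ψ z))) z₀ :=
    (g.contMDiff.contMDiffAt (x := ψ z₀)).comp z₀ hψz
  have : ContMDiffAt (𝓡 n) ((𝓡 n).prod 𝓘(ℝ, ℝ)) ∞
      (fun z => TotalSpace.mk' ℝ (E := Bundle.Trivial M ℝ) (ψ z)
        (g.inner (ψ z) (mfderiv (𝓡 n) (𝓡 n) ψ z (basisVec i))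
          (mfderiv (𝓡 n) (𝓡 n) ψ z (basisVec j)))) z₀ :=
    ContMDiffAt.clm_bundle_apply₂ (F₁ := E n) (F₂ := E n) hg
      (contMDiffAt_coord_field hψz _) (contMDiffAt_coord_field hψz _)
  rw [contMDiffAt_totalSpace] at this
  exact (contMDiffAt_iff_contDiffAt.1 this.2).contDiffWithinAt

end Pool.Agent.OrthCoord
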