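import Pool.Agent.OrthCoord.Immersion

set_option autoImplicit false
open Bundle Set ContinuousLinearMap
open scoped Manifold ContDiff Topology ComplexConjugate

namespace Pool.Agent.OrthCoord

/-- The squared fibre norm `|l|² (1 + |w|²)`. -/
noncomputable def fibreNorm (y : E 4) : ℝ := ‖Lc y‖ ^ 2 * (1 + ‖Wc y‖ ^ 2)

/-- The contraction of the line bundle onto the disc bundle of radius `δ`. -/
noncomputable def contract (δ : ℝ) (y : E 4) : E 4 :=
  mkC (Wc y, ((δ / √(1 + fibreNorm y) : ℝ) : ℂ) * Lc y)

/-- The inverse of the contraction. -/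
noncomputable def expand (δ : ℝ) (y : E 4) : E 4 :=
  mkC (Wc y, ((1 / √(δ ^ 2 - fibreNorm y) : ℝ) : ℂ) * Lc y)

theorem fibreNorm_nonneg (y : E 4) : 0 ≤ fibreNorm y := by
  unfold fibreNorm; positivity

theorem contDiff_fibreNorm : ContDiff ℝ ∞ fibreNorm := by
  have h1 : ContDiff ℝ ∞ (fun y : E 4 => ‖Wc y‖ ^ 2) := Wc.contDiff.norm_sq ℝ
  have h2 : ContDiff ℝ ∞ (fun y : E 4 => ‖Lc y‖ ^ 2) := Lc.contDiff.norm_sq ℝ
  exact h2.mul (contDiff_const.add h1)

@[simp] theorem Wc_contract (δ : ℝ) (y : E 4) : Wc (contract δ y) = Wc y := by simp [contract]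

@[simp] theorem Lc_contract (δ : ℝ) (y : E 4) :
    Lc (contract δ y) = ((δ / √(1 + fibreNorm y) : ℝ) : ℂ) * Lc y := by simp [contract]

theorem contDiff_contract (δ : ℝ) : ContDiff ℝ ∞ (contract δ) := by
  refine mkC.contDiff.comp (Wc.contDiff.prodMk (ContDiff.mul ?_ Lc.contDiff))
  refine Complex.ofRealCLM.contDiff.comp ?_
  refine contDiff_const.div ?_ ?_
  · refine (contDiff_const.add contDiff_fibreNorm).sqrt fun y => ?_
    have := fibreNorm_nonneg y
    positivity
  · intro y
    have := fibreNorm_nonneg y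
    positivity

theorem fibreNorm_contract {δ : ℝ} (y : E 4) :
    fibreNorm (contract δ y) = δ ^ 2 * (fibreNorm y / (1 + fibreNorm y)) := by
  have h0 := fibreNorm_nonneg y
  have h1 : fibreNorm (contract δ y) = (δ / √(1 + fibreNorm y)) ^ 2 * fibreNorm y := by
    unfold fibreNorm
    rw [Wc_contract, Lc_contract, norm_mul, Complex.norm_real, mul_pow, Real.norm_eq_abs, sq_abs]
    unfold fibreNorm
    ring
  rw [h1, div_pow, Real.sq_sqrt (by positivity)]
  ring

theorem fibreNorm_contract_lt {δ : ℝ} (hδ : 0 < δ) (y : E 4) :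
    fibreNorm (contract δ y) < δ ^ 2 := by
  rw [fibreNorm_contract]
  have h0 := fibreNorm_nonneg y
  have h1 : fibreNorm y / (1 + fibreNorm y) < 1 := by
    rw [div_lt_one (by positivity)]
    linarith
  have h2 : 0 < δ ^ 2 := by positivity
  nlinarith

theorem norm_Lc_contract_lt {δ : ℝ} (hδ : 0 < δ) (y : E 4) : ‖Lc (contract δ y)‖ < δ := by
  have h1 := fibreNorm_contract_lt hδ y
  have h2 : ‖Lc (contract δ y)‖ ^ 2 ≤ fibreNorm (contract δ y) := by
    unfold fibreNorm
    nlinarith [sq_nonneg ‖Lc (contract δ y)‖, sq_nonneg ‖Wc (contract δ y)‖,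
      mul_nonneg (sq_nonneg ‖Lc (contract δ y)‖) (sq_nonneg ‖Wc (contract δ y)‖)]
  exact lt_of_pow_lt_pow_left₀ 2 hδ.le (h2.trans_lt h1)

theorem contract_isLocalDiffeomorph {δ : ℝ} (hδ : 0 < δ) :
    IsLocalDiffeomorph (𝓡 4) (𝓡 4) ∞ (contract δ) := by
  have hopen : IsOpen {y : E 4 | fibreNorm y < δ ^ 2} :=
    isOpen_lt contDiff_fibreNorm.continuous continuous_const
  intro x
  refine ⟨{ toFun := contract δ
            invFun := expand δ
            source := univ
            target := {y | fibreNorm y < δ ^ 2}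
            map_source' := fun y _ => fibreNorm_contract_lt hδ y
            map_target' := fun y _ => mem_univ _
            left_inv' := ?_
            right_inv' := ?_
            open_source := isOpen_univ
            open_target := hopen
            contMDiffOn_toFun := (contDiff_contract δ).contMDiff.contMDiffOn
            contMDiffOn_invFun := ?_ }, mem_univ _, fun _ _ => rfl⟩
  · intro y _
    have h0 := fibreNorm_nonneg y
    apply ext_WL
    · simp [expand]
    · simp only [expand, Lc_mkC]
      rw [fibreNorm_contract]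
      have h1 : δ ^ 2 - δ ^ 2 * (fibreNorm y / (1 + fibreNorm y)) = δ ^ 2 / (1 + fibreNorm y) := by
        field_simp
        ring
      rw [h1, Real.sqrt_div (by positivity), Real.sqrt_sq hδ.le, Lc_contract, ← mul_assoc,
        ← Complex.ofReal_mul]
      have h2 : 1 / (δ / √(1 + fibreNorm y)) * (δ / √(1 + fibreNorm y)) = 1 := by
        have : 0 < √(1 + fibreNorm y) := Real.sqrt_pos.2 (by positivity)
        field_simp
      rw [h2]
      simp
  · intro y hy
    have hy' : fibreNorm y < δ ^ 2 := hy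
    have h0 := fibreNorm_nonneg y
    have hD : 0 < δ ^ 2 - fibreNorm y := by linarith
    have h3 : fibreNorm (expand δ y) = fibreNorm y / (δ ^ 2 - fibreNorm y) := by
      have h1 : fibreNorm (expand δ y) = (1 / √(δ ^ 2 - fibreNorm y)) ^ 2 * fibreNorm y := by
        unfold expand
        unfold fibreNorm
        rw [Wc_mkC, Lc_mkC, norm_mul, Complex.norm_real, mul_pow, Real.norm_eq_abs, sq_abs]
        ring
      rw [h1, div_pow, Real.sq_sqrt hD.le]
      ring
    apply ext_WL
    · simp [contract, expand]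
    · simp only [contract, Lc_mkC]
      rw [h3]
      have h1 : 1 + fibreNorm y / (δ ^ 2 - fibreNorm y) = δ ^ 2 / (δ ^ 2 - fibreNorm y) := by
        field_simp
        ring
      rw [h1, Real.sqrt_div (by positivity), Real.sqrt_sq hδ.le]
      simp only [expand, Lc_mkC]
      rw [← mul_assoc, ← Complex.ofReal_mul]
      have h2 : δ / (δ / √(δ ^ 2 - fibreNorm y)) * (1 / √(δ ^ 2 - fibreNorm y)) = 1 := by
        have : 0 < √(δ ^ 2 - fibreNorm y) := Real.sqrt_pos.2 hD
        field_simp
      rw [h2]
      simp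
  · rw [contMDiffOn_iff_contDiffOn]
    refine mkC.contDiff.comp_contDiffOn (Wc.contDiff.contDiffOn.prodMk
      (ContDiffOn.mul ?_ Lc.contDiff.contDiffOn))
    refine Complex.ofRealCLM.contDiff.comp_contDiffOn ?_
    refine contDiffOn_const.div ?_ ?_
    · refine ContDiffOn.sqrt (contDiffOn_const.sub contDiff_fibreNorm.contDiffOn) fun y hy => ?_
      have hy' : fibreNorm y < δ ^ 2 := hy
      linarith
    · intro y hy
      have hy' : fibreNorm y < δ ^ 2 := hy
      have : 0 < √(δ ^ 2 - fibreNorm y) := Real.sqrt_pos.2 (by linarith)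
      exact this.ne'

end Pool.Agent.OrthCoord
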