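import Pool.Agent.OrthCoord.Pullback

set_option autoImplicit false
open Bundle Set ContinuousLinearMap
open scoped Manifold ContDiff Topology ComplexConjugate

namespace Pool.Agent.OrthCoord

/-- `zOne` as a continuous linear map. -/
noncomputable def Wc : E 4 →L[ℝ] ℂ :=
  (EuclideanSpace.proj 0 : E 4 →L[ℝ] ℝ).smulRight 1 +
    (EuclideanSpace.proj 1 : E 4 →L[ℝ] ℝ).smulRight Complex.I

/-- `zTwo` as a continuous linear map. -/
noncomputable def Lc : E 4 →L[ℝ] ℂ :=
  (EuclideanSpace.proj 2 : E 4 →L[ℝ] ℝ).smulRight 1 +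
    (EuclideanSpace.proj 3 : E 4 →L[ℝ] ℝ).smulRight Complex.I

theorem Wc_apply (y : E 4) : Wc y = ⟨y 0, y 1⟩ := by
  apply Complex.ext <;> simp [Wc]

theorem Lc_apply (y : E 4) : Lc y = ⟨y 2, y 3⟩ := by
  apply Complex.ext <;> simp [Lc]

/-- The point of `ℝ⁴` with given complex coordinates. -/
noncomputable def mkC : ℂ × ℂ →L[ℝ] E 4 :=
  ((Complex.reCLM.comp (ContinuousLinearMap.fst ℝ ℂ ℂ)).smulRight
      (EuclideanSpace.single (0 : Fin 4) (1 : ℝ)) : ℂ × ℂ →L[ℝ] E 4) +
  ((Complex.imCLM.comp (ContinuousLinearMap.fst ℝ ℂ ℂ)).smulRight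
      (EuclideanSpace.single (1 : Fin 4) (1 : ℝ))) +
  ((Complex.reCLM.comp (ContinuousLinearMap.snd ℝ ℂ ℂ)).smulRight
      (EuclideanSpace.single (2 : Fin 4) (1 : ℝ))) +
  ((Complex.imCLM.comp (ContinuousLinearMap.snd ℝ ℂ ℂ)).smulRight
      (EuclideanSpace.single (3 : Fin 4) (1 : ℝ)))

@[simp] theorem mkC_zero (p : ℂ × ℂ) : mkC p 0 = p.1.re := by simp [mkC]
@[simp] theorem mkC_one (p : ℂ × ℂ) : mkC p 1 = p.1.im := by simp [mkC]
@[simp] theorem mkC_two (p : ℂ × ℂ) : mkC p 2 = p.2.re := by simp [mkC]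
@[simp] theorem mkC_three (p : ℂ × ℂ) : mkC p 3 = p.2.im := by simp [mkC]

@[simp] theorem Wc_mkC (p : ℂ × ℂ) : Wc (mkC p) = p.1 := by
  rw [Wc_apply]; apply Complex.ext <;> simp

@[simp] theorem Lc_mkC (p : ℂ × ℂ) : Lc (mkC p) = p.2 := by
  rw [Lc_apply]; apply Complex.ext <;> simp

@[simp] theorem mkC_WL (y : E 4) : mkC (Wc y, Lc y) = y := by
  ext i
  fin_cases i
  · change mkC (Wc y, Lc y) 0 = y 0
    simp [Wc_apply]
  · change mkC (Wc y, Lc y) 1 = y 1
    simp [Wc_apply]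
  · change mkC (Wc y, Lc y) 2 = y 2
    simp [Lc_apply]
  · change mkC (Wc y, Lc y) 3 = y 3
    simp [Lc_apply]

theorem ext_WL {y z : E 4} (h1 : Wc y = Wc z) (h2 : Lc y = Lc z) : y = z := by
  rw [← mkC_WL y, ← mkC_WL z, h1, h2]

/-- The Euclidean product in complex coordinates. -/
theorem sum_mul (x y : E 4) :
    ∑ k, x k * y k = (Wc x * conj (Wc y)).re + (Lc x * conj (Lc y)).re := by
  rw [Fin.sum_univ_four, Wc_apply, Lc_apply, Wc_apply, Lc_apply]
  simp
  ring

theorem re_W_single {i j : Fin 4} (hij : i ≠ j) :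
    (Wc (EuclideanSpace.single i 1) * conj (Wc (EuclideanSpace.single j 1))).re = 0 := by
  rw [Wc_apply, Wc_apply]
  fin_cases i <;> fin_cases j <;> simp_all

theorem re_L_single {i j : Fin 4} (hij : i ≠ j) :
    (Lc (EuclideanSpace.single i 1) * conj (Lc (EuclideanSpace.single j 1))).re = 0 := by
  rw [Lc_apply, Lc_apply]
  fin_cases i <;> fin_cases j <;> simp_all

/-- Basis vectors stay orthogonal under a real linear map which is conformal on the first complex
coordinate and the identity on the second. -/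
theorem orth_forward {κ : ℂ} {i j : Fin 4} (hij : i ≠ j) {x y x' y' : E 4}
    (hx : x' = EuclideanSpace.single i 1) (hy : y' = EuclideanSpace.single j 1)
    (h1 : Wc x = κ * conj (Wc x')) (h2 : Wc y = κ * conj (Wc y'))
    (h3 : Lc x = Lc x') (h4 : Lc y = Lc y') : ∑ k, x k * y k = 0 := by
  rw [sum_mul, h1, h2, h3, h4, hx, hy, re_L_single hij, add_zero]
  have h5 := re_W_single hij
  have h6 : κ * conj (Wc (EuclideanSpace.single i 1)) *
      conj (κ * conj (Wc (EuclideanSpace.single j 1))) =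
      ((Complex.normSq κ : ℝ) : ℂ) *
        conj (Wc (EuclideanSpace.single i 1) * conj (Wc (EuclideanSpace.single j 1))) := by
    rw [Complex.normSq_eq_conj_mul_self]
    simp only [map_mul, Complex.conj_conj]
    ring
  rw [h6, Complex.re_ofReal_mul, Complex.conj_re, h5, mul_zero]

theorem orth_backward {κ : ℂ} (hκ : κ ≠ 0) {i j : Fin 4} (hij : i ≠ j) {x y x' y' : E 4}
    (hx : x = EuclideanSpace.single i 1) (hy : y = EuclideanSpace.single j 1)
    (h1 : Wc x = κ * conj (Wc x')) (h2 : Wc y = κ * conj (Wc y'))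
    (h3 : Lc x = Lc x') (h4 : Lc y = Lc y') : ∑ k, x' k * y' k = 0 := by
  have h1' : Wc x' = conj (κ⁻¹) * conj (Wc x) := by
    rw [h1]
    simp only [map_mul, Complex.conj_conj, map_inv₀]
    have : conj κ ≠ 0 := by simpa using hκ
    field_simp
  have h2' : Wc y' = conj (κ⁻¹) * conj (Wc y) := by
    rw [h2]
    simp only [map_mul, Complex.conj_conj, map_inv₀]
    have : conj κ ≠ 0 := by simpa using hκ
    field_simp
  exact orth_forward hij hx hy h1' h2' h3.symm h4.symm

end Pool.Agent.OrthCoord
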