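import Mathlib

set_option autoImplicit false
open Bundle Set ContinuousLinearMap
open scoped Manifold ContDiff Topology

namespace Pool.Agent.OrthCoord

/-- Euclidean space `ℝⁿ`. -/
abbrev E (n : ℕ) := EuclideanSpace ℝ (Fin n)

/-- The standard basis vector `e_i` of `ℝⁿ`. -/
noncomputable abbrev basisVec {n : ℕ} (i : Fin n) : E n := EuclideanSpace.single i (1 : ℝ)

/-- Smooth Riemannian metrics on the `n`-manifold `M`. -/
abbrev RMetric (n : ℕ) (M : Type) [TopologicalSpace M] [ChartedSpace (E n) M]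
    [IsManifold (𝓡 n) ∞ M] : Type :=
  ContMDiffRiemannianMetric (𝓡 n) ∞ (E n) (TangentSpace (𝓡 n) : M → Type)

/-- The scalar product of the metric `g` on `T_x M = ℝⁿ`. -/
noncomputable abbrev form {n : ℕ} {M : Type} [TopologicalSpace M] [ChartedSpace (E n) M]
    [IsManifold (𝓡 n) ∞ M] (g : RMetric n M) (x : M) : E n →L[ℝ] E n →L[ℝ] ℝ := g.inner x

/-- The differential of `p : ℝⁿ → M` at `y`, as a map `ℝⁿ → ℝⁿ = T_{p y} M`. -/
noncomputable abbrev dp {n : ℕ} {M : Type} [TopologicalSpace M] [ChartedSpace (E n) M]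
    (p : E n → M) (y : E n) : E n →L[ℝ] E n :=
  mfderiv (𝓡 n) (𝓡 n) p y

/-- Smoothness on `U` of a map between two `n`-manifolds. -/
abbrev SmoothOn (n : ℕ) {M N : Type} [TopologicalSpace M] [ChartedSpace (E n) M]
    [TopologicalSpace N] [ChartedSpace (E n) N] (f : M → N) (U : Set M) : Prop :=
  ContMDiffOn (𝓡 n) (𝓡 n) ∞ f U

/-- Smooth local diffeomorphisms between two `n`-manifolds. -/
abbrev LocDiffeo (n : ℕ) {M N : Type} [TopologicalSpace M] [ChartedSpace (E n) M]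
    [TopologicalSpace N] [ChartedSpace (E n) N] (f : M → N) : Prop :=
  IsLocalDiffeomorph (𝓡 n) (𝓡 n) ∞ f

/-- The value `b (u, v)` of the bilinear form `b`. -/
noncomputable abbrev bval {n : ℕ} (b : E n →L[ℝ] E n →L[ℝ] ℝ) (u v : E n) : ℝ := b u v

/-- The product of the coordinate vector fields `∂_i` and `∂_j` at `ψ z`. -/
noncomputable abbrev coef {n : ℕ} {M : Type} [TopologicalSpace M] [ChartedSpace (E n) M]
    [IsManifold (𝓡 n) ∞ M] (g : RMetric n M) (ψ : E n → M) (z : E n) (i j : Fin n) : ℝ :=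
  bval (form g (ψ z)) (dp ψ z (basisVec i)) (dp ψ z (basisVec j))

/-- `M` carries a smooth Riemannian metric that admits orthogonal coordinates around every point
(the conclusion of the frozen statement `S13135`, see `hasOrthogonalMetric_iff`). -/
def HasOrthogonalMetric (n : ℕ) (M : Type) [TopologicalSpace M] [ChartedSpace (E n) M]
    [IsManifold (𝓡 n) ∞ M] : Prop :=
  ∃ g : RMetric n M, ∀ x : M, ∃ (U : Set M) (φ : M → E n) (ψ : E n → M),
      IsOpen U ∧ x ∈ U ∧ IsOpen (φ '' U) ∧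
      (∀ y ∈ U, ψ (φ y) = y) ∧ (∀ z ∈ φ '' U, φ (ψ z) = z) ∧
      SmoothOn n φ U ∧ SmoothOn n ψ (φ '' U) ∧
      ∀ z ∈ φ '' U, ∀ i j : Fin n, i ≠ j → coef g ψ z i j = 0

/-- Check: `HasOrthogonalMetric` is, by unfolding, word for word the conclusion of `S13135`. -/
theorem hasOrthogonalMetric_iff (n : ℕ) (M : Type) [TopologicalSpace M] [ChartedSpace (E n) M]
    [IsManifold (𝓡 n) ∞ M] : HasOrthogonalMetric n M ↔
  ∃ g : ContMDiffRiemannianMetric (𝓡 n) ((⊤ : ℕ∞) : WithTop ℕ∞)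
      (EuclideanSpace ℝ (Fin n)) (TangentSpace (𝓡 n) : M → Type),
    ∀ x : M, ∃ (U : Set M) (φ : M → EuclideanSpace ℝ (Fin n))
        (ψ : EuclideanSpace ℝ (Fin n) → M),
      IsOpen U ∧ x ∈ U ∧ IsOpen (φ '' U) ∧
      (∀ y ∈ U, ψ (φ y) = y) ∧ (∀ z ∈ φ '' U, φ (ψ z) = z) ∧
      ContMDiffOn (𝓡 n) (𝓡 n) ((⊤ : ℕ∞) : WithTop ℕ∞) φ U ∧
      ContMDiffOn (𝓡 n) (𝓡 n) ((⊤ : ℕ∞) : WithTop ℕ∞) ψ (φ '' U) ∧
      ∀ z ∈ φ '' U, ∀ i j : Fin n, i ≠ j →
        g.inner (ψ z)
          (mfderiv (𝓡 n) (𝓡 n) ψ z (EuclideanSpace.single i (1 : ℝ)))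
          (mfderiv (𝓡 n) (𝓡 n) ψ z (EuclideanSpace.single j (1 : ℝ))) = 0 := Iff.rfl

/-- First complex coordinate of a point of `ℝ⁴ = ℂ²`. -/
def zOne (y : E 4) : ℂ := ⟨y 0, y 1⟩

/-- Second complex coordinate of a point of `ℝ⁴ = ℂ²`. -/
def zTwo (y : E 4) : ℂ := ⟨y 2, y 3⟩

/-- The maps `a, b : ℂ² → X` exhibit the 4-manifold `X` as the blow-up of `ℂ²` at the origin, that
is, as the total space of the tautological line bundle over the projective line (the projective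
plane minus a point): both are injective local diffeomorphisms, their images cover `X`, and
`a (w, l) = b (w', l')` exactly when `w w' = 1` and `l' = l w`. -/
structure IsBlowUp (X : Type) [TopologicalSpace X] [ChartedSpace (E 4) X] (a b : E 4 → X) :
    Prop where
  locA : LocDiffeo 4 a
  locB : LocDiffeo 4 b
  injA : Function.Injective a
  injB : Function.Injective b
  cover : ∀ x : X, (∃ y, a y = x) ∨ ∃ y, b y = x
  glue : ∀ y z : E 4, a y = b z ↔ zOne y * zOne z = 1 ∧ zTwo z = zTwo y * zOne y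

end Pool.Agent.OrthCoord
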