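import Pool.Agent.OrthCoord.DiagAt

set_option autoImplicit false
open Bundle Set ContinuousLinearMap
open scoped Manifold ContDiff Topology

namespace Pool.Agent.OrthCoord

variable {n : ℕ} {M N : Type} [TopologicalSpace M] [ChartedSpace (E n) M]
  [TopologicalSpace N] [ChartedSpace (E n) N]

/-- The differential of a map between `n`-manifolds, as a map `ℝⁿ → ℝⁿ`. -/
noncomputable def dm (f : N → M) (y : N) : E n →L[ℝ] E n := mfderiv (𝓡 n) (𝓡 n) f y

theorem dm_congr {f f' : N → M} {y : N} (h : f =ᶠ[𝓝 y] f') :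
    dm (n := n) f y = dm (n := n) f' y :=
  Filter.EventuallyEq.mfderiv_eq h

theorem dm_comp {P : Type} [TopologicalSpace P] [ChartedSpace (E n) P] {f : N → M} {h : M → P}
    {y : N} (hh : IsLocalDiffeomorphAt (𝓡 n) (𝓡 n) ∞ h (f y))
    (hf : IsLocalDiffeomorphAt (𝓡 n) (𝓡 n) ∞ f y) (u : E n) :
    dm (h ∘ f) y u = dm h (f y) (dm f y u) := by
  have h1 := mfderiv_comp y (hh.mdifferentiableAt (by simp)) (hf.mdifferentiableAt (by simp))
  exact DFunLike.congr_fun h1 u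

theorem dm_injective {f : N → M} {y : N} (hf : IsLocalDiffeomorphAt (𝓡 n) (𝓡 n) ∞ f y) :
    Function.Injective (dm (n := n) f y) := mfderiv_injective hf

/-- The pull-back of a field of forms. -/
noncomputable def pull (f : N → M) (b : M → E n →L[ℝ] E n →L[ℝ] ℝ) (y : N) :
    E n →L[ℝ] E n →L[ℝ] ℝ := (b (f y)).bilinearComp (dm f y) (dm f y)

theorem pull_apply (f : N → M) (b : M → E n →L[ℝ] E n →L[ℝ] ℝ) (y : N) (u v : E n) :
    pull f b y u v = b (f y) (dm f y u) (dm f y v) := rfl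

theorem isLocalDiffeomorphAt_nhds {f : N → M} {y : N}
    (hf : IsLocalDiffeomorphAt (𝓡 n) (𝓡 n) ∞ f y) :
    ∃ O : Set N, IsOpen O ∧ y ∈ O ∧ ContinuousOn f O ∧
      ∀ z ∈ O, IsLocalDiffeomorphAt (𝓡 n) (𝓡 n) ∞ f z := by
  obtain ⟨Θ, hΘ, hEq⟩ := hf
  exact ⟨Θ.source, Θ.open_source, hΘ, (Θ.contMDiffOn_toFun.congr hEq).continuousOn,
    fun z hz => ⟨Θ, hz, hEq⟩⟩

theorem DiagAt.pull {b : M → E n →L[ℝ] E n →L[ℝ] ℝ} {f : N → M} {y : N}
    (hf : IsLocalDiffeomorphAt (𝓡 n) (𝓡 n) ∞ f y) (hb : DiagAt b (f y)) :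
    DiagAt (pull f b) y := by
  obtain ⟨O, q, w, hO, hyO, hq, hw, hp, hb⟩ := hb
  obtain ⟨O₁, hO₁, hy₁, hc, hl⟩ := isLocalDiffeomorphAt_nhds hf
  refine ⟨O₁ ∩ f ⁻¹' O, q ∘ f, fun z => w (f z), hc.isOpen_inter_preimage hO₁ hO, ⟨hy₁, hyO⟩,
    fun z hz => ?_, fun k => ?_, fun z hz k => hp _ hz.2 k, fun z hz => ?_⟩
  · have h1 : IsLocalDiffeomorphAt (𝓡 n) (𝓡 n) ∞ f z := hl z hz.1
    exact h1.comp _ _ (hq _ hz.2)
  · refine (hw k).comp (fun z hz => (hl z hz.1).contMDiffAt.contMDiffWithinAt) fun z hz => hz.2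
  · ext u v
    rw [pull_apply, hb _ hz.2, dform_apply, dform_apply]
    have h1 : ∀ u : E n, dq (q ∘ f) z u = dq q (f z) (dm f z u) := fun u =>
      dm_comp (hq _ hz.2) (hl z hz.1) u
    simp only [h1]

/-- Descent: a field of forms on `V ⊆ N` that is invariant under the identifications made by the
local diffeomorphism `i : V → M` descends to `M`. -/
theorem hasOrthogonalMetric_of_descend [IsManifold (𝓡 n) ∞ M] {V : Set N} (hV : IsOpen V)
    {i : N → M} (hi : ∀ y ∈ V, IsLocalDiffeomorphAt (𝓡 n) (𝓡 n) ∞ i y)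
    (hs : ∀ x : M, ∃ y ∈ V, i y = x) {b : N → E n →L[ℝ] E n →L[ℝ] ℝ}
    (hb : ∀ y ∈ V, DiagAt b y)
    (hinv : ∀ y ∈ V, ∀ z ∈ V, i y = i z → ∀ u v u' v' : E n, dm i y u = dm i z u' →
      dm i y v = dm i z v' → b y u v = b z u' v') :
    HasOrthogonalMetric n M := by
  choose s hsV hsi using hs
  have hinvL : ∀ x : M, ∃ L : E n →L[ℝ] E n, ∀ u, dm i (s x) (L u) = u := by
    intro x
    let e := (hi _ (hsV x)).mfderivToContinuousLinearEquiv (by simp)
    refine ⟨(e.symm : TangentSpace (𝓡 n) (i (s x)) →L[ℝ] TangentSpace (𝓡 n) (s x)), fun u => ?_⟩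
    exact e.apply_symm_apply u
  choose L hL using hinvL
  refine hasOrthogonalMetric_of_diagAt (b := fun x => (b (s x)).bilinearComp (L x) (L x)) ?_
  intro x₀
  obtain ⟨Φ, hΦ, hEq⟩ := hi _ (hsV x₀)
  have hx₀ : x₀ ∈ Φ.target := by
    have h1 := Φ.map_source hΦ
    rw [← hsi x₀, hEq hΦ]
    exact h1
  have hinv₀ : Φ.invFun x₀ = s x₀ := by
    have h1 : Φ.invFun (Φ.toFun (s x₀)) = s x₀ := Φ.left_inv hΦ
    have h2 : i (s x₀) = Φ.toFun (s x₀) := hEq hΦ
    rw [← h2, hsi] at h1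
    exact h1
  have hj : ∀ x ∈ Φ.target, IsLocalDiffeomorphAt (𝓡 n) (𝓡 n) ∞ Φ.invFun x := fun x hx =>
    ⟨Φ.symm, hx, fun _ _ => rfl⟩
  have h1 : DiagAt (Pool.Agent.OrthCoord.pull Φ.invFun b) x₀ := by
    refine DiagAt.pull (hj x₀ hx₀) ?_
    rw [hinv₀]
    exact hb _ (hsV x₀)
  have hO' : IsOpen (Φ.target ∩ Φ.invFun ⁻¹' V) :=
    Φ.contMDiffOn_invFun.continuousOn.isOpen_inter_preimage Φ.open_target hV
  refine h1.congr hO' ⟨hx₀, ?_⟩ ?_
  · change Φ.invFun x₀ ∈ V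
    rw [hinv₀]
    exact hsV x₀
  · intro x hx
    ext u v
    rw [pull_apply]
    change b (s x) (L x u) (L x v) = _
    have hix : ∀ y ∈ Φ.target, i (Φ.invFun y) = y := by
      intro y hy
      exact (hEq (Φ.map_target hy)).trans (Φ.right_inv hy)
    have hd : ∀ u : E n, dm i (Φ.invFun x) (dm Φ.invFun x u) = u := by
      intro u
      rw [← dm_comp (hi _ hx.2) (hj x hx.1)]
      have hc : dm (i ∘ Φ.invFun) x = ContinuousLinearMap.id ℝ (E n) := by
        have h3 : dm (id : M → M) x = ContinuousLinearMap.id ℝ (E n) := mfderiv_id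
        rw [← h3]
        apply dm_congr
        filter_upwards [Φ.open_target.mem_nhds hx.1] with y hy
        exact hix y hy
      rw [hc]
      rfl
    refine hinv _ (hsV x) _ hx.2 ?_ _ _ _ _ ?_ ?_
    · rw [hsi, hix x hx.1]
    · rw [hL, hd]
    · rw [hL, hd]

end Pool.Agent.OrthCoord
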