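import Pool.Agent.OrthCoord.CoefSmooth

set_option autoImplicit false
open Bundle Set ContinuousLinearMap
open scoped Manifold ContDiff Topology

namespace Pool.Agent.OrthCoord

variable {n : ℕ} {M : Type} [TopologicalSpace M] [ChartedSpace (E n) M]

/-- The field of forms `b` is near `x` a smooth metric with orthogonal coordinates `q`:
`b = ∑ k, w_k (d q_k)²`. -/
def DiagAt (b : M → E n →L[ℝ] E n →L[ℝ] ℝ) (x : M) : Prop :=
  ∃ (O : Set M) (q : M → E n) (w : M → Fin n → ℝ), IsOpen O ∧ x ∈ O ∧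
    (∀ y ∈ O, IsLocalDiffeomorphAt (𝓡 n) (𝓡 n) ∞ q y) ∧
    (∀ k, ContMDiffOn (𝓡 n) 𝓘(ℝ, ℝ) ∞ (fun y => w y k) O) ∧
    (∀ y ∈ O, ∀ k, 0 < w y k) ∧ ∀ y ∈ O, b y = dform (w y) (dq q y)

theorem DiagAt.congr {b b' : M → E n →L[ℝ] E n →L[ℝ] ℝ} {x : M} (h : DiagAt b x)
    {O' : Set M} (hO' : IsOpen O') (hx : x ∈ O') (he : ∀ y ∈ O', b' y = b y) : DiagAt b' x := by
  obtain ⟨O, q, w, hO, hxO, hq, hw, hp, hb⟩ := h
  refine ⟨O ∩ O', q, w, hO.inter hO', ⟨hxO, hx⟩, fun y hy => hq y hy.1,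
    fun k => (hw k).mono inter_subset_left, fun y hy => hp y hy.1, fun y hy => ?_⟩
  rw [he y hy.2, hb y hy.1]

/-- The differential of a local diffeomorphism is injective. -/
theorem mfderiv_injective {N : Type} [TopologicalSpace N] [ChartedSpace (E n) N] {f : N → M}
    {y : N} (hf : IsLocalDiffeomorphAt (𝓡 n) (𝓡 n) ∞ f y) :
    Function.Injective (mfderiv (𝓡 n) (𝓡 n) f y) :=
  (hf.mfderivToContinuousLinearEquiv (by simp)).injective

theorem mfderiv_surjective {N : Type} [TopologicalSpace N] [ChartedSpace (E n) N] {f : N → M}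
    {y : N} (hf : IsLocalDiffeomorphAt (𝓡 n) (𝓡 n) ∞ f y) :
    Function.Surjective (mfderiv (𝓡 n) (𝓡 n) f y) :=
  (hf.mfderivToContinuousLinearEquiv (by simp)).surjective

theorem dform_symm (w : Fin n → ℝ) (C : E n →L[ℝ] E n) (u v : E n) :
    dform w C u v = dform w C v u := by
  rw [dform_apply, dform_apply]
  exact Finset.sum_congr rfl fun k _ => by ring

theorem dform_pos {w : Fin n → ℝ} (hw : ∀ k, 0 < w k) {C : E n →L[ℝ] E n}
    (hC : Function.Injective C) {v : E n} (hv : v ≠ 0) : 0 < dform w C v v := by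
  rw [dform_apply]
  have hne : C v ≠ 0 := by
    intro h0
    exact hv (hC (h0.trans (map_zero C).symm))
  obtain ⟨k, hk⟩ : ∃ k, C v k ≠ 0 := by
    by_contra hcon
    push Not at hcon
    exact hne (by ext k; exact hcon k)
  refine Finset.sum_pos' (fun k _ => ?_) ⟨k, Finset.mem_univ _, ?_⟩
  · rw [mul_assoc]
    exact mul_nonneg (hw k).le (mul_self_nonneg _)
  · rw [mul_assoc]
    exact mul_pos (hw k) (mul_self_pos.2 hk)

theorem hasOrthogonalMetric_of_diagAt [IsManifold (𝓡 n) ∞ M]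
    {b : M → E n →L[ℝ] E n →L[ℝ] ℝ} (hb : ∀ x, DiagAt b x) : HasOrthogonalMetric n M := by
  have hpos : ∀ x, ∀ v : E n, v ≠ 0 → 0 < b x v v := by
    intro x v hv
    obtain ⟨O, q, w, hO, hxO, hq, hw, hp, hbx⟩ := hb x
    rw [hbx x hxO]
    exact dform_pos (hp x hxO) (mfderiv_injective (hq x hxO)) hv
  let g : RMetric n M :=
    { inner := fun x => b x
      symm := fun x v w' => by
        obtain ⟨O, q, w, hO, hxO, hq, hw, hp, hbx⟩ := hb x
        rw [hbx x hxO]
        exact dform_symm _ _ _ _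
      pos := fun x v hv => hpos x v hv
      isVonNBounded := fun x => bounded_of_pos (b x) (hpos x)
      contMDiff := by
        intro x
        obtain ⟨O, q, w, hO, hxO, hq, hw, hp, hbx⟩ := hb x
        refine (contMDiffAt_dform_section q w x (hq x hxO).contMDiffAt
          (fun k => (hw k x hxO).contMDiffAt (hO.mem_nhds hxO))).congr_of_eventuallyEq ?_
        filter_upwards [hO.mem_nhds hxO] with y hy
        rw [hbx y hy]
        rfl }
  refine ⟨g, fun x => ?_⟩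
  obtain ⟨O, q, w, hO, hxO, hq, hw, hp, hbx⟩ := hb x
  obtain ⟨Ξ, hΞ, hEq⟩ := hq x hxO
  have hUo : IsOpen (Ξ.source ∩ O) := Ξ.open_source.inter hO
  have himg : q '' (Ξ.source ∩ O) = Ξ.target ∩ Ξ.invFun ⁻¹' O := by
    ext z
    constructor
    · rintro ⟨y, hy, rfl⟩
      rw [hEq hy.1]
      refine ⟨Ξ.map_source hy.1, ?_⟩
      have hl : Ξ.invFun (Ξ.toFun y) = y := Ξ.left_inv hy.1
      change Ξ.invFun (Ξ.toFun y) ∈ O
      rw [hl]
      exact hy.2
    · rintro ⟨hz1, hz2⟩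
      refine ⟨Ξ.invFun z, ⟨Ξ.map_target hz1, hz2⟩, ?_⟩
      exact (hEq (Ξ.map_target hz1)).trans (Ξ.right_inv hz1)
  have himo : IsOpen (q '' (Ξ.source ∩ O)) := by
    rw [himg]
    exact Ξ.contMDiffOn_invFun.continuousOn.isOpen_inter_preimage Ξ.open_target hO
  refine ⟨Ξ.source ∩ O, q, Ξ.invFun, hUo, ⟨hΞ, hxO⟩, himo, ?_, ?_, ?_, ?_, ?_⟩
  · intro y hy
    rw [hEq hy.1]
    exact Ξ.left_inv hy.1
  · rw [himg]
    intro z hz
    exact (hEq (Ξ.map_target hz.1)).trans (Ξ.right_inv hz.1)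
  · exact (Ξ.contMDiffOn_toFun.congr hEq).mono inter_subset_left
  · rw [himg]
    exact Ξ.contMDiffOn_invFun.mono inter_subset_left
  · intro z hz i j hij
    have hz' := hz
    rw [himg] at hz'
    have hzO : Ξ.invFun z ∈ O := hz'.2
    have hd : ∀ u : E n, dq q (Ξ.invFun z) (dp Ξ.invFun z u) = u := by
      intro u
      have hc : mfderiv (𝓡 n) (𝓡 n) (q ∘ Ξ.invFun) z = ContinuousLinearMap.id ℝ _ := by
        rw [← mfderiv_id]
        apply Filter.EventuallyEq.mfderiv_eq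
        filter_upwards [Ξ.open_target.mem_nhds hz'.1] with y hy
        change q (Ξ.invFun y) = y
        exact (hEq (Ξ.map_target hy)).trans (Ξ.right_inv hy)
      have h2 := mfderiv_comp z ((hq _ hzO).mdifferentiableAt (by simp))
        (((Ξ.contMDiffOn_invFun z hz'.1).contMDiffAt
          (Ξ.open_target.mem_nhds hz'.1)).mdifferentiableAt (by simp))
      rw [hc] at h2
      exact (DFunLike.congr_fun h2 u).symm
    change b (Ξ.invFun z) (dp Ξ.invFun z (basisVec i)) (dp Ξ.invFun z (basisVec j)) = 0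
    rw [hbx _ hzO, dform_apply, hd, hd]
    refine Finset.sum_eq_zero fun k _ => ?_
    by_cases hki : k = i
    · subst hki
      simp [hij]
    · simp [hki]

/-- The partial diffeomorphism given by a chart as in `HasOrthogonalMetric`. -/
def chartPD {U : Set M} {φ : M → E n} {ψ : E n → M} (hU : IsOpen U) (hU' : IsOpen (φ '' U))
    (h1 : ∀ y ∈ U, ψ (φ y) = y) (h2 : ∀ z ∈ φ '' U, φ (ψ z) = z)
    (h3 : SmoothOn n φ U) (h4 : SmoothOn n ψ (φ '' U)) :
    PartialDiffeomorph (𝓡 n) (𝓡 n) M (E n) ∞ where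
  toFun := φ
  invFun := ψ
  source := U
  target := φ '' U
  map_source' := fun y hy => mem_image_of_mem φ hy
  map_target' := by
    rintro z ⟨y, hy, rfl⟩
    rw [h1 y hy]
    exact hy
  left_inv' := fun y hy => h1 y hy
  right_inv' := fun z hz => h2 z hz
  open_source := hU
  open_target := hU'
  contMDiffOn_toFun := h3
  contMDiffOn_invFun := h4

/-- A vector is the combination of the basis vectors. -/
theorem vec_eq_sum (u : E n) : u = ∑ k, u k • (basisVec k : E n) := by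
  ext j
  simp [Finset.sum_apply, Pi.single_apply]

theorem bilin_expand (B : E n →L[ℝ] E n →L[ℝ] ℝ) (L : E n →L[ℝ] E n)
    (hoff : ∀ i j, i ≠ j → B (L (basisVec i)) (L (basisVec j)) = 0) (a c : E n) :
    B (L a) (L c) = ∑ k, B (L (basisVec k)) (L (basisVec k)) * a k * c k := by
  conv_lhs => rw [vec_eq_sum a, vec_eq_sum c]
  simp only [map_sum, map_smul, sum_apply, smul_apply,
    smul_eq_mul]
  refine Finset.sum_congr rfl fun k _ => ?_
  rw [Finset.sum_eq_single k]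
  · ring
  · intro l _ hl
    rw [hoff _ _ hl]
    simp
  · intro h
    exact absurd (Finset.mem_univ k) h

theorem diagAt_of_chart [IsManifold (𝓡 n) ∞ M] (g : RMetric n M) {x : M}
    {U : Set M} {φ : M → E n} {ψ : E n → M} (hU : IsOpen U) (hx : x ∈ U)
    (hU' : IsOpen (φ '' U))
    (h1 : ∀ y ∈ U, ψ (φ y) = y) (h2 : ∀ z ∈ φ '' U, φ (ψ z) = z)
    (h3 : SmoothOn n φ U) (h4 : SmoothOn n ψ (φ '' U))
    (h5 : ∀ z ∈ φ '' U, ∀ i j : Fin n, i ≠ j → coef g ψ z i j = 0) :
    DiagAt (fun y => form g y) x := by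
  let Φ := chartPD hU hU' h1 h2 h3 h4
  have hdφ : ∀ y ∈ U, MDifferentiableAt (𝓡 n) (𝓡 n) φ y := fun y hy =>
    ((h3 y hy).contMDiffAt (hU.mem_nhds hy)).mdifferentiableAt (by simp)
  have hdψ : ∀ z ∈ φ '' U, MDifferentiableAt (𝓡 n) (𝓡 n) ψ z := fun z hz =>
    ((h4 z hz).contMDiffAt (hU'.mem_nhds hz)).mdifferentiableAt (by simp)
  refine ⟨U, φ, fun y k => coef g ψ (φ y) k k, hU, hx, fun y hy => ⟨Φ, hy, fun _ _ => rfl⟩,
    ?_, ?_, ?_⟩
  · intro k
    exact (contMDiffOn_iff_contDiffOn.2 (contDiffOn_coef g hU' h4 k k)).comp h3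
      (fun y hy => mem_image_of_mem φ hy)
  · intro y hy k
    refine g.pos (ψ (φ y)) (dp ψ (φ y) (basisVec k)) ?_
    intro h0
    have hloc : IsLocalDiffeomorphAt (𝓡 n) (𝓡 n) ∞ ψ (φ y) :=
      ⟨Φ.symm, mem_image_of_mem φ hy, fun _ _ => rfl⟩
    have h6 : (basisVec k : E n) = 0 := by
      exact mfderiv_injective hloc (h0.trans (map_zero (dp ψ (φ y))).symm)
    have h7 := congrArg (fun v : E n => v k) h6
    simp at h7
  · intro y hy
    ext u v
    have hy' : φ y ∈ φ '' U := mem_image_of_mem φ hy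
    have hd : ∀ u : E n, dp ψ (φ y) (dq φ y u) = u := by
      intro u
      have hc : mfderiv (𝓡 n) (𝓡 n) (ψ ∘ φ) y = ContinuousLinearMap.id ℝ _ := by
        rw [← mfderiv_id]
        apply Filter.EventuallyEq.mfderiv_eq
        filter_upwards [hU.mem_nhds hy] with z hz
        exact h1 z hz
      have h6 := mfderiv_comp y (hdψ _ hy') (hdφ y hy)
      rw [hc] at h6
      exact (DFunLike.congr_fun h6 u).symm
    have h7 := bilin_expand (form g (ψ (φ y))) (dp ψ (φ y)) (fun i j hij => h5 _ hy' i j hij)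
      (dq φ y u) (dq φ y v)
    rw [hd, hd] at h7
    rw [dform_apply]
    rw [← h7]
    rw [h1 y hy]

theorem HasOrthogonalMetric.diagAt [IsManifold (𝓡 n) ∞ M] (h : HasOrthogonalMetric n M) :
    ∃ b : M → E n →L[ℝ] E n →L[ℝ] ℝ, ∀ x, DiagAt b x := by
  obtain ⟨g, hg⟩ := h
  refine ⟨fun y => form g y, fun x => ?_⟩
  obtain ⟨U, φ, ψ, hU, hx, hU', h1, h2, h3, h4, h5⟩ := hg x
  exact diagAt_of_chart g hU hx hU' h1 h2 h3 h4 h5

end Pool.Agent.OrthCoord
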