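import Pool.Agent.OrthCoord.Kappa

set_option autoImplicit false
open Bundle Set ContinuousLinearMap
open scoped Manifold ContDiff Topology

namespace Pool.Agent.OrthCoord

variable {n : ℕ} {N : Type} [TopologicalSpace N] [ChartedSpace (E n) N]

theorem dm_eq_fderiv (f : E n → E n) (u : E n) : dm f u = fderiv ℝ f u := mfderiv_eq_fderiv

theorem isLocalDiffeomorphAt_congr {M : Type} [TopologicalSpace M] [ChartedSpace (E n) M]
    {f f' : N → M} {y : N} (hf : IsLocalDiffeomorphAt (𝓡 n) (𝓡 n) ∞ f y) {O : Set N}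
    (hO : IsOpen O) (hy : y ∈ O) (he : ∀ z ∈ O, f' z = f z) :
    IsLocalDiffeomorphAt (𝓡 n) (𝓡 n) ∞ f' y := by
  obtain ⟨Φ, hΦ, hEq⟩ := hf
  have h1 : IsOpen (Φ.target ∩ Φ.invFun ⁻¹' O) :=
    Φ.contMDiffOn_invFun.continuousOn.isOpen_inter_preimage Φ.open_target hO
  refine ⟨{ toPartialEquiv := Φ.toPartialEquiv.restr O
            open_source := ?_
            open_target := ?_
            contMDiffOn_toFun := ?_
            contMDiffOn_invFun := ?_ }, ⟨hΦ, hy⟩, ?_⟩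
  · exact Φ.open_source.inter hO
  · exact h1
  · exact Φ.contMDiffOn_toFun.mono inter_subset_left
  · exact Φ.contMDiffOn_invFun.mono inter_subset_left
  · intro z hz
    exact (he z hz.2).trans (hEq hz.1)

theorem isLocalDiffeomorphAt_id (y : N) :
    IsLocalDiffeomorphAt (𝓡 n) (𝓡 n) ∞ (id : N → N) y :=
  (Diffeomorph.refl (𝓡 n) N ∞).isLocalDiffeomorph y

/-- A smooth disc of radius 2. -/
structure IsDisc (n : ℕ) {N : Type} [TopologicalSpace N] [ChartedSpace (E n) N]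
    (φ : E n → N) : Prop where
  loc : ∀ u, ‖u‖ < 2 → IsLocalDiffeomorphAt (𝓡 n) (𝓡 n) ∞ φ u
  inj : ∀ u v, ‖u‖ < 2 → ‖v‖ < 2 → φ u = φ v → u = v

/-- The image of the open disc. -/
def Dom (φ : E n → N) : Set N := φ '' Metric.ball 0 2

/-- The image of a closed disc. -/
def Core (φ : E n → N) (r : ℝ) : Set N := φ '' Metric.closedBall 0 r

theorem IsDisc.localOn {φ : E n → N} (hφ : IsDisc n φ) :
    IsLocalDiffeomorphOn (𝓡 n) (𝓡 n) ∞ φ (Metric.ball 0 2) := fun u =>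
  hφ.loc u.1 (mem_ball_zero_iff.1 u.2)

theorem IsDisc.continuousOn {φ : E n → N} (hφ : IsDisc n φ) :
    ContinuousOn φ (Metric.ball 0 2) := fun u hu =>
  (hφ.loc u (by simpa using hu)).contMDiffAt.continuousAt.continuousWithinAt

omit [TopologicalSpace N] [ChartedSpace (E n) N] in
theorem Core_mono (φ : E n → N) {r s : ℝ} (h : r ≤ s) : Core φ r ⊆ Core φ s :=
  image_mono (Metric.closedBall_subset_closedBall h)

omit [TopologicalSpace N] [ChartedSpace (E n) N] in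
theorem Core_subset_Dom (φ : E n → N) {r : ℝ} (h : r < 2) : Core φ r ⊆ Dom φ :=
  image_mono (Metric.closedBall_subset_ball h)

theorem IsDisc.isClosed_core [T2Space N] {φ : E n → N} (hφ : IsDisc n φ) {r : ℝ} (hr : r < 2) :
    IsClosed (Core φ r) :=
  ((isCompact_closedBall (0 : E n) r).image_of_continuousOn
    (hφ.continuousOn.mono (Metric.closedBall_subset_ball hr))).isClosed

theorem IsDisc.mem_core_iff {φ : E n → N} (hφ : IsDisc n φ) {r : ℝ} (hr : r < 2) {u : E n}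
    (hu : ‖u‖ < 2) : φ u ∈ Core φ r ↔ ‖u‖ ≤ r := by
  constructor
  · rintro ⟨v, hv, hvu⟩
    rw [mem_closedBall_zero_iff] at hv
    rw [← hφ.inj v u (hv.trans_lt hr) hu hvu]
    exact hv
  · intro h
    exact ⟨u, by simpa using h, rfl⟩

theorem IsDisc.exists_inv {φ : E n → N} (hφ : IsDisc n φ) :
    IsOpen (Dom φ) ∧ ∃ inv : N → E n, (∀ u, ‖u‖ < 2 → inv (φ u) = u) ∧
      ∀ y ∈ Dom φ, IsLocalDiffeomorphAt (𝓡 n) (𝓡 n) ∞ inv y ∧ ‖inv y‖ < 2 ∧ φ (inv y) = y := by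
  let inv : N → E n := Function.invFunOn φ (Metric.ball 0 2)
  have h1 : ∀ y ∈ Dom φ, ‖inv y‖ < 2 ∧ φ (inv y) = y := by
    rintro y ⟨u, hu, rfl⟩
    have h2 : ∃ v ∈ Metric.ball (0 : E n) 2, φ v = φ u := ⟨u, hu, rfl⟩
    exact ⟨by simpa using Function.invFunOn_mem h2, Function.invFunOn_eq h2⟩
  have h2 : ∀ u, ‖u‖ < 2 → inv (φ u) = u := by
    intro u hu
    obtain ⟨h3, h4⟩ := h1 (φ u) ⟨u, by simpa using hu, rfl⟩
    exact hφ.inj _ _ h3 hu h4
  have h3 : ∀ u, ‖u‖ < 2 → ∃ Φ : PartialDiffeomorph (𝓡 n) (𝓡 n) (E n) N ∞,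
      u ∈ Φ.source ∧ Φ.source ⊆ Metric.ball 0 2 ∧ EqOn φ Φ.toFun Φ.source := fun u hu =>
    exists_partialDiffeo Metric.isOpen_ball hφ.localOn (by simpa using hu)
  have h4 : ∀ (Φ : PartialDiffeomorph (𝓡 n) (𝓡 n) (E n) N ∞), Φ.source ⊆ Metric.ball 0 2 →
      EqOn φ Φ.toFun Φ.source → ∀ z ∈ Φ.target, ‖Φ.invFun z‖ < 2 ∧ φ (Φ.invFun z) = z := by
    intro Φ hΦ hEq z hz
    have h5 := Φ.map_target hz
    refine ⟨?_, (hEq h5).trans (Φ.right_inv hz)⟩
    have h6 := hΦ h5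
    rw [mem_ball_zero_iff] at h6
    exact h6
  refine ⟨?_, inv, h2, ?_⟩
  · rw [isOpen_iff_mem_nhds]
    rintro y ⟨u, hu, rfl⟩
    obtain ⟨Φ, hu', hsub, hEq⟩ := h3 u (by simpa using hu)
    have hmem : φ u ∈ Φ.target := by
      rw [hEq hu']
      exact Φ.map_source hu'
    refine Filter.mem_of_superset (Φ.open_target.mem_nhds hmem) fun z hz => ?_
    obtain ⟨h5, h6⟩ := h4 Φ hsub hEq z hz
    exact ⟨Φ.invFun z, by simpa using h5, h6⟩
  · rintro y ⟨u, hu, rfl⟩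
    refine ⟨?_, h1 _ ⟨u, hu, rfl⟩⟩
    obtain ⟨Φ, hu', hsub, hEq⟩ := h3 u (by simpa using hu)
    have hmem : φ u ∈ Φ.target := by
      rw [hEq hu']
      exact Φ.map_source hu'
    refine ⟨Φ.symm, hmem, fun z hz => ?_⟩
    obtain ⟨h5, h6⟩ := h4 Φ hsub hEq z hz
    have h7 : inv z = Φ.invFun z := by
      have h8 := h2 (Φ.invFun z) h5
      rw [h6] at h8
      exact h8
    exact h7

/-- Making a metric flat near a point, by changing its coefficients in orthogonal coordinates. -/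
theorem exists_flatten [T2Space N] {b : N → E n →L[ℝ] E n →L[ℝ] ℝ} {x : N} (hx : DiagAt b x)
    {D : Set N} (hD : IsOpen D) (hxD : x ∈ D) :
    ∃ (b' : N → E n →L[ℝ] E n →L[ℝ] ℝ) (O : Set N) (q : N → E n), IsOpen O ∧ x ∈ O ∧ O ⊆ D ∧
      (∀ y ∈ O, IsLocalDiffeomorphAt (𝓡 n) (𝓡 n) ∞ q y) ∧
      (∀ y ∈ O, b' y = dform (fun _ => 1) (dq q y)) ∧ (∀ y, y ∉ D → b' y = b y) ∧
      ∀ y, DiagAt b y → DiagAt b' y := by
  classical
  obtain ⟨O, q, w, hO, hxO, hq, hw, hp, hb⟩ := hx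
  obtain ⟨Ξ, hΞ, hEq⟩ := hq x hxO
  set O₁ : Set N := Ξ.source ∩ (O ∩ D) with hO₁
  have hO₁o : IsOpen O₁ := Ξ.open_source.inter (hO.inter hD)
  have hx₁ : x ∈ O₁ := ⟨hΞ, hxO, hxD⟩
  have hT : IsOpen (Ξ.target ∩ Ξ.invFun ⁻¹' O₁) :=
    Ξ.contMDiffOn_invFun.continuousOn.isOpen_inter_preimage Ξ.open_target hO₁o
  have hinv : ∀ y ∈ Ξ.source, Ξ.invFun (q y) = y := by
    intro y hy
    rw [hEq hy]
    exact Ξ.left_inv hy
  have hqx : q x ∈ Ξ.target ∩ Ξ.invFun ⁻¹' O₁ := by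
    refine ⟨?_, ?_⟩
    · rw [hEq hΞ]
      exact Ξ.map_source hΞ
    · change Ξ.invFun (q x) ∈ O₁
      rw [hinv x hΞ]
      exact hx₁
  obtain ⟨r, hr, hball⟩ := Metric.nhds_basis_closedBall.mem_iff.1 (hT.mem_nhds hqx)
  let f : ContDiffBump (q x) := ⟨r / 2, r, by positivity, by linarith⟩
  set K : Set N := Ξ.invFun '' Metric.closedBall (q x) r with hK
  have hKc : IsClosed K :=
    ((isCompact_closedBall (q x) r).image_of_continuousOn
      (Ξ.contMDiffOn_invFun.continuousOn.mono fun z hz => (hball hz).1)).isClosed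
  have hKO : K ⊆ O₁ := by
    rintro y ⟨z, hz, rfl⟩
    exact (hball hz).2
  have hf0 : ∀ y ∈ O₁, y ∉ K → f (q y) = 0 := by
    intro y hy hyK
    apply f.zero_of_le_dist
    by_contra hcon
    push Not at hcon
    apply hyK
    refine ⟨q y, ?_, hinv y hy.1⟩
    rw [Metric.mem_closedBall]
    exact hcon.le
  set b' : N → E n →L[ℝ] E n →L[ℝ] ℝ := fun y =>
    if y ∈ O₁ then dform (fun k => (1 - f (q y)) * w y k + f (q y)) (dq q y) else b y with hb'
  have hin : ∀ y ∈ O₁, b' y = dform (fun k => (1 - f (q y)) * w y k + f (q y)) (dq q y) :=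
    fun y hy => if_pos hy
  have hout : ∀ y ∉ O₁, b' y = b y := fun y hy => if_neg hy
  have hqc : ContinuousOn q O₁ := fun y hy =>
    (hq y hy.2.1).contMDiffAt.continuousAt.continuousWithinAt
  refine ⟨b', O₁ ∩ q ⁻¹' Metric.ball (q x) (r / 2), q,
    hqc.isOpen_inter_preimage hO₁o Metric.isOpen_ball,
    ⟨hx₁, Metric.mem_ball_self (by positivity)⟩, fun y hy => hy.1.2.2,
    fun y hy => hq y hy.1.2.1, ?_, ?_, ?_⟩
  · intro y hy
    rw [hin y hy.1]
    have h1 : f (q y) = 1 := f.one_of_mem_closedBall (Metric.ball_subset_closedBall hy.2)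
    rw [h1]
    simp
  · intro y hy
    exact hout y fun h => hy h.2.2
  · intro y hy
    by_cases hyO : y ∈ O₁
    · refine ⟨O₁, q, fun y k => (1 - f (q y)) * w y k + f (q y), hO₁o, hyO,
        fun z hz => hq z hz.2.1, fun k => ?_, fun z hz k => ?_, hin⟩
      · have h1 : ContMDiffOn (𝓡 n) 𝓘(ℝ, ℝ) ∞ (fun y => f (q y)) O₁ := by
          have h2 : ContMDiff (𝓡 n) 𝓘(ℝ, ℝ) ∞ f := f.contDiff.contMDiff
          exact h2.comp_contMDiffOn fun z hz => (hq z hz.2.1).contMDiffAt.contMDiffWithinAt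
        have h3 : ContMDiffOn (𝓡 n) 𝓘(ℝ, ℝ) ∞ (fun y => w y k) O₁ :=
          (hw k).mono fun z hz => hz.2.1
        exact ((contMDiffOn_const.sub h1).mul h3).add h1
      · have h1 : 0 ≤ f (q z) := f.nonneg
        have h2 : f (q z) ≤ 1 := f.le_one
        have h3 := hp z hz.2.1 k
        change 0 < (1 - f (q z)) * w z k + f (q z)
        rcases h1.eq_or_lt with h4 | h4
        · rw [← h4]
          linarith
        · have h5 : 0 ≤ (1 - f (q z)) * w z k := mul_nonneg (by linarith) h3.le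
          linarith
    · refine hy.congr hKc.isOpen_compl (fun h => hyO (hKO h)) fun z hz => ?_
      by_cases hzO : z ∈ O₁
      · rw [hin z hzO, hf0 z hzO hz, hb z hzO.2.1]
        simp
      · exact hout z hzO

/-- Linearisation: a disc can be pulled back so that its small part is linear in `q`. -/
theorem exists_linear {φ : E n → N} (hφ : IsDisc n φ) {O : Set N} (hO : IsOpen O)
    (h0 : φ 0 ∈ O) {q : N → E n} (hq : ∀ y ∈ O, IsLocalDiffeomorphAt (𝓡 n) (𝓡 n) ∞ q y) :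
    ∃ (L : E n →L[ℝ] E n) (κ : E n → E n), Function.Injective L ∧ ContDiff ℝ ∞ κ ∧
      (∀ u, Function.Injective (fderiv ℝ κ u)) ∧ (∀ u, 9 / 5 ≤ ‖u‖ → κ u = u) ∧
      (∀ u, ‖u‖ < 2 → ‖κ u‖ < 2) ∧
      ∀ u, ‖u‖ ≤ 8 / 5 → φ (κ u) ∈ O ∧ q (φ (κ u)) = q (φ 0) + L u := by
  set V : Set (E n) := Metric.ball 0 2 ∩ φ ⁻¹' O with hV
  have hVo : IsOpen V := hφ.continuousOn.isOpen_inter_preimage Metric.isOpen_ball hO
  have h0V : (0 : E n) ∈ V := ⟨by simp, h0⟩
  have hloc : ∀ u ∈ V, IsLocalDiffeomorphAt (𝓡 n) (𝓡 n) ∞ (q ∘ φ) u := by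
    intro u hu
    have h1 := hφ.loc u (mem_ball_zero_iff.1 hu.1)
    exact h1.comp _ _ (hq _ hu.2)
  obtain ⟨Ξ, hΞ, hΞV, hEq⟩ := exists_partialDiffeo hVo
    (p := q ∘ φ) (fun u => hloc u.1 u.2) h0V
  set A : E n →L[ℝ] E n := fderiv ℝ (q ∘ φ) 0 with hA
  have hAinj : Function.Injective A := by
    have h1 := dm_injective (hloc 0 h0V)
    rw [dm_eq_fderiv] at h1
    exact h1
  have hT0 : (q ∘ φ) 0 ∈ Ξ.target := by
    rw [hEq hΞ]
    exact Ξ.map_source hΞ
  have hcont : Continuous fun y : E n => (q ∘ φ) 0 + A y := by fun_prop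
  have hpre : IsOpen ((fun y : E n => (q ∘ φ) 0 + A y) ⁻¹' Ξ.target) :=
    Ξ.open_target.preimage hcont
  have h0pre : (0 : E n) ∈ (fun y : E n => (q ∘ φ) 0 + A y) ⁻¹' Ξ.target := by
    change (q ∘ φ) 0 + A 0 ∈ Ξ.target
    rw [map_zero, add_zero]
    exact hT0
  obtain ⟨r₀, hr₀, hball⟩ := Metric.isOpen_iff.1 hpre 0 h0pre
  have hright : ∀ z ∈ Ξ.target, (q ∘ φ) (Ξ.invFun z) = z := fun z hz =>
    (hEq (Ξ.map_target hz)).trans (Ξ.right_inv hz)
  have hSc : ContDiffOn ℝ ∞ (fun y => Ξ.invFun ((q ∘ φ) 0 + A y)) (Metric.ball 0 r₀) := by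
    have h1 : ContDiffOn ℝ ∞ Ξ.invFun Ξ.target := contMDiffOn_iff_contDiffOn.1
      Ξ.contMDiffOn_invFun
    exact h1.comp (contDiff_const.add A.contDiff).contDiffOn hball
  have hS0 : Ξ.invFun ((q ∘ φ) 0 + A 0) = 0 := by
    rw [map_zero, add_zero, hEq hΞ]
    exact Ξ.left_inv hΞ
  have hS1 : HasFDerivAt (fun y => Ξ.invFun ((q ∘ φ) 0 + A y))
      (ContinuousLinearMap.id ℝ (E n)) 0 := by
    have h1 : DifferentiableAt ℝ (fun y => Ξ.invFun ((q ∘ φ) 0 + A y)) 0 :=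
      (hSc.contDiffAt (Metric.ball_mem_nhds _ hr₀)).differentiableAt (by simp)
    have h2 : HasFDerivAt (q ∘ φ) A (Ξ.invFun ((q ∘ φ) 0 + A 0)) := by
      rw [hS0]
      have h3 := (hloc 0 h0V).mdifferentiableAt (by simp)
      rw [mdifferentiableAt_iff_differentiableAt] at h3
      exact h3.hasFDerivAt
    have h3 := h2.comp (0 : E n) h1.hasFDerivAt
    have h4 : HasFDerivAt ((q ∘ φ) ∘ fun y => Ξ.invFun ((q ∘ φ) 0 + A y)) A 0 := by
      refine (A.hasFDerivAt.const_add ((q ∘ φ) 0)).congr_of_eventuallyEq ?_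
      filter_upwards [Metric.ball_mem_nhds _ hr₀] with y hy
      exact hright _ (hball hy)
    have h5 := h3.unique h4
    have h6 : fderiv ℝ (fun y => Ξ.invFun ((q ∘ φ) 0 + A y)) 0 =
        ContinuousLinearMap.id ℝ (E n) := by
      ext1 v
      apply hAinj
      exact DFunLike.congr_fun h5 v
    rw [← h6]
    exact h1.hasFDerivAt
  obtain ⟨ε, κ, hε, hεr, hκ, hκi, hκin, hκout, hκlt⟩ := exists_kappa hr₀ hSc hS0 hS1
  refine ⟨ε • A, κ, ?_, hκ, hκi, hκout, hκlt, fun u hu => ?_⟩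
  · intro u v huv
    apply hAinj
    exact smul_right_injective _ hε.ne' huv
  · have hmem : ε • u ∈ Metric.ball (0 : E n) r₀ := by
      rw [mem_ball_zero_iff, norm_smul, Real.norm_of_nonneg hε.le]
      have : ε * ‖u‖ ≤ ε * (8 / 5) := mul_le_mul_of_nonneg_left hu hε.le
      linarith
    have h1 := hball hmem
    rw [hκin u hu]
    refine ⟨(hΞV (Ξ.map_target h1)).2, ?_⟩
    have h2 := hright _ h1
    simp only [Function.comp] at h2
    change q (φ (Ξ.invFun ((q ∘ φ) 0 + A (ε • u)))) = _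
    simp only [Function.comp]
    rw [h2]
    simp

/-- A positive definite form and the Euclidean one have a common orthogonal basis. -/
theorem exists_eigen (L : E n →L[ℝ] E n) (hL : Function.Injective L) :
    ∃ (lam : Fin n → ℝ) (R : E n ≃ₗᵢ[ℝ] E n), (∀ k, 0 < lam k) ∧
      ∀ a c, inner ℝ (L a) (L c) = ∑ k, lam k * R a k * R c k := by
  let T : E n →ₗ[ℝ] E n := ((ContinuousLinearMap.adjoint L).comp L : E n →L[ℝ] E n)
  have hT : T.IsSymmetric := by
    intro a c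
    change inner ℝ (ContinuousLinearMap.adjoint L (L a)) c =
      inner ℝ a (ContinuousLinearMap.adjoint L (L c))
    rw [ContinuousLinearMap.adjoint_inner_left, ContinuousLinearMap.adjoint_inner_right]
  have hn : Module.finrank ℝ (E n) = n := by simp
  let B := hT.eigenvectorBasis hn
  have key : ∀ a c, inner ℝ (L a) (L c) = ∑ k, hT.eigenvalues hn k * B.repr a k * B.repr c k := by
    intro a c
    have h1 : inner ℝ (L a) (L c) = inner ℝ (T a) c := by
      change _ = inner ℝ (ContinuousLinearMap.adjoint L (L a)) c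
      rw [ContinuousLinearMap.adjoint_inner_left]
    rw [h1, ← B.repr.inner_map_map (T a) c]
    simp only [PiLp.inner_apply]
    refine Finset.sum_congr rfl fun k _ => ?_
    have h2 : B.repr (T a) k = hT.eigenvalues hn k * B.repr a k :=
      hT.eigenvectorBasis_apply_self_apply hn a k
    rw [h2]
    simp
    ring
  refine ⟨hT.eigenvalues hn, B.repr, fun k => ?_, key⟩
  have h3 := key (B k) (B k)
  rw [B.repr_self] at h3
  rw [Finset.sum_eq_single k (by
    intro l _ hl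
    simp [hl]) (by simp)] at h3
  simp only [EuclideanSpace.single_apply, if_true, mul_one] at h3
  rw [← h3, real_inner_self_eq_norm_sq]
  have h4 : L (B k) ≠ 0 := by
    intro h5
    have h6 : B k = 0 := hL (h5.trans (map_zero L).symm)
    have h7 := B.norm_eq_one k
    rw [h6, norm_zero] at h7
    exact zero_ne_one h7
  have := norm_pos_iff.2 h4
  positivity

end Pool.Agent.OrthCoord
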