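import Pool.Agent.OrthCoord.Standard

set_option autoImplicit false
open Bundle Set ContinuousLinearMap
open scoped Manifold ContDiff Topology

namespace Pool.Agent.OrthCoord

variable {n : ℕ} {N : Type} [TopologicalSpace N] [ChartedSpace (E n) N]

/-- A field of locally diagonal forms can be changed inside a disc so that it becomes flat, in the
coordinates of the disc, for `‖u‖ < 6/5`. -/
theorem IsDisc.flat [T2Space N] {φ : E n → N} (hφ : IsDisc n φ)
    {b : N → E n →L[ℝ] E n →L[ℝ] ℝ} (hb : ∀ y, DiagAt b y) :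
    ∃ b' : N → E n →L[ℝ] E n →L[ℝ] ℝ, (∀ y, DiagAt b' y) ∧
      (∀ y, y ∉ Core φ (9 / 5) → b' y = b y) ∧
      ∀ u, ‖u‖ < 6 / 5 → ∀ a c : E n,
        b' (φ u) (dm φ u a) (dm φ u c) = inner ℝ a c := by
  classical
  obtain ⟨hDo, inv, hi1, hi2⟩ := hφ.exists_inv
  have hDom : ∀ u, ‖u‖ < 2 → φ u ∈ Dom φ := fun u hu => ⟨u, by simpa using hu, rfl⟩
  have hinvc : ContinuousOn inv (Dom φ) := fun y hy =>
    (hi2 y hy).1.contMDiffAt.continuousAt.continuousWithinAt
  have hball : ∀ r : ℝ, IsOpen (Dom φ ∩ inv ⁻¹' Metric.ball 0 r) := fun r =>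
    hinvc.isOpen_inter_preimage hDo Metric.isOpen_ball
  have hcore : ∀ r : ℝ, r < 2 → ∀ y ∈ Dom φ, (y ∈ Core φ r ↔ ‖inv y‖ ≤ r) := by
    intro r hr y hy
    obtain ⟨-, h2, h3⟩ := hi2 y hy
    conv_lhs => rw [← h3]
    exact hφ.mem_core_iff hr h2
  -- Step A: flatten
  have h0D : φ 0 ∈ Dom φ ∩ inv ⁻¹' Metric.ball 0 (9 / 5) := by
    refine ⟨hDom 0 (by simp), ?_⟩
    rw [mem_preimage]
    rw [hi1 0 (by simp)]
    exact Metric.mem_ball_self (by norm_num)
  obtain ⟨b₁, O, q, hO, hxO, hOD, hq, hb₁, hb₁out, hb₁D⟩ :=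
    exists_flatten (hb _) (hball (9 / 5)) h0D
  -- Step B: linearise
  obtain ⟨L, κ, hL, hκ, hκi, hκout, hκlt, hκlin⟩ := exists_linear hφ hO hxO hq
  have hκloc : ∀ u, IsLocalDiffeomorphAt (𝓡 n) (𝓡 n) ∞ κ u := localDiffeo_of_fderiv hκ hκi
  let Θ : N → N := fun y => if y ∈ Dom φ then φ (κ (inv y)) else y
  have hΘin : ∀ y ∈ Dom φ, Θ y = φ (κ (inv y)) := fun y hy => if_pos hy
  have hΘout : ∀ y, y ∉ Core φ (9 / 5) → Θ y = y := by
    intro y hy
    by_cases hyD : y ∈ Dom φ
    · have h1 : 9 / 5 ≤ ‖inv y‖ := by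
        by_contra hcon
        push Not at hcon
        exact hy ((hcore (9 / 5) (by norm_num) y hyD).2 hcon.le)
      rw [hΘin y hyD, hκout _ h1]
      exact (hi2 y hyD).2.2
    · exact if_neg hyD
  have hcl : ∀ r : ℝ, r < 2 → IsOpen (Core φ r)ᶜ := fun r hr =>
    (hφ.isClosed_core hr).isOpen_compl
  have hΘ : ∀ y, IsLocalDiffeomorphAt (𝓡 n) (𝓡 n) ∞ Θ y := by
    intro y
    by_cases hyD : y ∈ Dom φ
    · refine isLocalDiffeomorphAt_congr (f := φ ∘ (κ ∘ inv)) ?_ hDo hyD hΘin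
      have h1 : IsLocalDiffeomorphAt (𝓡 n) (𝓡 n) ∞ (κ ∘ inv) y :=
        (hi2 y hyD).1.comp _ _ (hκloc _)
      exact h1.comp _ _ (hφ.loc _ (hκlt _ (hi2 y hyD).2.1))
    · exact isLocalDiffeomorphAt_congr (isLocalDiffeomorphAt_id y) (hcl (9 / 5) (by norm_num))
        (fun h => hyD (Core_subset_Dom φ (by norm_num) h)) hΘout
  let b₂ := pull Θ b₁
  have hb₂D : ∀ y, DiagAt b₂ y := fun y => DiagAt.pull (hΘ y) (hb₁D _ (hb _))
  have hb₂out : ∀ y, y ∉ Core φ (9 / 5) → b₂ y = b y := by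
    intro y hy
    have h1 : dm Θ y = ContinuousLinearMap.id ℝ (E n) := by
      have h3 : dm (id : N → N) y = ContinuousLinearMap.id ℝ (E n) := mfderiv_id
      rw [← h3]
      apply dm_congr
      filter_upwards [(hcl (9 / 5) (by norm_num)).mem_nhds hy] with z hz
      exact hΘout z hz
    ext a c
    change b₁ (Θ y) (dm Θ y a) (dm Θ y c) = b y a c
    rw [h1, hΘout y hy, hb₁out y]
    · rfl
    · intro h
      apply hy
      rw [hcore (9 / 5) (by norm_num) y h.1]
      exact (mem_ball_zero_iff.1 h.2).le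
  have hb₂lin : ∀ u, ‖u‖ < 8 / 5 → ∀ a c : E n,
      b₂ (φ u) (dm φ u a) (dm φ u c) = inner ℝ (L a) (L c) := by
    intro u hu a c
    have hu2 : ‖u‖ < 2 := by linarith
    have hΘφ : ∀ v : E n, ‖v‖ < 2 → Θ (φ v) = φ (κ v) := by
      intro v hv
      rw [hΘin _ (hDom v hv), hi1 v hv]
    have h1 : ∀ a : E n, dm Θ (φ u) (dm φ u a) = dm (φ ∘ κ) u a := by
      intro a
      rw [← dm_comp (hΘ _) (hφ.loc u hu2)]
      have h2 : dm (n := n) (Θ ∘ φ) u = dm (n := n) (φ ∘ κ) u := by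
        apply dm_congr
        filter_upwards [Metric.isOpen_ball.mem_nhds (show u ∈ Metric.ball (0 : E n) 2 by
          simpa using hu2)] with y hy
        exact hΘφ y (mem_ball_zero_iff.1 hy)
      rw [h2]
    have hφκ : IsLocalDiffeomorphAt (𝓡 n) (𝓡 n) ∞ (φ ∘ κ) u :=
      (hκloc u).comp _ _ (hφ.loc _ (hκlt _ hu2))
    have h2 : ∀ a : E n, dq q (φ (κ u)) (dm (φ ∘ κ) u a) = L a := by
      intro a
      have h3 : dm (q ∘ (φ ∘ κ)) u a = dm q ((φ ∘ κ) u) (dm (φ ∘ κ) u a) :=
        dm_comp (f := φ ∘ κ) (h := q) (hq _ (hκlin u hu.le).1) hφκ a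
      refine h3.symm.trans ?_
      rw [dm_eq_fderiv]
      have h4 : fderiv ℝ (q ∘ (φ ∘ κ)) u = L := by
        have h5 : HasFDerivAt (fun v => q (φ 0) + L v) L u := L.hasFDerivAt.const_add _
        refine (h5.congr_of_eventuallyEq ?_).fderiv
        filter_upwards [Metric.isOpen_ball.mem_nhds (show u ∈ Metric.ball (0 : E n) (8 / 5) by
          simpa using hu)] with y hy
        exact (hκlin y (mem_ball_zero_iff.1 hy).le).2
      rw [h4]
    change b₁ (Θ (φ u)) (dm Θ (φ u) (dm φ u a)) (dm Θ (φ u) (dm φ u c)) = _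
    rw [h1, h1, hΘφ u hu2, hb₁ _ (hκlin u hu.le).1, dform_apply, h2, h2]
    rw [PiLp.inner_apply]
    refine Finset.sum_congr rfl fun k _ => ?_
    simp [mul_comm]
  -- Step C: diagonalise and make the centre Euclidean
  obtain ⟨lam, R, hlam, hR⟩ := exists_eigen L hL
  let f : ContDiffBump (0 : E n) := ⟨6 / 5, 3 / 2, by norm_num, by norm_num⟩
  let Rc : E n →L[ℝ] E n := (R.toContinuousLinearEquiv : E n →L[ℝ] E n)
  let w : N → Fin n → ℝ := fun y k => (1 - f (inv y)) * lam k + f (inv y)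
  set D₂ : Set N := Dom φ ∩ inv ⁻¹' Metric.ball 0 (8 / 5) with hD₂
  have hD₂o : IsOpen D₂ := hball (8 / 5)
  let b₃ : N → E n →L[ℝ] E n →L[ℝ] ℝ := fun y =>
    if y ∈ D₂ then dform (w y) (Rc.comp (dm inv y)) else b₂ y
  have hb₃in : ∀ y ∈ D₂, b₃ y = dform (w y) (Rc.comp (dm inv y)) := fun y hy => if_pos hy
  have hb₃out : ∀ y, y ∉ D₂ → b₃ y = b₂ y := fun y hy => if_neg hy
  have hRc : ∀ v, Rc v = R v := fun v => rfl
  have hRinner : ∀ a c : E n, ∑ k, R a k * R c k = inner ℝ a c := by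
    intro a c
    rw [← R.inner_map_map a c, PiLp.inner_apply]
    refine Finset.sum_congr rfl fun k _ => ?_
    simp [mul_comm]
  refine ⟨b₃, ?_, ?_, ?_⟩
  · intro y
    by_cases hy : y ∈ D₂
    · refine ⟨D₂, fun z => R (inv z), w, hD₂o, hy, fun z hz => ?_, fun k => ?_,
        fun z hz k => ?_, fun z hz => ?_⟩
      · have h1 := (hi2 z hz.1).1
        exact h1.comp _ _ (isLocalDiffeomorphAt_isometry R _)
      · have hinvs : ContMDiffOn (𝓡 n) (𝓡 n) ∞ inv D₂ := fun z hz =>
          (hi2 z hz.1).1.contMDiffAt.contMDiffWithinAt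
        have h1 : ContDiff ℝ ∞ (fun v : E n => (1 - f v) * lam k + f v) := by
          have h2 : ContDiff ℝ ∞ f := f.contDiff
          exact ((contDiff_const.sub h2).mul contDiff_const).add h2
        exact (contMDiffOn_iff_contDiffOn.2 (h1.contDiffOn (s := univ))).comp hinvs
          fun z _ => mem_univ _
      · have h1 : 0 ≤ f (inv z) := f.nonneg
        have h2 : f (inv z) ≤ 1 := f.le_one
        change 0 < (1 - f (inv z)) * lam k + f (inv z)
        rcases h1.eq_or_lt with h5 | h5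
        · rw [← h5]
          have := hlam k
          linarith
        · have h6 : 0 ≤ (1 - f (inv z)) * lam k := mul_nonneg (by linarith) (hlam k).le
          linarith
      · rw [hb₃in z hz]
        congr 1
        ext1 a
        have h1 : dm ((fun v => R v) ∘ inv) z a = dm (fun v => R v) (inv z) (dm inv z a) :=
          dm_comp (isLocalDiffeomorphAt_isometry R _) (hi2 z hz.1).1 a
        rw [dm_isometry] at h1
        exact h1.symm
    · have hy' : y ∉ Core φ (3 / 2) := by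
        intro h
        apply hy
        have h1 := Core_subset_Dom φ (by norm_num) h
        refine ⟨h1, ?_⟩
        have h2 := (hcore (3 / 2) (by norm_num) y h1).1 h
        rw [mem_preimage, mem_ball_zero_iff]
        linarith
      refine (hb₂D y).congr (hcl (3 / 2) (by norm_num)) hy' fun z hz => ?_
      by_cases hzD : z ∈ D₂
      · have h1 : 3 / 2 < ‖inv z‖ := by
          by_contra hcon
          push Not at hcon
          exact hz ((hcore (3 / 2) (by norm_num) z hzD.1).2 hcon)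
        have h2 : f (inv z) = 0 := f.zero_of_le_dist (by rw [dist_zero_right]; exact h1.le)
        ext a c
        have h3 := hb₂lin (inv z) (mem_ball_zero_iff.1 hzD.2) (dm inv z a) (dm inv z c)
        rw [dm_dm_inv hφ hi2 hDo hzD.1, dm_dm_inv hφ hi2 hDo hzD.1, (hi2 z hzD.1).2.2, hR] at h3
        rw [h3, hb₃in z hzD, dform_apply]
        refine Finset.sum_congr rfl fun k _ => ?_
        change ((1 - f (inv z)) * lam k + f (inv z)) * _ * _ = _
        rw [h2]
        simp only [ContinuousLinearMap.comp_apply, hRc]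
        ring
      · exact hb₃out z hzD
  · intro y hy
    rw [hb₃out y, hb₂out y hy]
    intro h
    apply hy
    rw [hcore (9 / 5) (by norm_num) y h.1]
    have := mem_ball_zero_iff.1 h.2
    linarith
  · intro u hu2 a c
    have hu : ‖u‖ < 2 := by linarith
    have hmem : φ u ∈ D₂ := by
      refine ⟨hDom u hu, ?_⟩
      rw [mem_preimage, hi1 u hu, mem_ball_zero_iff]
      linarith
    rw [hb₃in _ hmem, dform_apply]
    simp only [ContinuousLinearMap.comp_apply, hRc]
    rw [dm_inv_dm hφ hi1 hi2 hu, dm_inv_dm hφ hi1 hi2 hu, ← hRinner]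
    refine Finset.sum_congr rfl fun k _ => ?_
    change ((1 - f (inv (φ u))) * lam k + f (inv (φ u))) * _ * _ = _
    have h1 : f u = 1 := f.one_of_mem_closedBall (by
      rw [mem_closedBall_zero_iff]
      exact hu2.le)
    rw [hi1 u hu, h1]
    ring

end Pool.Agent.OrthCoord
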