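import Pool.Agent.OrthCoord.Defs

set_option autoImplicit false
open Set
open scoped Manifold ContDiff

namespace Pool.Agent.OrthCoord

/-- Linear functions on `ℝⁿ`. -/
abbrev LinFun (n : ℕ) := E n →L[ℝ] ℝ

/-- Linear maps `ℝⁿ → ℝⁿ`. -/
abbrev LinMap (n : ℕ) := E n →L[ℝ] E n

/-- Linear automorphisms of `ℝⁿ`. -/
abbrev LinAut (n : ℕ) := E n ≃L[ℝ] E n

/-- The value `τ y`. -/
abbrev LinFun.val {n : ℕ} (τ : LinFun n) (y : E n) : ℝ := τ y

/-- The vector `C v`. -/
abbrev LinMap.val {n : ℕ} (C : LinMap n) (v : E n) : E n := C v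

/-- The vector `B v`. -/
abbrev LinAut.val {n : ℕ} (B : LinAut n) (v : E n) : E n := B v

/-- The Euclidean norm `‖S v‖`. -/
noncomputable abbrev LinAut.len {n : ℕ} (S : LinAut n) (v : E n) : ℝ := ‖S.val v‖

/-- The linear map `C` carries the Euclidean structure `‖S j ·‖` to `‖S (s j + m) ·‖` for every
integer `j`: `‖S (s j + m) (C v)‖ = ‖S j v‖` for all `v`. -/
def Carries {n : ℕ} (S : ℤ → LinAut n) (s m : ℤ) (C : LinMap n) : Prop :=
  ∀ (j : ℤ) (v : E n), (S (s * j + m)).len (C.val v) = (S j).len v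

/-- `p (y + v) = p (z + C v)` for all `v`. -/
def Matches {n : ℕ} {M : Type} (p : E n → M) (y z : E n) (C : LinMap n) : Prop :=
  ∀ v : E n, p (y + v) = p (z + C.val v)

/-- The map `p : ℝⁿ → M` exhibits the `n`-manifold `M` as a quotient of `ℝⁿ` by affine maps which
carry the levels `τ = j` (`j` an integer) of the linear function `τ` to each other and respect a
sequence of Euclidean structures `‖S j ·‖` (`j` an integer) on `ℝⁿ`: `p` is a surjective local
diffeomorphism, and whenever `p y = p z`, there are a sign `s`, an integer `m` and a linear map `C`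
with `τ z = s τ y + m`, `p (y + v) = p (z + C v)` for all `v`, and
`‖S (s j + m) (C v)‖ = ‖S j v‖` for all `j` and `v`. -/
structure IsStaircase (n : ℕ) {M : Type} [TopologicalSpace M] [ChartedSpace (E n) M]
    (τ : LinFun n) (S : ℤ → LinAut n) (p : E n → M) : Prop where
  loc : LocDiffeo n p
  surj : Function.Surjective p
  deck : ∀ y z, p y = p z → ∃ (s m : ℤ) (C : LinMap n), (s = 1 ∨ s = -1) ∧
    τ.val z = s * τ.val y + m ∧ Matches p y z C ∧ Carries S s m C

/-- The point `B^m y + m e + w`. -/
noncomputable def stepMap {n : ℕ} (B : LinAut n) (e : E n) (m : ℤ) (w y : E n) : E n :=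
  (B ^ m).val y + m • e + w

/-- The map `p : ℝⁿ → M` exhibits `M` as the mapping torus of the automorphism induced by the
linear automorphism `B` on the quotient of the hyperplane `τ = 0` by `Λ`: `p` is a surjective local
diffeomorphism, and `p y = p z` exactly when `z = B^m y + m e + w` for an integer `m` and some `w`
in `Λ`. Here `τ e = 1`, `τ = 0` on `Λ` and `τ ∘ B = τ`. If `Λ` is a lattice in the hyperplane, `M`
is the mapping torus of an automorphism of an `(n-1)`-torus. -/
structure IsMappingTorus (n : ℕ) {M : Type} [TopologicalSpace M] [ChartedSpace (E n) M]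
    (τ : LinFun n) (B : LinAut n) (e : E n) (Λ : Set (E n)) (p : E n → M) : Prop where
  loc : LocDiffeo n p
  surj : Function.Surjective p
  step : τ.val e = 1
  fibre : ∀ w ∈ Λ, τ.val w = 0
  mono : ∀ v, τ.val (B.val v) = τ.val v
  glue : ∀ y z, p y = p z ↔ ∃ (m : ℤ) (w : E n), w ∈ Λ ∧ stepMap B e m w y = z

end Pool.Agent.OrthCoord
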