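import Pool.Agent.OrthCoord.TubeDefs
import Pool.Agent.OrthCoord.StairDefs

set_option autoImplicit false
open Set
open scoped Manifold ContDiff

namespace Pool.Agent.OrthCoord

/-- The maps `C a j` (`a` in `ι`, `j` a truth value) are pairwise disjoint collars of closed flat
hypersurfaces of the `n`-manifold `N`: `C a j` is a local diffeomorphism on the slab
`|τ a j| < 2` of `ℝⁿ`, where `τ a j` is a linear function, and if `C a j u = C a j v`, then `u` and
`v` have the same level `τ a j` and `C a j (u + w) = C a j (v + A w)` for all `w`, for some linear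
isometry `A`. So the slab is divided by Euclidean isometries which preserve the levels. -/
structure Collars (n : ℕ) {ι N : Type} [TopologicalSpace N] [ChartedSpace (E n) N]
    (τ : ι → Bool → LinFun n) (C : ι → Bool → E n → N) : Prop where
  loc : ∀ a j u, |(τ a j).val u| < 2 → LocDiffeoAt n (C a j) u
  disj : ∀ a j b k u v, |(τ a j).val u| < 2 → |(τ b k).val v| < 2 → C a j u = C b k v →
    a = b ∧ j = k
  level : ∀ a j u v, |(τ a j).val u| < 2 → |(τ a j).val v| < 2 → C a j u = C a j v →
    (τ a j).val u = (τ a j).val v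
  deck : ∀ a j u v, |(τ a j).val u| < 2 → |(τ a j).val v| < 2 → C a j u = C a j v →
    ∃ A : LinMap n, (∀ w, ‖A.val w‖ = ‖w‖) ∧
      ∀ w, |(τ a j).val (u + w)| < 2 → C a j (u + w) = C a j (v + A.val w)
  closed : ∀ a j (r : ℝ), r < 2 → IsClosed (C a j '' {u | |(τ a j).val u| ≤ r})

/-- `y` is the point `u` of a collar `C a false` with `|τ| < 1` and `z` is the point `L a u` of the
collar `C a true`. -/
def CollarLinked {n : ℕ} {ι N : Type} (τ : ι → Bool → LinFun n) (C : ι → Bool → E n → N)
    (L : ι → LinAut n) (y z : N) : Prop :=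
  ∃ (a : ι) (u : E n), |(τ a false).val u| < 1 ∧ C a false u = y ∧ C a true ((L a).val u) = z

/-- The map `i` exhibits the `n`-manifold `M` as the result of cutting `N` open and gluing: a closed
set `R` is removed which meets every collar exactly in its part `1 ≤ τ`, and the parts `|τ| < 1` of
the collars `C a false` and `C a true` are glued by the linear isomorphism `L a`, which reverses
the levels. -/
structure IsCollarGluing (n : ℕ) {ι N M : Type} [TopologicalSpace N]
    [ChartedSpace (E n) N] [TopologicalSpace M] [ChartedSpace (E n) M]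
    (τ : ι → Bool → LinFun n) (C : ι → Bool → E n → N) (L : ι → LinAut n) (R : Set N)
    (i : N → M) : Prop where
  closed : IsClosed R
  cut : ∀ a j u, |(τ a j).val u| < 2 → (C a j u ∈ R ↔ 1 ≤ (τ a j).val u)
  swap : ∀ a u, (τ a true).val ((L a).val u) = -(τ a false).val u
  loc : ∀ y, y ∉ R → LocDiffeoAt n i y
  surj : ∀ x : M, ∃ y, y ∉ R ∧ i y = x
  glue : ∀ y z, y ∉ R → z ∉ R →
    (i y = i z ↔ y = z ∨ CollarLinked τ C L y z ∨ CollarLinked τ C L z y)

/-- The coordinates of the collars `C a j` are orthogonal coordinates of the metric `g`. -/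
def CollarAdapted (n : ℕ) {ι N : Type} [TopologicalSpace N] [ChartedSpace (E n) N]
    [IsManifold (𝓡 n) ∞ N] (g : RMetric n N) (τ : ι → Bool → LinFun n)
    (C : ι → Bool → E n → N) : Prop :=
  ∀ a j u, |(τ a j).val u| < 2 → ∀ p q : Fin n, p ≠ q → coef g (C a j) u p q = 0

end Pool.Agent.OrthCoord
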