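import Pool.Agent.OrthCoord.Disc
import Pool.Agent.OrthCoord.StairDefs

set_option autoImplicit false
open Bundle Set ContinuousLinearMap
open scoped Manifold ContDiff Topology

namespace Pool.Agent.OrthCoord

variable {n : ℕ}

/-- The cut-off function on `[0,1]`, `0` up to `1/3` and `1` from `2/3` on. -/
noncomputable def cut (s : ℝ) : ℝ := Real.smoothTransition (3 * s - 1)

theorem cut_symm (s : ℝ) : cut (1 - s) = 1 - cut s := by
  unfold cut
  have h1 : 3 * (1 - s) - 1 = 1 - (3 * s - 1) := by ring
  rw [h1]
  unfold Real.smoothTransition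
  have h2 : 1 - (1 - (3 * s - 1)) = 3 * s - 1 := by ring
  rw [h2]
  have h3 := Real.smoothTransition.pos_denom (3 * s - 1)
  rw [add_comm (expNegInvGlue (1 - (3 * s - 1)))]
  rw [eq_sub_iff_add_eq, ← add_div, add_comm (expNegInvGlue (1 - (3 * s - 1)))]
  exact div_self h3.ne'

theorem cut_zero {s : ℝ} (h : s ≤ 1 / 3) : cut s = 0 :=
  Real.smoothTransition.zero_of_nonpos (by linarith)

theorem cut_one {s : ℝ} (h : 2 / 3 ≤ s) : cut s = 1 :=
  Real.smoothTransition.one_of_one_le (by linarith)

theorem contDiff_cut : ContDiff ℝ ∞ cut :=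
  Real.smoothTransition.contDiff.comp ((contDiff_const.mul contDiff_id).sub contDiff_const)

/-- The form `⟨L u, L v⟩`. -/
noncomputable def qform (L : E n →L[ℝ] E n) : E n →L[ℝ] E n →L[ℝ] ℝ := dform (fun _ => 1) L

theorem qform_apply (L : E n →L[ℝ] E n) (u v : E n) : qform L u v = inner ℝ (L u) (L v) := by
  unfold qform
  rw [dform_apply, PiLp.inner_apply]
  refine Finset.sum_congr rfl fun k _ => ?_
  simp [mul_comm]

/-- The metric on `ℝⁿ`. -/
noncomputable def stair (τ : E n →L[ℝ] ℝ) (S : ℤ → E n ≃L[ℝ] E n) (y : E n) :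
    E n →L[ℝ] E n →L[ℝ] ℝ :=
  (1 - cut (Int.fract (τ y))) • qform (S ⌊τ y⌋ : E n →L[ℝ] E n) +
    cut (Int.fract (τ y)) • qform (S (⌊τ y⌋ + 1) : E n →L[ℝ] E n)

theorem stair_apply (τ : E n →L[ℝ] ℝ) (S : ℤ → E n ≃L[ℝ] E n) (y u v : E n) :
    stair τ S y u v = (1 - cut (Int.fract (τ y))) * inner ℝ (S ⌊τ y⌋ u) (S ⌊τ y⌋ v) +
      cut (Int.fract (τ y)) * inner ℝ (S (⌊τ y⌋ + 1) u) (S (⌊τ y⌋ + 1) v) := by
  unfold stair
  simp only [add_apply, smul_apply, smul_eq_mul, qform_apply]
  rfl

theorem fderiv_clm (L : E n →L[ℝ] E n) (y : E n) : fderiv ℝ (fun v => L v) y = L :=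
  L.hasFDerivAt.fderiv

theorem localDiffeo_clm {L : E n →L[ℝ] E n} (hL : Function.Injective L) (y : E n) :
    IsLocalDiffeomorphAt (𝓡 n) (𝓡 n) ∞ (fun v => L v) y := by
  refine isLocalDiffeomorphOn_of_injective isOpen_univ L.contDiff.contDiffOn
    (fun v _ => ?_) ⟨y, mem_univ y⟩
  rw [fderiv_clm]
  exact hL

theorem dq_clm (L : E n →L[ℝ] E n) (y : E n) : dq (fun v => L v) y = L := by
  have h1 : dq (fun v => L v) y = fderiv ℝ (fun v => L v) y := mfderiv_eq_fderiv
  rw [h1, fderiv_clm]

theorem diagAt_stair (τ : E n →L[ℝ] ℝ) (S : ℤ → E n ≃L[ℝ] E n) (y : E n) :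
    DiagAt (stair τ S) y := by
  set j : ℤ := ⌊τ y⌋ with hj
  rcases (Int.fract_nonneg (τ y)).eq_or_lt with h0 | h0
  · -- on a level
    have hτ : τ y = j := by
      have := Int.floor_add_fract (τ y)
      rw [← h0, add_zero] at this
      exact this.symm
    refine ⟨{z | |τ z - j| < 1 / 3}, fun z => (S j : E n →L[ℝ] E n) z, fun _ _ => 1, ?_, ?_,
      fun z _ => localDiffeo_clm (S j).injective z, fun k => contMDiffOn_const,
      fun _ _ _ => one_pos, fun z hz => ?_⟩
    · exact isOpen_lt (by fun_prop) continuous_const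
    · change |τ y - j| < 1 / 3
      rw [hτ]
      simp
    · rw [dq_clm]
      change |τ z - j| < 1 / 3 at hz
      rw [abs_lt] at hz
      rcases lt_or_ge (τ z) j with h | h
      · have hf : ⌊τ z⌋ = j - 1 := by
          rw [Int.floor_eq_iff]
          push_cast
          constructor <;> linarith
        have hfr : Int.fract (τ z) = τ z - (j - 1) := by
          rw [Int.fract, hf]
          push_cast
          ring
        ext u v
        have h1 := qform_apply (S j : E n →L[ℝ] E n) u v
        unfold qform at h1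
        rw [stair_apply, hf, hfr, cut_one (by linarith), h1]
        have h2 : j - 1 + 1 = j := by ring
        rw [h2]
        simp
      · have hf : ⌊τ z⌋ = j := by
          rw [Int.floor_eq_iff]
          constructor <;> linarith
        have hfr : Int.fract (τ z) = τ z - j := by
          rw [Int.fract, hf]
        ext u v
        have h1 := qform_apply (S j : E n →L[ℝ] E n) u v
        unfold qform at h1
        rw [stair_apply, hf, hfr, cut_zero (by linarith), h1]
        simp
  · -- between two levels
    have hlt := Int.fract_lt_one (τ y)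
    have hτ : τ y = j + Int.fract (τ y) := (Int.floor_add_fract (τ y)).symm
    let A : E n →L[ℝ] E n := (S j : E n →L[ℝ] E n)
    let L : E n →L[ℝ] E n := ((S j).symm.trans (S (j + 1)) : E n →L[ℝ] E n)
    obtain ⟨lam, R, hlam, hR⟩ := exists_eigen L ((S j).symm.trans (S (j + 1))).injective
    let Rc : E n →L[ℝ] E n := (R.toContinuousLinearEquiv : E n →L[ℝ] E n)
    have hRc : ∀ v, Rc v = R v := fun _ => rfl
    have hinj : Function.Injective (Rc.comp A) := fun u v huv =>
      (S j).injective (R.injective huv)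
    refine ⟨{z | (j : ℝ) < τ z ∧ τ z < j + 1}, fun z => (Rc.comp A) z,
      fun z k => (1 - cut (τ z - j)) + cut (τ z - j) * lam k, ?_, ?_,
      fun z _ => localDiffeo_clm hinj z, fun k => ?_, fun z _ k => ?_, fun z hz => ?_⟩
    · exact (isOpen_lt continuous_const τ.continuous).inter
        (isOpen_lt τ.continuous continuous_const)
    · constructor
      · linarith
      · linarith
    · have h1 : ContDiff ℝ ∞ (fun z : E n => cut (τ z - j)) :=
        contDiff_cut.comp (τ.contDiff.sub contDiff_const)
      exact ((contDiff_const.sub h1).add (h1.mul contDiff_const)).contMDiff.contMDiffOn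
    · have h1 : 0 ≤ cut (τ z - j) := Real.smoothTransition.nonneg _
      have h2 : cut (τ z - j) ≤ 1 := Real.smoothTransition.le_one _
      change 0 < (1 - cut (τ z - j)) + cut (τ z - j) * lam k
      rcases h1.eq_or_lt with h3 | h3
      · rw [← h3]
        norm_num
      · have := mul_pos h3 (hlam k)
        linarith
    · have hf : ⌊τ z⌋ = j := by
        rw [Int.floor_eq_iff]
        exact ⟨hz.1.le, hz.2⟩
      have hfr : Int.fract (τ z) = τ z - j := by rw [Int.fract, hf]
      rw [dq_clm]
      ext u v
      rw [stair_apply, hf, hfr, dform_apply]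
      have e1 : inner ℝ (S j u) (S j v) = ∑ k, R (S j u) k * R (S j v) k := by
        rw [← R.inner_map_map, PiLp.inner_apply]
        refine Finset.sum_congr rfl fun k _ => ?_
        simp [mul_comm]
      have e2 : inner ℝ (S (j + 1) u) (S (j + 1) v) =
          ∑ k, lam k * R (S j u) k * R (S j v) k := by
        rw [← hR]
        change _ = inner ℝ (S (j + 1) ((S j).symm (S j u))) (S (j + 1) ((S j).symm (S j v)))
        rw [(S j).symm_apply_apply, (S j).symm_apply_apply]
      rw [e1, e2, Finset.mul_sum, Finset.mul_sum, ← Finset.sum_add_distrib]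
      refine Finset.sum_congr rfl fun k _ => ?_
      change _ = ((1 - cut (τ z - j)) + cut (τ z - j) * lam k) * R (S j u) k * R (S j v) k
      ring

theorem inner_of_norm {A B : E n →L[ℝ] E n} (h : ∀ v, ‖A v‖ = ‖B v‖) (u v : E n) :
    inner ℝ (A u) (A v) = inner ℝ (B u) (B v) := by
  have h1 := real_inner_eq_norm_add_mul_self_sub_norm_mul_self_sub_norm_mul_self_div_two
    (A u) (A v)
  have h2 := real_inner_eq_norm_add_mul_self_sub_norm_mul_self_sub_norm_mul_self_div_two
    (B u) (B v)
  rw [h1, h2, ← map_add, ← map_add, h, h, h]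

variable {M : Type} [TopologicalSpace M] [ChartedSpace (E n) M]

theorem IsStaircase.hasOrthogonalMetric [IsManifold (𝓡 n) ∞ M] {τ : LinFun n}
    {S : ℤ → LinAut n} {p : E n → M} (H : IsStaircase n τ S p) :
    HasOrthogonalMetric n M := by
  refine hasOrthogonalMetric_of_descend (N := E n) isOpen_univ (i := p) (fun y _ => H.loc y)
    (fun x => ?_) (b := stair τ S) (fun y _ => diagAt_stair τ S y) ?_
  · obtain ⟨y, hy⟩ := H.surj x
    exact ⟨y, mem_univ y, hy⟩
  · intro y _ z _ hyz u v u' v' hu hv
    obtain ⟨s, m, C, hs, hτ', hp, hC⟩ := H.deck y z hyz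
    have hτ : τ z = s * τ y + m := hτ'
    have hd : ∀ u u' : E n, dm p y u = dm p z u' → u' = C u := by
      intro u u' h
      apply dm_injective (H.loc z)
      rw [← h]
      have h1 : p = p ∘ fun x => z + C (x - y) := by
        funext x
        have := hp (x - y)
        rw [add_sub_cancel] at this
        exact this
      have h2 : HasFDerivAt (fun x => z + C (x - y)) C y :=
        (C.hasFDerivAt.comp y ((hasFDerivAt_id y).sub_const y)).const_add z
      have hzy : (fun x => z + C (x - y)) y = z := by simp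
      have h3 : MDifferentiableAt (𝓡 n) (𝓡 n) (fun x => z + C (x - y)) y :=
        h2.differentiableAt.mdifferentiableAt
      have h4 : MDifferentiableAt (𝓡 n) (𝓡 n) p ((fun x => z + C (x - y)) y) :=
        (H.loc _).mdifferentiableAt (by simp)
      have h5 := mfderiv_comp y h4 h3
      rw [← h1] at h5
      have h6 := DFunLike.congr_fun h5 u
      have h7 : dm p y u = dm p ((fun x => z + C (x - y)) y)
          (dm (fun x => z + C (x - y)) y u) := h6
      rw [h7, hzy, dm_eq_fderiv, h2.fderiv]
    rw [hd u u' hu, hd v v' hv]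
    have hS : ∀ (j : ℤ) (u v : E n), inner ℝ (S (s * j + m) (C u)) (S (s * j + m) (C v)) =
        inner ℝ (S j u) (S j v) := by
      intro j u v
      exact inner_of_norm (A := (S (s * j + m) : E n →L[ℝ] E n).comp C)
        (B := (S j : E n →L[ℝ] E n)) (fun v => hC j v) u v
    rw [stair_apply, stair_apply]
    set j : ℤ := ⌊τ y⌋ with hj
    have hfr : τ y = j + Int.fract (τ y) := (Int.floor_add_fract (τ y)).symm
    have hf0 := Int.fract_nonneg (τ y)
    have hf1 := Int.fract_lt_one (τ y)
    rcases hs with rfl | rfl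
    · have hfz : ⌊τ z⌋ = 1 * j + m := by
        rw [Int.floor_eq_iff, hτ]
        push_cast
        constructor <;> linarith
      have hfrz : Int.fract (τ z) = Int.fract (τ y) := by
        rw [Int.fract, hfz, hτ]
        push_cast
        linarith
      rw [hfz, hfrz, hS]
      have h1 : 1 * j + m + 1 = 1 * (j + 1) + m := by ring
      rw [h1, hS]
    · rcases hf0.eq_or_lt with h0 | h0
      · have hfz : ⌊τ z⌋ = -1 * j + m := by
          rw [Int.floor_eq_iff, hτ]
          push_cast
          constructor <;> linarith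
        have hfrz : Int.fract (τ z) = 0 := by
          rw [Int.fract, hfz, hτ]
          push_cast
          linarith
        rw [hfz, hfrz, ← h0, hS, cut_zero (by norm_num)]
        ring
      · have hfz : ⌊τ z⌋ = -1 * (j + 1) + m := by
          rw [Int.floor_eq_iff, hτ]
          push_cast
          constructor <;> linarith
        have hfrz : Int.fract (τ z) = 1 - Int.fract (τ y) := by
          rw [Int.fract, hfz, hτ]
          push_cast
          linarith
        rw [hfz, hfrz, hS, cut_symm]
        have h1 : -1 * (j + 1) + m + 1 = -1 * j + m := by ring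
        rw [h1, hS]
        ring

theorem IsMappingTorus.isStaircase {τ : LinFun n} {B : LinAut n} {e : E n}
    {Λ : Set (E n)} {p : E n → M} (H : IsMappingTorus n τ B e Λ p) :
    IsStaircase n τ (fun j => B ^ (-j)) p := by
  refine ⟨H.loc, H.surj, fun y z hyz => ?_⟩
  obtain ⟨m, w, hw, hz'⟩ := (H.glue y z).1 hyz
  have hz : z = (B ^ m) y + m • e + w := hz'.symm
  have hstep : τ e = 1 := H.step
  have hfib : τ w = 0 := H.fibre w hw
  have hmul : ∀ (a b : ℤ) (v : E n), (B ^ a) ((B ^ b) v) = (B ^ (a + b)) v := by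
    intro a b v
    rw [zpow_add]
    rfl
  have hτB : ∀ (a : ℤ) (v : E n), τ ((B ^ a) v) = τ v := by
    have hnat : ∀ (a : ℕ) (v : E n), τ ((B ^ a) v) = τ v := by
      intro a
      induction a with
      | zero => intro v; rfl
      | succ a ih =>
        intro v
        rw [pow_succ]
        change τ ((B ^ a) (B v)) = τ v
        rw [ih]
        exact H.mono v
    intro a v
    obtain ⟨k, rfl | rfl⟩ := a.eq_nat_or_neg
    · rw [zpow_natCast]
      exact hnat k v
    · have h1 := hnat k ((B ^ (-(k : ℤ))) v)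
      rw [← zpow_natCast, hmul, add_neg_cancel, zpow_zero] at h1
      exact h1.symm
  refine ⟨1, m, ((B ^ m : E n ≃L[ℝ] E n) : E n →L[ℝ] E n), Or.inl rfl, ?_, ?_, ?_⟩
  · change τ z = _
    rw [hz, map_add, map_add, hτB, map_zsmul, hstep, hfib]
    simp
  · intro v
    rw [H.glue]
    refine ⟨m, w, hw, ?_⟩
    change (B ^ m) (y + v) + m • e + w = z + (B ^ m) v
    rw [hz]
    rw [map_add]
    abel
  · intro j v
    change ‖(B ^ (-(1 * j + m))) ((B ^ m) v)‖ = ‖(B ^ (-j)) v‖
    rw [hmul]
    congr 3
    ring

end Pool.Agent.OrthCoord
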