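import Pool.Agent.OrthCoord.TubeAdapted
import Pool.Agent.OrthCoord.Stair
import Pool.Agent.OrthCoord.FlatDefs

set_option autoImplicit false
open Bundle Set ContinuousLinearMap
open scoped Manifold ContDiff Topology

namespace Pool.Agent.OrthCoord

variable {n : ℕ}

/-- The first cut-off: `0` up to `-7/5` and `1` from `-6/5` on. -/
noncomputable def ccut (t : ℝ) : ℝ := Real.smoothTransition (5 * t + 7)

/-- The second cut-off: `0` up to `-1/3` and `1` from `1/3` on. -/
noncomputable def mcut (t : ℝ) : ℝ := cut ((t + 1) / 2)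

theorem ccut_zero {t : ℝ} (h : t ≤ -7 / 5) : ccut t = 0 :=
  Real.smoothTransition.zero_of_nonpos (by linarith)

theorem ccut_one {t : ℝ} (h : -6 / 5 ≤ t) : ccut t = 1 :=
  Real.smoothTransition.one_of_one_le (by linarith)

theorem ccut_nonneg (t : ℝ) : 0 ≤ ccut t := Real.smoothTransition.nonneg _

theorem ccut_le_one (t : ℝ) : ccut t ≤ 1 := Real.smoothTransition.le_one _

theorem contDiff_ccut : ContDiff ℝ ∞ ccut :=
  Real.smoothTransition.contDiff.comp ((contDiff_const.mul contDiff_id).add contDiff_const)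

theorem mcut_zero {t : ℝ} (h : t ≤ -1 / 3) : mcut t = 0 := cut_zero (by linarith)

theorem mcut_one {t : ℝ} (h : 1 / 3 ≤ t) : mcut t = 1 := cut_one (by linarith)

theorem mcut_nonneg (t : ℝ) : 0 ≤ mcut t := Real.smoothTransition.nonneg _

theorem mcut_le_one (t : ℝ) : mcut t ≤ 1 := Real.smoothTransition.le_one _

theorem contDiff_mcut : ContDiff ℝ ∞ mcut :=
  contDiff_cut.comp ((contDiff_id.add contDiff_const).div_const 2)

theorem mcut_neg (t : ℝ) : mcut (-t) = 1 - mcut t := by
  unfold mcut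
  rw [← cut_symm]
  congr 1
  ring

/-- The forms in a collar: `w` far from the cut, then the Euclidean form, then the Euclidean form
transported by `L`. -/
noncomputable def colForm (τ : LinFun n) (L : LinAut n)
    (w : E n → E n →L[ℝ] E n →L[ℝ] ℝ) (u : E n) : E n →L[ℝ] E n →L[ℝ] ℝ :=
  (1 - ccut (τ u)) • w u +
    ccut (τ u) • ((1 - mcut (τ u)) • qform (ContinuousLinearMap.id ℝ (E n)) +
      mcut (τ u) • qform (L : E n →L[ℝ] E n))

theorem colForm_apply (τ : LinFun n) (L : LinAut n)
    (w : E n → E n →L[ℝ] E n →L[ℝ] ℝ) (u x y : E n) :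
    colForm τ L w u x y = (1 - ccut (τ u)) * w u x y +
      ccut (τ u) * ((1 - mcut (τ u)) * inner ℝ x y + mcut (τ u) * inner ℝ (L x) (L y)) := by
  unfold colForm
  simp only [add_apply, smul_apply, smul_eq_mul, qform_apply]
  rfl

theorem diagAt_colForm_left {τ : LinFun n} {L : LinAut n}
    {w : E n → E n →L[ℝ] E n →L[ℝ] ℝ} {c : E n → Fin n → ℝ}
    (hw : ∀ u, |τ u| < 2 → w u = dform (c u) (ContinuousLinearMap.id ℝ (E n)))
    (hc : ∀ k, ContDiffOn ℝ ∞ (fun u => c u k) {u | |τ u| < 2})
    (hpos : ∀ u k, |τ u| < 2 → 0 < c u k) {u : E n} (h1 : -2 < τ u) (h2 : τ u < -1 / 3) :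
    DiagAt (colForm τ L w) u := by
  have hsub : ∀ y : E n, (-2 < τ y ∧ τ y < -1 / 3) → |τ y| < 2 := by
    intro y hy
    rw [abs_lt]
    constructor <;> linarith [hy.1, hy.2]
  refine ⟨{y | -2 < τ y ∧ τ y < -1 / 3}, fun v => v, fun y k =>
    (1 - ccut (τ y)) * c y k + ccut (τ y),
    (isOpen_lt continuous_const τ.continuous).inter (isOpen_lt τ.continuous continuous_const),
    ⟨h1, h2⟩, fun y _ => isLocalDiffeomorphAt_id y, fun k => ?_, fun y hy k => ?_,
    fun y hy => ?_⟩
  · refine contMDiffOn_iff_contDiffOn.2 ?_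
    have h3 : ContDiff ℝ ∞ (fun y : E n => ccut (τ y)) := contDiff_ccut.comp τ.contDiff
    exact ((contDiff_const.sub h3).contDiffOn.mul ((hc k).mono fun y hy => hsub y hy)).add
      h3.contDiffOn
  · have h3 := ccut_nonneg (τ y)
    have h4 := ccut_le_one (τ y)
    have h5 := hpos y k (hsub y hy)
    change 0 < (1 - ccut (τ y)) * c y k + ccut (τ y)
    rcases h3.eq_or_lt with h6 | h6
    · rw [← h6]
      linarith
    · have h7 : 0 ≤ (1 - ccut (τ y)) * c y k := mul_nonneg (by linarith) h5.le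
      linarith
  · rw [dq_id]
    ext x z
    rw [colForm_apply, dform_apply, hw y (hsub y hy), dform_apply, mcut_zero hy.2.le,
      PiLp.inner_apply]
    simp only [sub_zero, one_mul, zero_mul, add_zero, Finset.mul_sum]
    rw [← Finset.sum_add_distrib]
    refine Finset.sum_congr rfl fun k _ => ?_
    simp
    ring

theorem diagAt_colForm_right {τ : LinFun n} {L : LinAut n}
    {w : E n → E n →L[ℝ] E n →L[ℝ] ℝ} {u : E n} (h1 : -6 / 5 < τ u) :
    DiagAt (colForm τ L w) u := by
  obtain ⟨lam, R, hlam, hR⟩ := exists_eigen (L : E n →L[ℝ] E n) L.injective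
  let Rc : E n →L[ℝ] E n := (R.toContinuousLinearEquiv : E n →L[ℝ] E n)
  have hRc : ∀ v, Rc v = R v := fun _ => rfl
  refine ⟨{z | -6 / 5 < τ z}, fun z => Rc z,
    fun z k => (1 - mcut (τ z)) + mcut (τ z) * lam k,
    isOpen_lt continuous_const τ.continuous, h1,
    fun z _ => localDiffeo_clm R.injective z, fun k => ?_, fun z _ k => ?_, fun z hz => ?_⟩
  · have h3 : ContDiff ℝ ∞ (fun z : E n => mcut (τ z)) := contDiff_mcut.comp τ.contDiff
    exact ((contDiff_const.sub h3).add (h3.mul contDiff_const)).contMDiff.contMDiffOn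
  · have h3 := mcut_nonneg (τ z)
    have h4 := mcut_le_one (τ z)
    change 0 < (1 - mcut (τ z)) + mcut (τ z) * lam k
    rcases h3.eq_or_lt with h5 | h5
    · rw [← h5]
      norm_num
    · have := mul_pos h5 (hlam k)
      linarith
  · rw [dq_clm]
    ext x y
    have h5 : inner ℝ x y = ∑ k, R x k * R y k := by
      rw [← R.inner_map_map, PiLp.inner_apply]
      refine Finset.sum_congr rfl fun k _ => ?_
      simp [mul_comm]
    have h6 : inner ℝ (L x) (L y) = ∑ k, lam k * R x k * R y k := hR x y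
    rw [colForm_apply, dform_apply, ccut_one (le_of_lt hz), h5, h6]
    simp only [sub_self, zero_mul, zero_add, one_mul, Finset.mul_sum]
    rw [← Finset.sum_add_distrib]
    refine Finset.sum_congr rfl fun k _ => ?_
    rw [hRc x, hRc y]
    ring

end Pool.Agent.OrthCoord
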