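import Pool.Agent.OrthCoord.FlatForm

set_option autoImplicit false
open Bundle Set ContinuousLinearMap
open scoped Manifold ContDiff Topology

namespace Pool.Agent.OrthCoord

variable {n : ℕ} {ι N M : Type} [TopologicalSpace N] [ChartedSpace (E n) N]
  [TopologicalSpace M] [ChartedSpace (E n) M]
  {τ : ι → Bool → LinFun n} {C : ι → Bool → E n → N} {L : ι → LinAut n} {R : Set N}

/-- The gluing isomorphism seen from the collar `C a j`. -/
def gmap (L : ι → LinAut n) (a : ι) (j : Bool) : LinAut n := if j then (L a).symm else L a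

theorem gmap_gmap (a : ι) (j : Bool) (u : E n) : gmap L a (!j) (gmap L a j u) = u := by
  cases j
  · exact (L a).symm_apply_apply u
  · exact (L a).apply_symm_apply u

theorem isOpen_slab (τ : LinFun n) (r : ℝ) : IsOpen {u : E n | |τ u| < r} :=
  isOpen_lt τ.continuous.abs continuous_const

/-- Local matching of a collar with itself. -/
theorem Collars.dm_deck (hC : Collars n τ C) {a : ι} {j : Bool} {u v : E n}
    (hu : |τ a j u| < 2) (hv : |τ a j v| < 2) (h : C a j u = C a j v) :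
    ∃ A : E n →L[ℝ] E n, (∀ w, ‖A w‖ = ‖w‖) ∧
      ∀ x, dm (C a j) u x = dm (C a j) v (A x) := by
  obtain ⟨A, hA, hm⟩ := hC.deck a j u v hu hv h
  have hev : ∀ᶠ w in 𝓝 (0 : E n), C a j (u + w) = C a j (v + A w) := by
    have h1 : ContinuousAt (fun w : E n => u + w) 0 := by fun_prop
    have h2 := h1.preimage_mem_nhds (t := {z : E n | |τ a j z| < 2})
      ((isOpen_slab (τ a j) 2).mem_nhds (by simpa using hu))
    filter_upwards [h2] with w hw
    exact hm w hw
  refine ⟨A, hA, fun x => ?_⟩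
  have h3 : ∀ z : E n, HasFDerivAt (fun x : E n => v + A (x - u)) A z := fun z =>
    (A.hasFDerivAt.comp z ((hasFDerivAt_id z).sub_const u)).const_add v
  have hAinj : Function.Injective A := by
    refine (injective_iff_map_eq_zero A).2 fun w hw => ?_
    have h0 : ‖A w‖ = ‖w‖ := hA w
    rw [hw, norm_zero] at h0
    exact norm_eq_zero.1 h0.symm
  have h4 : IsLocalDiffeomorphAt (𝓡 n) (𝓡 n) ∞ (fun x : E n => v + A (x - u)) u := by
    refine localDiffeo_of_fderiv (by fun_prop) (fun z => ?_) u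
    rw [(h3 z).fderiv]
    exact hAinj
  have h6 : v + A (u - u) = v := by simp
  have h7 := dm_eq_of_comp (p := C a j) (p' := C a j) (τ := fun x : E n => v + A (x - u)) h4
    (by
      rw [h6]
      exact hC.loc a j v hv) (by
      have h8 : Filter.Tendsto (fun x : E n => x - u) (𝓝 u) (𝓝 0) := by
        have : ContinuousAt (fun x : E n => x - u) u := by fun_prop
        simpa [ContinuousAt] using this
      filter_upwards [h8.eventually hev] with z hz
      have h9 : u + (z - u) = z := by abel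
      rw [h9] at hz
      exact hz.symm) x
  change dm (C a j) u x = dm (C a j) (v + A (u - u)) _ at h7
  rw [h6, dm_eq_fderiv, (h3 u).fderiv] at h7
  exact h7

/-- Gluing along collars whose coordinates are orthogonal for the metric. -/
theorem IsCollarGluing.hasOrthogonalMetric [Finite ι] [IsManifold (𝓡 n) ∞ N]
    [IsManifold (𝓡 n) ∞ M] (hC : Collars n τ C) {i : N → M} (H : IsCollarGluing n τ C L R i)
    (g : RMetric n N) (hg : HasOrthCoords n g) (hA : CollarAdapted n g τ C) :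
    HasOrthogonalMetric n M := by
  set V : Set N := {y | y ∉ R ∧ ∀ a j, y ∉ C a j '' {u | |τ a j u| ≤ 3 / 2}} with hV
  have hVo : IsOpen V := by
    have h1 : V = Rᶜ ∩ ⋂ a, ⋂ j, (C a j '' {u | |τ a j u| ≤ 3 / 2})ᶜ := by
      ext y
      simp [hV]
    rw [h1]
    exact H.closed.isOpen_compl.inter (isOpen_iInter_of_finite fun a =>
      isOpen_iInter_of_finite fun j => (hC.closed a j _ (by norm_num)).isOpen_compl)
  have habs : ∀ a j u, -2 < τ a j u → τ a j u < 1 → |τ a j u| < 2 := by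
    intro a j u h1 h2
    rw [abs_lt]
    constructor <;> linarith
  have habs' : ∀ a j u, |τ a j u| < 1 → -2 < τ a j u ∧ τ a j u < 1 := by
    intro a j u h1
    rw [abs_lt] at h1
    constructor <;> linarith [h1.1, h1.2]
  have hVr : ∀ a j u, |τ a j u| < 2 → C a j u ∈ V → τ a j u < -3 / 2 := by
    intro a j u hu hy
    have h1 : τ a j u < 1 := by
      by_contra hcon
      push Not at hcon
      exact hy.1 ((H.cut a j u hu).2 hcon)
    by_contra hcon
    push Not at hcon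
    refine hy.2 a j ⟨u, ?_, rfl⟩
    change |τ a j u| ≤ 3 / 2
    rw [abs_le]
    constructor <;> linarith
  have hW : ∀ a j, IsOpen {u : E n | -2 < τ a j u ∧ τ a j u < 1} := fun a j =>
    (isOpen_lt continuous_const (τ a j).continuous).inter
      (isOpen_lt (τ a j).continuous continuous_const)
  have hnR : ∀ a j u, -2 < τ a j u → τ a j u < 1 → C a j u ∉ R := by
    intro a j u h1 h2 h3
    have h4 := (H.cut a j u (habs a j u h1 h2)).1 h3
    change 1 ≤ τ a j u at h4
    linarith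
  have hiC : ∀ a j u, -2 < τ a j u → τ a j u < 1 →
      IsLocalDiffeomorphAt (𝓡 n) (𝓡 n) ∞ i (C a j u) := fun a j u h1 h2 =>
    H.loc _ (hnR a j u h1 h2)
  have hp : ∀ a j u, -2 < τ a j u → τ a j u < 1 →
      IsLocalDiffeomorphAt (𝓡 n) (𝓡 n) ∞ (i ∘ C a j) u := by
    intro a j u h1 h2
    have h3 : IsLocalDiffeomorphAt (𝓡 n) (𝓡 n) ∞ (C a j) u := hC.loc a j u (habs a j u h1 h2)
    exact h3.comp _ _ (hiC a j u h1 h2)
  have hswap : ∀ a j u, τ a (!j) (gmap L a j u) = -τ a j u := by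
    intro a j u
    cases j
    · exact H.swap a u
    · have h1 := H.swap a ((L a).symm u)
      have h2 : (L a).val ((L a).symm u) = u := (L a).apply_symm_apply u
      rw [h2] at h1
      change τ a false ((L a).symm u) = -τ a true u
      change τ a true u = -τ a false ((L a).symm u) at h1
      linarith
  have hlk : ∀ y z, CollarLinked τ C L y z ∨ CollarLinked τ C L z y → ∃ a j u,
      |τ a j u| < 1 ∧ C a j u = y ∧ C a (!j) (gmap L a j u) = z := by
    rintro y z (⟨a, u, h1, h2, h3⟩ | ⟨a, u, h1, h2, h3⟩)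
    · exact ⟨a, false, u, h1, h2, h3⟩
    · refine ⟨a, true, (L a).val u, ?_, h3, ?_⟩
      · have h4 := H.swap a u
        change τ a true ((L a).val u) = -τ a false u at h4
        rw [h4, abs_neg]
        exact h1
      · change C a false ((L a).symm ((L a) u)) = z
        rw [(L a).symm_apply_apply]
        exact h2
  have hlink : ∀ a j u, |τ a j u| < 1 → i (C a (!j) (gmap L a j u)) = i (C a j u) := by
    intro a j u h1
    obtain ⟨h2, h3⟩ := habs' a j u h1
    have h4 : |τ a (!j) (gmap L a j u)| < 1 := by rw [hswap, abs_neg]; exact h1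
    obtain ⟨h5, h6⟩ := habs' a (!j) _ h4
    refine ((H.glue _ _ (hnR a j u h2 h3) (hnR a (!j) _ h5 h6)).2 (Or.inr ?_)).symm
    cases j
    · exact Or.inl ⟨a, u, h1, rfl, rfl⟩
    · refine Or.inr ⟨a, (L a).symm u, h4, rfl, ?_⟩
      change C a true ((L a) ((L a).symm u)) = C a true u
      rw [(L a).apply_symm_apply]
  -- the differential of the gluing
  have hdlink : ∀ a j u, |τ a j u| < 1 → ∀ x, dm (i ∘ C a j) u x =
      dm (i ∘ C a (!j)) (gmap L a j u) (gmap L a j x) := by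
    intro a j u h1 x
    have h4 : |τ a (!j) (gmap L a j u)| < 1 := by rw [hswap, abs_neg]; exact h1
    obtain ⟨h5, h6⟩ := habs' a (!j) _ h4
    have h7 := dm_eq_of_comp (p := i ∘ C a j) (p' := i ∘ C a (!j))
      (τ := fun z => (gmap L a j : E n →L[ℝ] E n) z)
      (localDiffeo_clm (L := (gmap L a j : E n →L[ℝ] E n)) (gmap L a j).injective u)
      (hp a (!j) _ h5 h6) (by
        filter_upwards [(isOpen_slab (τ a j) 1).mem_nhds h1] with z hz
        exact hlink a j z hz) x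
    rw [dm_eq_fderiv, fderiv_clm] at h7
    exact h7
  -- the conjugates of the deck maps are isometries
  have hkey : ∀ a j u v, |τ a j u| < 1 → C a j u = C a j v → |τ a j v| < 2 →
      ∀ A : E n →L[ℝ] E n, (∀ x, dm (C a j) u x = dm (C a j) v (A x)) →
      ∀ x, ‖gmap L a j (A x)‖ = ‖gmap L a j x‖ := by
    intro a j u v hu huv hv A hdA x
    obtain ⟨hu2, hu3⟩ := habs' a j u hu
    have hlev : τ a j u = τ a j v := hC.level a j u v (habs a j u hu2 hu3) hv huv
    have hv1 : |τ a j v| < 1 := by rw [← hlev]; exact hu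
    obtain ⟨hv2, hv3⟩ := habs' a j v hv1
    have hgu : |τ a (!j) (gmap L a j u)| < 1 := by rw [hswap, abs_neg]; exact hu
    have hgv : |τ a (!j) (gmap L a j v)| < 1 := by rw [hswap, abs_neg]; exact hv1
    obtain ⟨hgu2, hgu3⟩ := habs' a (!j) _ hgu
    obtain ⟨hgv2, hgv3⟩ := habs' a (!j) _ hgv
    have h1 : i (C a (!j) (gmap L a j u)) = i (C a (!j) (gmap L a j v)) := by
      rw [hlink a j u hu, hlink a j v hv1, huv]
    have h2 : C a (!j) (gmap L a j u) = C a (!j) (gmap L a j v) := by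
      rcases (H.glue _ _ (hnR a (!j) _ hgu2 hgu3) (hnR a (!j) _ hgv2 hgv3)).1 h1 with h | h
      · exact h
      · exfalso
        obtain ⟨a₁, j₁, u₁, h3, h4, h5⟩ := hlk _ _ h
        obtain ⟨h6, h7⟩ := habs' a₁ j₁ u₁ h3
        have h8 : |τ a₁ (!j₁) (gmap L a₁ j₁ u₁)| < 1 := by rw [hswap, abs_neg]; exact h3
        obtain ⟨h9, h10⟩ := habs' a₁ (!j₁) _ h8
        have h11 := (hC.disj _ _ _ _ _ _ (habs _ _ _ h6 h7) (habs _ _ _ hgu2 hgu3) h4).2
        have h12 := (hC.disj _ _ _ _ _ _ (habs _ _ _ h9 h10) (habs _ _ _ hgv2 hgv3) h5).2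
        rw [h11] at h12
        cases j <;> simp at h12
    obtain ⟨A', hA', hd'⟩ := hC.dm_deck (habs _ _ _ hgu2 hgu3) (habs _ _ _ hgv2 hgv3) h2
    have h3 : dm (i ∘ C a (!j)) (gmap L a j v) (gmap L a j (A x)) =
        dm (i ∘ C a (!j)) (gmap L a j v) (A' (gmap L a j x)) := by
      rw [← hdlink a j v hv1, dm_comp (hiC a j v hv2 hv3) (hC.loc a j v hv), ← hdA, ← huv,
        ← dm_comp (hiC a j u hu2 hu3) (hC.loc a j u (habs _ _ _ hu2 hu3)), hdlink a j u hu,
        dm_comp (hiC a (!j) _ hgu2 hgu3) (hC.loc a (!j) _ (habs _ _ _ hgu2 hgu3)), hd', h2,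
        ← dm_comp (hiC a (!j) _ hgv2 hgv3) (hC.loc a (!j) _ (habs _ _ _ hgv2 hgv3))]
    have h4 := dm_injective (hp a (!j) _ hgv2 hgv3) h3
    rw [h4, hA']
  set b : ι → Bool → E n → E n →L[ℝ] E n →L[ℝ] ℝ := fun a j =>
    colForm (τ a j) (gmap L a j) (pull (C a j) fun y => form g y) with hbdef
  have hb : ∀ a j u, -2 < τ a j u → τ a j u < 1 → DiagAt (b a j) u := by
    intro a j u h1 h2
    rcases lt_or_ge (τ a j u) (-1 / 3) with h3 | h3
    · refine diagAt_colForm_left (c := fun u k => coef g (C a j) u k k) (fun v hv => ?_)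
        (fun k => ?_) (fun v k hv => ?_) h1 h3
      · ext x y
        rw [pull_apply, dform_apply]
        exact bilin_expand (form g (C a j v)) (dp (C a j) v)
          (fun p q hpq => hA a j v hv p q hpq) x y
      · exact contDiffOn_coef g (isOpen_slab (τ a j) 2) (fun v hv =>
          (hC.loc a j v hv).contMDiffAt.contMDiffWithinAt) k k
      · refine g.pos (C a j v) (dp (C a j) v (basisVec k)) ?_
        intro h0
        have h6 : (basisVec k : E n) = 0 :=
          mfderiv_injective (hC.loc a j v hv) (h0.trans (map_zero (dp (C a j) v)).symm)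
        have h7 := congrArg (fun v : E n => v k) h6
        simp at h7
    · exact diagAt_colForm_right (by linarith)
  -- the three coincidence lemmas
  have hNN : ∀ y ∈ V, ∀ z ∈ V, i y = i z → y = z := by
    intro y hy z hz h
    rcases (H.glue y z hy.1 hz.1).1 h with h | h
    · exact h
    · obtain ⟨a, j, u, h1, rfl, -⟩ := hlk y z h
      obtain ⟨h2, h3⟩ := habs' a j u h1
      have h4 := hVr a j u (habs _ _ _ h2 h3) hy
      rw [abs_lt] at h1
      linarith [h1.1]
  have hNT : ∀ y ∈ V, ∀ a j u, -2 < τ a j u → τ a j u < 1 → i y = i (C a j u) →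
      y = C a j u ∧ τ a j u < -3 / 2 := by
    intro y hy a j u h1 h2 h
    rcases (H.glue y _ hy.1 (hnR a j u h1 h2)).1 h with h3 | h3
    · refine ⟨h3, hVr a j u (habs _ _ _ h1 h2) ?_⟩
      rw [← h3]
      exact hy
    · exfalso
      obtain ⟨a₁, j₁, u₁, h4, rfl, -⟩ := hlk _ _ h3
      obtain ⟨h5, h6⟩ := habs' a₁ j₁ u₁ h4
      have h7 := hVr a₁ j₁ u₁ (habs _ _ _ h5 h6) hy
      rw [abs_lt] at h4
      linarith [h4.1]
  let G : M → (E n →L[ℝ] E n) → (E n →L[ℝ] E n →L[ℝ] ℝ) → Prop := fun x K γ =>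
    (∃ y ∈ V, i y = x ∧ dm i y = K ∧ form g y = γ) ∨
    (∃ a j u, -2 < τ a j u ∧ τ a j u < 1 ∧ i (C a j u) = x ∧ dm (i ∘ C a j) u = K ∧
      b a j u = γ)
  have hcov' : ∀ x, (∃ y ∈ V, i y = x) ∨
      (∃ a j u, -2 < τ a j u ∧ τ a j u < 1 ∧ i (C a j u) = x) := by
    intro x
    obtain ⟨y, hy, rfl⟩ := H.surj x
    by_cases hyV : y ∈ V
    · exact Or.inl ⟨y, hyV, rfl⟩
    · right
      have h0 : ∃ a j, y ∈ C a j '' {u | |τ a j u| ≤ 3 / 2} := by
        by_contra hcon
        push Not at hcon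
        exact hyV ⟨hy, hcon⟩
      obtain ⟨a, j, u, hu, rfl⟩ := h0
      have hu' : |τ a j u| ≤ 3 / 2 := hu
      rw [abs_le] at hu'
      refine ⟨a, j, u, by linarith [hu'.1], ?_, rfl⟩
      by_contra hcon
      push Not at hcon
      refine hy ((H.cut a j u ?_).2 hcon)
      change |τ a j u| < 2
      rw [abs_lt]
      constructor <;> linarith [hu'.1, hu'.2]
  have hbij : ∀ x K γ, G x K γ → Function.Bijective K := by
    rintro x K γ (⟨y, hy, -, rfl, -⟩ | ⟨a, j, u, h1, h2, -, rfl, -⟩)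
    · exact dm_bijective (H.loc y hy.1)
    · exact dm_bijective (hp a j u h1 h2)
  have hcov : ∀ x, ∃ K γ, G x K γ := by
    intro x
    rcases hcov' x with ⟨y, hy, h⟩ | ⟨a, j, u, h1, h2, h⟩
    · exact ⟨_, _, Or.inl ⟨y, hy, h, rfl, rfl⟩⟩
    · exact ⟨_, _, Or.inr ⟨a, j, u, h1, h2, h, rfl, rfl⟩⟩
  -- compatibility of a form on `N` and a form on a collar
  have hkeyNT : ∀ y ∈ V, ∀ a j u, -2 < τ a j u → τ a j u < 1 → i y = i (C a j u) →
      ∀ x c x' c', dm i y x = dm (i ∘ C a j) u x' → dm i y c = dm (i ∘ C a j) u c' →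
      form g y x c = b a j u x' c' := by
    intro y hy a j u h1 h2 h x c x' c' hx hc
    obtain ⟨rfl, h3⟩ := hNT y hy a j u h1 h2 h
    have hiy := hiC a j u h1 h2
    have hd : ∀ x x' : E n, dm i (C a j u) x = dm (i ∘ C a j) u x' → x = dm (C a j) u x' := by
      intro x x' hx
      rw [dm_comp hiy (hC.loc a j u (habs _ _ _ h1 h2))] at hx
      exact dm_injective hiy hx
    rw [hd x x' hx, hd c c' hc, hbdef]
    change _ = colForm (τ a j) (gmap L a j) (pull (C a j) fun y => form g y) u x' c'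
    rw [colForm_apply, ccut_zero (by linarith), pull_apply]
    ring
  -- compatibility of two forms on collars
  have hTT : ∀ a j u, -2 < τ a j u → τ a j u < 1 → ∀ a' k v, -2 < τ a' k v → τ a' k v < 1 →
      i (C a j u) = i (C a' k v) → ∀ x c x' c', dm (i ∘ C a j) u x = dm (i ∘ C a' k) v x' →
      dm (i ∘ C a j) u c = dm (i ∘ C a' k) v c' → b a j u x c = b a' k v x' c' := by
    intro a j u h1 h2 a' k v h3 h4 h x c x' c' hx hc
    rcases (H.glue _ _ (hnR a j u h1 h2) (hnR a' k v h3 h4)).1 h with h5 | h5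
    · -- the same point of the same collar
      obtain ⟨rfl, rfl⟩ := hC.disj _ _ _ _ _ _ (habs _ _ _ h1 h2) (habs _ _ _ h3 h4) h5
      have hlev : τ a j u = τ a j v :=
        hC.level a j u v (habs _ _ _ h1 h2) (habs _ _ _ h3 h4) h5
      obtain ⟨A, hAn, hdA⟩ := hC.dm_deck (habs _ _ _ h1 h2) (habs _ _ _ h3 h4) h5
      have hd : ∀ x x' : E n, dm (i ∘ C a j) u x = dm (i ∘ C a j) v x' → x' = A x := by
        intro x x' hxx
        rw [dm_comp (hiC a j u h1 h2) (hC.loc a j u (habs _ _ _ h1 h2)), hdA, h5,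
          ← dm_comp (hiC a j v h3 h4) (hC.loc a j v (habs _ _ _ h3 h4))] at hxx
        exact (dm_injective (hp a j v h3 h4) hxx).symm
      rw [hd x x' hx, hd c c' hc, hbdef]
      change colForm (τ a j) (gmap L a j) (pull (C a j) fun y => form g y) u x c =
        colForm (τ a j) (gmap L a j) (pull (C a j) fun y => form g y) v (A x) (A c)
      rw [colForm_apply, colForm_apply, ← hlev, pull_apply, pull_apply, hdA, hdA, h5,
        inner_of_norm (A := A) (B := ContinuousLinearMap.id ℝ (E n)) hAn x c]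
      rcases lt_or_ge (-1) (τ a j u) with h6 | h6
      · have h7 : |τ a j u| < 1 := by rw [abs_lt]; exact ⟨h6, h2⟩
        have h8 := hkey a j u v h7 h5 (habs _ _ _ h3 h4) A hdA
        have h9 := inner_of_norm (A := (gmap L a j : E n →L[ℝ] E n).comp A)
          (B := (gmap L a j : E n →L[ℝ] E n)) h8 x c
        have h10 : inner ℝ (gmap L a j (A x)) (gmap L a j (A c)) =
          inner ℝ (gmap L a j x) (gmap L a j c) := h9
        rw [h10]
        rfl
      · rw [mcut_zero (by linarith)]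
        simp
    · -- linked points
      obtain ⟨a₁, j₁, u₁, h6, h7, h8⟩ := hlk _ _ h5
      obtain ⟨h9, h10⟩ := habs' a₁ j₁ u₁ h6
      have h11 : |τ a₁ (!j₁) (gmap L a₁ j₁ u₁)| < 1 := by rw [hswap, abs_neg]; exact h6
      obtain ⟨h12, h13⟩ := habs' a₁ (!j₁) _ h11
      obtain ⟨rfl, rfl⟩ := hC.disj _ _ _ _ _ _ (habs _ _ _ h9 h10) (habs _ _ _ h1 h2) h7
      obtain ⟨rfl, rfl⟩ := hC.disj _ _ _ _ _ _ (habs _ _ _ h12 h13) (habs _ _ _ h3 h4) h8
      have hlev : τ a₁ j₁ u = τ a₁ j₁ u₁ :=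
        hC.level _ _ _ _ (habs _ _ _ h1 h2) (habs _ _ _ h9 h10) h7.symm
      have hlev0 : τ a₁ (!j₁) (gmap L a₁ j₁ u₁) = τ a₁ (!j₁) v :=
        hC.level _ _ _ _ (habs _ _ _ h12 h13) (habs _ _ _ h3 h4) h8
      have hlev' : τ a₁ (!j₁) v = -τ a₁ j₁ u := by
        rw [← hlev0, hswap, hlev]
      have hu1 : |τ a₁ j₁ u| < 1 := by rw [hlev]; exact h6
      obtain ⟨A₁, hA₁, hd₁⟩ := hC.dm_deck (habs _ _ _ h1 h2) (habs _ _ _ h9 h10) h7.symm
      obtain ⟨A₂, hA₂, hd₂⟩ := hC.dm_deck (habs _ _ _ h12 h13) (habs _ _ _ h3 h4) h8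
      have hd : ∀ x x' : E n, dm (i ∘ C a₁ j₁) u x = dm (i ∘ C a₁ (!j₁)) v x' →
          x' = A₂ (gmap L a₁ j₁ (A₁ x)) := by
        intro x x' hxx
        rw [dm_comp (hiC _ _ u h1 h2) (hC.loc _ _ u (habs _ _ _ h1 h2)), hd₁, ← h7,
          ← dm_comp (hiC _ _ u₁ h9 h10) (hC.loc _ _ u₁ (habs _ _ _ h9 h10)),
          hdlink _ _ u₁ h6,
          dm_comp (hiC _ _ _ h12 h13) (hC.loc _ _ _ (habs _ _ _ h12 h13)), hd₂, h8,
          ← dm_comp (hiC _ _ v h3 h4) (hC.loc _ _ v (habs _ _ _ h3 h4))] at hxx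
        exact (dm_injective (hp _ _ v h3 h4) hxx).symm
      have hk₁ := hkey _ _ u u₁ hu1 h7.symm (habs _ _ _ h9 h10) A₁ hd₁
      have hk₂ := hkey _ _ _ v h11 h8 (habs _ _ _ h3 h4) A₂ hd₂
      rw [hd x x' hx, hd c c' hc, hbdef]
      change colForm (τ a₁ j₁) (gmap L a₁ j₁) (pull (C a₁ j₁) fun y => form g y) u x c =
        colForm (τ a₁ (!j₁)) (gmap L a₁ (!j₁)) (pull (C a₁ (!j₁)) fun y => form g y) v
          (A₂ (gmap L a₁ j₁ (A₁ x))) (A₂ (gmap L a₁ j₁ (A₁ c)))
      rw [abs_lt] at hu1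
      rw [colForm_apply, colForm_apply, ccut_one (by linarith [hu1.1]), hlev',
        ccut_one (by linarith [hu1.2]), mcut_neg]
      have e1 : inner ℝ (A₂ (gmap L a₁ j₁ (A₁ x))) (A₂ (gmap L a₁ j₁ (A₁ c))) =
          inner ℝ (gmap L a₁ j₁ x) (gmap L a₁ j₁ c) := by
        have h14 := inner_of_norm (A := A₂) (B := ContinuousLinearMap.id ℝ (E n)) hA₂
          (gmap L a₁ j₁ (A₁ x)) (gmap L a₁ j₁ (A₁ c))
        have h15 := inner_of_norm (A := (gmap L a₁ j₁ : E n →L[ℝ] E n).comp A₁)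
          (B := (gmap L a₁ j₁ : E n →L[ℝ] E n)) hk₁ x c
        exact h14.trans h15
      have e2 : inner ℝ (gmap L a₁ (!j₁) (A₂ (gmap L a₁ j₁ (A₁ x))))
          (gmap L a₁ (!j₁) (A₂ (gmap L a₁ j₁ (A₁ c)))) = inner ℝ x c := by
        have h14 := inner_of_norm (A := (gmap L a₁ (!j₁) : E n →L[ℝ] E n).comp A₂)
          (B := (gmap L a₁ (!j₁) : E n →L[ℝ] E n)) hk₂
          (gmap L a₁ j₁ (A₁ x)) (gmap L a₁ j₁ (A₁ c))
        have h15 := inner_of_norm (A := A₁) (B := ContinuousLinearMap.id ℝ (E n)) hA₁ x c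
        refine h14.trans ?_
        change inner ℝ (gmap L a₁ (!j₁) (gmap L a₁ j₁ (A₁ x)))
          (gmap L a₁ (!j₁) (gmap L a₁ j₁ (A₁ c))) = _
        rw [gmap_gmap, gmap_gmap]
        exact h15
      rw [e1, e2]
      ring
  have hcons : ∀ x K γ K' γ', G x K γ → G x K' γ' → ∀ a c a' c', K a = K' a' → K c = K' c' →
      γ a c = γ' a' c' := by
    rintro x K γ K' γ' (⟨y, hy, rfl, rfl, rfl⟩ | ⟨a, j, u, h1, h2, rfl, rfl, rfl⟩)
      (⟨z, hz, hx, rfl, rfl⟩ | ⟨b', k, v, h3, h4, hx, rfl, rfl⟩) α δ α' δ' hα hδ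
    · have h5 := hNN z hz y hy hx
      subst h5
      have hinj := dm_injective (H.loc z hz.1)
      rw [hinj hα, hinj hδ]
    · exact hkeyNT y hy b' k v h3 h4 hx.symm α δ α' δ' hα hδ
    · exact (hkeyNT z hz a j u h1 h2 hx α' δ' α δ hα.symm hδ.symm).symm
    · exact hTT a j u h1 h2 b' k v h3 h4 hx.symm α δ α' δ' hα hδ
  obtain ⟨B, hB⟩ := exists_field G hbij hcov hcons
  refine hasOrthogonalMetric_of_diagAt (b := B) fun x => ?_
  rcases hcov' x with ⟨y, hy, rfl⟩ | ⟨a, j, u, h1, h2, rfl⟩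
  · refine DiagAt.push (H.loc y hy.1) (b := fun y => form g y) ?_ hVo hy
      (fun z hz α γ => hB _ _ _ (Or.inl ⟨z, hz, rfl, rfl, rfl⟩) α γ)
    obtain ⟨U, φ, ψ, hU, hx, hU', h1, h2, h3, h4, h5⟩ := hg y
    exact diagAt_of_chart g hU hx hU' h1 h2 h3 h4 h5
  · exact DiagAt.push (f := i ∘ C a j) (hp a j u h1 h2) (hb a j u h1 h2) (hW a j) ⟨h1, h2⟩
      (fun z hz α γ => hB _ _ _ (Or.inr ⟨a, j, z, hz.1, hz.2, rfl, rfl, rfl⟩) α γ)

end Pool.Agent.OrthCoord
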