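import Pool.Agent.OrthCoord.Disc

set_option autoImplicit false
open Bundle Set ContinuousLinearMap
open scoped Manifold ContDiff Topology

namespace Pool.Agent.OrthCoord

variable {n : ℕ} {M N : Type} [TopologicalSpace M] [ChartedSpace (E n) M]
  [TopologicalSpace N] [ChartedSpace (E n) N]

/-- Push-forward of a locally diagonal form along a local diffeomorphism. -/
theorem DiagAt.push {f : N → M} {y : N} (hf : IsLocalDiffeomorphAt (𝓡 n) (𝓡 n) ∞ f y)
    {b : N → E n →L[ℝ] E n →L[ℝ] ℝ} (hb : DiagAt b y) {B : M → E n →L[ℝ] E n →L[ℝ] ℝ}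
    {O : Set N} (hO : IsOpen O) (hyO : y ∈ O)
    (h : ∀ z ∈ O, ∀ a c : E n, B (f z) (dm f z a) (dm f z c) = b z a c) :
    DiagAt B (f y) := by
  obtain ⟨Φ, hΦ, hEq⟩ := hf
  have hy0 : f y ∈ Φ.target := by
    rw [hEq hΦ]
    exact Φ.map_source hΦ
  have hinv0 : Φ.invFun (f y) = y := by
    rw [hEq hΦ]
    exact Φ.left_inv hΦ
  have hj : ∀ x ∈ Φ.target, IsLocalDiffeomorphAt (𝓡 n) (𝓡 n) ∞ Φ.invFun x := fun x hx =>
    ⟨Φ.symm, hx, fun _ _ => rfl⟩
  have hfl : ∀ z ∈ Φ.source, IsLocalDiffeomorphAt (𝓡 n) (𝓡 n) ∞ f z := fun z hz => ⟨Φ, hz, hEq⟩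
  have h1 : DiagAt (Pool.Agent.OrthCoord.pull Φ.invFun b) (f y) := by
    refine DiagAt.pull (hj _ hy0) ?_
    rw [hinv0]
    exact hb
  have hO' : IsOpen (Φ.target ∩ Φ.invFun ⁻¹' O) :=
    Φ.contMDiffOn_invFun.continuousOn.isOpen_inter_preimage Φ.open_target hO
  refine h1.congr hO' ⟨hy0, ?_⟩ ?_
  · change Φ.invFun (f y) ∈ O
    rw [hinv0]
    exact hyO
  · intro x hx
    have hix : ∀ y ∈ Φ.target, f (Φ.invFun y) = y := by
      intro y hy
      exact (hEq (Φ.map_target hy)).trans (Φ.right_inv hy)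
    have hd : ∀ u : E n, dm f (Φ.invFun x) (dm Φ.invFun x u) = u := by
      intro u
      have h7 : IsLocalDiffeomorphAt (𝓡 n) (𝓡 n) ∞ f (Φ.invFun x) := hfl _ (Φ.map_target hx.1)
      rw [← dm_comp h7 (hj x hx.1)]
      have hc : dm (f ∘ Φ.invFun) x = ContinuousLinearMap.id ℝ (E n) := by
        have h3 : dm (id : M → M) x = ContinuousLinearMap.id ℝ (E n) := mfderiv_id
        rw [← h3]
        apply dm_congr
        filter_upwards [Φ.open_target.mem_nhds hx.1] with y hy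
        exact hix y hy
      rw [hc]
      rfl
    ext u v
    rw [pull_apply, ← h _ hx.2, hd, hd, hix x hx.1]

omit [TopologicalSpace M] [ChartedSpace (E n) M] in
/-- A consistent family of forms, each given through a bijective linear map, is a field. -/
theorem exists_field (G : M → (E n →L[ℝ] E n) → (E n →L[ℝ] E n →L[ℝ] ℝ) → Prop)
    (hbij : ∀ x L β, G x L β → Function.Bijective L) (hcov : ∀ x, ∃ L β, G x L β)
    (hcons : ∀ x L β L' β', G x L β → G x L' β' → ∀ a c a' c', L a = L' a' → L c = L' c' →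
      β a c = β' a' c') :
    ∃ B : M → E n →L[ℝ] E n →L[ℝ] ℝ, ∀ x L β, G x L β → ∀ a c, B x (L a) (L c) = β a c := by
  choose L β hG using hcov
  let K : M → E n →L[ℝ] E n := fun x =>
    ((ContinuousLinearEquiv.ofBijective (L x) (LinearMap.ker_eq_bot.2 (hbij _ _ _ (hG x)).1)
      (LinearMap.range_eq_top.2 (hbij _ _ _ (hG x)).2)).symm : E n →L[ℝ] E n)
  have hK : ∀ x a, L x (K x a) = a := by
    intro x a
    exact ContinuousLinearEquiv.ofBijective_apply_symm_apply (L x) _ _ a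
  refine ⟨fun x => (β x).bilinearComp (K x) (K x), ?_⟩
  intro x L' β' h a c
  change β x (K x (L' a)) (K x (L' c)) = β' a c
  exact hcons x _ _ _ _ (hG x) h _ _ _ _ (hK x _) (hK x _)

theorem dm_bijective {f : N → M} {y : N} (hf : IsLocalDiffeomorphAt (𝓡 n) (𝓡 n) ∞ f y) :
    Function.Bijective (dm (n := n) f y) := ⟨mfderiv_injective hf, mfderiv_surjective hf⟩

end Pool.Agent.OrthCoord
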