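import Pool.Agent.OrthCoord.NeckDefs

set_option autoImplicit false
open Set
open scoped Manifold ContDiff

namespace Pool.Agent.OrthCoord

/-- The vector `u` with its coordinates outside `S` replaced by `0`. -/
noncomputable def normalPart {n : ℕ} (S : Finset (Fin n)) (u : E n) : E n :=
  WithLp.toLp 2 fun k => if k ∈ S then u k else 0

/-- The Euclidean norm of the part of `u` with coordinates in `S`. -/
noncomputable def rad {n : ℕ} (S : Finset (Fin n)) (u : E n) : ℝ := ‖normalPart S u‖

/-- The inversion `v ↦ v / ‖v‖²` applied to the coordinates in `S` only. -/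
noncomputable def flip {n : ℕ} (S : Finset (Fin n)) (u : E n) : E n :=
  u - normalPart S u + (rad S u ^ 2)⁻¹ • normalPart S u

/-- The maps `T a j` (`a` in `ι`, `j` a truth value) are pairwise disjoint tubes
`P × (disc of radius 2)` in the `n`-manifold `N`, where the discs have the coordinates in `S` and
`P` is the quotient of the space of the other coordinates by the translations in `Λ`. -/
structure Tubes (n : ℕ) (S : Finset (Fin n)) (Λ : Set (E n)) {ι N : Type} [TopologicalSpace N]
    [ChartedSpace (E n) N] (T : ι → Bool → E n → N) : Prop where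
  loc : ∀ a j u, rad S u < 2 → LocDiffeoAt n (T a j) u
  inj : ∀ a j b k u v, rad S u < 2 → rad S v < 2 →
    (T a j u = T b k v ↔ a = b ∧ j = k ∧ v - u ∈ Λ)
  period : ∀ w ∈ Λ, normalPart S w = 0
  closed : ∀ a j (r : ℝ), r < 2 → IsClosed (T a j '' {u | rad S u ≤ r})

/-- `y` lies in one of the closed tubes of radius `1/2`. -/
def InTubeCore {n : ℕ} (S : Finset (Fin n)) {ι N : Type} (T : ι → Bool → E n → N) (y : N) :
    Prop :=
  ∃ (a : ι) (j : Bool) (u : E n), rad S u ≤ 1 / 2 ∧ T a j u = y

/-- `y` lies in the part `1/2 < rad < 2` of a tube `T a j` and `z` is the point of the tube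
`T a (not j)` obtained from it by the inversion of the disc coordinates. -/
def TubeLinked {n : ℕ} (S : Finset (Fin n)) {ι N : Type} (T : ι → Bool → E n → N) (y z : N) :
    Prop :=
  ∃ (a : ι) (j : Bool) (u : E n), 1 / 2 < rad S u ∧ rad S u < 2 ∧ T a j u = y ∧
    T a (!j) (flip S u) = z

/-- The map `i` exhibits the `n`-manifold `M` as the result of gluing, for every `a`, the tubes
`T a false` and `T a true` in `N`: the closed tubes of radius `1/2` are removed and the remaining
parts `1/2 < rad < 2` are glued by the inversion of the disc coordinates. -/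
structure IsTubeSum (n : ℕ) (S : Finset (Fin n)) {ι N M : Type} [TopologicalSpace N]
    [ChartedSpace (E n) N] [TopologicalSpace M] [ChartedSpace (E n) M]
    (T : ι → Bool → E n → N) (i : N → M) : Prop where
  loc : ∀ y, ¬ InTubeCore S T y → LocDiffeoAt n i y
  surj : ∀ x : M, ∃ y, ¬ InTubeCore S T y ∧ i y = x
  glue : ∀ y z, ¬ InTubeCore S T y → ¬ InTubeCore S T z →
    (i y = i z ↔ y = z ∨ TubeLinked S T y z)

/-- The Riemannian metric `g` admits orthogonal coordinates around every point. -/
def HasOrthCoords (n : ℕ) {M : Type} [TopologicalSpace M] [ChartedSpace (E n) M]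
    [IsManifold (𝓡 n) ∞ M] (g : RMetric n M) : Prop :=
  ∀ x : M, ∃ (U : Set M) (φ : M → E n) (ψ : E n → M),
      IsOpen U ∧ x ∈ U ∧ IsOpen (φ '' U) ∧
      (∀ y ∈ U, ψ (φ y) = y) ∧ (∀ z ∈ φ '' U, φ (ψ z) = z) ∧
      SmoothOn n φ U ∧ SmoothOn n ψ (φ '' U) ∧
      ∀ z ∈ φ '' U, ∀ i j : Fin n, i ≠ j → coef g ψ z i j = 0

theorem hasOrthogonalMetric_iff_exists (n : ℕ) (M : Type) [TopologicalSpace M]
    [ChartedSpace (E n) M] [IsManifold (𝓡 n) ∞ M] :
    HasOrthogonalMetric n M ↔ ∃ g : RMetric n M, HasOrthCoords n g := Iff.rfl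

/-- The coordinates of the tubes `T a j` are orthogonal coordinates of the metric `g`. -/
def Adapted (n : ℕ) (S : Finset (Fin n)) {ι N : Type} [TopologicalSpace N] [ChartedSpace (E n) N]
    [IsManifold (𝓡 n) ∞ N] (g : RMetric n N) (T : ι → Bool → E n → N) : Prop :=
  ∀ a j u, rad S u < 2 → ∀ p q : Fin n, p ≠ q → coef g (T a j) u p q = 0

end Pool.Agent.OrthCoord
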