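import Pool.Agent.OrthCoord.Neck
import Pool.Agent.OrthCoord.TubeDefs
import Pool.Agent.OrthCoord.Pieces

set_option autoImplicit false
open Bundle Set ContinuousLinearMap
open scoped Manifold ContDiff Topology

namespace Pool.Agent.OrthCoord

variable {n : ℕ} (S : Finset (Fin n))

theorem normalPart_apply (u : E n) (k : Fin n) :
    normalPart S u k = if k ∈ S then u k else 0 := rfl

/-- `normalPart` as a continuous linear map. -/
noncomputable def nP : E n →L[ℝ] E n :=
  LinearMap.toContinuousLinearMap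
    { toFun := normalPart S
      map_add' := fun u v => by
        ext k
        simp only [normalPart_apply, PiLp.add_apply]
        split_ifs <;> simp
      map_smul' := fun c u => by
        ext k
        simp only [normalPart_apply, PiLp.smul_apply, RingHom.id_apply]
        split_ifs <;> simp }

theorem nP_apply (u : E n) : nP S u = normalPart S u := rfl

theorem nP_nP (u : E n) : nP S (nP S u) = nP S u := by
  ext k
  simp only [nP_apply, normalPart_apply]
  split_ifs <;> rfl

theorem inner_nP_sub (u v : E n) : inner ℝ (nP S u) (v - nP S v) = 0 := by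
  rw [PiLp.inner_apply]
  refine Finset.sum_eq_zero fun k _ => ?_
  simp only [nP_apply, normalPart_apply, PiLp.sub_apply]
  split_ifs <;> simp

theorem rad_eq (u : E n) : rad S u = ‖nP S u‖ := rfl

theorem rad_nonneg (u : E n) : 0 ≤ rad S u := norm_nonneg _

theorem continuous_rad : Continuous (rad S) := (nP S).continuous.norm

theorem flip_eq (u : E n) : flip S u = u - nP S u + sph (nP S u) := rfl

theorem nP_flip (u : E n) : nP S (flip S u) = sph (nP S u) := by
  rw [flip_eq, map_add, map_sub, nP_nP]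
  unfold sph
  rw [map_smul, nP_nP]
  simp

theorem rad_flip {u : E n} (hu : 0 < rad S u) : rad S (flip S u) = (rad S u)⁻¹ := by
  have hne : nP S u ≠ 0 := norm_pos_iff.1 hu
  rw [rad_eq, nP_flip, norm_sph hne]
  rfl

theorem nP_add_period {u w : E n} (hw : normalPart S w = 0) : nP S (u + w) = nP S u := by
  have h : nP S w = 0 := hw
  rw [map_add, h, add_zero]

theorem rad_add_period {u w : E n} (hw : normalPart S w = 0) : rad S (u + w) = rad S u := by
  rw [rad_eq, nP_add_period S hw]
  rfl

theorem flip_add_period {u w : E n} (hw : normalPart S w = 0) :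
    flip S (u + w) = flip S u + w := by
  rw [flip_eq, flip_eq, nP_add_period S hw]
  abel

theorem hasFDerivAt_flip {u : E n} (hu : 0 < rad S u) :
    HasFDerivAt (flip S) (ContinuousLinearMap.id ℝ (E n) - nP S +
      (fderiv ℝ sph (nP S u)).comp (nP S)) u := by
  have hne : nP S u ≠ 0 := norm_pos_iff.1 hu
  have h1 : HasFDerivAt (fun v => sph (nP S v)) ((fderiv ℝ sph (nP S u)).comp (nP S)) u := by
    have h2 := (hasFDerivAt_sph hne).differentiableAt.hasFDerivAt
    exact h2.comp u (nP S).hasFDerivAt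
  exact ((hasFDerivAt_id u).sub (nP S).hasFDerivAt).add h1

theorem fderiv_flip {u : E n} (hu : 0 < rad S u) (a : E n) :
    fderiv ℝ (flip S) u a = a - nP S a + fderiv ℝ sph (nP S u) (nP S a) := by
  rw [(hasFDerivAt_flip S hu).fderiv]
  rfl

theorem nP_fderiv_sph {u : E n} (hu : 0 < rad S u) (a : E n) :
    nP S (fderiv ℝ sph (nP S u) (nP S a)) = fderiv ℝ sph (nP S u) (nP S a) := by
  have hne : nP S u ≠ 0 := norm_pos_iff.1 hu
  rw [fderiv_sph hne, map_add, map_smul, map_smul, nP_nP, nP_nP]

theorem nP_fderiv_flip {u : E n} (hu : 0 < rad S u) (a : E n) :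
    nP S (fderiv ℝ (flip S) u a) = fderiv ℝ sph (nP S u) (nP S a) := by
  rw [fderiv_flip S hu, map_add, map_sub, nP_nP, nP_fderiv_sph S hu]
  simp

/-- The cylinder metric. -/
noncomputable def cyl (u a c : E n) : ℝ :=
  inner ℝ (a - nP S a) (c - nP S c) + (rad S u ^ 2)⁻¹ * inner ℝ (nP S a) (nP S c)

theorem cyl_flip {u : E n} (hu : 0 < rad S u) (a c : E n) :
    cyl S (flip S u) (fderiv ℝ (flip S) u a) (fderiv ℝ (flip S) u c) = cyl S u a c := by
  have hne : nP S u ≠ 0 := norm_pos_iff.1 hu
  have hpos : 0 < ‖nP S u‖ := hu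
  unfold cyl
  rw [nP_fderiv_flip S hu, nP_fderiv_flip S hu, fderiv_flip S hu, fderiv_flip S hu,
    add_sub_cancel_right, add_sub_cancel_right, inner_fderiv_sph hne, rad_flip S hu, rad_eq]
  field_simp

theorem cyl_eq_sum (u a c : E n) :
    cyl S u a c = ∑ k, (if k ∈ S then (rad S u ^ 2)⁻¹ else 1) * a k * c k := by
  unfold cyl
  rw [PiLp.inner_apply, PiLp.inner_apply, Finset.mul_sum, ← Finset.sum_add_distrib]
  refine Finset.sum_congr rfl fun k _ => ?_
  simp only [nP_apply, normalPart_apply, PiLp.sub_apply]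
  split_ifs <;> simp <;> ring

theorem contDiffOn_flip : ContDiffOn ℝ ∞ (flip S) {u | 0 < rad S u} := by
  have h1 : ContDiffOn ℝ ∞ (fun u => sph (nP S u)) {u | 0 < rad S u} :=
    contDiffOn_sph.comp (nP S).contDiff.contDiffOn fun u hu => norm_pos_iff.1 hu
  exact (contDiff_id.sub (nP S).contDiff).contDiffOn.add h1

theorem localDiffeo_flip {u : E n} (hu : 0 < rad S u) :
    IsLocalDiffeomorphAt (𝓡 n) (𝓡 n) ∞ (flip S) u := by
  have hO : IsOpen {u : E n | 0 < rad S u} := isOpen_lt continuous_const (continuous_rad S)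
  refine isLocalDiffeomorphOn_of_injective hO (contDiffOn_flip S) (fun v hv => ?_) ⟨u, hu⟩
  rw [injective_iff_map_eq_zero]
  intro a ha
  have hpos : 0 < rad S v := hv
  have h1 := cyl_flip S hv a a
  rw [ha] at h1
  have h2 : cyl S (flip S v) 0 0 = 0 := by simp [cyl]
  rw [h2] at h1
  unfold cyl at h1
  rw [real_inner_self_eq_norm_sq, real_inner_self_eq_norm_sq] at h1
  have h3 : 0 < (rad S v ^ 2)⁻¹ := by positivity
  have h4 : 0 ≤ (rad S v ^ 2)⁻¹ * ‖nP S a‖ ^ 2 := by positivity
  have h5 : ‖a - nP S a‖ ^ 2 = 0 := le_antisymm (by linarith) (by positivity)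
  have h6 : (rad S v ^ 2)⁻¹ * ‖nP S a‖ ^ 2 = 0 := by linarith
  have h7 : ‖nP S a‖ = 0 := by
    rcases mul_eq_zero.1 h6 with h | h
    · exact absurd h h3.ne'
    · exact pow_eq_zero_iff (by norm_num) |>.1 h
  have h8 : a - nP S a = 0 := norm_eq_zero.1 (pow_eq_zero_iff (by norm_num) |>.1 h5)
  rw [norm_eq_zero.1 h7, sub_zero] at h8
  exact h8

theorem localDiffeo_add (w u : E n) :
    IsLocalDiffeomorphAt (𝓡 n) (𝓡 n) ∞ (fun v : E n => v + w) u := by
  refine localDiffeo_of_fderiv (contDiff_id.add contDiff_const) (fun v => ?_) u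
  have h : fderiv ℝ (fun v : E n => id v + w) v = ContinuousLinearMap.id ℝ (E n) :=
    ((hasFDerivAt_id v).add_const w).fderiv
  rw [h]
  exact Function.injective_id

theorem dm_add (w u a : E n) : dm (fun v : E n => v + w) u a = a := by
  rw [dm_eq_fderiv]
  have h : fderiv ℝ (fun v : E n => v + w) u = ContinuousLinearMap.id ℝ (E n) :=
    ((hasFDerivAt_id u).add_const w).fderiv
  rw [h]
  rfl

end Pool.Agent.OrthCoord
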