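import Pool.Agent.OrthCoord.Bounded

set_option autoImplicit false
open Bundle Set ContinuousLinearMap
open scoped Manifold ContDiff Topology

namespace Pool.Agent.OrthCoord

/-- Local diagonal metrics that are mutually diagonal.

For every index `a` there are an open set `V a` of `ℝⁿ`, a local diffeomorphism
`p a : V a → M` (a local parametrisation), a local diffeomorphism `q a : V a → ℝⁿ`
(the coordinates) and positive smooth functions `h a · k` on `V a`. They give, near each point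
`p a y`, the metric `∑ k, h a · k (d (q a) k)²`. The condition `diagonal` says that this metric is
diagonal in the coordinates `q b` of every other index `b` (at `p a y = p b z`); the metrics of
`a` and `b` themselves need not agree. -/
structure MutuallyDiagonal (n : ℕ) (M : Type) [TopologicalSpace M] [ChartedSpace (E n) M]
    {ι : Type} (V : ι → Set (E n)) (p : ι → E n → M) (q : ι → E n → E n)
    (h : ι → E n → Fin n → ℝ) : Prop where
  isOpen : ∀ a, IsOpen (V a)
  localDiffeo : ∀ a, IsLocalDiffeomorphOn (𝓡 n) (𝓡 n) ∞ (p a) (V a)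
  coordinates : ∀ a, IsLocalDiffeomorphOn (𝓡 n) (𝓡 n) ∞ (q a) (V a)
  cover : ∀ x : M, ∃ a, ∃ y ∈ V a, p a y = x
  smooth : ∀ a i, ContDiffOn ℝ ∞ (fun y => h a y i) (V a)
  pos : ∀ a, ∀ y ∈ V a, ∀ i, 0 < h a y i
  diagonal : ∀ a b, ∀ y ∈ V a, ∀ z ∈ V b, p a y = p b z → ∀ i j : Fin n, i ≠ j →
    ∀ u v u' v' : E n, dp (p a) y u = dp (p b) z u' → dp (p a) y v = dp (p b) z v' →
    fderiv ℝ (q b) z u' = EuclideanSpace.single i 1 →
    fderiv ℝ (q b) z v' = EuclideanSpace.single j 1 →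
    ∑ k, h a y k * fderiv ℝ (q a) y u k * fderiv ℝ (q a) y v k = 0

variable {n : ℕ} {M : Type} [TopologicalSpace M] [ChartedSpace (E n) M]

/-- The convex set of forms on `T_x M` used in the construction. -/
def good {ι : Type} (V : ι → Set (E n)) (p : ι → E n → M) (q : ι → E n → E n) (x : M) :
    Set (TangentSpace (𝓡 n) x →L[ℝ] TangentSpace (𝓡 n) x →L[ℝ] ℝ) :=
  {b | (∀ v w, b v w = b w v) ∧ (∀ v, v ≠ 0 → 0 < b v v) ∧
    ∀ a, ∀ z ∈ V a, p a z = x → ∀ i j : Fin n, i ≠ j → ∀ u v : E n,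
      fderiv ℝ (q a) z u = EuclideanSpace.single i 1 →
      fderiv ℝ (q a) z v = EuclideanSpace.single j 1 →
      b (dp (p a) z u) (dp (p a) z v) = 0}

theorem convex_good {ι : Type} (V : ι → Set (E n)) (p : ι → E n → M) (q : ι → E n → E n)
    (x : M) : Convex ℝ (good V p q x) := by
  intro b hb c hc s t hs ht hst
  refine ⟨fun v w => ?_, fun v hv => ?_, fun a z hz hx i j hij u v hu hv => ?_⟩
  · change s * b v w + t * c v w = s * b w v + t * c w v
    rw [hb.1 v w, hc.1 v w]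
  · change 0 < s * b v v + t * c v v
    have h1 := hb.2.1 v hv
    have h2 := hc.2.1 v hv
    rcases hs.eq_or_lt with rfl | hs'
    · have : t = 1 := by linarith
      subst this; linarith
    · have h3 : 0 < s * b v v := mul_pos hs' h1
      have h4 : 0 ≤ t * c v v := mul_nonneg ht h2.le
      linarith
  · change s * b _ _ + t * c _ _ = 0
    rw [hb.2.2 a z hz hx i j hij u v hu hv, hc.2.2 a z hz hx i j hij u v hu hv]
    ring

/-- The differential of `q : M → ℝⁿ` at `x`, as a map `ℝⁿ → ℝⁿ`. -/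
noncomputable def dq (q : M → E n) (x : M) : E n →L[ℝ] E n :=
  mfderiv (𝓡 n) (𝓡 n) q x

/-- A local diffeomorphism on an open set restricts to a partial diffeomorphism. -/
theorem exists_partialDiffeo {V : Set (E n)} (hV : IsOpen V) {p : E n → M}
    (hp : IsLocalDiffeomorphOn (𝓡 n) (𝓡 n) ∞ p V) {y : E n} (hy : y ∈ V) :
    ∃ Φ : PartialDiffeomorph (𝓡 n) (𝓡 n) (E n) M ∞, y ∈ Φ.source ∧ Φ.source ⊆ V ∧
      EqOn p Φ.toFun Φ.source := by
  obtain ⟨Φ, hΦ, hEq⟩ := hp ⟨y, hy⟩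
  have h1 : IsOpen (Φ.target ∩ Φ.invFun ⁻¹' V) :=
    Φ.contMDiffOn_invFun.continuousOn.isOpen_inter_preimage Φ.open_target hV
  refine ⟨{ toPartialEquiv := Φ.toPartialEquiv.restr V
            open_source := ?_
            open_target := ?_
            contMDiffOn_toFun := ?_
            contMDiffOn_invFun := ?_ }, ⟨hΦ, hy⟩, inter_subset_right, ?_⟩
  · exact Φ.open_source.inter hV
  · exact h1
  · exact Φ.contMDiffOn_toFun.mono inter_subset_left
  · exact Φ.contMDiffOn_invFun.mono inter_subset_left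
  · exact fun z hz => hEq hz.1

section
variable (Φ : PartialDiffeomorph (𝓡 n) (𝓡 n) (E n) M ∞) (p : E n → M)
  (hEq : EqOn p Φ.toFun Φ.source)
include hEq

theorem mdiff_p {y : E n} (hy : y ∈ Φ.source) : MDifferentiableAt (𝓡 n) (𝓡 n) p y :=
  (((Φ.contMDiffOn_toFun.congr hEq) _ hy).contMDiffAt
      (Φ.open_source.mem_nhds hy)).mdifferentiableAt (by simp)

omit hEq in
theorem mdiff_q {x : M} (hx : x ∈ Φ.target) :
    MDifferentiableAt (𝓡 n) (𝓡 n) Φ.invFun x :=
  ((Φ.contMDiffOn_invFun x hx).contMDiffAt (Φ.open_target.mem_nhds hx)).mdifferentiableAt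
      (by simp)

theorem dp_dq {x : M} (hx : x ∈ Φ.target) (v : E n) :
    dp p (Φ.invFun x) (dq Φ.invFun x v) = v := by
  have hs : Φ.invFun x ∈ Φ.source := Φ.map_target hx
  have hq := mdiff_q Φ hx
  have hp := mdiff_p Φ p hEq hs
  have hc : mfderiv (𝓡 n) (𝓡 n) (p ∘ Φ.invFun) x = ContinuousLinearMap.id ℝ _ := by
    rw [← mfderiv_id]
    apply Filter.EventuallyEq.mfderiv_eq
    filter_upwards [Φ.open_target.mem_nhds hx] with y hy
    change p (Φ.invFun y) = y
    have h1 : p (Φ.invFun y) = Φ.toFun (Φ.invFun y) := hEq (Φ.map_target hy)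
    exact h1.trans (Φ.right_inv hy)
  have h2 := mfderiv_comp x hp hq
  rw [hc] at h2
  exact (DFunLike.congr_fun h2 v).symm

theorem dq_dp {y : E n} (hy : y ∈ Φ.source) (v : E n) :
    dq Φ.invFun (Φ.toFun y) (dp p y v) = v := by
  have ht : Φ.toFun y ∈ Φ.target := Φ.map_source hy
  have hp := mdiff_p Φ p hEq hy
  have hq : MDifferentiableAt (𝓡 n) (𝓡 n) Φ.invFun (p y) := by
    rw [hEq hy]
    exact mdiff_q Φ ht
  have hc : mfderiv (𝓡 n) (𝓡 n) (Φ.invFun ∘ p) y = ContinuousLinearMap.id ℝ _ := by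
    rw [← mfderiv_id]
    apply Filter.EventuallyEq.mfderiv_eq
    filter_upwards [Φ.open_source.mem_nhds hy] with z hz
    change Φ.invFun (p z) = z
    rw [hEq hz]
    exact Φ.left_inv hz
  have h2 := mfderiv_comp y hq hp
  rw [hc] at h2
  have h3 := (DFunLike.congr_fun h2 v).symm
  rw [← hEq hy]
  exact h3

theorem dp_injective {y : E n} (hy : y ∈ Φ.source) : Function.Injective (dp p y) := by
  intro u v huv
  rw [← dq_dp Φ p hEq hy u, huv, dq_dp Φ p hEq hy v]

end

theorem exists_section [T2Space M] [SecondCountableTopology M] [IsManifold (𝓡 n) ∞ M]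
    {ι : Type} {V : ι → Set (E n)} {p : ι → E n → M} {q : ι → E n → E n}
    {h : ι → E n → Fin n → ℝ} (D : MutuallyDiagonal n M V p q h) :
    ∃ s : ContMDiffSection (𝓡 n) (E n →L[ℝ] E n →L[ℝ] ℝ) ∞
      (fun y : M => TangentSpace (𝓡 n) y →L[ℝ] TangentSpace (𝓡 n) y →L[ℝ] ℝ),
      ∀ x : M, s x ∈ good V p q x := by
  have : LocallyCompactSpace M := ChartedSpace.locallyCompactSpace (E n) M
  have : SigmaCompactSpace M := inferInstance
  refine exists_contMDiffSection_forall_mem_convex_of_local (𝓡 n)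
    (fun y : M => TangentSpace (𝓡 n) y →L[ℝ] TangentSpace (𝓡 n) y →L[ℝ] ℝ)
    (good V p q) (convex_good V p q) ?_
  intro x₀
  obtain ⟨a, y₀, hy₀, rfl⟩ := D.cover x₀
  obtain ⟨Φ, hΦ, hΦV, hEq⟩ := exists_partialDiffeo (D.isOpen a) (D.localDiffeo a) hy₀
  have hmem : p a y₀ ∈ Φ.target := by
    rw [hEq hΦ]; exact Φ.map_source hΦ
  have hqs : ∀ y ∈ V a, ContMDiffAt (𝓡 n) (𝓡 n) ∞ (q a) y := fun y hy =>
    ((D.coordinates a) ⟨y, hy⟩).contMDiffAt
  have hcomp : ∀ x ∈ Φ.target, ∀ v : E n, mfderiv (𝓡 n) (𝓡 n) (q a ∘ Φ.invFun) x v =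
      fderiv ℝ (q a) (Φ.invFun x) (dq Φ.invFun x v) := by
    intro x hx v
    have h1 := mfderiv_comp x ((hqs _ (hΦV (Φ.map_target hx))).mdifferentiableAt (by simp))
      (mdiff_q Φ hx)
    have h3 : dp (q a) (Φ.invFun x) = fderiv ℝ (q a) (Φ.invFun x) := mfderiv_eq_fderiv
    exact (DFunLike.congr_fun h1 v).trans (DFunLike.congr_fun h3 _)
  refine ⟨Φ.target, Φ.open_target.mem_nhds hmem,
    fun x => dform (h a (Φ.invFun x)) (mfderiv (𝓡 n) (𝓡 n) (q a ∘ Φ.invFun) x), ?_, ?_⟩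
  · intro x hx
    refine ContMDiffAt.contMDiffWithinAt ?_
    have hxV : Φ.invFun x ∈ V a := hΦV (Φ.map_target hx)
    have hΦx : ContMDiffAt (𝓡 n) (𝓡 n) ∞ Φ.invFun x :=
      (Φ.contMDiffOn_invFun x hx).contMDiffAt (Φ.open_target.mem_nhds hx)
    refine contMDiffAt_dform_section (q a ∘ Φ.invFun) (fun x => h a (Φ.invFun x)) x ?_ ?_
    · exact (hqs _ hxV).comp x hΦx
    · intro k
      have h1 : ContMDiffAt (𝓡 n) 𝓘(ℝ, ℝ) ∞ (fun y => h a y k) (Φ.invFun x) :=
        ((D.smooth a k).contMDiffOn _ hxV).contMDiffAt ((D.isOpen a).mem_nhds hxV)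
      exact h1.comp x hΦx
  · intro x hx
    have hxV : Φ.invFun x ∈ V a := hΦV (Φ.map_target hx)
    have hpx : p a (Φ.invFun x) = x := by
      have h1 : p a (Φ.invFun x) = Φ.toFun (Φ.invFun x) := hEq (Φ.map_target hx)
      exact h1.trans (Φ.right_inv hx)
    refine ⟨fun v w => ?_, fun v hv => ?_, fun b z hz hbz i j hij u v hu hv => ?_⟩
    · change dform _ (dq (q a ∘ Φ.invFun) x) _ _ = dform _ (dq (q a ∘ Φ.invFun) x) _ _
      rw [dform_apply, dform_apply]
      exact Finset.sum_congr rfl fun k _ => by ring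
    · change 0 < dform _ (dq (q a ∘ Φ.invFun) x) _ _
      rw [dform_apply]
      have hne : dq (q a ∘ Φ.invFun) x v ≠ 0 := by
        intro h0
        apply hv
        have h1 : fderiv ℝ (q a) (Φ.invFun x) (dq Φ.invFun x v) = 0 :=
          (hcomp x hx v).symm.trans h0
        obtain ⟨Ξ, hΞ, -, hEq'⟩ := exists_partialDiffeo (D.isOpen a) (D.coordinates a) hxV
        have h2 := dp_injective Ξ (q a) hEq' hΞ
        have h3 : dp (q a) (Φ.invFun x) (dq Φ.invFun x v) = dp (q a) (Φ.invFun x) 0 := by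
          rw [map_zero]
          unfold dp
          rw [mfderiv_eq_fderiv]
          exact h1
        have h4 := h2 h3
        have h5 := dp_dq Φ (p a) hEq hx v
        rw [h4, map_zero] at h5
        exact h5.symm
      obtain ⟨k, hk⟩ : ∃ k, dq (q a ∘ Φ.invFun) x v k ≠ 0 := by
        by_contra hcon
        push Not at hcon
        exact hne (by ext k; exact hcon k)
      refine Finset.sum_pos' (fun k _ => ?_) ⟨k, Finset.mem_univ _, ?_⟩
      · have := D.pos a _ hxV k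
        rw [mul_assoc]
        exact mul_nonneg this.le (mul_self_nonneg _)
      · have := D.pos a _ hxV k
        rw [mul_assoc]
        exact mul_pos this (mul_self_pos.2 hk)
    · change dform _ (dq (q a ∘ Φ.invFun) x) _ _ = 0
      rw [dform_apply]
      have h1 := D.diagonal a b _ hxV z hz (hpx.trans hbz.symm) i j hij
        (dq Φ.invFun x (dp (p b) z u)) (dq Φ.invFun x (dp (p b) z v)) u v
        (dp_dq Φ (p a) hEq hx _) (dp_dq Φ (p a) hEq hx _) hu hv
      rw [← hcomp x hx, ← hcomp x hx] at h1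
      exact h1

theorem hasOrthogonalMetric_of_mutuallyDiagonal [T2Space M] [SecondCountableTopology M]
    [IsManifold (𝓡 n) ∞ M]
    {ι : Type} {V : ι → Set (E n)} {p : ι → E n → M} {q : ι → E n → E n}
    {h : ι → E n → Fin n → ℝ} (D : MutuallyDiagonal n M V p q h) :
    HasOrthogonalMetric n M := by
  rw [hasOrthogonalMetric_iff]
  obtain ⟨s, hs⟩ := exists_section D
  let g : ContMDiffRiemannianMetric (𝓡 n) ((⊤ : ℕ∞) : WithTop ℕ∞)
      (EuclideanSpace ℝ (Fin n)) (TangentSpace (𝓡 n) : M → Type) :=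
    { inner := fun x => s x
      symm := fun x v w => (hs x).1 v w
      pos := fun x v hv => (hs x).2.1 v hv
      isVonNBounded := fun x => bounded_of_pos (s x) (hs x).2.1
      contMDiff := s.contMDiff }
  refine ⟨g, fun x => ?_⟩
  obtain ⟨a, y, hy, rfl⟩ := D.cover x
  obtain ⟨Φ, hΦ, hΦV, hEq⟩ := exists_partialDiffeo (D.isOpen a) (D.localDiffeo a) hy
  obtain ⟨Ξ, hΞ, hΞV, hEq'⟩ := exists_partialDiffeo (D.isOpen a) (D.coordinates a) hy
  have hmem : p a y ∈ Φ.target := by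
    rw [hEq hΦ]; exact Φ.map_source hΦ
  have hinv : Φ.invFun (p a y) = y := by
    rw [hEq hΦ]; exact Φ.left_inv hΦ
  have hUo : IsOpen (Φ.target ∩ Φ.invFun ⁻¹' Ξ.source) :=
    Φ.contMDiffOn_invFun.continuousOn.isOpen_inter_preimage Φ.open_target Ξ.open_source
  have hUo' : IsOpen (Ξ.target ∩ Ξ.invFun ⁻¹' Φ.source) :=
    Ξ.contMDiffOn_invFun.continuousOn.isOpen_inter_preimage Ξ.open_target Φ.open_source
  have himg : (Ξ.toFun ∘ Φ.invFun) '' (Φ.target ∩ Φ.invFun ⁻¹' Ξ.source) =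
      Ξ.target ∩ Ξ.invFun ⁻¹' Φ.source := by
    ext z
    constructor
    · rintro ⟨x, hx, rfl⟩
      refine ⟨Ξ.map_source hx.2, ?_⟩
      have hl : Ξ.invFun (Ξ.toFun (Φ.invFun x)) = Φ.invFun x := Ξ.left_inv hx.2
      change Ξ.invFun (Ξ.toFun (Φ.invFun x)) ∈ Φ.source
      rw [hl]
      exact Φ.map_target hx.1
    · rintro ⟨hz1, hz2⟩
      have hl : Φ.invFun (Φ.toFun (Ξ.invFun z)) = Ξ.invFun z := Φ.left_inv hz2
      refine ⟨Φ.toFun (Ξ.invFun z), ⟨Φ.map_source hz2, ?_⟩, ?_⟩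
      · change Φ.invFun (Φ.toFun (Ξ.invFun z)) ∈ Ξ.source
        rw [hl]
        exact Ξ.map_target hz1
      · change Ξ.toFun (Φ.invFun (Φ.toFun (Ξ.invFun z))) = z
        rw [hl]
        exact Ξ.right_inv hz1
  refine ⟨Φ.target ∩ Φ.invFun ⁻¹' Ξ.source, Ξ.toFun ∘ Φ.invFun, p a ∘ Ξ.invFun, hUo, ?_, ?_,
    ?_, ?_, ?_, ?_, ?_⟩
  · refine ⟨hmem, ?_⟩
    change Φ.invFun (p a y) ∈ Ξ.source
    rw [hinv]
    exact hΞ
  · rw [himg]; exact hUo'
  · intro x hx
    have hl : Ξ.invFun (Ξ.toFun (Φ.invFun x)) = Φ.invFun x := Ξ.left_inv hx.2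
    change p a (Ξ.invFun (Ξ.toFun (Φ.invFun x))) = x
    rw [hl]
    have h1 : p a (Φ.invFun x) = Φ.toFun (Φ.invFun x) := hEq (Φ.map_target hx.1)
    exact h1.trans (Φ.right_inv hx.1)
  · rw [himg]
    intro z hz
    change Ξ.toFun (Φ.invFun (p a (Ξ.invFun z))) = z
    rw [hEq hz.2]
    have hl : Φ.invFun (Φ.toFun (Ξ.invFun z)) = Ξ.invFun z := Φ.left_inv hz.2
    rw [hl]
    exact Ξ.right_inv hz.1
  · exact Ξ.contMDiffOn_toFun.comp (Φ.contMDiffOn_invFun.mono inter_subset_left)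
      inter_subset_right
  · rw [himg]
    exact (Φ.contMDiffOn_toFun.congr hEq).comp (Ξ.contMDiffOn_invFun.mono inter_subset_left)
      inter_subset_right
  · rw [himg]
    intro z hz i j hij
    have hy' : Ξ.invFun z ∈ V a := hΞV (Ξ.map_target hz.1)
    have hd : ∀ w : E n, mfderiv (𝓡 n) (𝓡 n) (p a ∘ Ξ.invFun) z w =
        dp (p a) (Ξ.invFun z) (dq Ξ.invFun z w) := by
      intro w
      have h1 := mfderiv_comp z (mdiff_p Φ (p a) hEq hz.2) (mdiff_q Ξ hz.1)
      rw [h1]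
      rfl
    have hd' : ∀ w : E n, fderiv ℝ (q a) (Ξ.invFun z) (dq Ξ.invFun z w) = w := by
      intro w
      have h1 := dp_dq Ξ (q a) hEq' hz.1 w
      unfold dp at h1
      rw [mfderiv_eq_fderiv] at h1
      exact h1
    rw [hd, hd]
    exact (hs (p a (Ξ.invFun z))).2.2 a _ hy' rfl i j hij _ _ (hd' _) (hd' _)

end Pool.Agent.OrthCoord
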