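import Pool.Agent.OrthCoord.Coord

set_option autoImplicit false
open Bundle Set ContinuousLinearMap
open scoped Manifold ContDiff Topology ComplexConjugate

namespace Pool.Agent.OrthCoord

/-- A small smooth cut-off function on the plane with small differential. -/
theorem exists_cutoff : ∃ (ε : ℂ → ℝ) (ε₀ : ℝ), ContDiff ℝ ∞ ε ∧ 0 < ε₀ ∧ ε₀ ≤ 1 / 2 ∧
    (∀ w, 0 ≤ ε w) ∧ (∀ w, ‖w‖ ≤ 1 / 2 → ε w = ε₀) ∧ (∀ w, 1 ≤ ‖w‖ → ε w = 0) ∧
    (∀ w v, |fderiv ℝ ε w v| ≤ ‖v‖) := by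
  let f : ContDiffBump (0 : ℂ) := ⟨1 / 2, 1, by norm_num, by norm_num⟩
  have hf : ContDiff ℝ ∞ f := f.contDiff
  have hc : HasCompactSupport f := f.hasCompactSupport
  obtain ⟨K, hK⟩ := (hc.fderiv (𝕜 := ℝ)).exists_bound_of_continuous
    (hf.continuous_fderiv (by simp))
  have hK0 : 0 ≤ K := (norm_nonneg _).trans (hK 0)
  refine ⟨fun w => (2 * (K + 1))⁻¹ * f w, (2 * (K + 1))⁻¹, ?_, by positivity, ?_, ?_, ?_, ?_, ?_⟩
  · exact contDiff_const.mul hf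
  · rw [one_div]
    apply inv_anti₀ (by norm_num)
    linarith
  · intro w
    have := f.nonneg (x := w)
    positivity
  · intro w hw
    have : f w = 1 := f.one_of_mem_closedBall (by
      rw [Metric.mem_closedBall, dist_zero_right]; exact hw)
    simp [this]
  · intro w hw
    have : f w = 0 := f.zero_of_le_dist (by rw [dist_zero_right]; exact hw)
    simp [this]
  · intro w v
    have h1 : fderiv ℝ (fun w => (2 * (K + 1))⁻¹ * f w) w = (2 * (K + 1))⁻¹ • fderiv ℝ f w :=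
      fderiv_const_mul (hf.differentiable (by simp) w) _
    rw [h1]
    change |(2 * (K + 1))⁻¹ * fderiv ℝ f w v| ≤ ‖v‖
    rw [abs_mul, abs_of_pos (by positivity : (0:ℝ) < (2 * (K + 1))⁻¹)]
    have h2 : |fderiv ℝ f w v| ≤ K * ‖v‖ :=
      ((fderiv ℝ f w).le_opNorm v).trans (mul_le_mul_of_nonneg_right (hK w) (norm_nonneg _))
    have h3 : (2 * (K + 1))⁻¹ * |fderiv ℝ f w v| ≤ (2 * (K + 1))⁻¹ * (K * ‖v‖) :=
      mul_le_mul_of_nonneg_left h2 (by positivity)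
    refine h3.trans ?_
    have h4 : (2 * (K + 1))⁻¹ * (K * ‖v‖) = (K / (2 * (K + 1))) * ‖v‖ := by
      field_simp
    rw [h4]
    have h5 : K / (2 * (K + 1)) ≤ 1 := by
      rw [div_le_one (by positivity)]
      linarith
    nlinarith [norm_nonneg v]

/-- The immersion near the zero section. -/
noncomputable def Psi (ε : ℂ → ℝ) (y : E 4) : E 4 :=
  mkC (conj (Wc y) ^ 2 / 2 - ε (Wc y) * Lc y, ε (Wc y) * conj (Wc y) + Wc y * Lc y)

variable {ε : ℂ → ℝ}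

theorem contDiff_Psi (hε : ContDiff ℝ ∞ ε) : ContDiff ℝ ∞ (Psi ε) := by
  have h1 : ContDiff ℝ ∞ (fun y : E 4 => Wc y) := Wc.contDiff
  have h2 : ContDiff ℝ ∞ (fun y : E 4 => Lc y) := Lc.contDiff
  have h3 : ContDiff ℝ ∞ (fun y : E 4 => conj (Wc y)) :=
    (Complex.conjCLE : ℂ ≃L[ℝ] ℂ).contDiff.comp h1
  have h4 : ContDiff ℝ ∞ (fun y : E 4 => ((ε (Wc y) : ℝ) : ℂ)) :=
    Complex.ofRealCLM.contDiff.comp (hε.comp h1)
  refine mkC.contDiff.comp (ContDiff.prodMk ?_ ?_)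
  · exact ((h3.pow 2).div_const 2).sub (h4.mul h2)
  · exact (h4.mul h3).add (h1.mul h2)

theorem fderiv_Psi (hε : ContDiff ℝ ∞ ε) (y u : E 4) :
    fderiv ℝ (Psi ε) y u =
      mkC (conj (Wc y) * conj (Wc u) - (fderiv ℝ ε (Wc y) (Wc u) : ℝ) * Lc y
          - ε (Wc y) * Lc u,
        (fderiv ℝ ε (Wc y) (Wc u) : ℝ) * conj (Wc y) + ε (Wc y) * conj (Wc u)
          + Wc u * Lc y + Wc y * Lc u) := by
  have h1 : HasFDerivAt (fun y : E 4 => Wc y) Wc y := Wc.hasFDerivAt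
  have h2 : HasFDerivAt (fun y : E 4 => Lc y) Lc y := Lc.hasFDerivAt
  have h3 : HasFDerivAt (fun y : E 4 => conj (Wc y))
      ((Complex.conjCLE : ℂ →L[ℝ] ℂ).comp Wc) y :=
    ((Complex.conjCLE : ℂ →L[ℝ] ℂ).hasFDerivAt).comp y h1
  have h4 : HasFDerivAt (fun y : E 4 => ((ε (Wc y) : ℝ) : ℂ))
      (Complex.ofRealCLM.comp ((fderiv ℝ ε (Wc y)).comp Wc)) y :=
    (Complex.ofRealCLM.hasFDerivAt).comp y
      (((hε.differentiable (by simp) (Wc y)).hasFDerivAt).comp y h1)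
  have h5 := ((h3.mul h3).mul_const (1 / 2 : ℂ)).sub (h4.mul h2)
  have h6 := (h4.mul h3).add (h1.mul h2)
  have h7 := (mkC.hasFDerivAt (x := ((conj (Wc y) * conj (Wc y)) * (1 / 2 : ℂ)
      - ε (Wc y) * Lc y, ε (Wc y) * conj (Wc y) + Wc y * Lc y))).comp y (h5.prodMk h6)
  have h8 : Psi ε = mkC ∘ (fun y => ((conj (Wc y) * conj (Wc y)) * (1 / 2 : ℂ)
      - ε (Wc y) * Lc y, ε (Wc y) * conj (Wc y) + Wc y * Lc y)) := by
    funext z
    simp only [Psi, Function.comp]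
    congr 2
    ring
  rw [h8]
  erw [h7.fderiv]
  apply ext_WL
  · simp
    ring
  · simp
    ring

theorem Psi_injective (hε : ContDiff ℝ ∞ ε) {ε₀ : ℝ} (h0 : 0 < ε₀) (h1 : ε₀ ≤ 1 / 2)
    (hnn : ∀ w, 0 ≤ ε w) (hin : ∀ w, ‖w‖ ≤ 1 / 2 → ε w = ε₀)
    (hd : ∀ w v, |fderiv ℝ ε w v| ≤ ‖v‖) {y : E 4} (hy : ‖Lc y‖ < ε₀ / 4) :
    Function.Injective (fderiv ℝ (Psi ε) y) := by
  rw [injective_iff_map_eq_zero]
  intro u hu
  rw [fderiv_Psi hε] at hu
  set w := Wc y with hw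
  set l := Lc y with hl
  set a := Wc u with ha
  set b := Lc u with hb
  set d : ℝ := fderiv ℝ ε w a with hdd
  have e1 : conj w * conj a - (d : ℂ) * l - ε w * b = 0 := by
    have := congrArg Wc hu
    simpa using this
  have e2 : (d : ℂ) * conj w + ε w * conj a + a * l + w * b = 0 := by
    have := congrArg Lc hu
    simpa using this
  have hsum : ε₀ ≤ ‖w‖ + ε w := by
    rcases le_total ‖w‖ (1 / 2) with h | h
    · rw [hin w h]; linarith [norm_nonneg w]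
    · linarith [hnn w]
  have e3 : ((ε w ^ 2 + ‖w‖ ^ 2 : ℝ) : ℂ) * conj a =
      -((d : ℂ) * (ε w * conj w - w * l)) - ε w * (a * l) := by
    have h5 : (w * conj w : ℂ) = ((‖w‖ ^ 2 : ℝ) : ℂ) := by
      rw [Complex.mul_conj, Complex.normSq_eq_norm_sq]
    push_cast at h5 ⊢
    linear_combination (-(conj a)) * h5 + w * e1 + (ε w : ℂ) * e2
  have hd' : |d| ≤ ‖a‖ := hd w a
  have e4 : (ε w ^ 2 + ‖w‖ ^ 2) * ‖a‖ ≤
      ‖a‖ * (ε w * ‖w‖ + ‖w‖ * ‖l‖) + ε w * (‖a‖ * ‖l‖) := by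
    have h6 := congrArg norm e3
    rw [norm_mul, Complex.norm_real, Real.norm_of_nonneg (by positivity), Complex.norm_conj] at h6
    rw [h6]
    refine (norm_sub_le _ _).trans ?_
    rw [norm_neg, norm_mul, norm_mul, norm_mul, Complex.norm_real, Complex.norm_real,
      Real.norm_of_nonneg (hnn w), Real.norm_eq_abs]
    have h7 : ‖(ε w : ℂ) * conj w - w * l‖ ≤ ε w * ‖w‖ + ‖w‖ * ‖l‖ := by
      refine (norm_sub_le _ _).trans ?_
      rw [norm_mul, norm_mul, Complex.norm_real, Real.norm_of_nonneg (hnn w), Complex.norm_conj]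
    have h8 : 0 ≤ ε w * ‖w‖ + ‖w‖ * ‖l‖ := by
      have := hnn w
      positivity
    have h9 : |d| * ‖(ε w : ℂ) * conj w - w * l‖ ≤ ‖a‖ * (ε w * ‖w‖ + ‖w‖ * ‖l‖) :=
      mul_le_mul hd' h7 (norm_nonneg _) (norm_nonneg _)
    linarith
  have ha0 : a = 0 := by
    by_contra hne
    have hpos : 0 < ‖a‖ := norm_pos_iff.2 hne
    have h10 : ε w ^ 2 + ‖w‖ ^ 2 ≤ ε w * ‖w‖ + (‖w‖ + ε w) * ‖l‖ := by
      by_contra hcon
      push Not at hcon
      nlinarith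
    nlinarith [sq_nonneg (ε w - ‖w‖), norm_nonneg w, hnn w, norm_nonneg l]
  rw [ha0] at e1 e2
  have hd0 : d = 0 := by rw [hdd, ha0, map_zero]
  rw [hd0] at e1 e2
  simp only [map_zero, mul_zero, Complex.ofReal_zero, zero_mul, sub_zero, zero_sub, neg_eq_zero,
    zero_add, add_zero, mul_eq_zero, Complex.ofReal_eq_zero] at e1 e2
  have hb0 : b = 0 := by
    rcases e1 with h | h
    · rcases e2 with h' | h'
      · rw [h, h', norm_zero] at hsum
        linarith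
      · exact h'
    · exact h
  apply ext_WL
  · rw [map_zero]; exact ha0
  · rw [map_zero]; exact hb0

end Pool.Agent.OrthCoord
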