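import Pool.Agent.OrthCoord.Descend

set_option autoImplicit false
open Bundle Set ContinuousLinearMap
open scoped Manifold ContDiff Topology

namespace Pool.Agent.OrthCoord

variable {n : ℕ}

/-- Cutting off a map with vanishing 1-jet at the origin. -/
theorem exists_small_cutoff {f : E n → E n} {r₀ : ℝ} (hr₀ : 0 < r₀)
    (hf : ContDiffOn ℝ ∞ f (Metric.ball 0 r₀)) (h0 : f 0 = 0) (h1 : fderiv ℝ f 0 = 0) :
    ∃ (δ : ℝ) (e : E n → E n), 0 < δ ∧ δ < r₀ ∧ δ ≤ 1 / 2 ∧ ContDiff ℝ ∞ e ∧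
      (∀ y, ‖y‖ ≤ δ / 2 → e y = f y) ∧ (∀ y, δ ≤ ‖y‖ → e y = 0) ∧
      ∀ y, ‖fderiv ℝ e y‖ ≤ 1 / 2 := by
  let χ : ContDiffBump (0 : E n) := ⟨1 / 2, 1, by norm_num, by norm_num⟩
  have hχ : ContDiff ℝ ∞ χ := χ.contDiff
  obtain ⟨K, hK⟩ := (χ.hasCompactSupport.fderiv (𝕜 := ℝ)).exists_bound_of_continuous
    (hχ.continuous_fderiv (by simp))
  have hK0 : 0 ≤ K := (norm_nonneg _).trans (hK 0)
  set η : ℝ := (2 * (K + 1))⁻¹ with hη
  have hηpos : 0 < η := by positivity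
  have hcont : ContinuousAt (fderiv ℝ f) 0 :=
    (hf.continuousOn_fderiv_of_isOpen Metric.isOpen_ball (by simp)).continuousAt
      (Metric.ball_mem_nhds _ hr₀)
  obtain ⟨δ₁, hδ₁, hδ₁'⟩ := Metric.continuousAt_iff.1 hcont η hηpos
  set δ : ℝ := min (min (δ₁ / 2) (r₀ / 2)) (1 / 2) with hδ
  have hδpos : 0 < δ := by positivity
  have hδr : δ < r₀ := by
    have : δ ≤ r₀ / 2 := (min_le_left _ _).trans (min_le_right _ _)
    linarith
  have hδd : δ < δ₁ := by
    have : δ ≤ δ₁ / 2 := (min_le_left _ _).trans (min_le_left _ _)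
    linarith
  have hfd : ∀ y : E n, ‖y‖ ≤ δ → ‖fderiv ℝ f y‖ ≤ η := by
    intro y hy
    have h2 := hδ₁' (x := y) (by rw [dist_zero_right]; linarith)
    rw [h1, dist_zero_right] at h2
    exact h2.le
  have hdiff : ∀ y : E n, ‖y‖ < r₀ → DifferentiableAt ℝ f y := by
    intro y hy
    have hy' : y ∈ Metric.ball (0 : E n) r₀ := by simpa using hy
    exact (hf.contDiffAt (Metric.isOpen_ball.mem_nhds hy')).differentiableAt (by simp)
  have hfb : ∀ y : E n, ‖y‖ ≤ δ → ‖f y‖ ≤ η * ‖y‖ := by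
    intro y hy
    have h2 := (convex_closedBall (0 : E n) δ).norm_image_sub_le_of_norm_fderiv_le (𝕜 := ℝ)
      (f := f) (C := η) (x := 0) (y := y)
      (fun z hz => hdiff z (by rw [mem_closedBall_zero_iff] at hz; linarith))
      (fun z hz => hfd z (by simpa using hz)) (by simp [hδpos.le]) (by simpa using hy)
    rw [h0, sub_zero, sub_zero] at h2
    exact h2
  -- the cut off map
  have hχs : ContDiff ℝ ∞ (fun y : E n => χ (δ⁻¹ • y)) :=
    hχ.comp (contDiff_id.const_smul δ⁻¹)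
  have hzero : ∀ y : E n, δ ≤ ‖y‖ → χ (δ⁻¹ • y) = 0 := by
    intro y hy
    apply χ.zero_of_le_dist
    rw [dist_zero_right, norm_smul, norm_inv, Real.norm_of_nonneg hδpos.le]
    change (1 : ℝ) ≤ δ⁻¹ * ‖y‖
    rw [inv_mul_eq_div, le_div_iff₀ hδpos]
    linarith
  have hone : ∀ y : E n, ‖y‖ ≤ δ / 2 → χ (δ⁻¹ • y) = 1 := by
    intro y hy
    apply χ.one_of_mem_closedBall
    rw [mem_closedBall_zero_iff, norm_smul, norm_inv, Real.norm_of_nonneg hδpos.le]
    change δ⁻¹ * ‖y‖ ≤ 1 / 2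
    rw [inv_mul_eq_div, div_le_iff₀ hδpos]
    linarith
  refine ⟨δ, fun y => χ (δ⁻¹ • y) • f y, hδpos, hδr, min_le_right _ _, ?_, ?_, ?_, ?_⟩
  · rw [contDiff_iff_contDiffAt]
    intro y
    rcases lt_or_ge ‖y‖ r₀ with hy | hy
    · have hy' : y ∈ Metric.ball (0 : E n) r₀ := by simpa using hy
      exact hχs.contDiffAt.smul (hf.contDiffAt (Metric.isOpen_ball.mem_nhds hy'))
    · have hopen : IsOpen {z : E n | δ < ‖z‖} := isOpen_lt continuous_const continuous_norm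
      have hy' : y ∈ {z : E n | δ < ‖z‖} := by
        change δ < ‖y‖
        linarith
      refine (contDiffAt_const (c := (0 : E n))).congr_of_eventuallyEq ?_
      filter_upwards [hopen.mem_nhds hy'] with z hz
      have hz' : δ ≤ ‖z‖ := le_of_lt hz
      rw [hzero z hz', zero_smul]
  · intro y hy
    change χ (δ⁻¹ • y) • f y = f y
    rw [hone y hy, one_smul]
  · intro y hy
    change χ (δ⁻¹ • y) • f y = 0
    rw [hzero y hy, zero_smul]
  · intro y
    rcases lt_or_ge δ ‖y‖ with hy | hy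
    · have hopen : IsOpen {z : E n | δ < ‖z‖} := isOpen_lt continuous_const continuous_norm
      have h2 : fderiv ℝ (fun y : E n => χ (δ⁻¹ • y) • f y) y = 0 := by
        have h3 : (fun y : E n => χ (δ⁻¹ • y) • f y) =ᶠ[𝓝 y] fun _ => (0 : E n) := by
          filter_upwards [hopen.mem_nhds hy] with z hz
          have hz' : δ ≤ ‖z‖ := le_of_lt hz
          rw [hzero z hz', zero_smul]
        rw [h3.fderiv_eq]
        simp
      rw [h2, norm_zero]
      norm_num
    · have hχd : HasFDerivAt (fun y : E n => χ (δ⁻¹ • y))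
          ((fderiv ℝ χ (δ⁻¹ • y)).comp (δ⁻¹ • ContinuousLinearMap.id ℝ (E n))) y :=
        ((hχ.differentiable (by simp)) (δ⁻¹ • y)).hasFDerivAt.comp y
          ((hasFDerivAt_id y).const_smul δ⁻¹)
      have hfdy := (hdiff y (by linarith)).hasFDerivAt
      have h2 := (hχd.smul hfdy).fderiv
      have h2' : fderiv ℝ (fun y : E n => χ (δ⁻¹ • y) • f y) y = _ := h2
      rw [h2']
      refine ContinuousLinearMap.opNorm_le_bound _ (by norm_num) fun v => ?_
      have e1 : ‖χ (δ⁻¹ • y) • (fderiv ℝ f y) v‖ ≤ η * ‖v‖ := by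
        rw [norm_smul]
        have h3 : ‖χ (δ⁻¹ • y)‖ ≤ 1 := by
          rw [Real.norm_of_nonneg χ.nonneg]
          exact χ.le_one
        have h4 : ‖fderiv ℝ f y v‖ ≤ η * ‖v‖ :=
          ((fderiv ℝ f y).le_opNorm v).trans (mul_le_mul_of_nonneg_right (hfd y hy)
            (norm_nonneg _))
        calc ‖χ (δ⁻¹ • y)‖ * ‖fderiv ℝ f y v‖ ≤ 1 * (η * ‖v‖) :=
              mul_le_mul h3 h4 (norm_nonneg _) zero_le_one
          _ = η * ‖v‖ := one_mul _
      have e2 : ‖(fderiv ℝ χ (δ⁻¹ • y)) (δ⁻¹ • v) • f y‖ ≤ K * η * ‖v‖ := by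
        rw [norm_smul]
        have h3 : ‖(fderiv ℝ χ (δ⁻¹ • y)) (δ⁻¹ • v)‖ ≤ K * (δ⁻¹ * ‖v‖) := by
          refine ((fderiv ℝ χ (δ⁻¹ • y)).le_opNorm _).trans ?_
          rw [norm_smul, norm_inv, Real.norm_of_nonneg hδpos.le]
          exact mul_le_mul_of_nonneg_right (hK _) (by positivity)
        have h4 : ‖f y‖ ≤ η * δ := (hfb y hy).trans (mul_le_mul_of_nonneg_left hy hηpos.le)
        calc ‖(fderiv ℝ χ (δ⁻¹ • y)) (δ⁻¹ • v)‖ * ‖f y‖ ≤ (K * (δ⁻¹ * ‖v‖)) * (η * δ) :=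
              mul_le_mul h3 h4 (norm_nonneg _) (by positivity)
          _ = K * η * ‖v‖ := by field_simp
      calc _ ≤ η * ‖v‖ + K * η * ‖v‖ := by
            refine (norm_add_le _ _).trans (add_le_add e1 ?_)
            exact e2
        _ = 1 / 2 * ‖v‖ := by
            rw [hη]
            field_simp
            ring

/-- A radial local diffeomorphism that is the identity far out and a small homothety near `0`. -/
theorem exists_shrink (n : ℕ) {ε : ℝ} (hε : 0 < ε) (hε1 : ε ≤ 1) :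
    ∃ ρ : E n → E n, ContDiff ℝ ∞ ρ ∧ (∀ u, Function.Injective (fderiv ℝ ρ u)) ∧
      (∀ u, ‖u‖ ≤ 8 / 5 → ρ u = ε • u) ∧ (∀ u, 9 / 5 ≤ ‖u‖ → ρ u = u) ∧
      ∀ u, ‖ρ u‖ ≤ ‖u‖ := by
  set a : ℝ := (8 / 5) ^ 2 with ha
  set c : ℝ := (9 / 5) ^ 2 - (8 / 5) ^ 2 with hc
  have hcpos : 0 < c := by rw [hc]; norm_num
  let T : ℝ → ℝ := fun t => Real.smoothTransition ((t - a) / c)
  have hT : ContDiff ℝ ∞ T := Real.smoothTransition.contDiff.comp
    ((contDiff_id.sub contDiff_const).div_const c)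
  have hTm : Monotone T := by
    intro s t hst
    apply Real.smoothTransition.monotone
    have : s - a ≤ t - a := by linarith
    exact div_le_div_of_nonneg_right this hcpos.le
  have hTd : ∀ t, 0 ≤ deriv T t := fun t => hTm.deriv_nonneg
  have hT0 : ∀ t, 0 ≤ T t := fun t => Real.smoothTransition.nonneg _
  have hT1 : ∀ t, T t ≤ 1 := fun t => Real.smoothTransition.le_one _
  let lam : ℝ → ℝ := fun t => ε + (1 - ε) * T t
  have hlam : ContDiff ℝ ∞ lam := contDiff_const.add (contDiff_const.mul hT)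
  have hlamp : ∀ t, 0 < lam t := by
    intro t
    have := mul_nonneg (sub_nonneg.2 hε1) (hT0 t)
    change 0 < ε + (1 - ε) * T t
    linarith
  have hlam1 : ∀ t, lam t ≤ 1 := by
    intro t
    have := mul_le_mul_of_nonneg_left (hT1 t) (sub_nonneg.2 hε1)
    change ε + (1 - ε) * T t ≤ 1
    linarith
  have hlamd : ∀ t, 0 ≤ deriv lam t := by
    intro t
    have h1 : HasDerivAt lam ((1 - ε) * deriv T t) t :=
      (((hT.differentiable (by simp)) t).hasDerivAt.const_mul (1 - ε)).const_add ε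
    rw [h1.deriv]
    exact mul_nonneg (sub_nonneg.2 hε1) (hTd t)
  refine ⟨fun u => lam (‖u‖ ^ 2) • u, ?_, ?_, ?_, ?_, ?_⟩
  · exact (hlam.comp (contDiff_norm_sq ℝ)).smul contDiff_id
  · intro u
    have h1 : HasFDerivAt (fun u : E n => lam (‖u‖ ^ 2))
        ((ContinuousLinearMap.toSpanSingleton ℝ (deriv lam (‖u‖ ^ 2))).comp
          (2 • (innerSL ℝ u))) u := by
      have h2 : HasFDerivAt (fun u : E n => ‖u‖ ^ 2) (2 • (innerSL ℝ u)) u :=
        (hasStrictFDerivAt_norm_sq u).hasFDerivAt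
      have h2' : HasFDerivAt lam (ContinuousLinearMap.toSpanSingleton ℝ (deriv lam (‖u‖ ^ 2)))
          ((fun u : E n => ‖u‖ ^ 2) u) :=
        ((hlam.differentiable (by simp)) (‖u‖ ^ 2)).hasDerivAt.hasFDerivAt
      exact HasFDerivAt.comp (g := lam) (f := fun u : E n => ‖u‖ ^ 2) u h2' h2
    have h3 := (h1.smul (hasFDerivAt_id u)).fderiv
    have h3' : fderiv ℝ (fun u : E n => lam (‖u‖ ^ 2) • u) u = _ := h3
    rw [injective_iff_map_eq_zero]
    intro v hv
    rw [h3'] at hv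
    have h4 : lam (‖u‖ ^ 2) • v + (2 * inner ℝ u v * deriv lam (‖u‖ ^ 2)) • u = 0 := by
      rw [← hv]
      simp [mul_comm, mul_assoc, mul_left_comm]
    have h5 := congrArg (fun z => inner ℝ z v) h4
    simp only [inner_add_left, inner_smul_left, inner_zero_left, RCLike.conj_to_real,
      real_inner_self_eq_norm_sq] at h5
    have h6 : 0 ≤ 2 * inner ℝ u v * deriv lam (‖u‖ ^ 2) * inner ℝ u v := by
      have := mul_nonneg (mul_self_nonneg (inner ℝ u v)) (hlamd (‖u‖ ^ 2))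
      nlinarith
    have h7 : lam (‖u‖ ^ 2) * ‖v‖ ^ 2 ≤ 0 := by linarith
    have h8 : ‖v‖ ^ 2 ≤ 0 := by
      by_contra hcon
      push Not at hcon
      have := mul_pos (hlamp (‖u‖ ^ 2)) hcon
      linarith
    have h9 : ‖v‖ = 0 := by nlinarith [norm_nonneg v]
    exact norm_eq_zero.1 h9
  · intro u hu
    have h1 : T (‖u‖ ^ 2) = 0 := by
      apply Real.smoothTransition.zero_of_nonpos
      apply div_nonpos_of_nonpos_of_nonneg _ hcpos.le
      have : ‖u‖ ^ 2 ≤ (8 / 5) ^ 2 := pow_le_pow_left₀ (norm_nonneg _) hu 2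
      rw [ha]
      linarith
    change (ε + (1 - ε) * T (‖u‖ ^ 2)) • u = ε • u
    rw [h1]
    simp
  · intro u hu
    have h1 : T (‖u‖ ^ 2) = 1 := by
      apply Real.smoothTransition.one_of_one_le
      rw [le_div_iff₀ hcpos]
      have : (9 / 5) ^ 2 ≤ ‖u‖ ^ 2 := pow_le_pow_left₀ (by norm_num) hu 2
      rw [hc, ha]
      linarith
    change (ε + (1 - ε) * T (‖u‖ ^ 2)) • u = u
    rw [h1]
    simp
  · intro u
    change ‖lam (‖u‖ ^ 2) • u‖ ≤ ‖u‖
    rw [norm_smul, Real.norm_of_nonneg (hlamp _).le]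
    exact mul_le_of_le_one_left (norm_nonneg _) (hlam1 _)

/-- A local diffeomorphism `κ` of `ℝⁿ`, the identity for `‖u‖ ≥ 9/5`, that is `S (ε u)` for
`‖u‖ ≤ 8/5`, where `S` is a given map with `S 0 = 0` and `dS 0 = 1`. -/
theorem exists_kappa {S : E n → E n} {r₀ : ℝ} (hr₀ : 0 < r₀)
    (hS : ContDiffOn ℝ ∞ S (Metric.ball 0 r₀)) (h0 : S 0 = 0)
    (h1 : HasFDerivAt S (ContinuousLinearMap.id ℝ (E n)) 0) :
    ∃ (ε : ℝ) (κ : E n → E n), 0 < ε ∧ 2 * ε < r₀ ∧ ContDiff ℝ ∞ κ ∧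
      (∀ u, Function.Injective (fderiv ℝ κ u)) ∧ (∀ u, ‖u‖ ≤ 8 / 5 → κ u = S (ε • u)) ∧
      (∀ u, 9 / 5 ≤ ‖u‖ → κ u = u) ∧ ∀ u, ‖u‖ < 2 → ‖κ u‖ < 2 := by
  obtain ⟨δ, e, hδ, hδr, hδ1, he, hein, heout, hed⟩ :=
    exists_small_cutoff (f := fun y => S y - y) hr₀ (hS.sub contDiffOn_id) (by simp [h0]) (by
      have h2 := (h1.sub (hasFDerivAt_id (0 : E n))).fderiv
      have h3 : fderiv ℝ (fun y => S y - y) 0 = _ := h2
      rw [h3]
      simp)
  set ε : ℝ := δ / 4 with hε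
  obtain ⟨ρ, hρ, hρi, hρin, hρout, hρle⟩ := exists_shrink n (ε := ε) (by positivity)
    (by linarith)
  have hid : ContDiff ℝ ∞ (fun y : E n => y + e y) := contDiff_id.add he
  have hidd : ∀ y, Function.Injective (fderiv ℝ (fun y : E n => y + e y) y) := by
    intro y
    have h2 := ((hasFDerivAt_id y).add ((he.differentiable (by simp)) y).hasFDerivAt).fderiv
    have h3 : fderiv ℝ (fun y : E n => y + e y) y = _ := h2
    rw [injective_iff_map_eq_zero]
    intro v hv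
    rw [h3] at hv
    have h4 : v = -(fderiv ℝ e y v) := eq_neg_of_add_eq_zero_left hv
    have h5 : ‖v‖ ≤ 1 / 2 * ‖v‖ := by
      calc ‖v‖ = ‖fderiv ℝ e y v‖ := by conv_lhs => rw [h4, norm_neg]
        _ ≤ ‖fderiv ℝ e y‖ * ‖v‖ := (fderiv ℝ e y).le_opNorm v
        _ ≤ 1 / 2 * ‖v‖ := mul_le_mul_of_nonneg_right (hed y) (norm_nonneg _)
    have h6 : ‖v‖ = 0 := by linarith [norm_nonneg v]
    exact norm_eq_zero.1 h6
  refine ⟨ε, fun u => ρ u + e (ρ u), by positivity, by linarith, hid.comp hρ, ?_, ?_, ?_, ?_⟩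
  · intro u
    have h2 : fderiv ℝ (fun u => ρ u + e (ρ u)) u =
        (fderiv ℝ (fun y : E n => y + e y) (ρ u)).comp (fderiv ℝ ρ u) :=
      (((hid.differentiable (by simp)) (ρ u)).hasFDerivAt.comp u
        ((hρ.differentiable (by simp)) u).hasFDerivAt).fderiv
    rw [h2]
    exact (hidd (ρ u)).comp (hρi u)
  · intro u hu
    change ρ u + e (ρ u) = S (ε • u)
    rw [hρin u hu, hein]
    · simp
    · rw [norm_smul, Real.norm_of_nonneg (by positivity)]
      have : ε * ‖u‖ ≤ ε * (8 / 5) := mul_le_mul_of_nonneg_left hu (by positivity)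
      linarith
  · intro u hu
    change ρ u + e (ρ u) = u
    rw [hρout u hu, heout u (by linarith), add_zero]
  · intro u hu
    change ‖ρ u + e (ρ u)‖ < 2
    rcases lt_or_ge ‖ρ u‖ δ with h | h
    · have h2 : ‖e (ρ u)‖ ≤ 1 / 2 * ‖ρ u‖ := by
        have h3 := (convex_univ (𝕜 := ℝ) (E := E n)).norm_image_sub_le_of_norm_fderiv_le (𝕜 := ℝ)
          (f := e) (C := 1 / 2) (x := 0) (y := ρ u)
          (fun z _ => (he.differentiable (by simp)) z) (fun z _ => hed z) (mem_univ _)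
          (mem_univ _)
        have h4 : e 0 = 0 := by
          rw [hein 0 (by rw [norm_zero]; positivity), h0, sub_zero]
        rw [h4, sub_zero, sub_zero] at h3
        exact h3
      calc ‖ρ u + e (ρ u)‖ ≤ ‖ρ u‖ + ‖e (ρ u)‖ := norm_add_le _ _
        _ < 2 := by linarith
    · rw [heout _ h, add_zero]
      exact (hρle u).trans_lt hu

end Pool.Agent.OrthCoord
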