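import Pool.Agent.OrthCoord.Turn

set_option autoImplicit false
open Bundle Set ContinuousLinearMap
open scoped Manifold ContDiff Topology

namespace Pool.Agent.OrthCoord

variable {k : ℕ}

/-- Logarithmic polar coordinates in the half plane `u₂ > 0` of the plane of the coordinates `2`
and `3`. -/
noncomputable def lp (u : E (k + 4)) : E (k + 4) :=
  WithLp.toLp 2 fun j =>
    if j = 2 then Real.log (u 2 ^ 2 + u 3 ^ 2) / 2
    else if j = 3 then Real.arctan (u 3 / u 2) else u j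

theorem lp_two (u : E (k + 4)) : lp u 2 = Real.log (u 2 ^ 2 + u 3 ^ 2) / 2 := by
  simp only [lp, if_true]

theorem lp_three (u : E (k + 4)) : lp u 3 = Real.arctan (u 3 / u 2) := by
  obtain ⟨n10, n20, n30, n21, n31, n32⟩ := ne_facts (k := k)
  simp only [lp, if_neg n32, if_true]

theorem lp_other (u : E (k + 4)) {j : Fin (k + 4)} (h2 : j ≠ 2) (h3 : j ≠ 3) : lp u j = u j := by
  simp only [lp, if_neg h2, if_neg h3]

/-- The half space `u₂ > 0`. -/
def half (k : ℕ) : Set (E (k + 4)) := {u | 0 < u 2}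

theorem isOpen_half : IsOpen (half k) :=
  isOpen_lt continuous_const (contDiff_coord (n := k + 4) 2).continuous

theorem sq_pos_half {u : E (k + 4)} (hu : u ∈ half k) : 0 < u 2 ^ 2 + u 3 ^ 2 := by
  have h : 0 < u 2 := hu
  positivity

theorem contDiffOn_lp : ContDiffOn ℝ ∞ (lp (k := k)) (half k) := by
  rw [contDiffOn_euclidean]
  intro j
  have h := fun j => (contDiff_coord (n := k + 4) j).contDiffOn (s := half k)
  by_cases h2 : j = 2
  · subst h2
    simp only [lp_two]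
    exact (ContDiffOn.log (((h 2).pow 2).add ((h 3).pow 2))
      (fun u hu => (sq_pos_half hu).ne')).div_const 2
  by_cases h3 : j = 3
  · subst h3
    simp only [lp_three]
    exact ((h 3).div (h 2) (fun u hu => (show (0 : ℝ) < u 2 from hu).ne')).arctan
  simp only [lp_other _ h2 h3]
  exact h j

theorem lp_fderiv {u : E (k + 4)} (hu : u ∈ half k) {j : Fin (k + 4)}
    {f : E (k + 4) → ℝ} {L : E (k + 4) →L[ℝ] ℝ} (h : HasFDerivAt f L u)
    (he : ∀ x, lp x j = f x) (a : E (k + 4)) : fderiv ℝ lp u a j = L a := by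
  have h0 : DifferentiableAt ℝ lp u :=
    (contDiffOn_lp.contDiffAt (isOpen_half.mem_nhds hu)).differentiableAt (by simp)
  have h1 : HasFDerivAt lp (fderiv ℝ lp u) u := h0.hasFDerivAt
  have h2 : HasFDerivAt (fun x => lp x j) ((EuclideanSpace.proj j : E (k + 4) →L[ℝ] ℝ).comp
      (fderiv ℝ lp u)) u := (EuclideanSpace.proj j : E (k + 4) →L[ℝ] ℝ).hasFDerivAt.comp u h1
  have h3 : HasFDerivAt (fun x => lp x j) L u :=
    h.congr_of_eventuallyEq (Filter.Eventually.of_forall he)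
  exact DFunLike.congr_fun (h2.unique h3) a

theorem fderiv_lp_two {u : E (k + 4)} (hu : u ∈ half k) (a : E (k + 4)) :
    fderiv ℝ lp u a 2 = (u 2 * a 2 + u 3 * a 3) / (u 2 ^ 2 + u 3 ^ 2) := by
  have hpos := sq_pos_half hu
  have h1 : HasFDerivAt (fun x : E (k + 4) => x 2) (pr 2) u := (pr (k := k) 2).hasFDerivAt
  have h2 : HasFDerivAt (fun x : E (k + 4) => x 3) (pr 3) u := (pr (k := k) 3).hasFDerivAt
  have h3 := (((h1.pow 2).add (h2.pow 2)).log hpos.ne').mul_const (2 : ℝ)⁻¹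
  rw [lp_fderiv hu h3 (fun x => by rw [lp_two]; simp [div_eq_mul_inv]) a]
  simp
  field_simp

theorem fderiv_lp_three {u : E (k + 4)} (hu : u ∈ half k) (a : E (k + 4)) :
    fderiv ℝ lp u a 3 = (u 2 * a 3 - u 3 * a 2) / (u 2 ^ 2 + u 3 ^ 2) := by
  have hpos := sq_pos_half hu
  have h0 : 0 < u 2 := hu
  have h1 : HasFDerivAt (fun x : E (k + 4) => x 2) (pr 2) u := (pr (k := k) 2).hasFDerivAt
  have h2 : HasFDerivAt (fun x : E (k + 4) => x 3) (pr 3) u := (pr (k := k) 3).hasFDerivAt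
  have h4 : HasFDerivAt (fun x : E (k + 4) => (x 2)⁻¹) ((-(u 2 ^ 2)⁻¹) • pr 2) u :=
    (hasDerivAt_inv h0.ne').comp_hasFDerivAt (f := fun x : E (k + 4) => x 2) u h1
  have h3 := (h2.mul h4).arctan
  rw [lp_fderiv hu h3 (fun x => by rw [lp_three]; simp [div_eq_mul_inv]) a]
  simp
  field_simp
  ring

theorem fderiv_lp_other {u : E (k + 4)} (hu : u ∈ half k) (a : E (k + 4)) {j : Fin (k + 4)}
    (h2 : j ≠ 2) (h3 : j ≠ 3) : fderiv ℝ lp u a j = a j := by
  have h := (pr (k := k) j).hasFDerivAt (x := u)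
  rw [lp_fderiv hu h (fun x => by rw [lp_other _ h2 h3]; simp) a]
  simp

theorem exp_lp_two {u : E (k + 4)} (hu : u ∈ half k) :
    Real.exp (2 * lp u 2) = u 2 ^ 2 + u 3 ^ 2 := by
  rw [lp_two, mul_div_cancel₀ _ (by norm_num), Real.exp_log (sq_pos_half hu)]

theorem localDiffeo_lp {u : E (k + 4)} (hu : u ∈ half k) :
    IsLocalDiffeomorphAt (𝓡 (k + 4)) (𝓡 (k + 4)) ∞ (lp (k := k)) u := by
  refine isLocalDiffeomorphOn_of_injective isOpen_half contDiffOn_lp (fun v hv => ?_) ⟨u, hu⟩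
  rw [injective_iff_map_eq_zero]
  intro a ha
  have hz : ∀ j, fderiv ℝ lp v a j = 0 := fun j => by rw [ha]; rfl
  have hpos := sq_pos_half hv
  have h2 := hz 2
  have h3 := hz 3
  rw [fderiv_lp_two hv, div_eq_zero_iff, or_iff_left hpos.ne'] at h2
  rw [fderiv_lp_three hv, div_eq_zero_iff, or_iff_left hpos.ne'] at h3
  have e2 : (v 2 ^ 2 + v 3 ^ 2) * a 2 = 0 := by linear_combination v 2 * h2 - v 3 * h3
  have e3 : (v 2 ^ 2 + v 3 ^ 2) * a 3 = 0 := by linear_combination v 3 * h2 + v 2 * h3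
  ext j
  change a j = 0
  by_cases c2 : j = 2
  · rw [c2]
    exact (mul_eq_zero.1 e2).resolve_left hpos.ne'
  by_cases c3 : j = 3
  · rw [c3]
    exact (mul_eq_zero.1 e3).resolve_left hpos.ne'
  have h4 := hz j
  rwa [fderiv_lp_other hv a c2 c3] at h4

end Pool.Agent.OrthCoord
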