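import Pool.Agent.OrthCoord.Swirl2

set_option autoImplicit false
open Bundle Set ContinuousLinearMap
open scoped Manifold ContDiff Topology

namespace Pool.Agent.OrthCoord

section
variable {n : ℕ} (S : Finset (Fin n))

/-- Shrinking of the disc part: by `ε` for `rad ≤ 38/25` and the identity for `rad ≥ 79/50`. -/
theorem exists_shrink_part {ε : ℝ} (hε : 0 < ε) (hε1 : ε ≤ 1) :
    ∃ ρ : E n → E n, ContDiff ℝ ∞ ρ ∧ (∀ u, Function.Injective (fderiv ℝ ρ u)) ∧
      (∀ u, rad S u ≤ 38 / 25 → ρ u = u - nP S u + ε • nP S u) ∧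
      (∀ u, 79 / 50 ≤ rad S u → ρ u = u) ∧
      ∀ u w, nP S w = 0 → ρ (u + w) = ρ u + w := by
  set a : ℝ := (38 / 25) ^ 2 with ha
  set c : ℝ := (79 / 50) ^ 2 - (38 / 25) ^ 2 with hc
  have hcpos : 0 < c := by rw [hc]; norm_num
  let T : ℝ → ℝ := fun t => Real.smoothTransition ((t - a) / c)
  have hT : ContDiff ℝ ∞ T := Real.smoothTransition.contDiff.comp
    ((contDiff_id.sub contDiff_const).div_const c)
  have hTm : Monotone T := by
    intro s t hst
    apply Real.smoothTransition.monotone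
    have : s - a ≤ t - a := by linarith
    exact div_le_div_of_nonneg_right this hcpos.le
  have hTd : ∀ t, 0 ≤ deriv T t := fun t => hTm.deriv_nonneg
  have hT0 : ∀ t, 0 ≤ T t := fun t => Real.smoothTransition.nonneg _
  let lam : ℝ → ℝ := fun t => ε + (1 - ε) * T t
  have hlam : ContDiff ℝ ∞ lam := contDiff_const.add (contDiff_const.mul hT)
  have hlamp : ∀ t, 0 < lam t := by
    intro t
    have := mul_nonneg (sub_nonneg.2 hε1) (hT0 t)
    change 0 < ε + (1 - ε) * T t
    linarith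
  have hlamd : ∀ t, 0 ≤ deriv lam t := by
    intro t
    have h1 : HasDerivAt lam ((1 - ε) * deriv T t) t :=
      (((hT.differentiable (by simp)) t).hasDerivAt.const_mul (1 - ε)).const_add ε
    rw [h1.deriv]
    exact mul_nonneg (sub_nonneg.2 hε1) (hTd t)
  refine ⟨fun u => u - nP S u + lam (‖nP S u‖ ^ 2) • nP S u, ?_, ?_, ?_, ?_, ?_⟩
  · exact (contDiff_id.sub (nP S).contDiff).add
      ((hlam.comp ((contDiff_norm_sq ℝ).comp (nP S).contDiff)).smul (nP S).contDiff)
  · intro u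
    have h1 : HasFDerivAt (fun u : E n => lam (‖nP S u‖ ^ 2))
        ((ContinuousLinearMap.toSpanSingleton ℝ (deriv lam (‖nP S u‖ ^ 2))).comp
          ((2 • (innerSL ℝ (nP S u))).comp (nP S))) u := by
      have h2 : HasFDerivAt (fun u : E n => ‖nP S u‖ ^ 2)
          ((2 • (innerSL ℝ (nP S u))).comp (nP S)) u :=
        HasFDerivAt.comp (g := fun v : E n => ‖v‖ ^ 2) u
          (hasStrictFDerivAt_norm_sq (nP S u)).hasFDerivAt (nP S).hasFDerivAt
      have h2' : HasFDerivAt lam (ContinuousLinearMap.toSpanSingleton ℝ (deriv lam (‖nP S u‖ ^ 2)))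
          ((fun u : E n => ‖nP S u‖ ^ 2) u) :=
        ((hlam.differentiable (by simp)) (‖nP S u‖ ^ 2)).hasDerivAt.hasFDerivAt
      exact HasFDerivAt.comp (g := lam) (f := fun u : E n => ‖nP S u‖ ^ 2) u h2' h2
    have h3 := (((hasFDerivAt_id u).sub (nP S).hasFDerivAt).add
      (h1.smul (nP S).hasFDerivAt)).fderiv
    have h3' : fderiv ℝ (fun u : E n => u - nP S u + lam (‖nP S u‖ ^ 2) • nP S u) u = _ := h3
    rw [injective_iff_map_eq_zero]
    intro v hv
    rw [h3'] at hv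
    have h4 : v - nP S v + (lam (‖nP S u‖ ^ 2) • nP S v +
        (2 * inner ℝ (nP S u) (nP S v) * deriv lam (‖nP S u‖ ^ 2)) • nP S u) = 0 := by
      rw [← hv]
      simp [mul_assoc]
    have h4' := congrArg (nP S) h4
    rw [map_add, map_sub, map_add, map_smul, map_smul, nP_nP, nP_nP, sub_self, zero_add,
      map_zero] at h4'
    have h5 := congrArg (fun z => inner ℝ z (nP S v)) h4'
    simp only [inner_add_left, inner_smul_left, inner_zero_left, RCLike.conj_to_real,
      real_inner_self_eq_norm_sq] at h5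
    have h6 : 0 ≤ 2 * inner ℝ (nP S u) (nP S v) * deriv lam (‖nP S u‖ ^ 2) *
        inner ℝ (nP S u) (nP S v) := by
      have := mul_nonneg (mul_self_nonneg (inner ℝ (nP S u) (nP S v))) (hlamd (‖nP S u‖ ^ 2))
      nlinarith
    have h7 : lam (‖nP S u‖ ^ 2) * ‖nP S v‖ ^ 2 ≤ 0 := by linarith
    have h8 : ‖nP S v‖ ^ 2 ≤ 0 := by
      by_contra hcon
      push Not at hcon
      have := mul_pos (hlamp (‖nP S u‖ ^ 2)) hcon
      linarith
    have h9 : ‖nP S v‖ = 0 := by nlinarith [norm_nonneg (nP S v)]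
    have h10 : nP S v = 0 := norm_eq_zero.1 h9
    rw [h10] at h4
    simpa using h4
  · intro u hu
    have h1 : T (‖nP S u‖ ^ 2) = 0 := by
      apply Real.smoothTransition.zero_of_nonpos
      apply div_nonpos_of_nonpos_of_nonneg _ hcpos.le
      have : ‖nP S u‖ ^ 2 ≤ (38 / 25) ^ 2 := pow_le_pow_left₀ (norm_nonneg _) hu 2
      rw [ha]
      linarith
    change u - nP S u + (ε + (1 - ε) * T (‖nP S u‖ ^ 2)) • nP S u = _
    rw [h1]
    simp
  · intro u hu
    have h1 : T (‖nP S u‖ ^ 2) = 1 := by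
      apply Real.smoothTransition.one_of_one_le
      rw [le_div_iff₀ hcpos]
      have : (79 / 50) ^ 2 ≤ ‖nP S u‖ ^ 2 := pow_le_pow_left₀ (by norm_num) hu 2
      rw [hc, ha]
      linarith
    change u - nP S u + (ε + (1 - ε) * T (‖nP S u‖ ^ 2)) • nP S u = _
    rw [h1]
    simp
  · intro u w hw
    change u + w - nP S (u + w) + lam (‖nP S (u + w)‖ ^ 2) • nP S (u + w) =
      u - nP S u + lam (‖nP S u‖ ^ 2) • nP S u + w
    rw [map_add, hw, add_zero]
    abel

/-- Moving the axis by a small vector. -/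
theorem exists_shift (n : ℕ) (S : Finset (Fin n)) : ∃ K : ℝ, 0 < K ∧ ∀ v₀ : E n, ‖v₀‖ * K ≤ 1 →
    nP S v₀ = v₀ →
    ∃ τ : E n → E n, ContDiff ℝ ∞ τ ∧ (∀ u, Function.Injective (fderiv ℝ τ u)) ∧
      (∀ u, rad S u ≤ 1 / 2 → τ u = u + v₀) ∧ (∀ u, 1 ≤ rad S u → τ u = u) ∧
      ∀ u w, nP S w = 0 → τ (u + w) = τ u + w := by
  let f : ContDiffBump (0 : E n) := ⟨1 / 2, 1, by norm_num, by norm_num⟩
  have hf : ContDiff ℝ ∞ f := f.contDiff
  obtain ⟨K, hK⟩ := (f.hasCompactSupport.fderiv (𝕜 := ℝ)).exists_bound_of_continuous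
    (hf.continuous_fderiv (by simp))
  have hK0 : 0 ≤ K := (norm_nonneg _).trans (hK 0)
  refine ⟨2 * (K + 1), by positivity, fun v₀ hv hv0 => ?_⟩
  refine ⟨fun u => u + f (nP S u) • v₀, ?_, ?_, ?_, ?_, ?_⟩
  · exact contDiff_id.add ((hf.comp (nP S).contDiff).smul contDiff_const)
  · intro u
    have h1 : HasFDerivAt (fun u : E n => f (nP S u)) ((fderiv ℝ f (nP S u)).comp (nP S)) u :=
      HasFDerivAt.comp (g := f) u ((hf.differentiable (by simp)) _).hasFDerivAt
        (nP S).hasFDerivAt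
    have h2 := ((hasFDerivAt_id u).add (h1.smul_const v₀)).fderiv
    have h2' : fderiv ℝ (fun u : E n => u + f (nP S u) • v₀) u = _ := h2
    rw [injective_iff_map_eq_zero]
    intro a ha
    rw [h2'] at ha
    have h3 : a + (fderiv ℝ f (nP S u) (nP S a)) • v₀ = 0 := ha
    have h4 := congrArg (nP S) h3
    rw [map_add, map_smul, hv0, map_zero] at h4
    have h5 : ‖nP S a‖ ≤ K * ‖nP S a‖ * ‖v₀‖ := by
      have h6 : nP S a = -((fderiv ℝ f (nP S u) (nP S a)) • v₀) := eq_neg_of_add_eq_zero_left h4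
      calc ‖nP S a‖ = ‖(fderiv ℝ f (nP S u) (nP S a)) • v₀‖ := by
            conv_lhs => rw [h6]
            rw [norm_neg]
        _ = ‖fderiv ℝ f (nP S u) (nP S a)‖ * ‖v₀‖ := norm_smul _ _
        _ ≤ K * ‖nP S a‖ * ‖v₀‖ := by
            refine mul_le_mul_of_nonneg_right ?_ (norm_nonneg _)
            exact (ContinuousLinearMap.le_opNorm _ _).trans
              (mul_le_mul_of_nonneg_right (hK _) (norm_nonneg _))
    have h6 : ‖nP S a‖ = 0 := by
      by_contra hne
      have hpos : 0 < ‖nP S a‖ := lt_of_le_of_ne (norm_nonneg _) (Ne.symm hne)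
      have h7 : K * ‖v₀‖ ≤ 1 / 2 := by nlinarith [norm_nonneg v₀]
      nlinarith
    rw [norm_eq_zero.1 h6] at h3
    simpa using h3
  · intro u hu
    change u + f (nP S u) • v₀ = u + v₀
    rw [f.one_of_mem_closedBall (by rw [mem_closedBall_zero_iff]; exact hu), one_smul]
  · intro u hu
    change u + f (nP S u) • v₀ = u
    rw [f.zero_of_le_dist (by rw [dist_zero_right]; exact hu), zero_smul, add_zero]
  · intro u w hw
    change u + w + f (nP S (u + w)) • v₀ = u + f (nP S u) • v₀ + w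
    rw [map_add, hw, add_zero]
    abel

end

variable {k : ℕ}

theorem exists_core (k : ℕ) (α : ℝ) :
    ∃ (B : E (k + 4) → E (k + 4) →L[ℝ] E (k + 4) →L[ℝ] ℝ) (ε : ℝ), 0 < ε ∧
      (∀ u, DiagAt B u) ∧ (∀ u, 8 / 5 ≤ rad (discDirs k) u → B u = twistForm α u) ∧
      (∀ u, rad (discDirs k) u ≤ 3 / 2 → ∀ x y, B u x y =
        inner ℝ (x - nP (discDirs k) x) (y - nP (discDirs k) y) +
          ε ^ 2 * inner ℝ (nP (discDirs k) x) (nP (discDirs k) y)) ∧
      ∀ (u : E (k + 4)) (t : ℝ), B (u + t • (basisVec 0 : E (k + 4))) = B u := by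
  obtain ⟨n10, n20, n30, n21, n31, n32⟩ := ne_facts (k := k)
  set S := discDirs k with hS
  obtain ⟨K, hK, hshift⟩ := exists_shift (k + 4) S
  set c : ℝ := min (1 / 2) K⁻¹ with hc
  have hcpos : 0 < c := lt_min (by norm_num) (inv_pos.2 hK)
  set v₀ : E (k + 4) := c • (basisVec 2 : E (k + 4)) with hv₀
  have hv0 : nP S v₀ = v₀ := by
    ext j
    rw [nP_apply, normalPart_apply]
    by_cases hj : j = 0
    · simp [hS, discDirs, hj, hv₀, n20.symm]
    · simp [hS, discDirs, hj]
  have hvn : ‖v₀‖ * K ≤ 1 := by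
    have h1 : ‖v₀‖ = c := by
      rw [hv₀, norm_smul, Real.norm_of_nonneg hcpos.le]
      simp
    rw [h1]
    calc c * K ≤ K⁻¹ * K := mul_le_mul_of_nonneg_right (min_le_right _ _) hK.le
      _ = 1 := inv_mul_cancel₀ hK.ne'
  obtain ⟨τ, hτ, hτi, hτin, hτout, hτadd⟩ := hshift v₀ hvn hv0
  obtain ⟨B, hBD, hBout, ⟨δ, hδ, hBin⟩, hBt⟩ := exists_swirl k α hcpos (min_le_left _ _)
  set ε : ℝ := min (1 / 4) (δ / 2) with hε
  have hεpos : 0 < ε := lt_min (by norm_num) (by positivity)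
  have hε4 : ε ≤ 1 / 4 := min_le_left _ _
  have hεδ : ε ≤ δ / 2 := min_le_right _ _
  obtain ⟨ρ, hρ, hρi, hρin, hρout, hρadd⟩ := exists_shrink_part S hεpos (by linarith)
  have hρl : ∀ u, IsLocalDiffeomorphAt (𝓡 (k + 4)) (𝓡 (k + 4)) ∞ ρ u :=
    localDiffeo_of_fderiv hρ hρi
  have hτl : ∀ u, IsLocalDiffeomorphAt (𝓡 (k + 4)) (𝓡 (k + 4)) ∞ τ u :=
    localDiffeo_of_fderiv hτ hτi
  have hκl : ∀ u, IsLocalDiffeomorphAt (𝓡 (k + 4)) (𝓡 (k + 4)) ∞ (τ ∘ ρ) u := fun u =>
    (hρl u).comp _ _ (hτl _)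
  have hκin : ∀ u, rad S u ≤ 38 / 25 → (τ ∘ ρ) u = u - nP S u + ε • nP S u + v₀ := by
    intro u hu
    change τ (ρ u) = _
    rw [hρin u hu]
    apply hτin
    have h1 : nP S (u - nP S u + ε • nP S u) = ε • nP S u := by
      rw [map_add, map_sub, map_smul, nP_nP, sub_self, zero_add]
    rw [rad_eq, h1, norm_smul, Real.norm_of_nonneg hεpos.le]
    have h2 : ‖nP S u‖ ≤ 38 / 25 := hu
    nlinarith [norm_nonneg (nP S u)]
  have hκout : ∀ u, 79 / 50 ≤ rad S u → (τ ∘ ρ) u = u := by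
    intro u hu
    change τ (ρ u) = u
    rw [hρout u hu]
    exact hτout u (by linarith)
  refine ⟨pull (τ ∘ ρ) B, ε, hεpos, fun u => DiagAt.pull (hκl u) (hBD _), fun u hu => ?_,
    fun u hu x y => ?_, fun u t => ?_⟩
  · have h1 : dm (τ ∘ ρ) u = ContinuousLinearMap.id ℝ (E (k + 4)) := by
      have h3 : dm (id : E (k + 4) → E (k + 4)) u = ContinuousLinearMap.id ℝ (E (k + 4)) :=
        mfderiv_id
      rw [← h3]
      apply dm_congr
      have h4 : IsOpen {v : E (k + 4) | 79 / 50 < rad S v} :=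
        isOpen_lt continuous_const (continuous_rad S)
      filter_upwards [h4.mem_nhds (by change (79 : ℝ) / 50 < rad S u; linarith)] with v hv
      exact hκout v (le_of_lt hv)
    ext x y
    rw [pull_apply, h1, hκout u (by linarith), hBout u (by linarith)]
    rfl
  · have h1 : ∀ x : E (k + 4), dm (τ ∘ ρ) u x = x - nP S x + ε • nP S x := by
      intro x
      have h2 : dm (n := k + 4) (τ ∘ ρ) u = dm (n := k + 4)
          (fun u : E (k + 4) => u - nP S u + ε • nP S u + v₀) u := by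
        apply dm_congr
        have h4 : IsOpen {v : E (k + 4) | rad S v < 38 / 25} :=
          isOpen_lt (continuous_rad S) continuous_const
        filter_upwards [h4.mem_nhds (by change rad S u < (38 : ℝ) / 25; linarith)] with v hv
        exact hκin v (le_of_lt hv)
      rw [h2, dm_eq_fderiv]
      have h5 := ((((hasFDerivAt_id u).sub (nP S).hasFDerivAt).add
        ((nP S).hasFDerivAt.const_smul ε)).add_const v₀).fderiv
      have h5' : fderiv ℝ (fun u : E (k + 4) => u - nP S u + ε • nP S u + v₀) u = _ := h5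
      rw [h5']
      simp
    have h2 : ‖nP S ((τ ∘ ρ) u) - c • (basisVec 2 : E (k + 4))‖ ≤ δ := by
      rw [hκin u (by linarith), map_add, map_add, map_sub, map_smul, nP_nP, sub_self, zero_add,
        hv0, ← hv₀, add_sub_cancel_right, norm_smul, Real.norm_of_nonneg hεpos.le]
      have h3 : ‖nP S u‖ ≤ 3 / 2 := hu
      nlinarith [norm_nonneg (nP S u)]
    rw [pull_apply, hBin _ h2, h1, h1]
    have e1 := inner_nP_sub S x y
    have e2 := inner_nP_sub S y x
    rw [real_inner_comm] at e2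
    simp only [inner_add_left, inner_add_right, inner_smul_left, inner_smul_right,
      RCLike.conj_to_real, e1, e2]
    ring
  · have h0 : nP S (t • (basisVec 0 : E (k + 4))) = 0 := normalPart_zeroth t
    have hadd : ∀ v, (τ ∘ ρ) (v + t • (basisVec 0 : E (k + 4))) =
        (τ ∘ ρ) v + t • (basisVec 0 : E (k + 4)) := by
      intro v
      change τ (ρ (v + t • (basisVec 0 : E (k + 4)))) = τ (ρ v) + t • (basisVec 0 : E (k + 4))
      rw [hρadd v _ h0, hτadd _ _ h0]
    have hd : ∀ x : E (k + 4), dm (τ ∘ ρ) (u + t • (basisVec 0 : E (k + 4))) x =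
        dm (τ ∘ ρ) u x := by
      intro x
      have e1 := dm_comp (f := fun z : E (k + 4) => z + t • (basisVec 0 : E (k + 4)))
        (h := τ ∘ ρ) (hκl (u + t • (basisVec 0 : E (k + 4))))
        (localDiffeo_add (t • (basisVec 0 : E (k + 4))) u) x
      have e2 := dm_comp (f := τ ∘ ρ)
        (h := fun z : E (k + 4) => z + t • (basisVec 0 : E (k + 4)))
        (localDiffeo_add (t • (basisVec 0 : E (k + 4))) ((τ ∘ ρ) u)) (hκl u) x
      rw [dm_add] at e1 e2
      rw [← e1, ← e2]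
      congr 1
      congr 1
      funext v
      exact hadd v
    ext x y
    rw [pull_apply, pull_apply, hd, hd, hadd, hBt]

end Pool.Agent.OrthCoord
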