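import Pool.Agent.OrthCoord.Defs

set_option autoImplicit false
open Set
open scoped Manifold ContDiff

namespace Pool.Agent.OrthCoord

/-- Smooth local diffeomorphism at the point `y`, for a map between two `n`-manifolds. -/
abbrev LocDiffeoAt (n : ℕ) {N M : Type} [TopologicalSpace N] [ChartedSpace (E n) N]
    [TopologicalSpace M] [ChartedSpace (E n) M] (f : N → M) (y : N) : Prop :=
  IsLocalDiffeomorphAt (𝓡 n) (𝓡 n) ∞ f y

/-- `φ false` and `φ true` are two disjoint smoothly embedded discs of radius `2` in `N`. -/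
structure TwoDiscs (n : ℕ) {N : Type} [TopologicalSpace N] [ChartedSpace (E n) N]
    (φ : Bool → E n → N) : Prop where
  loc : ∀ j u, ‖u‖ < 2 → LocDiffeoAt n (φ j) u
  inj : ∀ j k u v, ‖u‖ < 2 → ‖v‖ < 2 → φ j u = φ k v → j = k ∧ u = v

/-- `y` lies in one of the two closed discs of radius `1/2`. -/
def InCore {n : ℕ} {N : Type} (φ : Bool → E n → N) (y : N) : Prop :=
  ∃ (j : Bool) (u : E n), ‖u‖ ≤ 1 / 2 ∧ φ j u = y

/-- `y` lies in the annulus `1/2 < ‖u‖ < 2` of one of the discs and `z` is the point of the other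
disc obtained from it by the inversion `u ↦ u / ‖u‖²`. -/
def Linked {n : ℕ} {N : Type} (φ : Bool → E n → N) (y z : N) : Prop :=
  ∃ (j : Bool) (u : E n), 1 / 2 < ‖u‖ ∧ ‖u‖ < 2 ∧ φ j u = y ∧ φ (!j) ((‖u‖ ^ 2)⁻¹ • u) = z

/-- The map `i` exhibits the `n`-manifold `M` as the result of adding a neck to the `n`-manifold
`N` between the two discs `φ false` and `φ true`: the closed half discs are removed and the
remaining annuli `1/2 < ‖u‖ < 2` are glued by the inversion. If the discs lie in different
components of `N`, this is their connected sum, otherwise it is a surgery on a `0`-sphere. -/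
structure IsNeck (n : ℕ) {N M : Type} [TopologicalSpace N] [ChartedSpace (E n) N]
    [TopologicalSpace M] [ChartedSpace (E n) M] (φ : Bool → E n → N) (i : N → M) : Prop where
  discs : TwoDiscs n φ
  loc : ∀ y, ¬ InCore φ y → LocDiffeoAt n i y
  surj : ∀ x : M, ∃ y, ¬ InCore φ y ∧ i y = x
  glue : ∀ y z, ¬ InCore φ y → ¬ InCore φ z → (i y = i z ↔ y = z ∨ Linked φ y z)

end Pool.Agent.OrthCoord
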