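import Pool.Agent.OrthCoord.Standard
import Pool.Agent.OrthCoord.NeckDefs

set_option autoImplicit false
open Bundle Set ContinuousLinearMap
open scoped Manifold ContDiff Topology

namespace Pool.Agent.OrthCoord

variable {n : ℕ}

/-- The inversion in the unit sphere. -/
noncomputable def sph (u : E n) : E n := (‖u‖ ^ 2)⁻¹ • u

theorem hasFDerivAt_sph {u : E n} (hu : u ≠ 0) :
    HasFDerivAt sph ((‖u‖ ^ 2)⁻¹ • ContinuousLinearMap.id ℝ (E n) +
      ((-(2 * ((‖u‖ ^ 2) ^ 2)⁻¹)) • (innerSL ℝ u)).smulRight u) u := by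
  have hpos : 0 < ‖u‖ := norm_pos_iff.2 hu
  have h2 : HasFDerivAt (fun u : E n => ‖u‖ ^ 2) (2 • (innerSL ℝ u)) u :=
    (hasStrictFDerivAt_norm_sq u).hasFDerivAt
  have h3 : HasDerivAt (fun t : ℝ => t⁻¹) (-((‖u‖ ^ 2) ^ 2)⁻¹) (‖u‖ ^ 2) :=
    hasDerivAt_inv (by positivity)
  have h4 : HasFDerivAt (fun u : E n => (‖u‖ ^ 2)⁻¹)
      ((-(2 * ((‖u‖ ^ 2) ^ 2)⁻¹)) • (innerSL ℝ u)) u := by
    have h5 := h3.comp_hasFDerivAt (f := fun u : E n => ‖u‖ ^ 2) u h2
    refine h5.congr_fderiv ?_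
    ext v
    simp
    ring
  exact h4.smul (hasFDerivAt_id u)

theorem fderiv_sph {u : E n} (hu : u ≠ 0) (v : E n) :
    fderiv ℝ sph u v = (‖u‖ ^ 2)⁻¹ • v + (-(2 * ((‖u‖ ^ 2) ^ 2)⁻¹) * inner ℝ u v) • u := by
  rw [(hasFDerivAt_sph hu).fderiv]
  simp

theorem inner_fderiv_sph {u : E n} (hu : u ≠ 0) (a c : E n) :
    inner ℝ (fderiv ℝ sph u a) (fderiv ℝ sph u c) = ((‖u‖ ^ 2) ^ 2)⁻¹ * inner ℝ a c := by
  have hpos : 0 < ‖u‖ := norm_pos_iff.2 hu
  rw [fderiv_sph hu, fderiv_sph hu]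
  simp only [inner_add_left, inner_add_right, inner_smul_left, inner_smul_right,
    RCLike.conj_to_real, real_inner_self_eq_norm_sq]
  rw [real_inner_comm u a]
  field_simp
  ring

theorem contDiffOn_sph : ContDiffOn ℝ ∞ (sph (n := n)) {u | u ≠ 0} := by
  refine ContDiffOn.smul (ContDiffOn.inv (contDiff_norm_sq ℝ).contDiffOn fun v hv => ?_)
    contDiffOn_id
  have : 0 < ‖v‖ := norm_pos_iff.2 hv
  positivity

theorem localDiffeo_sph {u : E n} (hu : u ≠ 0) :
    IsLocalDiffeomorphAt (𝓡 n) (𝓡 n) ∞ (sph (n := n)) u := by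
  refine isLocalDiffeomorphOn_of_injective isOpen_ne contDiffOn_sph (fun v hv => ?_) ⟨u, hu⟩
  rw [injective_iff_map_eq_zero]
  intro a ha
  have h1 := inner_fderiv_sph hv a a
  rw [ha, inner_zero_left, real_inner_self_eq_norm_sq] at h1
  have hpos : 0 < ‖v‖ := norm_pos_iff.2 hv
  have h2 : 0 < ((‖v‖ ^ 2) ^ 2)⁻¹ := by positivity
  have h3 : ‖a‖ ^ 2 = 0 := by
    rcases mul_eq_zero.1 h1.symm with h | h
    · exact absurd h h2.ne'
    · exact h
  exact norm_eq_zero.1 (by nlinarith [norm_nonneg a])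

theorem norm_sph {u : E n} (hu : u ≠ 0) : ‖sph u‖ = ‖u‖⁻¹ := by
  have hpos : 0 < ‖u‖ := norm_pos_iff.2 hu
  unfold sph
  rw [norm_smul, norm_inv, norm_pow, norm_norm]
  field_simp

variable {N M : Type} [TopologicalSpace N] [ChartedSpace (E n) N] [TopologicalSpace M]
  [ChartedSpace (E n) M]

theorem IsNeck.hasOrthogonalMetric [T2Space N] [IsManifold (𝓡 n) ∞ N] [IsManifold (𝓡 n) ∞ M]
    {φ : Bool → E n → N} {i : N → M} (H : IsNeck n φ i) (hN : HasOrthogonalMetric n N) :
    HasOrthogonalMetric n M := by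
  obtain ⟨b, hb⟩ := hN.diagAt
  have hdisc : ∀ j, IsDisc n (φ j) := fun j =>
    ⟨fun u hu => H.discs.loc j u hu, fun u v hu hv h => (H.discs.inj j j u v hu hv h).2⟩
  have hdisj : ∀ j, ∀ r : ℝ, r < 2 → ∀ u, ‖u‖ < 2 → φ (!j) u ∉ Core (φ j) r := by
    rintro j r hr u hu ⟨v, hv, hvu⟩
    rw [mem_closedBall_zero_iff] at hv
    have h1 := (H.discs.inj j (!j) v u (hv.trans_lt hr) hu hvu).1
    cases j <;> simp at h1
  have hdisj' : ∀ j, ∀ r : ℝ, r < 2 → ∀ u, ‖u‖ < 2 → φ j u ∉ Core (φ (!j)) r := by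
    intro j r hr u hu
    have h1 := hdisj (!j) r hr u hu
    rw [Bool.not_not] at h1
    exact h1
  obtain ⟨b₁, hb₁D, hb₁out, hb₁c⟩ := (hdisc false).standard (V₀ := univ) (subset_univ _)
    (fun y _ => hb y)
  obtain ⟨b₂, hb₂D, hb₂out, hb₂c⟩ := (hdisc true).standard (V₀ := (Core (φ false) (1 / 2))ᶜ)
    (by
      rintro y ⟨u, hu, rfl⟩
      exact hdisj false _ (by norm_num) u (mem_ball_zero_iff.1 hu))
    (fun y hy => hb₁D y (mem_univ y) hy)
  have hcyl : ∀ j u, 1 / 2 < ‖u‖ → ‖u‖ < 6 / 5 → ∀ a c : E n,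
      b₂ (φ j u) (dm (φ j) u a) (dm (φ j) u c) = (‖u‖ ^ 2)⁻¹ * inner ℝ a c := by
    intro j u hu1 hu2 a c
    cases j
    · rw [hb₂out _ (hdisj' false _ (by norm_num) u (by linarith))]
      exact hb₁c u hu1 hu2 a c
    · exact hb₂c u hu1 hu2 a c
  have hcoreiff : ∀ j (u : E n) (r : ℝ), r < 2 → ‖u‖ < 2 → (φ j u ∈ Core (φ j) r ↔ ‖u‖ ≤ r) :=
    fun j u r hr hu => (hdisc j).mem_core_iff hr hu
  have hInCore : ∀ y, (¬ InCore φ y) ↔ ∀ j, y ∉ Core (φ j) (1 / 2) := by
    intro y
    constructor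
    · rintro h j ⟨u, hu, rfl⟩
      exact h ⟨j, u, by simpa using hu, rfl⟩
    · rintro h ⟨j, u, hu, rfl⟩
      exact h j ⟨u, by simpa using hu, rfl⟩
  set V : Set N := (Core (φ false) (9 / 10))ᶜ ∩ (Core (φ true) (9 / 10))ᶜ with hV
  have hVo : IsOpen V := ((hdisc false).isClosed_core (by norm_num)).isOpen_compl.inter
    ((hdisc true).isClosed_core (by norm_num)).isOpen_compl
  have hVmem : ∀ y, y ∈ V ↔ ∀ j, y ∉ Core (φ j) (9 / 10) := by
    intro y
    constructor
    · rintro h (_ | _)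
      · exact h.1
      · exact h.2
    · intro h
      exact ⟨h false, h true⟩
  have hVC : ∀ y ∈ V, ¬ InCore φ y := by
    intro y hy
    rw [hInCore]
    intro j h
    exact (hVmem y).1 hy j (Core_mono _ (by norm_num) h)
  have hne : ∀ u : E n, 1 / 2 < ‖u‖ → u ≠ 0 := by
    intro u hu
    exact norm_pos_iff.1 (by linarith)
  have hsph2 : ∀ u : E n, 1 / 2 < ‖u‖ → ‖sph u‖ < 2 := by
    intro u hu
    rw [norm_sph (hne u hu)]
    have h1 : 0 < ‖u‖ := by linarith
    rw [inv_lt_comm₀ h1 (by norm_num)]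
    linarith
  refine hasOrthogonalMetric_of_descend (b := b₂) hVo (i := i) (fun y hy => H.loc y (hVC y hy))
    ?_ ?_ ?_
  · intro x
    obtain ⟨y, hy, rfl⟩ := H.surj x
    by_cases hyV : y ∈ V
    · exact ⟨y, hyV, rfl⟩
    · rw [hVmem] at hyV
      push Not at hyV
      obtain ⟨j, u, hu, rfl⟩ := hyV
      rw [mem_closedBall_zero_iff] at hu
      have hu2 : ‖u‖ < 2 := by linarith
      have hu1 : 1 / 2 < ‖u‖ := by
        by_contra hcon
        push Not at hcon
        exact hy ⟨j, u, hcon, rfl⟩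
      have h1 : 9 / 10 < ‖sph u‖ := by
        rw [norm_sph (hne u hu1), lt_inv_comm₀ (by norm_num) (by linarith)]
        linarith
      have h2 := hsph2 u hu1
      have h3 : φ (!j) (sph u) ∈ V := by
        rw [hVmem]
        intro k
        rcases eq_or_ne k j with rfl | hk
        · exact hdisj k _ (by norm_num) _ h2
        · have : k = !j := by cases k <;> cases j <;> simp_all
          subst this
          rw [hcoreiff _ _ _ (by norm_num) h2]
          push Not
          exact h1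
      refine ⟨φ (!j) (sph u), h3, ?_⟩
      exact ((H.glue _ _ hy (hVC _ h3)).2 (Or.inr ⟨j, u, hu1, hu2, rfl, rfl⟩)).symm
  · intro y hy
    have h1 := (hInCore y).1 (hVC y hy)
    exact hb₂D y (h1 false) (h1 true)
  · intro y hy z hz hyz a c a' c' ha hc
    rcases (H.glue y z (hVC y hy) (hVC z hz)).1 hyz with rfl | ⟨j, u, hu1, hu2, rfl, rfl⟩
    · have hinj := dm_injective (H.loc y (hVC y hy))
      rw [hinj ha, hinj hc]
    · change φ (!j) (sph u) ∈ V at hz
      have h2 := hsph2 u hu1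
      have hu0 := hne u hu1
      have h3 : 9 / 10 < ‖sph u‖ := by
        by_contra hcon
        push Not at hcon
        exact (hVmem _).1 hz (!j) ((hcoreiff _ _ _ (by norm_num) h2).2 hcon)
      have h4 : ‖u‖ < 6 / 5 := by
        rw [norm_sph hu0, lt_inv_comm₀ (by norm_num) (by linarith)] at h3
        linarith
      have h5 : 9 / 10 < ‖u‖ := by
        by_contra hcon
        push Not at hcon
        exact (hVmem _).1 hy j ((hcoreiff _ _ _ (by norm_num) hu2).2 hcon)
      have h6 : ‖sph u‖ < 6 / 5 := by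
        rw [norm_sph hu0, inv_lt_comm₀ (by linarith) (by norm_num)]
        linarith
      have hφj := (hdisc j).loc u hu2
      have hφj' := (hdisc (!j)).loc (sph u) h2
      obtain ⟨α, rfl⟩ := mfderiv_surjective hφj a
      obtain ⟨γ, rfl⟩ := mfderiv_surjective hφj c
      have hsph := localDiffeo_sph hu0
      have hiy : IsLocalDiffeomorphAt (𝓡 n) (𝓡 n) ∞ i (φ j u) := H.loc _ (hVC _ hy)
      have hiz : IsLocalDiffeomorphAt (𝓡 n) (𝓡 n) ∞ i (φ (!j) (sph u)) := H.loc _ (hVC _ hz)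
      have hkey : ∀ α α' : E n, dm i (φ j u) (dm (φ j) u α) = dm i (φ (!j) (sph u)) α' →
          α' = dm (φ (!j)) (sph u) (fderiv ℝ sph u α) := by
        intro α α' h
        apply dm_injective hiz
        rw [← h, ← dm_eq_fderiv, ← dm_comp hφj' hsph, ← dm_comp hiy hφj]
        have h7 : IsLocalDiffeomorphAt (𝓡 n) (𝓡 n) ∞ (φ (!j) ∘ sph) u := hsph.comp _ _ hφj'
        have h9 : dm (i ∘ (φ (!j) ∘ sph)) u α =
            dm i (φ (!j) (sph u)) (dm (φ (!j) ∘ sph) u α) :=
          dm_comp (f := φ (!j) ∘ sph) (h := i) hiz h7 α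
        refine Eq.trans ?_ h9
        have h8 : dm (n := n) (i ∘ φ j) u = dm (n := n) (i ∘ (φ (!j) ∘ sph)) u := by
          apply dm_congr
          have hopen : IsOpen {v : E n | 1 / 2 < ‖v‖ ∧ ‖v‖ < 2} :=
            (isOpen_lt continuous_const continuous_norm).inter
              (isOpen_lt continuous_norm continuous_const)
          filter_upwards [hopen.mem_nhds ⟨hu1, hu2⟩] with v hv
          have hc1 : ¬ InCore φ (φ j v) := by
            rw [hInCore]
            intro k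
            rcases eq_or_ne k j with rfl | hk
            · rw [hcoreiff _ _ _ (by norm_num) hv.2]
              push Not
              exact hv.1
            · have : k = !j := by cases k <;> cases j <;> simp_all
              subst this
              exact hdisj' j _ (by norm_num) v hv.2
          have hc2 : ¬ InCore φ (φ (!j) (sph v)) := by
            rw [hInCore]
            intro k
            rcases eq_or_ne k j with rfl | hk
            · exact hdisj k _ (by norm_num) _ (hsph2 v hv.1)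
            · have : k = !j := by cases k <;> cases j <;> simp_all
              subst this
              rw [hcoreiff _ _ _ (by norm_num) (hsph2 v hv.1)]
              push Not
              rw [norm_sph (hne v hv.1), lt_inv_comm₀ (by norm_num) (by linarith [hv.1])]
              linarith [hv.2]
          exact (H.glue _ _ hc1 hc2).2 (Or.inr ⟨j, v, hv.1, hv.2, rfl, rfl⟩)
        rw [h8]
      rw [hkey α a' ha, hkey γ c' hc]
      have e1 := hcyl j u hu1 h4 α γ
      have e2 := hcyl (!j) (sph u) (by linarith) h6 (fderiv ℝ sph u α) (fderiv ℝ sph u γ)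
      have e3 : b₂ (φ j u) (dm (φ j) u α) (dm (φ j) u γ) =
          b₂ (φ (!j) (sph u)) (dm (φ (!j)) (sph u) (fderiv ℝ sph u α))
            (dm (φ (!j)) (sph u) (fderiv ℝ sph u γ)) := by
        rw [e1, e2, inner_fderiv_sph hu0, norm_sph hu0]
        have hpos : 0 < ‖u‖ := by linarith
        field_simp
      exact e3

end Pool.Agent.OrthCoord
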