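import Pool.Agent.OrthCoord.TubeDefs

set_option autoImplicit false
open Set
open scoped Manifold ContDiff

namespace Pool.Agent.OrthCoord

/-- All coordinate directions but the zeroth. -/
def discDirs (k : ℕ) : Finset (Fin (k + 4)) := Finset.univ.erase 0

/-- The translations by the multiples of `2π` in the zeroth direction. -/
def turns (k : ℕ) : Set (E (k + 4)) :=
  {w | ∃ m : ℤ, w = ((m : ℝ) * (2 * Real.pi)) • (basisVec 0 : E (k + 4))}

/-- The map `u ↦ (e^(u₁/4) e^(i u₀) / 4, u₂ / 16, u₃ / 16, …)` in `ℂ × ℝ × ℝ × …`: a tube around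
the circle of radius `1/4` in the plane of the first two coordinates, with its constant framing. -/
noncomputable def evenTube {k : ℕ} (u : E (k + 4)) : E (k + 4) :=
  WithLp.toLp 2 fun j =>
    if j = 0 then Real.exp (u 1 / 4) / 4 * Real.cos (u 0)
    else if j = 1 then Real.exp (u 1 / 4) / 4 * Real.sin (u 0)
    else u j / 16

/-- The map `u ↦ (e^(u₁/4) e^(i (u₀ + u₃/4)) / 4, e^(u₂/4) e^(i (u₀ - u₃/4)) / 4, u₄ / 16, …)` in
`ℂ × ℂ × ℝ × …`: a tube around the circle `(e^(iθ) / 4, e^(iθ) / 4, 0, …)`, whose framing turns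
once, against the constant framing of this circle, as `θ` goes from `0` to `2π`. -/
noncomputable def oddTube {k : ℕ} (u : E (k + 4)) : E (k + 4) :=
  WithLp.toLp 2 fun j =>
    if j = 0 then Real.exp (u 1 / 4) / 4 * Real.cos (u 0 + u 3 / 4)
    else if j = 1 then Real.exp (u 1 / 4) / 4 * Real.sin (u 0 + u 3 / 4)
    else if j = 2 then Real.exp (u 2 / 4) / 4 * Real.cos (u 0 - u 3 / 4)
    else if j = 3 then Real.exp (u 2 / 4) / 4 * Real.sin (u 0 - u 3 / 4)
    else u j / 16

/-- The odd tube in the disc `φ false` and the even tube in the disc `φ true`. -/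
noncomputable def discTubes {k : ℕ} {N : Type} (φ : Bool → E (k + 4) → N) :
    Unit → Bool → E (k + 4) → N :=
  fun _ j u => if j then φ true (evenTube u) else φ false (oddTube u)

end Pool.Agent.OrthCoord
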