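import Pool.Agent.OrthCoord.OddMetric
import Pool.Agent.OrthCoord.Stair

set_option autoImplicit false
open Bundle Set ContinuousLinearMap
open scoped Manifold ContDiff Topology

namespace Pool.Agent.OrthCoord

variable {k : ℕ}

theorem basisVec_zero_apply (j : Fin (k + 4)) :
    (basisVec 0 : E (k + 4)) j = if j = 0 then 1 else 0 := by
  simp

theorem normalPart_turns {w : E (k + 4)} (hw : w ∈ turns k) : normalPart (discDirs k) w = 0 := by
  obtain ⟨m, rfl⟩ := hw
  ext j
  rw [normalPart_apply]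
  by_cases hj : j = 0
  · simp [discDirs, hj]
  · simp [discDirs, hj]

theorem turns_apply {w : E (k + 4)} (hw : w ∈ turns k) {j : Fin (k + 4)} (hj : j ≠ 0) :
    w j = 0 := by
  obtain ⟨m, rfl⟩ := hw
  simp [hj]

theorem mem_turns {w : E (k + 4)} {m : ℤ} (h0 : w 0 = m * (2 * Real.pi))
    (hj : ∀ j, j ≠ 0 → w j = 0) : w ∈ turns k := by
  refine ⟨m, ?_⟩
  ext j
  by_cases h : j = 0
  · subst h
    rw [h0]
    simp
  · rw [hj j h]
    simp [h]

theorem rad_sq (u : E (k + 4)) : rad (discDirs k) u ^ 2 =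
    u 1 ^ 2 + u 2 ^ 2 + u 3 ^ 2 + ∑ j : Fin k, u (j.addNat 4) ^ 2 := by
  obtain ⟨n10, n20, n30, n21, n31, n32⟩ := ne_facts (k := k)
  unfold rad
  rw [EuclideanSpace.norm_sq_eq, sum_four]
  simp only [normalPart_apply, discDirs, Finset.mem_erase, Finset.mem_univ, and_true, ne_eq,
    not_true, if_false, n10, n20, n30, not_false_eq_true, if_true, Real.norm_eq_abs, sq_abs]
  have h : ∀ j : Fin k, ¬ (j.addNat 4 = (0 : Fin (k + 4))) := fun j => (ne_addNat j).1
  simp only [h, not_false_eq_true, if_true]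
  ring

theorem coord_bounds {u : E (k + 4)} (hu : rad (discDirs k) u < 2) :
    |u 1| < 2 ∧ |u 2| < 2 ∧ |u 3| < 2 ∧
      u 2 ^ 2 + u 3 ^ 2 + ∑ j : Fin k, u (j.addNat 4) ^ 2 ≤ 4 := by
  have h := rad_sq u
  have h0 := rad_nonneg (discDirs k) u
  have h4 : rad (discDirs k) u ^ 2 < 4 := by nlinarith
  have hs : 0 ≤ ∑ j : Fin k, u (j.addNat 4) ^ 2 := Finset.sum_nonneg fun j _ => sq_nonneg _
  have h1 := sq_nonneg (u 1)
  have h2 := sq_nonneg (u 2)
  have h3 := sq_nonneg (u 3)
  refine ⟨abs_lt_of_sq_lt_sq (by linarith) (by norm_num),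
    abs_lt_of_sq_lt_sq (by linarith) (by norm_num),
    abs_lt_of_sq_lt_sq (by linarith) (by norm_num), by linarith⟩

theorem exp_bound {x : ℝ} (hx : |x| < 2) : (Real.exp (x / 4) / 4) ^ 2 < 1 / 5 := by
  have h1 := (abs_lt.1 hx).2
  have h2 : Real.exp (x / 4) ^ 2 = Real.exp (x / 2) := by
    rw [← Real.exp_nat_mul]
    congr 1
    push_cast
    ring
  have h3 : Real.exp (x / 2) < Real.exp 1 := Real.exp_lt_exp.2 (by linarith)
  have h4 := Real.exp_one_lt_d9
  rw [div_pow, h2]
  linarith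

theorem norm_evenTube_sq (u : E (k + 4)) : ‖evenTube u‖ ^ 2 = (Real.exp (u 1 / 4) / 4) ^ 2 +
    (u 2 ^ 2 + u 3 ^ 2 + ∑ j : Fin k, u (j.addNat 4) ^ 2) / 256 := by
  obtain ⟨n10, n20, n30, n21, n31, n32⟩ := ne_facts (k := k)
  rw [EuclideanSpace.norm_sq_eq, sum_four]
  have h : ∀ j : Fin k, ‖evenTube u (j.addNat 4)‖ ^ 2 = u (j.addNat 4) ^ 2 / 256 := by
    intro j
    obtain ⟨m0, m1, m2, m3⟩ := ne_addNat j
    rw [Real.norm_eq_abs, sq_abs]
    simp only [evenTube, if_neg m0, if_neg m1]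
    ring
  simp only [h]
  rw [← Finset.sum_div]
  simp only [evenTube, if_neg n10, if_neg n20, if_neg n30, if_neg n21, if_neg n31, if_true,
    Real.norm_eq_abs, sq_abs]
  have hs := Real.sin_sq_add_cos_sq (u 0)
  linear_combination (Real.exp (u 1 / 4) / 4) ^ 2 * hs

theorem norm_oddTube_sq (u : E (k + 4)) : ‖oddTube u‖ ^ 2 = (Real.exp (u 1 / 4) / 4) ^ 2 +
    (Real.exp (u 2 / 4) / 4) ^ 2 + (∑ j : Fin k, u (j.addNat 4) ^ 2) / 256 := by
  obtain ⟨n10, n20, n30, n21, n31, n32⟩ := ne_facts (k := k)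
  rw [EuclideanSpace.norm_sq_eq, sum_four]
  have h : ∀ j : Fin k, ‖oddTube u (j.addNat 4)‖ ^ 2 = u (j.addNat 4) ^ 2 / 256 := by
    intro j
    obtain ⟨m0, m1, m2, m3⟩ := ne_addNat j
    rw [Real.norm_eq_abs, sq_abs]
    simp only [oddTube, if_neg m0, if_neg m1, if_neg m2, if_neg m3]
    ring
  simp only [h]
  rw [← Finset.sum_div]
  simp only [oddTube, if_neg n10, if_neg n20, if_neg n30, if_neg n21, if_neg n31, if_neg n32,
    if_true, Real.norm_eq_abs, sq_abs]
  have hs := Real.sin_sq_add_cos_sq (u 0 + u 3 / 4)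
  have hs' := Real.sin_sq_add_cos_sq (u 0 - u 3 / 4)
  linear_combination (Real.exp (u 1 / 4) / 4) ^ 2 * hs + (Real.exp (u 2 / 4) / 4) ^ 2 * hs'

theorem norm_evenTube_lt {u : E (k + 4)} (hu : rad (discDirs k) u < 2) : ‖evenTube u‖ < 6 / 5 := by
  obtain ⟨h1, h2, h3, h4⟩ := coord_bounds hu
  have h5 := exp_bound h1
  have h6 := norm_evenTube_sq u
  have h7 := norm_nonneg (evenTube u)
  nlinarith

theorem norm_oddTube_lt {u : E (k + 4)} (hu : rad (discDirs k) u < 2) : ‖oddTube u‖ < 6 / 5 := by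
  obtain ⟨h1, h2, h3, h4⟩ := coord_bounds hu
  have h5 := exp_bound h1
  have h5' := exp_bound h2
  have h6 := norm_oddTube_sq u
  have h7 := norm_nonneg (oddTube u)
  have h8 := sq_nonneg (u 2)
  have h9 := sq_nonneg (u 3)
  nlinarith

/-- Polar coordinates are determined up to full turns. -/
theorem polar_eq {r s t t' : ℝ} (h1 : Real.exp (r / 4) / 4 * Real.cos t =
    Real.exp (s / 4) / 4 * Real.cos t') (h2 : Real.exp (r / 4) / 4 * Real.sin t =
    Real.exp (s / 4) / 4 * Real.sin t') : r = s ∧ ∃ m : ℤ, t' - t = m * (2 * Real.pi) := by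
  have e1 := Real.exp_pos (r / 4)
  have e2 := Real.exp_pos (s / 4)
  have hs := Real.sin_sq_add_cos_sq t
  have hs' := Real.sin_sq_add_cos_sq t'
  have h3 : Real.exp (r / 4) ^ 2 = Real.exp (s / 4) ^ 2 := by
    have h4 : (Real.exp (r / 4) / 4) ^ 2 * (Real.sin t ^ 2 + Real.cos t ^ 2) =
        (Real.exp (s / 4) / 4) ^ 2 * (Real.sin t' ^ 2 + Real.cos t' ^ 2) := by
      linear_combination (Real.exp (r / 4) / 4 * Real.cos t + Real.exp (s / 4) / 4 * Real.cos t') *
        h1 + (Real.exp (r / 4) / 4 * Real.sin t + Real.exp (s / 4) / 4 * Real.sin t') * h2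
    rw [hs, hs'] at h4
    linarith
  have h5 : Real.exp (r / 4) = Real.exp (s / 4) := by
    rcases sq_eq_sq_iff_eq_or_eq_neg.1 h3 with h | h
    · exact h
    · linarith
  have hrs : r = s := by
    have := Real.exp_injective h5
    linarith
  refine ⟨hrs, ?_⟩
  rw [h5] at h1 h2
  have h6 : Real.cos t' = Real.cos t := by
    have := mul_left_cancel₀ (by positivity : Real.exp (s / 4) / 4 ≠ 0) h1
    exact this.symm
  have h7 : Real.sin t' = Real.sin t := by
    have := mul_left_cancel₀ (by positivity : Real.exp (s / 4) / 4 ≠ 0) h2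
    exact this.symm
  have h8 := Real.Angle.cos_sin_inj h6 h7
  rw [Real.Angle.angle_eq_iff_two_pi_dvd_sub] at h8
  obtain ⟨m, hm⟩ := h8
  exact ⟨m, by rw [hm]; ring⟩

theorem evenTube_eq_iff {u v : E (k + 4)} : evenTube u = evenTube v ↔ v - u ∈ turns k := by
  obtain ⟨n10, n20, n30, n21, n31, n32⟩ := ne_facts (k := k)
  constructor
  · intro h
    have hj : ∀ j, evenTube u j = evenTube v j := fun j => by rw [h]
    have c0 := hj 0
    have c1 := hj 1
    simp only [evenTube, if_true] at c0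
    simp only [evenTube, if_neg n10, if_true] at c1
    obtain ⟨h1, m, hm⟩ := polar_eq c0 c1
    refine mem_turns (m := m) ?_ fun j hj0 => ?_
    · rw [PiLp.sub_apply]
      exact hm
    · rw [PiLp.sub_apply]
      by_cases hj1 : j = 1
      · rw [hj1, h1, sub_self]
      · have := hj j
        simp only [evenTube, if_neg hj0, if_neg hj1] at this
        linarith
  · intro h
    have hv : v = u + (v - u) := by abel
    obtain ⟨m, hm⟩ := id h
    have h0 : v 0 = u 0 + m * (2 * Real.pi) := by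
      rw [hv, hm]
      simp
    have hj : ∀ j, j ≠ 0 → v j = u j := by
      intro j hj
      have h1 := turns_apply h hj
      rw [PiLp.sub_apply] at h1
      linarith
    ext j
    simp only [evenTube, h0, hj 1 n10, Real.cos_add_int_mul_two_pi, Real.sin_add_int_mul_two_pi]
    split_ifs with h2 h3
    · rfl
    · rfl
    · rw [hj j h2]

theorem oddTube_eq_iff {u v : E (k + 4)} (hu : rad (discDirs k) u < 2)
    (hv' : rad (discDirs k) v < 2) : oddTube u = oddTube v ↔ v - u ∈ turns k := by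
  obtain ⟨n10, n20, n30, n21, n31, n32⟩ := ne_facts (k := k)
  constructor
  · intro h
    have hj : ∀ j, oddTube u j = oddTube v j := fun j => by rw [h]
    have c0 := hj 0
    have c1 := hj 1
    have c2 := hj 2
    have c3 := hj 3
    simp only [oddTube, if_true] at c0
    simp only [oddTube, if_neg n10, if_true] at c1
    simp only [oddTube, if_neg n20, if_neg n21, if_true] at c2
    simp only [oddTube, if_neg n30, if_neg n31, if_neg n32, if_true] at c3
    obtain ⟨h1, m, hm⟩ := polar_eq c0 c1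
    obtain ⟨h2, m', hm'⟩ := polar_eq c2 c3
    have b1 := abs_lt.1 (coord_bounds hu).2.2.1
    have b2 := abs_lt.1 (coord_bounds hv').2.2.1
    have hpi := Real.pi_gt_three
    have hmm : m = m' := by
      have e1 : (v 3 - u 3) / 2 = ((m - m' : ℤ) : ℝ) * (2 * Real.pi) := by
        push_cast
        linarith
      by_contra hne
      have h3 : (1 : ℝ) ≤ |((m - m' : ℤ) : ℝ)| := by
        rw [← Int.cast_abs]
        exact_mod_cast Int.one_le_abs (sub_ne_zero.2 hne)
      have h4 : |(v 3 - u 3) / 2| = |((m - m' : ℤ) : ℝ)| * (2 * Real.pi) := by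
        rw [e1, abs_mul, abs_of_pos (by linarith : 0 < 2 * Real.pi)]
      have h5 : |(v 3 - u 3) / 2| < 2 := by
        rw [abs_lt]
        constructor <;> linarith
      nlinarith
    subst hmm
    have h3 : v 3 = u 3 := by linarith
    refine mem_turns (m := m) ?_ fun j hj0 => ?_
    · rw [PiLp.sub_apply]
      rw [h3] at hm
      linarith
    · rw [PiLp.sub_apply]
      by_cases hj1 : j = 1
      · rw [hj1, h1, sub_self]
      by_cases hj2 : j = 2
      · rw [hj2, h2, sub_self]
      by_cases hj3 : j = 3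
      · rw [hj3, h3, sub_self]
      · have := hj j
        simp only [oddTube, if_neg hj0, if_neg hj1, if_neg hj2, if_neg hj3] at this
        linarith
  · intro h
    have hv : v = u + (v - u) := by abel
    obtain ⟨m, hm⟩ := id h
    have h0 : v 0 = u 0 + m * (2 * Real.pi) := by
      rw [hv, hm]
      simp
    have hj : ∀ j, j ≠ 0 → v j = u j := by
      intro j hj
      have h1 := turns_apply h hj
      rw [PiLp.sub_apply] at h1
      linarith
    have ep : u 0 + m * (2 * Real.pi) + u 3 / 4 = (u 0 + u 3 / 4) + m * (2 * Real.pi) := by ring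
    have em : u 0 + m * (2 * Real.pi) - u 3 / 4 = (u 0 - u 3 / 4) + m * (2 * Real.pi) := by ring
    ext j
    simp only [oddTube, h0, hj 1 n10, hj 2 n20, hj 3 n30, ep, em, Real.cos_add_int_mul_two_pi,
      Real.sin_add_int_mul_two_pi]
    split_ifs with h2 h3
    · rfl
    · rfl
    · rfl
    · rfl
    · rw [hj j h2]

end Pool.Agent.OrthCoord
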