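import Pool.Agent.OrthCoord.OddTube

set_option autoImplicit false
open Bundle Set ContinuousLinearMap
open scoped Manifold ContDiff Topology

namespace Pool.Agent.OrthCoord

variable {k : ℕ}

/-- The coordinate functional. -/
noncomputable abbrev pr (j : Fin (k + 4)) : E (k + 4) →L[ℝ] ℝ := EuclideanSpace.proj j

theorem fderiv_comp_apply' {n : ℕ} {F : E n → E n} (hF : ContDiff ℝ ∞ F) {u : E n} {j : Fin n}
    {f : E n → ℝ} {L : E n →L[ℝ] ℝ} (h : HasFDerivAt f L u) (he : ∀ x, F x j = f x) (a : E n) :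
    fderiv ℝ F u a j = L a :=
  fderiv_comp_apply hF (h.congr_of_eventuallyEq (Filter.Eventually.of_forall he)) a

/-- A quarter of the coordinate functional. -/
noncomputable def qpr (j : Fin (k + 4)) : E (k + 4) →L[ℝ] ℝ := (4 : ℝ)⁻¹ • pr j

theorem qpr_apply (j : Fin (k + 4)) (x : E (k + 4)) : qpr j x = x j / 4 := by
  simp [qpr, div_eq_mul_inv, mul_comm]

theorem hasFDerivAt_coord (j : Fin (k + 4)) (u : E (k + 4)) :
    HasFDerivAt (fun u : E (k + 4) => u j / 16) ((16 : ℝ)⁻¹ • pr j) u := by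
  have h : HasFDerivAt (fun u : E (k + 4) => u j) (pr j) u := (pr j).hasFDerivAt
  refine ((h.mul_const (16 : ℝ)⁻¹)).congr_of_eventuallyEq ?_
  exact Filter.Eventually.of_forall fun x => by simp [div_eq_mul_inv]

/-- Weights of the flat metric in the even tube. -/
noncomputable def evenW (u : E (k + 4)) (j : Fin (k + 4)) : ℝ :=
  if j = 0 then (Real.exp (u 1 / 4) / 4) ^ 2
  else if j = 1 then (Real.exp (u 1 / 4) / 4) ^ 2 / 16 else 1 / 256

theorem inner_fderiv_evenTube (u a c : E (k + 4)) :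
    inner ℝ (fderiv ℝ evenTube u a) (fderiv ℝ evenTube u c) = ∑ j, evenW u j * a j * c j := by
  have hF := contDiff_evenTube (k := k)
  obtain ⟨n10, n20, n30, n21, n31, n32⟩ := ne_facts (k := k)
  have d0 : ∀ a : E (k + 4), fderiv ℝ evenTube u a 0 =
      Real.exp (u 1 / 4) / 4 * (Real.cos (u 0) * (a 1 / 4) - Real.sin (u 0) * a 0) := by
    intro a
    have h := hasFDerivAt_expcos (qpr (k := k) 1) (pr (k := k) 0) u
    rw [fderiv_comp_apply' hF h (fun x => by simp [evenTube, qpr_apply]) a]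
    simp [qpr_apply]
  have d1 : ∀ a : E (k + 4), fderiv ℝ evenTube u a 1 =
      Real.exp (u 1 / 4) / 4 * (Real.sin (u 0) * (a 1 / 4) + Real.cos (u 0) * a 0) := by
    intro a
    have h := hasFDerivAt_expsin (qpr (k := k) 1) (pr (k := k) 0) u
    rw [fderiv_comp_apply' hF h (fun x => by simp [evenTube, qpr_apply]) a]
    simp [qpr_apply]
    ring
  have dj : ∀ j : Fin (k + 4), j ≠ 0 → j ≠ 1 → ∀ a : E (k + 4), fderiv ℝ evenTube u a j =
      a j / 16 := by
    intro j hj0 hj1 a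
    rw [fderiv_comp_apply' hF (hasFDerivAt_coord j u) (fun x => by simp [evenTube, hj0, hj1]) a]
    simp [div_eq_mul_inv, mul_comm]
  rw [PiLp.inner_apply, sum_four, sum_four]
  simp only [RCLike.inner_apply, conj_trivial]
  have hs := Real.sin_sq_add_cos_sq (u 0)
  have hsum : ∑ j : Fin k, fderiv ℝ evenTube u c (j.addNat 4) * fderiv ℝ evenTube u a (j.addNat 4) =
      ∑ j : Fin k, evenW u (j.addNat 4) * a (j.addNat 4) * c (j.addNat 4) := by
    refine Finset.sum_congr rfl fun j _ => ?_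
    obtain ⟨m0, m1, m2, m3⟩ := ne_addNat j
    rw [dj _ m0 m1, dj _ m0 m1]
    simp only [evenW, if_neg m0, if_neg m1]
    ring
  rw [hsum, d0, d0, d1, d1, dj 2 n20 n21, dj 2 n20 n21, dj 3 n30 n31, dj 3 n30 n31]
  simp only [evenW, if_neg n10, if_neg n20, if_neg n30, if_neg n21, if_neg n31, if_true]
  have hc : Real.cos (u 0) ^ 2 = 1 - Real.sin (u 0) ^ 2 := by linarith
  ring_nf
  rw [hc]
  ring

/-- The linear change of coordinates of the odd tube. -/
noncomputable def oddL (k : ℕ) : E (k + 4) →L[ℝ] E (k + 4) :=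
  LinearMap.toContinuousLinearMap
    { toFun := fun a => WithLp.toLp 2 fun j =>
        if j = 0 then a 0 + a 3 / 4 else if j = 3 then a 0 - a 3 / 4 else a j
      map_add' := fun u v => by
        ext j
        simp only [PiLp.add_apply]
        split_ifs <;> ring
      map_smul' := fun c u => by
        ext j
        simp only [PiLp.smul_apply, RingHom.id_apply, smul_eq_mul]
        split_ifs <;> ring }

theorem oddL_apply (a : E (k + 4)) (j : Fin (k + 4)) : oddL k a j =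
    if j = 0 then a 0 + a 3 / 4 else if j = 3 then a 0 - a 3 / 4 else a j := rfl

/-- Weights of the flat metric in the odd tube. -/
noncomputable def oddW (u : E (k + 4)) (j : Fin (k + 4)) : ℝ :=
  if j = 0 then (Real.exp (u 1 / 4) / 4) ^ 2
  else if j = 1 then (Real.exp (u 1 / 4) / 4) ^ 2 / 16
  else if j = 2 then (Real.exp (u 2 / 4) / 4) ^ 2 / 16
  else if j = 3 then (Real.exp (u 2 / 4) / 4) ^ 2 else 1 / 256

theorem inner_fderiv_oddTube (u a c : E (k + 4)) :
    inner ℝ (fderiv ℝ oddTube u a) (fderiv ℝ oddTube u c) =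
      ∑ j, oddW u j * oddL k a j * oddL k c j := by
  have hF := contDiff_oddTube (k := k)
  obtain ⟨n10, n20, n30, n21, n31, n32⟩ := ne_facts (k := k)
  have d0 : ∀ a : E (k + 4), fderiv ℝ oddTube u a 0 =
      Real.exp (u 1 / 4) / 4 * (Real.cos (u 0 + u 3 / 4) * (a 1 / 4) -
        Real.sin (u 0 + u 3 / 4) * (a 0 + a 3 / 4)) := by
    intro a
    have h := hasFDerivAt_expcos (qpr (k := k) 1) (pr (k := k) 0 + qpr 3) u
    rw [fderiv_comp_apply' hF h (fun x => by simp [oddTube, qpr_apply]) a]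
    simp [qpr_apply]
    ring
  have d1 : ∀ a : E (k + 4), fderiv ℝ oddTube u a 1 =
      Real.exp (u 1 / 4) / 4 * (Real.sin (u 0 + u 3 / 4) * (a 1 / 4) +
        Real.cos (u 0 + u 3 / 4) * (a 0 + a 3 / 4)) := by
    intro a
    have h := hasFDerivAt_expsin (qpr (k := k) 1) (pr (k := k) 0 + qpr 3) u
    rw [fderiv_comp_apply' hF h (fun x => by simp [oddTube, qpr_apply]) a]
    simp [qpr_apply]
    ring
  have d2 : ∀ a : E (k + 4), fderiv ℝ oddTube u a 2 =
      Real.exp (u 2 / 4) / 4 * (Real.cos (u 0 - u 3 / 4) * (a 2 / 4) -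
        Real.sin (u 0 - u 3 / 4) * (a 0 - a 3 / 4)) := by
    intro a
    have h := hasFDerivAt_expcos (qpr (k := k) 2) (pr (k := k) 0 - qpr 3) u
    rw [fderiv_comp_apply' hF h (fun x => by simp [oddTube, if_neg n20, if_neg n21, qpr_apply]) a]
    simp [qpr_apply]
  have d3 : ∀ a : E (k + 4), fderiv ℝ oddTube u a 3 =
      Real.exp (u 2 / 4) / 4 * (Real.sin (u 0 - u 3 / 4) * (a 2 / 4) +
        Real.cos (u 0 - u 3 / 4) * (a 0 - a 3 / 4)) := by
    intro a
    have h := hasFDerivAt_expsin (qpr (k := k) 2) (pr (k := k) 0 - qpr 3) u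
    rw [fderiv_comp_apply' hF h (fun x => by simp [oddTube, if_neg n30, if_neg n31, if_neg n32, qpr_apply]) a]
    simp [qpr_apply]
    ring
  have dj : ∀ j : Fin (k + 4), j ≠ 0 → j ≠ 1 → j ≠ 2 → j ≠ 3 → ∀ a : E (k + 4),
      fderiv ℝ oddTube u a j = a j / 16 := by
    intro j hj0 hj1 hj2 hj3 a
    rw [fderiv_comp_apply' hF (hasFDerivAt_coord j u) (fun x => by simp [oddTube, hj0, hj1, hj2, hj3]) a]
    simp [div_eq_mul_inv, mul_comm]
  rw [PiLp.inner_apply, sum_four, sum_four]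
  simp only [RCLike.inner_apply, conj_trivial]
  have hs := Real.sin_sq_add_cos_sq (u 0 + u 3 / 4)
  have hs' := Real.sin_sq_add_cos_sq (u 0 - u 3 / 4)
  have hsum : ∑ j : Fin k, fderiv ℝ oddTube u c (j.addNat 4) * fderiv ℝ oddTube u a (j.addNat 4) =
      ∑ j : Fin k, oddW u (j.addNat 4) * oddL k a (j.addNat 4) * oddL k c (j.addNat 4) := by
    refine Finset.sum_congr rfl fun j _ => ?_
    obtain ⟨m0, m1, m2, m3⟩ := ne_addNat j
    rw [dj _ m0 m1 m2 m3, dj _ m0 m1 m2 m3]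
    simp only [oddW, oddL_apply, if_neg m0, if_neg m1, if_neg m2, if_neg m3]
    ring
  rw [hsum, d0, d0, d1, d1, d2, d2, d3, d3]
  simp only [oddW, oddL_apply, if_neg n10, if_neg n20, if_neg n30, if_neg n21, if_neg n31,
    if_neg n32, if_neg n31.symm, if_neg n32.symm, if_true]
  set C := Real.cos (u 0 + u 3 / 4)
  set D := Real.sin (u 0 + u 3 / 4)
  set C' := Real.cos (u 0 - u 3 / 4)
  set D' := Real.sin (u 0 - u 3 / 4)
  set X := Real.exp (u 1 / 4) / 4
  set Y := Real.exp (u 2 / 4) / 4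
  have e1 : X * (C * (c 1 / 4) - D * (c 0 + c 3 / 4)) * (X * (C * (a 1 / 4) - D * (a 0 + a 3 / 4))) +
      X * (D * (c 1 / 4) + C * (c 0 + c 3 / 4)) * (X * (D * (a 1 / 4) + C * (a 0 + a 3 / 4))) =
      X ^ 2 * (D ^ 2 + C ^ 2) * (a 1 * c 1 / 16 + (a 0 + a 3 / 4) * (c 0 + c 3 / 4)) := by ring
  have e2 : Y * (C' * (c 2 / 4) - D' * (c 0 - c 3 / 4)) *
      (Y * (C' * (a 2 / 4) - D' * (a 0 - a 3 / 4))) +
      Y * (D' * (c 2 / 4) + C' * (c 0 - c 3 / 4)) * (Y * (D' * (a 2 / 4) + C' * (a 0 - a 3 / 4))) =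
      Y ^ 2 * (D' ^ 2 + C' ^ 2) * (a 2 * c 2 / 16 + (a 0 - a 3 / 4) * (c 0 - c 3 / 4)) := by ring
  rw [hs] at e1
  rw [hs'] at e2
  linear_combination e1 + e2

end Pool.Agent.OrthCoord
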