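import Pool.Agent.OrthCoord.OddInj

set_option autoImplicit false
open Bundle Set ContinuousLinearMap
open scoped Manifold ContDiff Topology

namespace Pool.Agent.OrthCoord

variable {k : ℕ}

theorem evenW_pos (u : E (k + 4)) (j : Fin (k + 4)) : 0 < evenW u j := by
  unfold evenW
  have := Real.exp_pos (u 1 / 4)
  split_ifs <;> positivity

theorem oddW_pos (u : E (k + 4)) (j : Fin (k + 4)) : 0 < oddW u j := by
  unfold oddW
  have := Real.exp_pos (u 1 / 4)
  have := Real.exp_pos (u 2 / 4)
  split_ifs <;> positivity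

theorem contDiff_evenW (j : Fin (k + 4)) : ContDiff ℝ ∞ (fun u : E (k + 4) => evenW u j) := by
  have h := contDiff_coord (n := k + 4)
  have e : ∀ c, ContDiff ℝ ∞ (fun u : E (k + 4) => Real.exp (u c / 4) / 4) := fun c =>
    (((h c).div_const 4).exp).div_const 4
  unfold evenW
  split_ifs
  · exact (e 1).pow 2
  · exact ((e 1).pow 2).div_const 16
  · exact contDiff_const

theorem contDiff_oddW (j : Fin (k + 4)) : ContDiff ℝ ∞ (fun u : E (k + 4) => oddW u j) := by
  have h := contDiff_coord (n := k + 4)
  have e : ∀ c, ContDiff ℝ ∞ (fun u : E (k + 4) => Real.exp (u c / 4) / 4) := fun c =>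
    (((h c).div_const 4).exp).div_const 4
  unfold oddW
  split_ifs
  · exact (e 1).pow 2
  · exact ((e 1).pow 2).div_const 16
  · exact ((e 2).pow 2).div_const 16
  · exact (e 2).pow 2
  · exact contDiff_const

theorem oddL_injective : Function.Injective (oddL k) := by
  obtain ⟨n10, n20, n30, n21, n31, n32⟩ := ne_facts (k := k)
  rw [injective_iff_map_eq_zero]
  intro a ha
  have hj : ∀ j, oddL k a j = 0 := fun j => by rw [ha]; rfl
  have h0 := hj 0
  have h3 := hj 3
  rw [oddL_apply, if_pos rfl] at h0
  rw [oddL_apply, if_neg n30, if_pos rfl] at h3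
  ext j
  change a j = 0
  by_cases hj0 : j = 0
  · rw [hj0]
    linarith
  by_cases hj3 : j = 3
  · rw [hj3]
    linarith
  have := hj j
  rw [oddL_apply, if_neg hj0, if_neg hj3] at this
  exact this

/-- Weights of the intermediate flat metric in the coordinates `oddL`. -/
noncomputable def oddV (j : Fin (k + 4)) : ℝ := if j = 0 then 1 / 2 else if j = 3 then 1 / 2 else 1

/-- Weights of the intermediate flat metric in the standard coordinates. -/
noncomputable def oddU (j : Fin (k + 4)) : ℝ := if j = 3 then 1 / 16 else 1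

theorem sum_oddV (a c : E (k + 4)) :
    ∑ j, oddV j * oddL k a j * oddL k c j = ∑ j, oddU j * a j * c j := by
  obtain ⟨n10, n20, n30, n21, n31, n32⟩ := ne_facts (k := k)
  rw [sum_four, sum_four]
  have h : ∀ j : Fin k, oddV (j.addNat 4) * oddL k a (j.addNat 4) * oddL k c (j.addNat 4) =
      oddU (j.addNat 4) * a (j.addNat 4) * c (j.addNat 4) := by
    intro j
    obtain ⟨m0, m1, m2, m3⟩ := ne_addNat j
    simp only [oddV, oddU, oddL_apply, if_neg m0, if_neg m3]
  simp only [h]
  simp only [oddV, oddU, oddL_apply, if_neg n10, if_neg n20, if_neg n30, if_neg n31.symm,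
    if_neg n32.symm, if_neg n30.symm, if_true]
  ring

/-- A second function of the radius: `1` for `rad ≤ 17/10` and `0` for `rad ≥ 19/10`. -/
noncomputable def tcut2 (S : Finset (Fin (k + 4))) (u : E (k + 4)) : ℝ :=
  (⟨17 / 10, 19 / 10, by norm_num, by norm_num⟩ : ContDiffBump (0 : E (k + 4))) (nP S u)

/-- The outer form in the odd tube. -/
noncomputable def oddOuter (u : E (k + 4)) : E (k + 4) →L[ℝ] E (k + 4) →L[ℝ] ℝ :=
  dform (fun j => (1 - tcut2 (discDirs k) u) * oddW u j + tcut2 (discDirs k) u * oddV j) (oddL k)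

theorem diagAt_oddOuter (u : E (k + 4)) : DiagAt (oddOuter (k := k)) u := by
  refine ⟨univ, fun v => oddL k v, fun u j =>
    (1 - tcut2 (discDirs k) u) * oddW u j + tcut2 (discDirs k) u * oddV j, isOpen_univ,
    mem_univ _, fun y _ => localDiffeo_clm oddL_injective y, fun j => ?_, fun y _ j => ?_,
    fun y _ => ?_⟩
  · have h1 : ContDiff ℝ ∞ (tcut2 (discDirs k)) :=
      (ContDiffBump.contDiff _).comp (nP _).contDiff
    exact (((contDiff_const.sub h1).mul (contDiff_oddW j)).add
      (h1.mul contDiff_const)).contMDiff.contMDiffOn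
  · have h1 : 0 ≤ tcut2 (discDirs k) y := ContDiffBump.nonneg _
    have h2 : tcut2 (discDirs k) y ≤ 1 := ContDiffBump.le_one _
    have h3 := oddW_pos y j
    have h4 : (0 : ℝ) < oddV j := by
      unfold oddV
      split_ifs <;> norm_num
    change 0 < (1 - tcut2 (discDirs k) y) * oddW y j + tcut2 (discDirs k) y * oddV j
    rcases h1.eq_or_lt with h5 | h5
    · rw [← h5]
      linarith
    · have h6 : 0 ≤ (1 - tcut2 (discDirs k) y) * oddW y j := mul_nonneg (by linarith) h3.le
      have h7 := mul_pos h5 h4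
      linarith
  · rw [dq_clm]
    rfl

theorem oddOuter_out {u : E (k + 4)} (hu : 19 / 10 ≤ rad (discDirs k) u) (a c : E (k + 4)) :
    oddOuter u a c = ∑ j, oddW u j * oddL k a j * oddL k c j := by
  have h : tcut2 (discDirs k) u = 0 :=
    ContDiffBump.zero_of_le_dist _ (by rw [dist_zero_right]; exact hu)
  unfold oddOuter
  rw [dform_apply, h]
  refine Finset.sum_congr rfl fun j _ => ?_
  simp

theorem oddOuter_in {u : E (k + 4)} (hu : rad (discDirs k) u ≤ 17 / 10) (a c : E (k + 4)) :
    oddOuter u a c = ∑ j, oddU j * a j * c j := by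
  have h : tcut2 (discDirs k) u = 1 :=
    ContDiffBump.one_of_mem_closedBall _ (by rw [mem_closedBall_zero_iff]; exact hu)
  unfold oddOuter
  rw [dform_apply, h, ← sum_oddV]
  refine Finset.sum_congr rfl fun j _ => ?_
  simp

theorem add_turns_apply {u w : E (k + 4)} (hw : w ∈ turns k) {j : Fin (k + 4)} (hj : j ≠ 0) :
    (u + w) j = u j := by
  rw [PiLp.add_apply, turns_apply hw hj, add_zero]

theorem oddOuter_period {u w : E (k + 4)} (hw : w ∈ turns k) :
    oddOuter (u + w) = oddOuter u := by
  obtain ⟨n10, n20, n30, n21, n31, n32⟩ := ne_facts (k := k)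
  unfold oddOuter tcut2
  rw [nP_add_period _ (normalPart_turns hw)]
  have h : oddW (u + w) = oddW u := by
    funext j
    unfold oddW
    rw [add_turns_apply hw n10, add_turns_apply hw n20]
  rw [h]

open Classical in
/-- The forms in the odd tube. -/
noncomputable def oddForm (u : E (k + 4)) : E (k + 4) →L[ℝ] E (k + 4) →L[ℝ] ℝ :=
  if rad (discDirs k) u < 8 / 5 then tubeForm (discDirs k) (fun _ => oddU) u else oddOuter u

theorem oddForm_eq_outer {u : E (k + 4)} (hu : 3 / 2 ≤ rad (discDirs k) u) :
    oddForm u = oddOuter u := by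
  unfold oddForm
  split_ifs with h
  · ext a c
    rw [tubeForm_out (by linarith), oddOuter_in (by linarith)]
  · rfl

theorem oddForm_eq_inner {u : E (k + 4)} (hu : rad (discDirs k) u < 8 / 5) :
    oddForm u = tubeForm (discDirs k) (fun _ => oddU) u := if_pos hu

theorem diagAt_oddForm {u : E (k + 4)} (hu : 0 < rad (discDirs k) u) : DiagAt oddForm u := by
  rcases lt_or_ge (rad (discDirs k) u) (8 / 5) with h | h
  · have h1 : DiagAt (tubeForm (discDirs k) (fun _ => oddU (k := k))) u := by
      refine diagAt_tubeForm (w := fun _ => oddU) (r := 2) (fun j => contDiffOn_const)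
        (fun v j _ => ?_) hu
        (by linarith)
      unfold oddU
      split_ifs <;> norm_num
    exact h1.congr (isOpen_lt (continuous_rad _) continuous_const) h
      (fun y hy => oddForm_eq_inner hy)
  · refine (diagAt_oddOuter u).congr (O' := {u | 3 / 2 < rad (discDirs k) u})
      (isOpen_lt continuous_const (continuous_rad _)) ?_ (fun y hy => ?_)
    · change 3 / 2 < rad (discDirs k) u
      linarith
    · have hy' : 3 / 2 < rad (discDirs k) y := hy
      exact oddForm_eq_outer hy'.le

theorem oddForm_period {u w : E (k + 4)} (hw : w ∈ turns k) : oddForm (u + w) = oddForm u := by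
  unfold oddForm
  rw [rad_add_period _ (normalPart_turns hw), oddOuter_period hw,
    tubeForm_period (normalPart_turns hw) rfl]

theorem evenForm_period {u w : E (k + 4)} (hw : w ∈ turns k) :
    tubeForm (discDirs k) evenW (u + w) = tubeForm (discDirs k) evenW u := by
  obtain ⟨n10, n20, n30, n21, n31, n32⟩ := ne_facts (k := k)
  refine tubeForm_period (normalPart_turns hw) ?_
  funext j
  unfold evenW
  rw [add_turns_apply hw n10]

theorem localDiffeo_evenTube (u : E (k + 4)) :
    IsLocalDiffeomorphAt (𝓡 (k + 4)) (𝓡 (k + 4)) ∞ (evenTube (k := k)) u := by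
  refine localDiffeo_of_fderiv contDiff_evenTube (fun v => ?_) u
  rw [injective_iff_map_eq_zero]
  intro a ha
  by_contra hne
  have h1 := inner_fderiv_evenTube v a a
  rw [ha, inner_zero_left] at h1
  have h2 := dform_pos (w := evenW v) (evenW_pos v)
    (C := ContinuousLinearMap.id ℝ (E (k + 4))) Function.injective_id hne
  rw [dform_apply] at h2
  exact absurd h1 (ne_of_lt h2)

theorem localDiffeo_oddTube (u : E (k + 4)) :
    IsLocalDiffeomorphAt (𝓡 (k + 4)) (𝓡 (k + 4)) ∞ (oddTube (k := k)) u := by
  refine localDiffeo_of_fderiv contDiff_oddTube (fun v => ?_) u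
  rw [injective_iff_map_eq_zero]
  intro a ha
  by_contra hne
  have h1 := inner_fderiv_oddTube v a a
  rw [ha, inner_zero_left] at h1
  have h2 := dform_pos (w := oddW v) (oddW_pos v) (C := oddL k) oddL_injective hne
  rw [dform_apply] at h2
  exact absurd h1 (ne_of_lt h2)

theorem isCompact_period (k : ℕ) (r : ℝ) :
    IsCompact {u : E (k + 4) | rad (discDirs k) u ≤ r ∧ 0 ≤ u 0 ∧ u 0 ≤ 2 * Real.pi} := by
  have hcl : IsClosed {u : E (k + 4) | rad (discDirs k) u ≤ r ∧ 0 ≤ u 0 ∧ u 0 ≤ 2 * Real.pi} := by
    have h0 : Continuous fun u : E (k + 4) => u 0 := (contDiff_coord (n := k + 4) 0).continuous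
    exact (isClosed_le (continuous_rad _) continuous_const).inter
      ((isClosed_le continuous_const h0).inter (isClosed_le h0 continuous_const))
  refine Metric.isCompact_of_isClosed_isBounded hcl ?_
  refine (Metric.isBounded_closedBall (x := (0 : E (k + 4))) (r := 2 * Real.pi + r)).subset ?_
  rintro u ⟨h1, h2, h3⟩
  rw [mem_closedBall_zero_iff]
  have h4 : u = (u 0) • (basisVec 0 : E (k + 4)) + normalPart (discDirs k) u := by
    ext j
    by_cases hj : j = 0
    · simp [normalPart_apply, discDirs, hj]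
    · simp [normalPart_apply, discDirs, hj]
  rw [h4]
  refine (norm_add_le _ _).trans (add_le_add ?_ h1)
  rw [norm_smul, Real.norm_eq_abs, abs_of_nonneg h2]
  simpa using h3

theorem image_period {X : Type} {f : E (k + 4) → X} {r : ℝ}
    (hf : ∀ u w, w ∈ turns k → rad (discDirs k) u ≤ r → f (u + w) = f u) :
    f '' {u | rad (discDirs k) u ≤ r} =
      f '' {u | rad (discDirs k) u ≤ r ∧ 0 ≤ u 0 ∧ u 0 ≤ 2 * Real.pi} := by
  apply subset_antisymm
  · rintro y ⟨u, hu, rfl⟩
    have hpi : 0 < 2 * Real.pi := by positivity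
    let m : ℤ := ⌊u 0 / (2 * Real.pi)⌋
    let w : E (k + 4) := (((-m : ℤ) : ℝ) * (2 * Real.pi)) • (basisVec 0 : E (k + 4))
    have hw : w ∈ turns k := ⟨-m, rfl⟩
    have h0 : (u + w) 0 = u 0 - m * (2 * Real.pi) := by
      simp [w]
      ring
    refine ⟨u + w, ⟨?_, ?_, ?_⟩, hf u w hw hu⟩
    · rw [rad_add_period _ (normalPart_turns hw)]
      exact hu
    · rw [h0]
      have h1 : (m : ℝ) ≤ u 0 / (2 * Real.pi) := Int.floor_le _
      rw [le_div_iff₀ hpi] at h1
      linarith
    · rw [h0]
      have h1 : u 0 / (2 * Real.pi) < m + 1 := Int.lt_floor_add_one _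
      rw [div_lt_iff₀ hpi] at h1
      linarith
  · exact image_mono fun u hu => hu.1

section
variable {N : Type} [TopologicalSpace N] [ChartedSpace (E (k + 4)) N]

theorem isDisc_of_twoDiscs {n : ℕ} {N : Type} [TopologicalSpace N] [ChartedSpace (E n) N]
    {φ : Bool → E n → N} (h : TwoDiscs n φ) (j : Bool) : IsDisc n (φ j) :=
  ⟨fun u hu => h.loc j u hu, fun u v hu hv hh => (h.inj j j u v hu hv hh).2⟩

theorem tubes_discTubes [T2Space N] {φ : Bool → E (k + 4) → N} (h : TwoDiscs (k + 4) φ) :
    Tubes (k + 4) (discDirs k) (turns k) (discTubes φ) := by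
  have hloc : ∀ (a : Unit) (j : Bool) u, rad (discDirs k) u < 2 →
      LocDiffeoAt (k + 4) (discTubes φ a j) u := by
    intro a j u hu
    cases j
    · have h1 : IsLocalDiffeomorphAt (𝓡 (k + 4)) (𝓡 (k + 4)) ∞ (φ false) (oddTube u) :=
        h.loc false _ ((norm_oddTube_lt hu).trans (by norm_num))
      exact (localDiffeo_oddTube u).comp _ _ h1
    · have h1 : IsLocalDiffeomorphAt (𝓡 (k + 4)) (𝓡 (k + 4)) ∞ (φ true) (evenTube u) :=
        h.loc true _ ((norm_evenTube_lt hu).trans (by norm_num))
      exact (localDiffeo_evenTube u).comp _ _ h1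
  have hinj : ∀ (a : Unit) (j : Bool) (b : Unit) (l : Bool) (u v : E (k + 4)),
      rad (discDirs k) u < 2 → rad (discDirs k) v < 2 →
      (discTubes φ a j u = discTubes φ b l v ↔ a = b ∧ j = l ∧ v - u ∈ turns k) := by
    intro a j b l u v hu hv
    have eu := (norm_evenTube_lt hu).trans (by norm_num : (6 : ℝ) / 5 < 2)
    have ev := (norm_evenTube_lt hv).trans (by norm_num : (6 : ℝ) / 5 < 2)
    have ou := (norm_oddTube_lt hu).trans (by norm_num : (6 : ℝ) / 5 < 2)
    have ov := (norm_oddTube_lt hv).trans (by norm_num : (6 : ℝ) / 5 < 2)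
    cases j <;> cases l
    · change φ false (oddTube u) = φ false (oddTube v) ↔ _
      rw [← oddTube_eq_iff hu hv]
      constructor
      · intro hh
        exact ⟨rfl, rfl, (h.inj _ _ _ _ ou ov hh).2⟩
      · rintro ⟨-, -, hh⟩
        rw [hh]
    · change φ false (oddTube u) = φ true (evenTube v) ↔ _
      constructor
      · intro hh
        exact absurd (h.inj _ _ _ _ ou ev hh).1 (by simp)
      · rintro ⟨-, hh, -⟩
        exact absurd hh (by simp)
    · change φ true (evenTube u) = φ false (oddTube v) ↔ _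
      constructor
      · intro hh
        exact absurd (h.inj _ _ _ _ eu ov hh).1 (by simp)
      · rintro ⟨-, hh, -⟩
        exact absurd hh (by simp)
    · change φ true (evenTube u) = φ true (evenTube v) ↔ _
      rw [← evenTube_eq_iff]
      constructor
      · intro hh
        exact ⟨rfl, rfl, (h.inj _ _ _ _ eu ev hh).2⟩
      · rintro ⟨-, -, hh⟩
        rw [hh]
  refine ⟨hloc, hinj, fun w hw => normalPart_turns hw, fun a j r hr => ?_⟩
  rw [image_period (f := discTubes φ a j) (r := r)]
  · refine ((isCompact_period k r).image_of_continuousOn fun u hu => ?_).isClosed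
    have h1 : rad (discDirs k) u ≤ r := hu.1
    have h2 : IsLocalDiffeomorphAt (𝓡 (k + 4)) (𝓡 (k + 4)) ∞ (discTubes φ a j) u :=
      hloc a j u (by linarith)
    exact h2.contMDiffAt.continuousAt.continuousWithinAt
  · intro u w hw hu
    have h2 : rad (discDirs k) (u + w) < 2 := by
      rw [rad_add_period _ (normalPart_turns hw)]
      linarith
    refine ((hinj a j a j u (u + w) (by linarith) h2).2 ⟨rfl, rfl, ?_⟩).symm
    rw [add_sub_cancel_left]
    exact hw

variable {M : Type} [TopologicalSpace M] [ChartedSpace (E (k + 4)) M]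

theorem hasOrthogonalMetric_oddSum [T2Space N] [IsManifold (𝓡 (k + 4)) ∞ N]
    [IsManifold (𝓡 (k + 4)) ∞ M] {φ : Bool → E (k + 4) → N} (h : TwoDiscs (k + 4) φ) {i : N → M}
    (H : IsTubeSum (k + 4) (discDirs k) (discTubes φ) i) (hN : HasOrthogonalMetric (k + 4) N) :
    HasOrthogonalMetric (k + 4) M := by
  obtain ⟨b, hb⟩ := hN.diagAt
  have hdisc := isDisc_of_twoDiscs h
  obtain ⟨b₁, hb₁D, hb₁out, hb₁c⟩ := (hdisc false).flat hb
  obtain ⟨b₂, hb₂D, hb₂out, hb₂c⟩ := (hdisc true).flat hb₁D
  have hdisj : ∀ u, ‖u‖ < 2 → φ false u ∉ Core (φ true) (9 / 5) := by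
    rintro u hu ⟨v, hv, hvu⟩
    rw [mem_closedBall_zero_iff] at hv
    have h1 := (h.inj true false v u (by linarith) hu hvu).1
    simp at h1
  have hflat : ∀ j u, ‖u‖ < 6 / 5 → ∀ a c : E (k + 4),
      b₂ (φ j u) (dm (φ j) u a) (dm (φ j) u c) = inner ℝ a c := by
    intro j u hu a c
    cases j
    · rw [hb₂out _ (hdisj u (by linarith))]
      exact hb₁c u hu a c
    · exact hb₂c u hu a c
  refine H.hasOrthogonalMetric_of_forms (tubes_discTubes h) (β := b₂)
    (b := fun _ j => if j then tubeForm (discDirs k) evenW else oddForm) ?_ ?_ ?_ ?_ ?_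
  · intro y _
    exact hb₂D y
  · rintro a (_ | _) u h1 h2
    · exact diagAt_oddForm (by linarith)
    · exact diagAt_tubeForm (r := 2) (fun j => (contDiff_evenW j).contDiffOn)
        (fun v j _ => evenW_pos v j) (by linarith) h2
  · rintro a (_ | _) u w hw hu
    · exact oddForm_period hw
    · exact evenForm_period hw
  · rintro a (_ | _) u h1 h2 x y
    · have hn := norm_oddTube_lt h2
      have hφ := (hdisc false).loc (oddTube u) (by linarith)
      have hT : ∀ x : E (k + 4), dm (discTubes φ a false) u x =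
          dm (φ false) (oddTube u) (fderiv ℝ oddTube u x) := by
        intro x
        rw [← dm_eq_fderiv]
        exact dm_comp (f := oddTube) (h := φ false) hφ (localDiffeo_oddTube u) x
      rw [hT, hT]
      change b₂ (φ false (oddTube u)) _ _ = oddForm u x y
      rw [hflat false (oddTube u) hn, inner_fderiv_oddTube, oddForm_eq_outer (by linarith),
        oddOuter_out h1.le]
    · have hn := norm_evenTube_lt h2
      have hφ := (hdisc true).loc (evenTube u) (by linarith)
      have hT : ∀ x : E (k + 4), dm (discTubes φ a true) u x =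
          dm (φ true) (evenTube u) (fderiv ℝ evenTube u x) := by
        intro x
        rw [← dm_eq_fderiv]
        exact dm_comp (f := evenTube) (h := φ true) hφ (localDiffeo_evenTube u) x
      rw [hT, hT]
      change b₂ (φ true (evenTube u)) _ _ = tubeForm (discDirs k) evenW u x y
      rw [hflat true (evenTube u) hn, inner_fderiv_evenTube, tubeForm_out (by linarith)]
  · rintro a (_ | _) u h1 h2 x y
    · change oddForm u x y = _
      rw [oddForm_eq_inner (by linarith), tubeForm_cyl h2.le]
    · exact tubeForm_cyl h2.le x y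

end

end Pool.Agent.OrthCoord
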