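import Pool.Agent.OrthCoord.TubeGlue

set_option autoImplicit false
open Bundle Set ContinuousLinearMap
open scoped Manifold ContDiff Topology

namespace Pool.Agent.OrthCoord

variable {n : ℕ} {S : Finset (Fin n)} {Λ : Set (E n)} {ι : Type}
  {N M : Type} [TopologicalSpace N] [ChartedSpace (E n) N] [TopologicalSpace M]
  [ChartedSpace (E n) M] {T : ι → Bool → E n → N}

/-- A smooth function of the radius: `1` for `rad ≤ 6/5` and `0` for `rad ≥ 7/5`. -/
noncomputable def tcut (S : Finset (Fin n)) (u : E n) : ℝ :=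
  (⟨6 / 5, 7 / 5, by norm_num, by norm_num⟩ : ContDiffBump (0 : E n)) (nP S u)

theorem contDiff_tcut (S : Finset (Fin n)) : ContDiff ℝ ∞ (tcut S) :=
  (ContDiffBump.contDiff _).comp (nP S).contDiff

theorem tcut_nonneg (u : E n) : 0 ≤ tcut S u := ContDiffBump.nonneg _

theorem tcut_le_one (u : E n) : tcut S u ≤ 1 := ContDiffBump.le_one _

theorem tcut_one {u : E n} (hu : rad S u ≤ 6 / 5) : tcut S u = 1 :=
  ContDiffBump.one_of_mem_closedBall _ (by rw [mem_closedBall_zero_iff]; exact hu)

theorem tcut_zero {u : E n} (hu : 7 / 5 ≤ rad S u) : tcut S u = 0 :=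
  ContDiffBump.zero_of_le_dist _ (by rw [dist_zero_right]; exact hu)

theorem tcut_add_period {u w : E n} (hw : normalPart S w = 0) :
    tcut S (u + w) = tcut S u := by
  unfold tcut
  rw [nP_add_period S hw]

theorem dq_id (u : E n) : dq (fun v : E n => v) u = ContinuousLinearMap.id ℝ (E n) := mfderiv_id

/-- The forms in a tube: diagonal with weights `w` far from the core, the cylinder near it. -/
noncomputable def tubeForm (S : Finset (Fin n)) (w : E n → Fin n → ℝ) (u : E n) :
    E n →L[ℝ] E n →L[ℝ] ℝ :=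
  dform (fun k => (1 - tcut S u) * w u k + tcut S u * (if k ∈ S then (rad S u ^ 2)⁻¹ else 1))
    (ContinuousLinearMap.id ℝ (E n))

theorem contDiffOn_rad_inv (S : Finset (Fin n)) :
    ContDiffOn ℝ ∞ (fun u => (rad S u ^ 2)⁻¹) {u : E n | 0 < rad S u} := by
  refine ContDiffOn.inv ?_ fun u hu => ?_
  · exact ((contDiff_norm_sq ℝ).comp (nP S).contDiff).contDiffOn
  · have : 0 < rad S u := hu
    positivity

theorem diagAt_tubeForm {w : E n → Fin n → ℝ} {r : ℝ}
    (hw : ∀ k, ContDiffOn ℝ ∞ (fun u => w u k) {u | rad S u < r})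
    (hpos : ∀ u k, rad S u < r → 0 < w u k) {u : E n} (h0 : 0 < rad S u) (hu : rad S u < r) :
    DiagAt (tubeForm S w) u := by
  refine ⟨{u | 0 < rad S u ∧ rad S u < r}, fun v => v, fun u k =>
    (1 - tcut S u) * w u k + tcut S u * (if k ∈ S then (rad S u ^ 2)⁻¹ else 1),
    (isOpen_lt continuous_const (continuous_rad S)).inter
      (isOpen_lt (continuous_rad S) continuous_const), ⟨h0, hu⟩,
    fun y _ => isLocalDiffeomorphAt_id y, fun k => ?_, fun y hy k => ?_, fun y _ => ?_⟩
  · refine contMDiffOn_iff_contDiffOn.2 ?_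
    have h1 := contDiff_tcut S
    refine ((contDiff_const.sub h1).contDiffOn.mul ((hw k).mono fun y hy => hy.2)).add
      (h1.contDiffOn.mul ?_)
    split_ifs
    · exact (contDiffOn_rad_inv S).mono fun y hy => hy.1
    · exact contDiffOn_const
  · have h1 := tcut_nonneg (S := S) y
    have h2 := tcut_le_one (S := S) y
    have h3 := hpos y k hy.2
    have h4 : (0 : ℝ) < if k ∈ S then (rad S y ^ 2)⁻¹ else 1 := by
      have := hy.1
      split_ifs
      · positivity
      · norm_num
    change 0 < (1 - tcut S y) * w y k + tcut S y * (if k ∈ S then (rad S y ^ 2)⁻¹ else 1)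
    rcases h1.eq_or_lt with h5 | h5
    · rw [← h5]
      linarith
    · have h6 : 0 ≤ (1 - tcut S y) * w y k := mul_nonneg (by linarith) h3.le
      have h7 := mul_pos h5 h4
      linarith
  · rw [dq_id]
    rfl

theorem tubeForm_cyl {w : E n → Fin n → ℝ} {u : E n} (hu : rad S u ≤ 6 / 5) (x y : E n) :
    tubeForm S w u x y = cyl S u x y := by
  unfold tubeForm
  rw [dform_apply, cyl_eq_sum, tcut_one hu]
  refine Finset.sum_congr rfl fun k _ => ?_
  simp

theorem tubeForm_out {w : E n → Fin n → ℝ} {u : E n} (hu : 7 / 5 ≤ rad S u) (x y : E n) :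
    tubeForm S w u x y = ∑ k, w u k * x k * y k := by
  unfold tubeForm
  rw [dform_apply, tcut_zero hu]
  refine Finset.sum_congr rfl fun k _ => ?_
  simp

theorem tubeForm_period {w : E n → Fin n → ℝ} {u v : E n} (hv : normalPart S v = 0)
    (hw : w (u + v) = w u) : tubeForm S w (u + v) = tubeForm S w u := by
  unfold tubeForm
  rw [tcut_add_period hv, rad_add_period S hv, hw]

theorem Tubes.dm_period (hT : Tubes n S Λ T) {a : ι} {j : Bool} {u w : E n} (hu : rad S u < 2)
    (hw : w ∈ Λ) (x : E n) : dm (T a j) (u + w) x = dm (T a j) u x := by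
  have hW : IsOpen {u : E n | rad S u < 2} := isOpen_lt (continuous_rad S) continuous_const
  have h2 : rad S (u + w) < 2 := by
    rw [rad_add_period S (hT.period w hw)]
    exact hu
  have h6 := dm_eq_of_comp (p := T a j) (p' := T a j) (τ := fun z => z + w)
    (localDiffeo_add w u) (hT.loc a j (u + w) h2) (by
      filter_upwards [hW.mem_nhds hu] with z hz
      exact hT.add_period hz hw) x
  rw [dm_add] at h6
  exact h6.symm

/-- Gluing along tubes whose coordinates are orthogonal for the metric. -/
theorem IsTubeSum.hasOrthogonalMetric_of_adapted [Finite ι] [IsManifold (𝓡 n) ∞ N]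
    [IsManifold (𝓡 n) ∞ M] (hT : Tubes n S Λ T) {i : N → M} (H : IsTubeSum n S T i)
    (g : RMetric n N) (hg : HasOrthCoords n g) (hA : Adapted n S g T) :
    HasOrthogonalMetric n M := by
  have hW : IsOpen {u : E n | rad S u < 2} := isOpen_lt (continuous_rad S) continuous_const
  refine H.hasOrthogonalMetric_of_forms hT (β := fun y => form g y)
    (b := fun a j => tubeForm S fun u k => coef g (T a j) u k k) ?_ ?_ ?_ ?_ ?_
  · intro y _
    obtain ⟨U, φ, ψ, hU, hx, hU', h1, h2, h3, h4, h5⟩ := hg y
    exact diagAt_of_chart g hU hx hU' h1 h2 h3 h4 h5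
  · intro a j u h1 h2
    refine diagAt_tubeForm (r := 2) (fun k => ?_) (fun v k hv => ?_) (by linarith) h2
    · exact contDiffOn_coef g hW (fun v hv =>
        (hT.loc a j v hv).contMDiffAt.contMDiffWithinAt) k k
    · refine g.pos (T a j v) (dp (T a j) v (basisVec k)) ?_
      intro h0
      have h6 : (basisVec k : E n) = 0 :=
        mfderiv_injective (hT.loc a j v hv) (h0.trans (map_zero (dp (T a j) v)).symm)
      have h7 := congrArg (fun v : E n => v k) h6
      simp at h7
  · intro a j u w hw hu
    refine tubeForm_period (hT.period w hw) ?_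
    funext k
    have h1 : ∀ x : E n, dp (T a j) (u + w) x = dp (T a j) u x := fun x =>
      hT.dm_period hu hw x
    change form g (T a j (u + w)) (dp (T a j) (u + w) _) (dp (T a j) (u + w) _) =
      form g (T a j u) (dp (T a j) u _) (dp (T a j) u _)
    rw [h1, hT.add_period hu hw]
  · intro a j u h1 h2 x y
    rw [tubeForm_out (by linarith)]
    exact bilin_expand (form g (T a j u)) (dp (T a j) u) (fun p q hpq => hA a j u h2 p q hpq) x y
  · intro a j u h1 h2 x y
    exact tubeForm_cyl h2.le x y

end Pool.Agent.OrthCoord
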