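import Pool.Agent.OrthCoord.DiscFlat
import Pool.Agent.OrthCoord.TubeAdapted
import Pool.Agent.OrthCoord.OddDefs

set_option autoImplicit false
open Bundle Set ContinuousLinearMap
open scoped Manifold ContDiff Topology

namespace Pool.Agent.OrthCoord

section
variable {n : ℕ}

theorem hasFDerivAt_expcos (ρ α : E n →L[ℝ] ℝ) (u : E n) :
    HasFDerivAt (fun x => Real.exp (ρ x) / 4 * Real.cos (α x))
      ((Real.exp (ρ u) / 4) • (Real.cos (α u) • ρ - Real.sin (α u) • α)) u := by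
  have h1 : HasFDerivAt (fun x => Real.exp (ρ x)) (Real.exp (ρ u) • ρ) u := ρ.hasFDerivAt.exp
  have h2 : HasFDerivAt (fun x => Real.cos (α x)) (-Real.sin (α u) • α) u := α.hasFDerivAt.cos
  have h3 := (h1.mul_const (4 : ℝ)⁻¹).mul h2
  refine (h3.congr_fderiv ?_).congr_of_eventuallyEq ?_
  · ext v
    simp
    ring
  · exact Filter.Eventually.of_forall fun x => by simp [div_eq_mul_inv]

theorem hasFDerivAt_expsin (ρ α : E n →L[ℝ] ℝ) (u : E n) :
    HasFDerivAt (fun x => Real.exp (ρ x) / 4 * Real.sin (α x))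
      ((Real.exp (ρ u) / 4) • (Real.sin (α u) • ρ + Real.cos (α u) • α)) u := by
  have h1 : HasFDerivAt (fun x => Real.exp (ρ x)) (Real.exp (ρ u) • ρ) u := ρ.hasFDerivAt.exp
  have h2 : HasFDerivAt (fun x => Real.sin (α x)) (Real.cos (α u) • α) u := α.hasFDerivAt.sin
  have h3 := (h1.mul_const (4 : ℝ)⁻¹).mul h2
  refine (h3.congr_fderiv ?_).congr_of_eventuallyEq ?_
  · ext v
    simp
    ring
  · exact Filter.Eventually.of_forall fun x => by simp [div_eq_mul_inv]

theorem fderiv_comp_apply {F : E n → E n} (hF : ContDiff ℝ ∞ F) {u : E n} {j : Fin n}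
    {L : E n →L[ℝ] ℝ} (h : HasFDerivAt (fun x => F x j) L u) (a : E n) :
    fderiv ℝ F u a j = L a := by
  have h1 : HasFDerivAt F (fderiv ℝ F u) u :=
    ((hF.differentiable (by simp)) u).hasFDerivAt
  have h2 : HasFDerivAt (fun x => F x j) ((EuclideanSpace.proj j : E n →L[ℝ] ℝ).comp
      (fderiv ℝ F u)) u := (EuclideanSpace.proj j : E n →L[ℝ] ℝ).hasFDerivAt.comp u h1
  exact DFunLike.congr_fun (h2.unique h) a

end

variable {k : ℕ}

theorem val_three : ((3 : Fin (k + 4)) : ℕ) = 3 := by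
  simp [Nat.mod_eq_of_lt]

theorem val_two : ((2 : Fin (k + 4)) : ℕ) = 2 := by
  simp [Nat.mod_eq_of_lt]

theorem sum_four (f : Fin (k + 4) → ℝ) :
    ∑ j, f j = f 0 + f 1 + f 2 + f 3 + ∑ j : Fin k, f (j.addNat 4) := by
  rw [Fin.sum_univ_succ, Fin.sum_univ_succ, Fin.sum_univ_succ, Fin.sum_univ_succ]
  have h1 : (Fin.succ 0 : Fin (k + 4)) = 1 := rfl
  have h2 : (Fin.succ (Fin.succ 0) : Fin (k + 4)) = 2 := by
    ext
    rw [val_two]
    rfl
  have h3 : (Fin.succ (Fin.succ (Fin.succ 0)) : Fin (k + 4)) = 3 := by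
    ext
    rw [val_three]
    rfl
  have h4 : ∀ j : Fin k, (j.succ.succ.succ.succ : Fin (k + 4)) = j.addNat 4 := by
    intro j
    ext
    simp
  rw [h1, h2, h3]
  simp only [h4]
  ring

theorem ne_facts : (1 : Fin (k + 4)) ≠ 0 ∧ (2 : Fin (k + 4)) ≠ 0 ∧ (3 : Fin (k + 4)) ≠ 0 ∧
    (2 : Fin (k + 4)) ≠ 1 ∧ (3 : Fin (k + 4)) ≠ 1 ∧ (3 : Fin (k + 4)) ≠ 2 := by
  have h2 := val_two (k := k)
  have h3 := val_three (k := k)
  have h1 : ((1 : Fin (k + 4)) : ℕ) = 1 := rfl
  have h0 : ((0 : Fin (k + 4)) : ℕ) = 0 := rfl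
  refine ⟨?_, ?_, ?_, ?_, ?_, ?_⟩ <;> intro h <;> have := congrArg Fin.val h <;> omega

theorem ne_addNat (j : Fin k) : j.addNat 4 ≠ (0 : Fin (k + 4)) ∧ j.addNat 4 ≠ (1 : Fin (k + 4)) ∧
    j.addNat 4 ≠ (2 : Fin (k + 4)) ∧ j.addNat 4 ≠ (3 : Fin (k + 4)) := by
  have h2 := val_two (k := k)
  have h3 := val_three (k := k)
  have h1 : ((1 : Fin (k + 4)) : ℕ) = 1 := rfl
  have h0 : ((0 : Fin (k + 4)) : ℕ) = 0 := rfl
  have hj : ((j.addNat 4 : Fin (k + 4)) : ℕ) = j + 4 := rfl
  refine ⟨?_, ?_, ?_, ?_⟩ <;> intro h <;> have := congrArg Fin.val h <;> omega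

theorem contDiff_coord {n : ℕ} (j : Fin n) : ContDiff ℝ ∞ (fun u : E n => u j) :=
  (EuclideanSpace.proj j : E n →L[ℝ] ℝ).contDiff

theorem contDiff_evenTube : ContDiff ℝ ∞ (evenTube (k := k)) := by
  rw [contDiff_euclidean]
  intro j
  have h := contDiff_coord (n := k + 4)
  have e : ∀ c, ContDiff ℝ ∞ (fun u : E (k + 4) => Real.exp (u c / 4) / 4) := fun c =>
    (((h c).div_const 4).exp).div_const 4
  by_cases h0 : j = 0
  · have : (fun u : E (k + 4) => evenTube u j) =
        fun u => Real.exp (u 1 / 4) / 4 * Real.cos (u 0) := by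
      funext u
      simp [evenTube, h0]
    rw [this]
    exact (e 1).mul (h 0).cos
  by_cases h1 : j = 1
  · have : (fun u : E (k + 4) => evenTube u j) =
        fun u => Real.exp (u 1 / 4) / 4 * Real.sin (u 0) := by
      funext u
      simp [evenTube, h1]
    rw [this]
    exact (e 1).mul (h 0).sin
  have : (fun u : E (k + 4) => evenTube u j) = fun u => u j / 16 := by
    funext u
    simp [evenTube, h0, h1]
  rw [this]
  exact (h j).div_const 16

theorem contDiff_oddTube : ContDiff ℝ ∞ (oddTube (k := k)) := by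
  rw [contDiff_euclidean]
  intro j
  have h := contDiff_coord (n := k + 4)
  have e : ∀ c, ContDiff ℝ ∞ (fun u : E (k + 4) => Real.exp (u c / 4) / 4) := fun c =>
    (((h c).div_const 4).exp).div_const 4
  have hp : ContDiff ℝ ∞ (fun u : E (k + 4) => u 0 + u 3 / 4) := (h 0).add ((h 3).div_const 4)
  have hm : ContDiff ℝ ∞ (fun u : E (k + 4) => u 0 - u 3 / 4) := (h 0).sub ((h 3).div_const 4)
  by_cases h0 : j = 0
  · have : (fun u : E (k + 4) => oddTube u j) =
        fun u => Real.exp (u 1 / 4) / 4 * Real.cos (u 0 + u 3 / 4) := by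
      funext u
      simp [oddTube, h0]
    rw [this]
    exact (e 1).mul hp.cos
  by_cases h1 : j = 1
  · have : (fun u : E (k + 4) => oddTube u j) =
        fun u => Real.exp (u 1 / 4) / 4 * Real.sin (u 0 + u 3 / 4) := by
      funext u
      simp [oddTube, h1]
    rw [this]
    exact (e 1).mul hp.sin
  by_cases h2 : j = 2
  · have : (fun u : E (k + 4) => oddTube u j) =
        fun u => Real.exp (u 2 / 4) / 4 * Real.cos (u 0 - u 3 / 4) := by
      funext u
      simp only [oddTube, if_neg h0, if_neg h1, if_pos h2]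
    rw [this]
    exact (e 2).mul hm.cos
  by_cases h3 : j = 3
  · have : (fun u : E (k + 4) => oddTube u j) =
        fun u => Real.exp (u 2 / 4) / 4 * Real.sin (u 0 - u 3 / 4) := by
      funext u
      simp only [oddTube, if_neg h0, if_neg h1, if_neg h2, if_pos h3]
    rw [this]
    exact (e 2).mul hm.sin
  have : (fun u : E (k + 4) => oddTube u j) = fun u => u j / 16 := by
    funext u
    simp only [oddTube, if_neg h0, if_neg h1, if_neg h2, if_neg h3]
  rw [this]
  exact (h j).div_const 16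

end Pool.Agent.OrthCoord
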