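import Pool.Agent.OrthCoord.Glue

set_option autoImplicit false
open Bundle Set ContinuousLinearMap
open scoped Manifold ContDiff Topology

namespace Pool.Agent.OrthCoord

variable {n : ℕ} {M X : Type} [TopologicalSpace M] [ChartedSpace (E n) M]
  [TopologicalSpace X] [ChartedSpace (E n) X]

/-- Mutually diagonal local metrics pull back under local diffeomorphisms. -/
theorem MutuallyDiagonal.pullback {ι : Type} {V : ι → Set (E n)} {p : ι → E n → X}
    {q : ι → E n → E n} {h : ι → E n → Fin n → ℝ} (D : MutuallyDiagonal n X V p q h)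
    {F : M → X} (hF : IsLocalDiffeomorph (𝓡 n) (𝓡 n) ∞ F) :
    ∃ (V' : M × ι → Set (E n)) (p' : M × ι → E n → M),
      MutuallyDiagonal n M V' p' (fun a => q a.2) (fun a => h a.2) := by
  choose Θ hΘ hEq using hF
  have hpc : ∀ a, ContinuousOn (p a) (V a) := fun a y hy =>
    ((D.localDiffeo a) ⟨y, hy⟩).contMDiffAt.continuousAt.continuousWithinAt
  have hFΘ : ∀ m, ∀ x ∈ (Θ m).target, F ((Θ m).invFun x) = x := by
    intro m x hx
    have h1 : F ((Θ m).invFun x) = (Θ m).toFun ((Θ m).invFun x) := hEq m ((Θ m).map_target hx)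
    exact h1.trans ((Θ m).right_inv hx)
  have hFd : ∀ m : M, MDifferentiableAt (𝓡 n) (𝓡 n) F m := by
    intro m
    have h1 : IsLocalDiffeomorphAt (𝓡 n) (𝓡 n) ∞ F m := ⟨Θ m, hΘ m, hEq m⟩
    exact h1.mdifferentiableAt (by simp)
  have hloc : ∀ a : M × ι, ∀ y ∈ V a.2 ∩ p a.2 ⁻¹' (Θ a.1).target,
      IsLocalDiffeomorphAt (𝓡 n) (𝓡 n) ∞ ((Θ a.1).invFun ∘ p a.2) y := by
    intro a y hy
    have h1 : IsLocalDiffeomorphAt (𝓡 n) (𝓡 n) ∞ (p a.2) y := D.localDiffeo a.2 ⟨y, hy.1⟩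
    have h2 : IsLocalDiffeomorphAt (𝓡 n) (𝓡 n) ∞ (Θ a.1).invFun (p a.2 y) :=
      ⟨(Θ a.1).symm, hy.2, fun _ _ => rfl⟩
    exact h1.comp _ _ h2
  have hop : ∀ a : M × ι, IsOpen (V a.2 ∩ p a.2 ⁻¹' (Θ a.1).target) := fun a =>
    (hpc a.2).isOpen_inter_preimage (D.isOpen a.2) (Θ a.1).open_target
  have hd : ∀ a : M × ι, ∀ y ∈ V a.2 ∩ p a.2 ⁻¹' (Θ a.1).target, ∀ u : E n,
      (mfderiv (𝓡 n) (𝓡 n) F (((Θ a.1).invFun ∘ p a.2) y) : E n →L[ℝ] E n)
        (dp ((Θ a.1).invFun ∘ p a.2) y u) = dp (p a.2) y u := by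
    intro a y hy u
    have h1 := mfderiv_comp y (hFd (((Θ a.1).invFun ∘ p a.2) y))
      ((hloc a y hy).mdifferentiableAt (by simp))
    have h2 : mfderiv (𝓡 n) (𝓡 n) (F ∘ ((Θ a.1).invFun ∘ p a.2)) y =
        mfderiv (𝓡 n) (𝓡 n) (p a.2) y := by
      apply Filter.EventuallyEq.mfderiv_eq
      filter_upwards [(hop a).mem_nhds hy] with z hz
      exact hFΘ a.1 _ hz.2
    rw [h2] at h1
    exact (DFunLike.congr_fun h1 u).symm
  refine ⟨fun a => V a.2 ∩ p a.2 ⁻¹' (Θ a.1).target, fun a => (Θ a.1).invFun ∘ p a.2,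
    { isOpen := hop
      localDiffeo := fun a y => hloc a y.1 y.2
      coordinates := fun a y => D.coordinates a.2 ⟨y.1, y.2.1⟩
      cover := ?_
      smooth := fun a i => (D.smooth a.2 i).mono inter_subset_left
      pos := fun a y hy i => D.pos a.2 y hy.1 i
      diagonal := ?_ }⟩
  · intro m
    obtain ⟨a, y, hy, hya⟩ := D.cover (F m)
    have h1 : F m = (Θ m).toFun m := hEq m (hΘ m)
    refine ⟨(m, a), y, ⟨hy, ?_⟩, ?_⟩
    · change p a y ∈ (Θ m).target
      rw [hya, h1]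
      exact (Θ m).map_source (hΘ m)
    · change (Θ m).invFun (p a y) = m
      rw [hya, h1]
      exact (Θ m).left_inv (hΘ m)
  · intro a b y hy z hz hyz i j hij u v u' v' hu hv hu' hv'
    have h0 : p a.2 y = p b.2 z := by
      have h1 := congrArg F hyz
      have h2 : F (((Θ a.1).invFun ∘ p a.2) y) = p a.2 y := hFΘ a.1 _ hy.2
      have h3 : F (((Θ b.1).invFun ∘ p b.2) z) = p b.2 z := hFΘ b.1 _ hz.2
      rw [h2, h3] at h1
      exact h1
    refine D.diagonal a.2 b.2 y hy.1 z hz.1 h0 i j hij u v u' v' ?_ ?_ hu' hv'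
    · rw [← hd a y hy u, ← hd b z hz u', hu, hyz]
    · rw [← hd a y hy v, ← hd b z hz v', hv, hyz]

/-- A smooth map between open subsets of `ℝⁿ` with injective differentials is a local
diffeomorphism. -/
theorem isLocalDiffeomorphOn_of_injective {V : Set (E n)} (hV : IsOpen V) {f : E n → E n}
    (hf : ContDiffOn ℝ ∞ f V) (hinj : ∀ y ∈ V, Function.Injective (fderiv ℝ f y)) :
    IsLocalDiffeomorphOn (𝓡 n) (𝓡 n) ∞ f V := by
  rintro ⟨y, hy⟩
  have hfy : ∀ z ∈ V, ContDiffAt ℝ ∞ f z := fun z hz => hf.contDiffAt (hV.mem_nhds hz)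
  have hequiv : ∀ z ∈ V, ∃ e : E n ≃L[ℝ] E n, HasFDerivAt f (e : E n →L[ℝ] E n) z := by
    intro z hz
    refine ⟨ContinuousLinearEquiv.ofBijective (fderiv ℝ f z) (LinearMap.ker_eq_bot.2 (hinj z hz))
      (LinearMap.range_eq_top.2 ?_), ?_⟩
    · exact LinearMap.injective_iff_surjective.1 (hinj z hz)
    · rw [ContinuousLinearEquiv.coe_ofBijective]
      exact ((hfy z hz).differentiableAt (by simp)).hasFDerivAt
  obtain ⟨e, he⟩ := hequiv y hy
  let Φ := (hfy y hy).toOpenPartialHomeomorph f he (by simp)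
  have hΦ : ∀ z, Φ z = f z := fun z => rfl
  have hyΦ : y ∈ Φ.source := (hfy y hy).mem_toOpenPartialHomeomorph_source he (by simp)
  refine ⟨{ toPartialEquiv := Φ.toPartialEquiv.restr V
            open_source := Φ.open_source.inter hV
            open_target := ?_
            contMDiffOn_toFun := ?_
            contMDiffOn_invFun := ?_ }, ⟨hyΦ, hy⟩, fun z _ => rfl⟩
  · exact Φ.symm.continuousOn.isOpen_inter_preimage Φ.open_target hV
  · rw [contMDiffOn_iff_contDiffOn]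
    exact hf.mono inter_subset_right
  · rw [contMDiffOn_iff_contDiffOn]
    intro z hz
    obtain ⟨e', he'⟩ := hequiv (Φ.symm z) hz.2
    exact (Φ.contDiffAt_symm hz.1 he' (hfy _ hz.2)).contDiffWithinAt

end Pool.Agent.OrthCoord
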