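import Pool.Agent.OrthCoord.Defs

set_option autoImplicit false
open Bundle Set ContinuousLinearMap
open scoped Manifold ContDiff Topology

namespace Pool.Agent.OrthCoord

/-- The bilinear form `(u, v) ↦ ∑ k, w k * (C u)_k * (C v)_k`. -/
noncomputable def dform {n : ℕ} (w : Fin n → ℝ) (C : E n →L[ℝ] E n) :
    E n →L[ℝ] E n →L[ℝ] ℝ :=
  ∑ k, ((w k • (EuclideanSpace.proj k : E n →L[ℝ] ℝ).comp C).smulRight
    ((EuclideanSpace.proj k : E n →L[ℝ] ℝ).comp C))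

theorem dform_apply {n : ℕ} (w : Fin n → ℝ) (C : E n →L[ℝ] E n) (u v : E n) :
    dform w C u v = ∑ k, w k * (C u k) * (C v k) := by
  simp [dform, mul_assoc]

theorem contDiff_dform (n : ℕ) :
    ContDiff ℝ ∞ (fun p : (Fin n → ℝ) × (E n →L[ℝ] E n) => dform p.1 p.2) := by
  rw [contDiff_clm_apply_iff]
  intro u
  rw [contDiff_clm_apply_iff]
  intro v
  simp only [dform_apply]
  refine ContDiff.sum fun k _ => ?_
  have h1 : ContDiff ℝ ∞ (fun p : (Fin n → ℝ) × (E n →L[ℝ] E n) => p.1 k) := by fun_prop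
  have h2 : ∀ u : E n, ContDiff ℝ ∞ (fun p : (Fin n → ℝ) × (E n →L[ℝ] E n) => p.2 u k) := by
    intro u
    exact (EuclideanSpace.proj k : E n →L[ℝ] ℝ).contDiff.comp
      (contDiff_snd.clm_apply contDiff_const)
  exact (h1.mul (h2 u)).mul (h2 v)

theorem contMDiffAt_dform_section {n : ℕ} {M : Type} [TopologicalSpace M]
    [ChartedSpace (E n) M] [IsManifold (𝓡 n) ∞ M] (q : M → E n) (w : M → Fin n → ℝ) (x₀ : M)
    (hq : ContMDiffAt (𝓡 n) (𝓡 n) ∞ q x₀)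
    (hw : ∀ k, ContMDiffAt (𝓡 n) 𝓘(ℝ, ℝ) ∞ (fun y => w y k) x₀) :
    ContMDiffAt (𝓡 n) ((𝓡 n).prod 𝓘(ℝ, E n →L[ℝ] E n →L[ℝ] ℝ)) ∞
      (fun y => TotalSpace.mk' (E n →L[ℝ] E n →L[ℝ] ℝ)
        (E := fun y : M => TangentSpace (𝓡 n) y →L[ℝ] TangentSpace (𝓡 n) y →L[ℝ] ℝ) y
        (dform (w y) (mfderiv (𝓡 n) (𝓡 n) q y))) x₀ := by
  have hC : ContMDiffAt (𝓡 n) 𝓘(ℝ, E n →L[ℝ] E n) ∞
      (inTangentCoordinates (𝓡 n) (𝓡 n) id q (mfderiv (𝓡 n) (𝓡 n) q) x₀) x₀ :=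
    hq.mfderiv_const (by simp)
  have hw' : ContMDiffAt (𝓡 n) 𝓘(ℝ, Fin n → ℝ) ∞ w x₀ := contMDiffAt_pi_space.2 hw
  have hsm : ContMDiffAt (𝓡 n) 𝓘(ℝ, E n →L[ℝ] E n →L[ℝ] ℝ) ∞
      (fun y => dform (w y)
        (inTangentCoordinates (𝓡 n) (𝓡 n) id q (mfderiv (𝓡 n) (𝓡 n) q) x₀ y)) x₀ :=
    (contDiff_dform n).contMDiff.contMDiffAt.comp x₀
      (hw'.prodMk_space hC)
  rw [contMDiffAt_hom_bundle]
  refine ⟨contMDiffAt_id, hsm.congr_of_eventuallyEq ?_⟩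
  have hbase : ∀ᶠ y in 𝓝 x₀, y ∈ (chartAt (E n) x₀).source :=
    (chartAt (E n) x₀).open_source.mem_nhds (mem_chart_source (E n) x₀)
  have hq2 : ∀ᶠ y in 𝓝 x₀, q y ∈ (chartAt (E n) (q x₀)).source := by simp
  filter_upwards [hbase] with y hy
  ext u v
  have hyb : y ∈ (trivializationAt (E n) (TangentSpace (𝓡 n)) x₀).baseSet := by
    simpa using hy
  have hqb : q y ∈ (trivializationAt (E n) (TangentSpace (𝓡 n)) (q x₀)).baseSet := by
    simp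
  have h1 : ∀ u : E n, inTangentCoordinates (𝓡 n) (𝓡 n) id q (mfderiv (𝓡 n) (𝓡 n) q) x₀ y u
      = mfderiv (𝓡 n) (𝓡 n) q y
        ((trivializationAt (E n) (TangentSpace (𝓡 n)) x₀).symm y u) := by
    intro u
    unfold inTangentCoordinates
    simp only [inCoordinates, ContinuousLinearMap.comp_apply, id_eq,
      TangentBundle.continuousLinearMapAt_model_space]
    rw [Trivialization.symmL_apply _ hyb]
    rfl
  rw [inCoordinates_apply_eq₂ hyb hyb (by simp)]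
  rw [dform_apply, h1, h1]
  simp
  exact dform_apply _ _ _ _

end Pool.Agent.OrthCoord
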