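import Pool.Agent.OrthCoord.Disc

set_option autoImplicit false
open Bundle Set ContinuousLinearMap
open scoped Manifold ContDiff Topology

namespace Pool.Agent.OrthCoord

variable {n : ℕ} {N : Type} [TopologicalSpace N] [ChartedSpace (E n) N]

/-- An injective smooth self map of `ℝⁿ` (injective differentials) is a local diffeomorphism. -/
theorem localDiffeo_of_fderiv {f : E n → E n} (hf : ContDiff ℝ ∞ f)
    (hi : ∀ u, Function.Injective (fderiv ℝ f u)) (u : E n) :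
    IsLocalDiffeomorphAt (𝓡 n) (𝓡 n) ∞ f u :=
  isLocalDiffeomorphOn_of_injective isOpen_univ hf.contDiffOn (fun y _ => hi y) ⟨u, mem_univ u⟩

theorem isLocalDiffeomorphAt_isometry (R : E n ≃ₗᵢ[ℝ] E n) (u : E n) :
    IsLocalDiffeomorphAt (𝓡 n) (𝓡 n) ∞ (fun v => R v) u := by
  refine localDiffeo_of_fderiv R.contDiff (fun v => ?_) u
  have h1 : fderiv ℝ (fun v => R v) v = (R.toContinuousLinearEquiv : E n →L[ℝ] E n) :=
    R.toContinuousLinearEquiv.hasFDerivAt.fderiv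
  rw [h1]
  exact R.injective

theorem dm_isometry (R : E n ≃ₗᵢ[ℝ] E n) (u v : E n) : dm (fun v => R v) u v = R v := by
  rw [dm_eq_fderiv]
  have h1 : fderiv ℝ (fun v => R v) u = (R.toContinuousLinearEquiv : E n →L[ℝ] E n) :=
    R.toContinuousLinearEquiv.hasFDerivAt.fderiv
  rw [h1]
  rfl

section
variable {φ : E n → N} (hφ : IsDisc n φ) {inv : N → E n}
  (hi1 : ∀ u, ‖u‖ < 2 → inv (φ u) = u)
  (hi2 : ∀ y ∈ Dom φ, IsLocalDiffeomorphAt (𝓡 n) (𝓡 n) ∞ inv y ∧ ‖inv y‖ < 2 ∧ φ (inv y) = y)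
include hφ

include hi1 hi2 in
theorem dm_inv_dm {u : E n} (hu : ‖u‖ < 2) (a : E n) : dm inv (φ u) (dm φ u a) = a := by
  have hmem : φ u ∈ Dom φ := ⟨u, by simpa using hu, rfl⟩
  rw [← dm_comp (hi2 _ hmem).1 (hφ.loc u hu)]
  have hc : dm (inv ∘ φ) u = ContinuousLinearMap.id ℝ (E n) := by
    have h3 : dm (id : E n → E n) u = ContinuousLinearMap.id ℝ (E n) := mfderiv_id
    rw [← h3]
    apply dm_congr
    filter_upwards [Metric.isOpen_ball.mem_nhds (show u ∈ Metric.ball (0 : E n) 2 by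
      simpa using hu)] with y hy
    exact hi1 y (mem_ball_zero_iff.1 hy)
  rw [hc]
  rfl

include hi2 in
theorem dm_dm_inv (hDo : IsOpen (Dom φ)) {y : N} (hy : y ∈ Dom φ) (a : E n) :
    dm φ (inv y) (dm inv y a) = a := by
  rw [← dm_comp (hφ.loc _ (hi2 y hy).2.1) (hi2 y hy).1]
  have hc : dm (φ ∘ inv) y = ContinuousLinearMap.id ℝ (E n) := by
    have h3 : dm (id : N → N) y = ContinuousLinearMap.id ℝ (E n) := mfderiv_id
    rw [← h3]
    apply dm_congr
    filter_upwards [hDo.mem_nhds hy] with z hz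
    exact (hi2 z hz).2.2
  rw [hc]
  rfl

end

/-- A field of locally diagonal forms can be changed inside a disc so that it becomes, in the
annulus `1/2 < ‖u‖ < 6/5`, the cylinder metric `du² / ‖u‖²`. -/
theorem IsDisc.standard [T2Space N] {φ : E n → N} (hφ : IsDisc n φ) {V₀ : Set N}
    (hV₀ : Dom φ ⊆ V₀) {b : N → E n →L[ℝ] E n →L[ℝ] ℝ} (hb : ∀ y ∈ V₀, DiagAt b y) :
    ∃ b' : N → E n →L[ℝ] E n →L[ℝ] ℝ, (∀ y ∈ V₀, y ∉ Core φ (1 / 2) → DiagAt b' y) ∧
      (∀ y, y ∉ Core φ (9 / 5) → b' y = b y) ∧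
      ∀ u, 1 / 2 < ‖u‖ → ‖u‖ < 6 / 5 → ∀ a c : E n,
        b' (φ u) (dm φ u a) (dm φ u c) = (‖u‖ ^ 2)⁻¹ * inner ℝ a c := by
  classical
  obtain ⟨hDo, inv, hi1, hi2⟩ := hφ.exists_inv
  have hDom : ∀ u, ‖u‖ < 2 → φ u ∈ Dom φ := fun u hu => ⟨u, by simpa using hu, rfl⟩
  have hinvc : ContinuousOn inv (Dom φ) := fun y hy =>
    (hi2 y hy).1.contMDiffAt.continuousAt.continuousWithinAt
  have hball : ∀ r : ℝ, IsOpen (Dom φ ∩ inv ⁻¹' Metric.ball 0 r) := fun r =>
    hinvc.isOpen_inter_preimage hDo Metric.isOpen_ball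
  have hcore : ∀ r : ℝ, r < 2 → ∀ y ∈ Dom φ, (y ∈ Core φ r ↔ ‖inv y‖ ≤ r) := by
    intro r hr y hy
    obtain ⟨-, h2, h3⟩ := hi2 y hy
    conv_lhs => rw [← h3]
    exact hφ.mem_core_iff hr h2
  -- Step A: flatten
  have h0D : φ 0 ∈ Dom φ ∩ inv ⁻¹' Metric.ball 0 (9 / 5) := by
    refine ⟨hDom 0 (by simp), ?_⟩
    rw [mem_preimage]
    rw [hi1 0 (by simp)]
    exact Metric.mem_ball_self (by norm_num)
  obtain ⟨b₁, O, q, hO, hxO, hOD, hq, hb₁, hb₁out, hb₁D⟩ :=
    exists_flatten (hb _ (hV₀ (hDom 0 (by simp)))) (hball (9 / 5)) h0D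
  -- Step B: linearise
  obtain ⟨L, κ, hL, hκ, hκi, hκout, hκlt, hκlin⟩ := exists_linear hφ hO hxO hq
  have hκloc : ∀ u, IsLocalDiffeomorphAt (𝓡 n) (𝓡 n) ∞ κ u := localDiffeo_of_fderiv hκ hκi
  let Θ : N → N := fun y => if y ∈ Dom φ then φ (κ (inv y)) else y
  have hΘin : ∀ y ∈ Dom φ, Θ y = φ (κ (inv y)) := fun y hy => if_pos hy
  have hΘout : ∀ y, y ∉ Core φ (9 / 5) → Θ y = y := by
    intro y hy
    by_cases hyD : y ∈ Dom φ
    · have h1 : 9 / 5 ≤ ‖inv y‖ := by
        by_contra hcon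
        push Not at hcon
        exact hy ((hcore (9 / 5) (by norm_num) y hyD).2 hcon.le)
      rw [hΘin y hyD, hκout _ h1]
      exact (hi2 y hyD).2.2
    · exact if_neg hyD
  have hcl : ∀ r : ℝ, r < 2 → IsOpen (Core φ r)ᶜ := fun r hr =>
    (hφ.isClosed_core hr).isOpen_compl
  have hΘ : ∀ y, IsLocalDiffeomorphAt (𝓡 n) (𝓡 n) ∞ Θ y := by
    intro y
    by_cases hyD : y ∈ Dom φ
    · refine isLocalDiffeomorphAt_congr (f := φ ∘ (κ ∘ inv)) ?_ hDo hyD hΘin
      have h1 : IsLocalDiffeomorphAt (𝓡 n) (𝓡 n) ∞ (κ ∘ inv) y :=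
        (hi2 y hyD).1.comp _ _ (hκloc _)
      exact h1.comp _ _ (hφ.loc _ (hκlt _ (hi2 y hyD).2.1))
    · exact isLocalDiffeomorphAt_congr (isLocalDiffeomorphAt_id y) (hcl (9 / 5) (by norm_num))
        (fun h => hyD (Core_subset_Dom φ (by norm_num) h)) hΘout
  let b₂ := pull Θ b₁
  have hb₂D : ∀ y ∈ V₀, DiagAt b₂ y := by
    intro y hy
    refine DiagAt.pull (hΘ y) (hb₁D _ (hb _ ?_))
    by_cases hyD : y ∈ Dom φ
    · rw [hΘin y hyD]
      exact hV₀ (hDom _ (hκlt _ (hi2 y hyD).2.1))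
    · have : Θ y = y := if_neg hyD
      rw [this]
      exact hy
  have hb₂out : ∀ y, y ∉ Core φ (9 / 5) → b₂ y = b y := by
    intro y hy
    have h1 : dm Θ y = ContinuousLinearMap.id ℝ (E n) := by
      have h3 : dm (id : N → N) y = ContinuousLinearMap.id ℝ (E n) := mfderiv_id
      rw [← h3]
      apply dm_congr
      filter_upwards [(hcl (9 / 5) (by norm_num)).mem_nhds hy] with z hz
      exact hΘout z hz
    ext a c
    change b₁ (Θ y) (dm Θ y a) (dm Θ y c) = b y a c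
    rw [h1, hΘout y hy, hb₁out y]
    · rfl
    · intro h
      apply hy
      rw [hcore (9 / 5) (by norm_num) y h.1]
      exact (mem_ball_zero_iff.1 h.2).le
  have hb₂lin : ∀ u, ‖u‖ < 8 / 5 → ∀ a c : E n,
      b₂ (φ u) (dm φ u a) (dm φ u c) = inner ℝ (L a) (L c) := by
    intro u hu a c
    have hu2 : ‖u‖ < 2 := by linarith
    have hΘφ : ∀ v : E n, ‖v‖ < 2 → Θ (φ v) = φ (κ v) := by
      intro v hv
      rw [hΘin _ (hDom v hv), hi1 v hv]
    have h1 : ∀ a : E n, dm Θ (φ u) (dm φ u a) = dm (φ ∘ κ) u a := by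
      intro a
      rw [← dm_comp (hΘ _) (hφ.loc u hu2)]
      have h2 : dm (n := n) (Θ ∘ φ) u = dm (n := n) (φ ∘ κ) u := by
        apply dm_congr
        filter_upwards [Metric.isOpen_ball.mem_nhds (show u ∈ Metric.ball (0 : E n) 2 by
          simpa using hu2)] with y hy
        exact hΘφ y (mem_ball_zero_iff.1 hy)
      rw [h2]
    have hφκ : IsLocalDiffeomorphAt (𝓡 n) (𝓡 n) ∞ (φ ∘ κ) u :=
      (hκloc u).comp _ _ (hφ.loc _ (hκlt _ hu2))
    have h2 : ∀ a : E n, dq q (φ (κ u)) (dm (φ ∘ κ) u a) = L a := by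
      intro a
      have h3 : dm (q ∘ (φ ∘ κ)) u a = dm q ((φ ∘ κ) u) (dm (φ ∘ κ) u a) :=
        dm_comp (f := φ ∘ κ) (h := q) (hq _ (hκlin u hu.le).1) hφκ a
      refine h3.symm.trans ?_
      rw [dm_eq_fderiv]
      have h4 : fderiv ℝ (q ∘ (φ ∘ κ)) u = L := by
        have h5 : HasFDerivAt (fun v => q (φ 0) + L v) L u := L.hasFDerivAt.const_add _
        refine (h5.congr_of_eventuallyEq ?_).fderiv
        filter_upwards [Metric.isOpen_ball.mem_nhds (show u ∈ Metric.ball (0 : E n) (8 / 5) by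
          simpa using hu)] with y hy
        exact (hκlin y (mem_ball_zero_iff.1 hy).le).2
      rw [h4]
    change b₁ (Θ (φ u)) (dm Θ (φ u) (dm φ u a)) (dm Θ (φ u) (dm φ u c)) = _
    rw [h1, h1, hΘφ u hu2, hb₁ _ (hκlin u hu.le).1, dform_apply, h2, h2]
    rw [PiLp.inner_apply]
    refine Finset.sum_congr rfl fun k _ => ?_
    simp [mul_comm]
  -- Step C: diagonalise and make the end cylindrical
  obtain ⟨lam, R, hlam, hR⟩ := exists_eigen L hL
  let f : ContDiffBump (0 : E n) := ⟨6 / 5, 3 / 2, by norm_num, by norm_num⟩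
  let Rc : E n →L[ℝ] E n := (R.toContinuousLinearEquiv : E n →L[ℝ] E n)
  let w : N → Fin n → ℝ := fun y k =>
    (1 - f (inv y)) * lam k + f (inv y) * (‖inv y‖ ^ 2)⁻¹
  set D₂ : Set N := Dom φ ∩ inv ⁻¹' Metric.ball 0 (8 / 5) with hD₂
  have hD₂o : IsOpen D₂ := hball (8 / 5)
  let b₃ : N → E n →L[ℝ] E n →L[ℝ] ℝ := fun y =>
    if y ∈ D₂ then dform (w y) (Rc.comp (dm inv y)) else b₂ y
  have hb₃in : ∀ y ∈ D₂, b₃ y = dform (w y) (Rc.comp (dm inv y)) := fun y hy => if_pos hy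
  have hb₃out : ∀ y, y ∉ D₂ → b₃ y = b₂ y := fun y hy => if_neg hy
  have hRc : ∀ v, Rc v = R v := fun v => rfl
  have hRinner : ∀ a c : E n, ∑ k, R a k * R c k = inner ℝ a c := by
    intro a c
    rw [← R.inner_map_map a c, PiLp.inner_apply]
    refine Finset.sum_congr rfl fun k _ => ?_
    simp [mul_comm]
  refine ⟨b₃, ?_, ?_, ?_⟩
  · intro y hyV hyC
    by_cases hy : y ∈ D₂
    · have hmem : ∀ z ∈ D₂ ∩ (Core φ (1 / 2))ᶜ, 1 / 2 < ‖inv z‖ := by
        intro z hz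
        by_contra hcon
        push Not at hcon
        exact hz.2 ((hcore (1 / 2) (by norm_num) z hz.1.1).2 hcon)
      refine ⟨D₂ ∩ (Core φ (1 / 2))ᶜ, fun z => R (inv z), w,
        hD₂o.inter (hcl _ (by norm_num)), ⟨hy, hyC⟩, fun z hz => ?_, fun k => ?_,
        fun z hz k => ?_, fun z hz => ?_⟩
      · have h1 := (hi2 z hz.1.1).1
        exact h1.comp _ _ (isLocalDiffeomorphAt_isometry R _)
      · have hinvs : ContMDiffOn (𝓡 n) (𝓡 n) ∞ inv (D₂ ∩ (Core φ (1 / 2))ᶜ) := fun z hz =>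
          (hi2 z hz.1.1).1.contMDiffAt.contMDiffWithinAt
        have h1 : ContDiffOn ℝ ∞ (fun v : E n => (1 - f v) * lam k + f v * (‖v‖ ^ 2)⁻¹)
            {v | 1 / 2 < ‖v‖} := by
          have h2 : ContDiff ℝ ∞ f := f.contDiff
          refine ((contDiff_const.sub h2).mul contDiff_const).contDiffOn.add
            (h2.contDiffOn.mul (ContDiffOn.inv (contDiff_norm_sq ℝ).contDiffOn fun v hv => ?_))
          have h3 : 1 / 2 < ‖v‖ := hv
          have : 0 < ‖v‖ := by linarith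
          positivity
        exact (contMDiffOn_iff_contDiffOn.2 h1).comp hinvs hmem
      · have h1 : 0 ≤ f (inv z) := f.nonneg
        have h2 : f (inv z) ≤ 1 := f.le_one
        have h3 := hmem z hz
        have h4 : 0 < (‖inv z‖ ^ 2)⁻¹ := by
          have : 0 < ‖inv z‖ := by linarith
          positivity
        change 0 < (1 - f (inv z)) * lam k + f (inv z) * (‖inv z‖ ^ 2)⁻¹
        rcases h1.eq_or_lt with h5 | h5
        · rw [← h5]
          have := hlam k
          linarith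
        · have h6 : 0 ≤ (1 - f (inv z)) * lam k := mul_nonneg (by linarith) (hlam k).le
          have h7 : 0 < f (inv z) * (‖inv z‖ ^ 2)⁻¹ := mul_pos h5 h4
          linarith
      · rw [hb₃in z hz.1]
        congr 1
        ext1 a
        have h1 : dm ((fun v => R v) ∘ inv) z a = dm (fun v => R v) (inv z) (dm inv z a) :=
          dm_comp (isLocalDiffeomorphAt_isometry R _) (hi2 z hz.1.1).1 a
        rw [dm_isometry] at h1
        exact h1.symm
    · have hy' : y ∉ Core φ (3 / 2) := by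
        intro h
        apply hy
        have h1 := Core_subset_Dom φ (by norm_num) h
        refine ⟨h1, ?_⟩
        have h2 := (hcore (3 / 2) (by norm_num) y h1).1 h
        rw [mem_preimage, mem_ball_zero_iff]
        linarith
      refine (hb₂D y hyV).congr (hcl (3 / 2) (by norm_num)) hy' fun z hz => ?_
      by_cases hzD : z ∈ D₂
      · have h1 : 3 / 2 < ‖inv z‖ := by
          by_contra hcon
          push Not at hcon
          exact hz ((hcore (3 / 2) (by norm_num) z hzD.1).2 hcon)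
        have h2 : f (inv z) = 0 := f.zero_of_le_dist (by rw [dist_zero_right]; exact h1.le)
        ext a c
        have h3 := hb₂lin (inv z) (mem_ball_zero_iff.1 hzD.2) (dm inv z a) (dm inv z c)
        rw [dm_dm_inv hφ hi2 hDo hzD.1, dm_dm_inv hφ hi2 hDo hzD.1, (hi2 z hzD.1).2.2, hR] at h3
        rw [h3, hb₃in z hzD, dform_apply]
        refine Finset.sum_congr rfl fun k _ => ?_
        change ((1 - f (inv z)) * lam k + f (inv z) * (‖inv z‖ ^ 2)⁻¹) * _ * _ = _
        rw [h2]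
        simp only [ContinuousLinearMap.comp_apply, hRc]
        ring
      · exact hb₃out z hzD
  · intro y hy
    rw [hb₃out y, hb₂out y hy]
    intro h
    apply hy
    rw [hcore (9 / 5) (by norm_num) y h.1]
    have := mem_ball_zero_iff.1 h.2
    linarith
  · intro u hu1 hu2 a c
    have hu : ‖u‖ < 2 := by linarith
    have hmem : φ u ∈ D₂ := by
      refine ⟨hDom u hu, ?_⟩
      rw [mem_preimage, hi1 u hu, mem_ball_zero_iff]
      linarith
    rw [hb₃in _ hmem, dform_apply]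
    simp only [ContinuousLinearMap.comp_apply, hRc]
    rw [dm_inv_dm hφ hi1 hi2 hu, dm_inv_dm hφ hi1 hi2 hu, ← hRinner, Finset.mul_sum]
    refine Finset.sum_congr rfl fun k _ => ?_
    change ((1 - f (inv (φ u))) * lam k + f (inv (φ u)) * (‖inv (φ u)‖ ^ 2)⁻¹) * _ * _ = _
    have h1 : f u = 1 := f.one_of_mem_closedBall (by
      rw [mem_closedBall_zero_iff]
      exact hu2.le)
    rw [hi1 u hu, h1]
    ring

end Pool.Agent.OrthCoord
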