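import Pool.Agent.OrthCoord.LogPolar

set_option autoImplicit false
open Bundle Set ContinuousLinearMap
open scoped Manifold ContDiff Topology

namespace Pool.Agent.OrthCoord

variable {k : ℕ}

/-- Weights of the Euclidean metric in logarithmic polar coordinates. -/
noncomputable def lpW (y : E (k + 4)) (j : Fin (k + 4)) : ℝ :=
  if j = 2 then Real.exp (2 * y 2) else if j = 3 then Real.exp (2 * y 2) else 1

theorem lpW_pos (y : E (k + 4)) (j : Fin (k + 4)) : 0 < lpW y j := by
  unfold lpW
  have := Real.exp_pos (2 * y 2)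
  split_ifs <;> first | exact this | norm_num

theorem contDiff_lpW (j : Fin (k + 4)) : ContDiff ℝ ∞ (fun y : E (k + 4) => lpW y j) := by
  have h : ContDiff ℝ ∞ (fun y : E (k + 4) => Real.exp (2 * y 2)) :=
    (contDiff_const.mul (contDiff_coord (n := k + 4) 2)).exp
  unfold lpW
  split_ifs
  · exact h
  · exact h
  · exact contDiff_const

/-- The linear map `a ↦ a + α a₀ e₃`. -/
noncomputable def shear (α : ℝ) : E (k + 4) →L[ℝ] E (k + 4) :=
  LinearMap.toContinuousLinearMap
    { toFun := fun a => WithLp.toLp 2 fun j => if j = 3 then a 3 + α * a 0 else a j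
      map_add' := fun u v => by
        ext j
        simp only [PiLp.add_apply]
        split_ifs <;> ring
      map_smul' := fun c u => by
        ext j
        simp only [PiLp.smul_apply, RingHom.id_apply, smul_eq_mul]
        split_ifs <;> ring }

theorem shear_apply (α : ℝ) (a : E (k + 4)) (j : Fin (k + 4)) :
    shear α a j = if j = 3 then a 3 + α * a 0 else a j := rfl

theorem shear_injective (α : ℝ) : Function.Injective (shear (k := k) α) := by
  obtain ⟨n10, n20, n30, n21, n31, n32⟩ := ne_facts (k := k)
  rw [injective_iff_map_eq_zero]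
  intro a ha
  have hz : ∀ j, shear α a j = 0 := fun j => by rw [ha]; rfl
  have h0 := hz 0
  rw [shear_apply, if_neg n30.symm] at h0
  have h3 := hz 3
  rw [shear_apply, if_pos rfl, h0, mul_zero, add_zero] at h3
  ext j
  change a j = 0
  by_cases c3 : j = 3
  · rw [c3, h3]
  have := hz j
  rwa [shear_apply, if_neg c3] at this

/-- The distance of the disc part of `y` from the centre. -/
noncomputable def cdist (L : ℝ) (y : E (k + 4)) : ℝ :=
  ‖nP (discDirs k) y - L • (basisVec 2 : E (k + 4))‖

theorem continuous_cdist (L : ℝ) : Continuous (cdist (k := k) L) :=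
  ((nP (discDirs k)).continuous.sub continuous_const).norm

/-- A cut-off function around the centre. -/
noncomputable def cbump (L : ℝ) {r R : ℝ} (h0 : 0 < r) (h : r < R) (y : E (k + 4)) : ℝ :=
  (⟨r, R, h0, h⟩ : ContDiffBump (L • (basisVec 2 : E (k + 4)))) (nP (discDirs k) y)

theorem contDiff_cbump (L : ℝ) {r R : ℝ} (h0 : 0 < r) (h : r < R) :
    ContDiff ℝ ∞ (cbump (k := k) L h0 h) :=
  (ContDiffBump.contDiff _).comp (nP _).contDiff

theorem cbump_nonneg (L : ℝ) {r R : ℝ} (h0 : 0 < r) (h : r < R) (y : E (k + 4)) :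
    0 ≤ cbump L h0 h y := ContDiffBump.nonneg _

theorem cbump_le_one (L : ℝ) {r R : ℝ} (h0 : 0 < r) (h : r < R) (y : E (k + 4)) :
    cbump L h0 h y ≤ 1 := ContDiffBump.le_one _

theorem cbump_one (L : ℝ) {r R : ℝ} (h0 : 0 < r) (h : r < R) {y : E (k + 4)}
    (hy : cdist L y ≤ r) : cbump L h0 h y = 1 :=
  ContDiffBump.one_of_mem_closedBall _ (by rw [mem_closedBall_iff_norm]; exact hy)

theorem cbump_zero (L : ℝ) {r R : ℝ} (h0 : 0 < r) (h : r < R) {y : E (k + 4)}
    (hy : R ≤ cdist L y) : cbump L h0 h y = 0 :=
  ContDiffBump.zero_of_le_dist _ (by rw [dist_eq_norm]; exact hy)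

theorem mix_pos {s a b : ℝ} (h0 : 0 ≤ s) (h1 : s ≤ 1) (ha : 0 < a) (hb : 0 < b) :
    0 < (1 - s) * a + s * b := by
  rcases h0.eq_or_lt with h | h
  · rw [← h]
    linarith
  · have h2 : 0 ≤ (1 - s) * a := mul_nonneg (by linarith) ha.le
    have h3 := mul_pos h hb
    linarith

/-- A diagonal form in linear coordinates is locally diagonal. -/
theorem diagAt_linear {n : ℕ} {w : E n → Fin n → ℝ} {A : E n →L[ℝ] E n}
    (hA : Function.Injective A) (hw : ∀ k, ContDiff ℝ ∞ (fun y => w y k))
    (hpos : ∀ y k, 0 < w y k) (y : E n) : DiagAt (fun y => dform (w y) A) y := by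
  refine ⟨univ, fun v => A v, w, isOpen_univ, mem_univ _, fun z _ => localDiffeo_clm hA z,
    fun k => (hw k).contMDiff.contMDiffOn, fun z _ j => hpos z j, fun z _ => ?_⟩
  rw [dq_clm]

section
variable (α L : ℝ) (lam : Fin (k + 4) → ℝ) (R : E (k + 4) ≃ₗᵢ[ℝ] E (k + 4))

/-- The first form: from the turned metric to the flat metric of the shear. -/
noncomputable def form1 (y : E (k + 4)) : E (k + 4) →L[ℝ] E (k + 4) →L[ℝ] ℝ :=
  dform (fun j => (1 - cbump L (r := 8 / 100) (R := 10 / 100) (by norm_num) (by norm_num) y) *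
    lpW y j + cbump L (r := 8 / 100) (R := 10 / 100) (by norm_num) (by norm_num) y * 1) (shear α)

/-- The second form: from the flat metric of the shear to the standard flat metric. -/
noncomputable def form2 (y : E (k + 4)) : E (k + 4) →L[ℝ] E (k + 4) →L[ℝ] ℝ :=
  dform (fun j => (1 - cbump L (r := 6 / 100) (R := 7 / 100) (by norm_num) (by norm_num) y) *
    lam j + cbump L (r := 6 / 100) (R := 7 / 100) (by norm_num) (by norm_num) y * 1)
    (R.toContinuousLinearEquiv : E (k + 4) →L[ℝ] E (k + 4))

/-- The third form: from the flat metric to the Euclidean metric in polar coordinates. -/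
noncomputable def form3 (y : E (k + 4)) : E (k + 4) →L[ℝ] E (k + 4) →L[ℝ] ℝ :=
  dform (fun j => (1 - cbump L (r := 4 / 100) (R := 5 / 100) (by norm_num) (by norm_num) y) * 1 +
    cbump L (r := 4 / 100) (R := 5 / 100) (by norm_num) (by norm_num) y * lpW y j)
    (ContinuousLinearMap.id ℝ (E (k + 4)))

open Classical in
/-- The composite form. -/
noncomputable def lpForm (y : E (k + 4)) : E (k + 4) →L[ℝ] E (k + 4) →L[ℝ] ℝ :=
  if 75 / 1000 ≤ cdist L y then form1 α L y
  else if 55 / 1000 ≤ cdist L y then form2 L lam R y else form3 L y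

variable (hlam : ∀ j, 0 < lam j)
  (hR : ∀ a c : E (k + 4), inner ℝ (shear α a) (shear α c) = ∑ j, lam j * R a j * R c j)

theorem form1_in {y : E (k + 4)} (hy : cdist L y ≤ 8 / 100) (a c : E (k + 4)) :
    form1 α L y a c = inner ℝ (shear α a) (shear α c) := by
  unfold form1
  rw [dform_apply, cbump_one L _ _ hy, PiLp.inner_apply]
  refine Finset.sum_congr rfl fun j _ => ?_
  simp [mul_comm]

theorem form1_out {y : E (k + 4)} (hy : 10 / 100 ≤ cdist L y) (a c : E (k + 4)) :
    form1 α L y a c = ∑ j, lpW y j * shear α a j * shear α c j := by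
  unfold form1
  rw [dform_apply, cbump_zero L _ _ hy]
  refine Finset.sum_congr rfl fun j _ => ?_
  simp

include hR in
theorem form2_out {y : E (k + 4)} (hy : 7 / 100 ≤ cdist L y) (a c : E (k + 4)) :
    form2 L lam R y a c = inner ℝ (shear α a) (shear α c) := by
  unfold form2
  rw [dform_apply, cbump_zero L _ _ hy, hR]
  refine Finset.sum_congr rfl fun j _ => ?_
  simp

theorem form2_in {y : E (k + 4)} (hy : cdist L y ≤ 6 / 100) (a c : E (k + 4)) :
    form2 L lam R y a c = inner ℝ a c := by
  unfold form2
  rw [dform_apply, cbump_one L _ _ hy, ← R.inner_map_map, PiLp.inner_apply]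
  refine Finset.sum_congr rfl fun j _ => ?_
  simp [mul_comm]

theorem form3_out {y : E (k + 4)} (hy : 5 / 100 ≤ cdist L y) (a c : E (k + 4)) :
    form3 L y a c = inner ℝ a c := by
  unfold form3
  rw [dform_apply, cbump_zero L _ _ hy, PiLp.inner_apply]
  refine Finset.sum_congr rfl fun j _ => ?_
  simp [mul_comm]

theorem form3_in {y : E (k + 4)} (hy : cdist L y ≤ 4 / 100) (a c : E (k + 4)) :
    form3 L y a c = ∑ j, lpW y j * a j * c j := by
  unfold form3
  rw [dform_apply, cbump_one L _ _ hy]
  refine Finset.sum_congr rfl fun j _ => ?_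
  simp

include hR in
theorem lpForm_first {y : E (k + 4)} (hy : 7 / 100 < cdist L y) :
    lpForm α L lam R y = form1 α L y := by
  unfold lpForm
  split_ifs with h1 h2
  · rfl
  · ext a c
    rw [form1_in α L (by linarith), form2_out α L lam R hR (by linarith)]
  · exact absurd (by linarith : (55 : ℝ) / 1000 ≤ cdist L y) h2

theorem lpForm_second {y : E (k + 4)} (hy : 5 / 100 < cdist L y) (hy' : cdist L y < 75 / 1000) :
    lpForm α L lam R y = form2 L lam R y := by
  unfold lpForm
  rw [if_neg (by linarith)]
  split_ifs with h2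
  · rfl
  · ext a c
    rw [form3_out L (by linarith), form2_in L lam R (by linarith)]

theorem lpForm_third {y : E (k + 4)} (hy : cdist L y < 55 / 1000) :
    lpForm α L lam R y = form3 L y := by
  unfold lpForm
  rw [if_neg (by linarith), if_neg (by linarith)]

include hlam hR in
theorem diagAt_lpForm (y : E (k + 4)) : DiagAt (lpForm α L lam R) y := by
  rcases lt_or_ge (7 / 100) (cdist L y) with h1 | h1
  · have h : DiagAt (form1 (k := k) α L) y := by
      refine diagAt_linear (shear_injective α) (fun j => ?_) (fun z j => ?_) y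
      · exact ((contDiff_const.sub (contDiff_cbump L _ _)).mul (contDiff_lpW j)).add
          ((contDiff_cbump L _ _).mul contDiff_const)
      · exact mix_pos (cbump_nonneg _ _ _ _) (cbump_le_one _ _ _ _) (lpW_pos z j) one_pos
    exact h.congr (isOpen_lt continuous_const (continuous_cdist L)) h1
      (fun z hz => lpForm_first α L lam R hR hz)
  rcases lt_or_ge (5 / 100) (cdist L y) with h2 | h2
  · have h : DiagAt (form2 L lam R) y := by
      refine diagAt_linear R.toContinuousLinearEquiv.injective (fun j => ?_) (fun z j => ?_) y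
      · exact ((contDiff_const.sub (contDiff_cbump L _ _)).mul contDiff_const).add
          ((contDiff_cbump L _ _).mul contDiff_const)
      · exact mix_pos (cbump_nonneg _ _ _ _) (cbump_le_one _ _ _ _) (hlam j) one_pos
    exact h.congr (O' := {z | 5 / 100 < cdist L z ∧ cdist L z < 75 / 1000})
      ((isOpen_lt continuous_const (continuous_cdist L)).inter
        (isOpen_lt (continuous_cdist L) continuous_const)) ⟨h2, by linarith⟩
      (fun z hz => lpForm_second α L lam R hz.1 hz.2)
  · have h : DiagAt (form3 (k := k) L) y := by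
      refine diagAt_linear Function.injective_id (fun j => ?_) (fun z j => ?_) y
      · exact ((contDiff_const.sub (contDiff_cbump L _ _)).mul contDiff_const).add
          ((contDiff_cbump L _ _).mul (contDiff_lpW j))
      · exact mix_pos (cbump_nonneg _ _ _ _) (cbump_le_one _ _ _ _) one_pos (lpW_pos z j)
    exact h.congr (O' := {z | cdist L z < 55 / 1000})
      (isOpen_lt (continuous_cdist L) continuous_const)
      (by change cdist L y < 55 / 1000; linarith) (fun z hz => lpForm_third α L lam R hz)

end

/-- The metric pulled back by the logarithmic polar coordinates: the turned metric. -/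
theorem lp_twist (α : ℝ) {u : E (k + 4)} (hu : u ∈ half k) (a c : E (k + 4)) :
    ∑ j, lpW (lp u) j * shear α (fderiv ℝ lp u a) j * shear α (fderiv ℝ lp u c) j =
      twist α u a c := by
  obtain ⟨n10, n20, n30, n21, n31, n32⟩ := ne_facts (k := k)
  have hpos := sq_pos_half hu
  rw [sum_four]
  have h : ∀ j : Fin k, lpW (lp u) (j.addNat 4) * shear α (fderiv ℝ lp u a) (j.addNat 4) *
      shear α (fderiv ℝ lp u c) (j.addNat 4) = a (j.addNat 4) * c (j.addNat 4) := by
    intro j
    obtain ⟨m0, m1, m2, m3⟩ := ne_addNat j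
    rw [shear_apply, shear_apply, if_neg m3, if_neg m3, fderiv_lp_other hu a m2 m3,
      fderiv_lp_other hu c m2 m3]
    simp only [lpW, if_neg m2, if_neg m3]
    ring
  simp only [h]
  simp only [shear_apply, if_neg n30.symm, if_neg n31.symm, if_neg n32.symm, if_true,
    fderiv_lp_other hu _ n20.symm n30.symm, fderiv_lp_other hu _ n21.symm n31.symm,
    fderiv_lp_two hu, fderiv_lp_three hu]
  simp only [lpW, if_neg n20.symm, if_neg n30.symm, if_neg n21.symm, if_neg n31.symm,
    if_neg n32, if_true, exp_lp_two hu]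
  unfold twist
  field_simp
  ring

theorem twist_zero (u a c : E (k + 4)) : twist 0 u a c = inner ℝ a c := by
  rw [inner_eq_sum_four]
  unfold twist
  ring

theorem shear_zero (a : E (k + 4)) (j : Fin (k + 4)) : shear 0 a j = a j := by
  rw [shear_apply]
  split_ifs with h
  · rw [h]
    ring
  · rfl

theorem lp_inner {u : E (k + 4)} (hu : u ∈ half k) (a c : E (k + 4)) :
    ∑ j, lpW (lp u) j * fderiv ℝ lp u a j * fderiv ℝ lp u c j = inner ℝ a c := by
  have h := lp_twist 0 hu a c
  rw [twist_zero] at h
  rw [← h]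
  refine Finset.sum_congr rfl fun j _ => ?_
  rw [shear_zero, shear_zero]

end Pool.Agent.OrthCoord
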