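import Pool.Agent.OrthCoord.Swirl

set_option autoImplicit false
open Bundle Set ContinuousLinearMap
open scoped Manifold ContDiff Topology

namespace Pool.Agent.OrthCoord

variable {k : ℕ}

/-- The turned Euclidean metric. -/
noncomputable def twistForm (α : ℝ) : E (k + 4) → E (k + 4) →L[ℝ] E (k + 4) →L[ℝ] ℝ :=
  pull (turn α) (fun _ => dform (fun _ => 1) (ContinuousLinearMap.id ℝ (E (k + 4))))

theorem twistForm_apply (α : ℝ) (u a c : E (k + 4)) : twistForm α u a c = twist α u a c := by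
  unfold twistForm
  rw [pull_apply, dform_apply, dm_eq_fderiv, ← inner_fderiv_turn, PiLp.inner_apply]
  refine Finset.sum_congr rfl fun j _ => ?_
  simp [mul_comm]

theorem diagAt_twistForm (α : ℝ) (u : E (k + 4)) : DiagAt (twistForm α) u :=
  DiagAt.pull (localDiffeo_turn α u)
    (diagAt_linear Function.injective_id (fun _ => contDiff_const) (fun _ _ => one_pos) _)

theorem cdist_sq (L : ℝ) (y : E (k + 4)) : cdist L y ^ 2 =
    y 1 ^ 2 + (y 2 - L) ^ 2 + y 3 ^ 2 + ∑ j : Fin k, y (j.addNat 4) ^ 2 := by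
  obtain ⟨n10, n20, n30, n21, n31, n32⟩ := ne_facts (k := k)
  unfold cdist
  rw [EuclideanSpace.norm_sq_eq, sum_four]
  have h : ∀ j : Fin k, ‖(nP (discDirs k) y - L • (basisVec 2 : E (k + 4))) (j.addNat 4)‖ ^ 2 =
      y (j.addNat 4) ^ 2 := by
    intro j
    obtain ⟨m0, m1, m2, m3⟩ := ne_addNat j
    rw [Real.norm_eq_abs, sq_abs, PiLp.sub_apply, nP_apply, normalPart_apply]
    simp [discDirs, m0, m2]
  simp only [h]
  simp only [Real.norm_eq_abs, sq_abs, PiLp.sub_apply, nP_apply, normalPart_apply]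
  simp [discDirs, n10, n20, n30, n21.symm, n32, n20.symm]

theorem lp_addNat (u : E (k + 4)) (j : Fin k) : lp u (j.addNat 4) = u (j.addNat 4) := by
  obtain ⟨m0, m1, m2, m3⟩ := ne_addNat j
  exact lp_other u m2 m3

theorem lp_one (u : E (k + 4)) : lp u 1 = u 1 := by
  obtain ⟨n10, n20, n30, n21, n31, n32⟩ := ne_facts (k := k)
  exact lp_other u n21.symm n31.symm

theorem lp_zero (u : E (k + 4)) : lp u 0 = u 0 := by
  obtain ⟨n10, n20, n30, n21, n31, n32⟩ := ne_facts (k := k)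
  exact lp_other u n20.symm n30.symm

section
variable {c : ℝ} (hc : 0 < c)
include hc

theorem half_of_cdist {u : E (k + 4)} (hu : u ∈ half k)
    (h : cdist (Real.log c) (lp u) ≤ 1 / 10) : c / 2 ≤ u 2 := by
  have h0 : 0 < u 2 := hu
  have h1 := cdist_sq (Real.log c) (lp u)
  have hn : 0 ≤ cdist (Real.log c) (lp u) := norm_nonneg _
  have hs : 0 ≤ ∑ j : Fin k, lp u (j.addNat 4) ^ 2 := Finset.sum_nonneg fun j _ => sq_nonneg _
  have h2 : cdist (Real.log c) (lp u) ^ 2 ≤ (1 / 10) ^ 2 := by gcongr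
  have h3 : (lp u 2 - Real.log c) ^ 2 ≤ (1 / 10) ^ 2 := by
    nlinarith [sq_nonneg (lp u 1), sq_nonneg (lp u 3)]
  have h4 : (lp u 3) ^ 2 ≤ (1 / 10) ^ 2 := by
    nlinarith [sq_nonneg (lp u 1), sq_nonneg (lp u 2 - Real.log c)]
  have h5 := abs_le_of_sq_le_sq' h3 (by norm_num)
  have h6 := abs_le_of_sq_le_sq' h4 (by norm_num)
  rw [lp_three] at h6
  have hpi := Real.pi_gt_three
  have h7 : u 3 / u 2 < 1 := by
    by_contra hcon
    push Not at hcon
    have := Real.arctan_strictMono.monotone hcon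
    rw [Real.arctan_one] at this
    linarith [h6.2]
  have h8 : -1 < u 3 / u 2 := by
    by_contra hcon
    push Not at hcon
    have := Real.arctan_strictMono.monotone hcon
    rw [Real.arctan_neg, Real.arctan_one] at this
    linarith [h6.1]
  rw [div_lt_one h0] at h7
  rw [lt_div_iff₀ h0] at h8
  have h9 : u 3 ^ 2 ≤ u 2 ^ 2 := by nlinarith
  have h10 : Real.exp (2 * lp u 2) = u 2 ^ 2 + u 3 ^ 2 := exp_lp_two hu
  have h11 : Real.exp (2 * Real.log c + (-1 / 5)) ≤ Real.exp (2 * lp u 2) :=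
    Real.exp_le_exp.2 (by linarith [h5.1])
  rw [Real.exp_add, two_mul, Real.exp_add, Real.exp_log hc, h10] at h11
  have h12 := Real.add_one_le_exp (-1 / 5 : ℝ)
  have h13 : c * c * (4 / 5) ≤ c * c * Real.exp (-1 / 5) := by
    have : 0 ≤ c * c := by positivity
    nlinarith
  by_contra hcon
  push Not at hcon
  nlinarith

theorem isClosed_swirl : IsClosed {u : E (k + 4) | u ∈ half k ∧
    cdist (Real.log c) (lp u) ≤ 1 / 10} := by
  have h1 : {u : E (k + 4) | u ∈ half k ∧ cdist (Real.log c) (lp u) ≤ 1 / 10} =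
      {u : E (k + 4) | c / 2 ≤ u 2} ∩ (fun u => cdist (Real.log c) (lp u)) ⁻¹' Iic (1 / 10) := by
    ext u
    constructor
    · rintro ⟨h1, h2⟩
      exact ⟨half_of_cdist hc h1 h2, h2⟩
    · rintro ⟨h1, h2⟩
      have h3 : c / 2 ≤ u 2 := h1
      exact ⟨show (0 : ℝ) < u 2 by linarith, h2⟩
  rw [h1]
  refine ContinuousOn.preimage_isClosed_of_isClosed ?_ ?_ isClosed_Iic
  · refine (continuous_cdist _).comp_continuousOn (contDiffOn_lp.continuousOn.mono fun u hu => ?_)
    have h3 : c / 2 ≤ u 2 := hu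
    exact show (0 : ℝ) < u 2 by linarith
  · exact isClosed_le continuous_const (contDiff_coord (n := k + 4) 2).continuous

theorem rad_lt_of_cdist (hc2 : c ≤ 1 / 2) {u : E (k + 4)} (hu : u ∈ half k)
    (h : cdist (Real.log c) (lp u) < 11 / 100) : rad (discDirs k) u < 1 := by
  have h1 := cdist_sq (Real.log c) (lp u)
  have hn : 0 ≤ cdist (Real.log c) (lp u) := norm_nonneg _
  have h2 : cdist (Real.log c) (lp u) ^ 2 ≤ (11 / 100) ^ 2 := by gcongr
  simp only [lp_addNat, lp_one] at h1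
  have hs : 0 ≤ ∑ j : Fin k, u (j.addNat 4) ^ 2 := Finset.sum_nonneg fun j _ => sq_nonneg _
  have h3 : (lp u 2 - Real.log c) ^ 2 ≤ (11 / 100) ^ 2 := by
    nlinarith [sq_nonneg (u 1), sq_nonneg (lp u 3)]
  have h5 := abs_le_of_sq_le_sq' h3 (by norm_num)
  have h6 := rad_sq u
  have h10 : Real.exp (2 * lp u 2) = u 2 ^ 2 + u 3 ^ 2 := exp_lp_two hu
  have h11 : Real.exp (2 * lp u 2) ≤ Real.exp (2 * Real.log c + 1) :=
    Real.exp_le_exp.2 (by linarith [h5.2])
  rw [Real.exp_add, two_mul (Real.log c), Real.exp_add, Real.exp_log hc, h10] at h11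
  have h12 := Real.exp_one_lt_d9
  have h13 : c * c ≤ 1 / 4 := by nlinarith
  have h14 : c * c * Real.exp 1 ≤ 1 / 4 * 2.7182818286 := by
    have h15 := (Real.exp_pos 1).le
    nlinarith
  have h16 : u 1 ^ 2 + ∑ j : Fin k, u (j.addNat 4) ^ 2 ≤ (11 / 100) ^ 2 := by
    nlinarith [sq_nonneg (lp u 2 - Real.log c), sq_nonneg (lp u 3)]
  have h17 : rad (discDirs k) u ^ 2 < 1 := by
    rw [h6]
    norm_num at h14 h16 ⊢
    linarith
  by_contra hcon
  push Not at hcon
  nlinarith

theorem exists_near : ∃ δ : ℝ, 0 < δ ∧ ∀ u : E (k + 4),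
    ‖nP (discDirs k) u - c • (basisVec 2 : E (k + 4))‖ ≤ δ →
      u ∈ half k ∧ cdist (Real.log c) (lp u) < 4 / 100 := by
  obtain ⟨n10, n20, n30, n21, n31, n32⟩ := ne_facts (k := k)
  set v₀ : E (k + 4) := c • (basisVec 2 : E (k + 4)) with hv₀
  have hv2 : v₀ 2 = c := by simp [hv₀]
  have hv3 : v₀ 3 = 0 := by simp [hv₀, n32]
  have hv1 : v₀ 1 = 0 := by simp [hv₀, n21.symm]
  have hvj : ∀ j : Fin k, v₀ (j.addNat 4) = 0 := by
    intro j
    obtain ⟨m0, m1, m2, m3⟩ := ne_addNat j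
    simp [hv₀, m2]
  have hhalf : v₀ ∈ half k := by
    change 0 < v₀ 2
    rw [hv2]
    exact hc
  have hval : cdist (Real.log c) (lp v₀) = 0 := by
    have h1 := cdist_sq (Real.log c) (lp v₀)
    simp only [lp_addNat, lp_one, lp_two, lp_three, hv1, hv2, hv3, hvj] at h1
    have h2 : Real.log (c ^ 2 + 0 ^ 2) / 2 = Real.log c := by
      rw [zero_pow (by norm_num), add_zero, Real.log_pow]
      push_cast
      ring
    rw [h2] at h1
    have h3 : cdist (Real.log c) (lp v₀) ^ 2 = 0 := by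
      rw [h1]
      simp
    exact pow_eq_zero_iff (by norm_num) |>.1 h3
  have hcont : ContinuousAt (fun u : E (k + 4) => cdist (Real.log c) (lp u)) v₀ :=
    (continuous_cdist _).continuousAt.comp
      (contDiffOn_lp.continuousOn.continuousAt (isOpen_half.mem_nhds hhalf))
  have hev : ∀ᶠ u in 𝓝 v₀, u ∈ half k ∧ cdist (Real.log c) (lp u) < 4 / 100 := by
    have h1 : ∀ᶠ u in 𝓝 v₀, u ∈ half k := isOpen_half.mem_nhds hhalf
    refine h1.and (hcont.eventually (gt_mem_nhds ?_))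
    change cdist (Real.log c) (lp v₀) < 4 / 100
    rw [hval]
    norm_num
  obtain ⟨δ, hδ, hball⟩ := Metric.eventually_nhds_iff.1 hev
  refine ⟨δ / 2, by positivity, fun u hu => ?_⟩
  have h1 := hball (y := nP (discDirs k) u) (by
    rw [dist_eq_norm]
    linarith)
  have hj : ∀ j : Fin (k + 4), j ≠ 0 → nP (discDirs k) u j = u j := by
    intro j hj
    rw [nP_apply, normalPart_apply]
    simp [discDirs, hj]
  have hh : u ∈ half k := by
    have h2 : 0 < nP (discDirs k) u 2 := h1.1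
    rw [hj 2 n20] at h2
    exact h2
  refine ⟨hh, ?_⟩
  have h2 : cdist (Real.log c) (lp u) = cdist (Real.log c) (lp (nP (discDirs k) u)) := by
    have e1 := cdist_sq (Real.log c) (lp u)
    have e2 := cdist_sq (Real.log c) (lp (nP (discDirs k) u))
    simp only [lp_addNat, lp_one, lp_two, lp_three] at e1 e2
    have e3 : ∀ j : Fin k, nP (discDirs k) u (j.addNat 4) = u (j.addNat 4) := fun j =>
      hj _ (ne_addNat j).1
    simp only [hj 1 n10, hj 2 n20, hj 3 n30, e3] at e2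
    have e4 : cdist (Real.log c) (lp u) ^ 2 = cdist (Real.log c) (lp (nP (discDirs k) u)) ^ 2 := by
      rw [e1, e2]
    exact (sq_eq_sq₀ (norm_nonneg _) (norm_nonneg _)).1 e4
  rw [h2]
  exact h1.2

end

theorem add_zeroth {u : E (k + 4)} {t : ℝ} {j : Fin (k + 4)} (hj : j ≠ 0) :
    (u + t • (basisVec 0 : E (k + 4))) j = u j := by
  simp [hj]

theorem normalPart_zeroth (t : ℝ) :
    normalPart (discDirs k) (t • (basisVec 0 : E (k + 4))) = 0 := by
  ext j
  rw [normalPart_apply]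
  by_cases hj : j = 0
  · simp [discDirs, hj]
  · simp [discDirs, hj]

theorem cdist_add_zeroth (L : ℝ) (y : E (k + 4)) (t : ℝ) :
    cdist L (y + t • (basisVec 0 : E (k + 4))) = cdist L y := by
  unfold cdist
  rw [nP_add_period _ (normalPart_zeroth t)]

theorem cbump_add_zeroth (L : ℝ) {r R : ℝ} (h0 : 0 < r) (h : r < R) (y : E (k + 4)) (t : ℝ) :
    cbump L h0 h (y + t • (basisVec 0 : E (k + 4))) = cbump L h0 h y := by
  unfold cbump
  rw [nP_add_period _ (normalPart_zeroth t)]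

theorem lpForm_add_zeroth (α L : ℝ) (lam : Fin (k + 4) → ℝ) (R : E (k + 4) ≃ₗᵢ[ℝ] E (k + 4))
    (y : E (k + 4)) (t : ℝ) : lpForm α L lam R (y + t • (basisVec 0 : E (k + 4))) =
      lpForm α L lam R y := by
  obtain ⟨n10, n20, n30, n21, n31, n32⟩ := ne_facts (k := k)
  have hw : lpW (y + t • (basisVec 0 : E (k + 4))) = lpW y := by
    funext j
    unfold lpW
    rw [add_zeroth n20]
  unfold lpForm form1 form2 form3
  simp only [cdist_add_zeroth, cbump_add_zeroth, hw]

theorem half_add_zeroth (u : E (k + 4)) (t : ℝ) :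
    u + t • (basisVec 0 : E (k + 4)) ∈ half k ↔ u ∈ half k := by
  obtain ⟨n10, n20, n30, n21, n31, n32⟩ := ne_facts (k := k)
  change 0 < (u + t • (basisVec 0 : E (k + 4))) 2 ↔ 0 < u 2
  rw [add_zeroth n20]

theorem lp_add_zeroth (u : E (k + 4)) (t : ℝ) :
    lp (u + t • (basisVec 0 : E (k + 4))) = lp u + t • (basisVec 0 : E (k + 4)) := by
  obtain ⟨n10, n20, n30, n21, n31, n32⟩ := ne_facts (k := k)
  ext j
  by_cases h2 : j = 2
  · rw [h2, lp_two, add_zeroth n20, add_zeroth n30, add_zeroth n20, lp_two]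
  by_cases h3 : j = 3
  · rw [h3, lp_three, add_zeroth n20, add_zeroth n30, add_zeroth n30, lp_three]
  rw [lp_other _ h2 h3, PiLp.add_apply, PiLp.add_apply, lp_other _ h2 h3]

theorem fderiv_lp_add_zeroth {u : E (k + 4)} (hu : u ∈ half k) (t : ℝ) (a : E (k + 4)) :
    fderiv ℝ lp (u + t • (basisVec 0 : E (k + 4))) a = fderiv ℝ lp u a := by
  obtain ⟨n10, n20, n30, n21, n31, n32⟩ := ne_facts (k := k)
  have hu' := (half_add_zeroth u t).2 hu
  ext j
  by_cases h2 : j = 2
  · rw [h2, fderiv_lp_two hu', fderiv_lp_two hu, add_zeroth n20, add_zeroth n30]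
  by_cases h3 : j = 3
  · rw [h3, fderiv_lp_three hu', fderiv_lp_three hu, add_zeroth n20, add_zeroth n30]
  rw [fderiv_lp_other hu' a h2 h3, fderiv_lp_other hu a h2 h3]

/-- The metric which is the turned one far from the axis and Euclidean near a point off the
axis. -/
theorem exists_swirl (k : ℕ) (α : ℝ) {c : ℝ} (hc : 0 < c) (hc2 : c ≤ 1 / 2) :
    ∃ B : E (k + 4) → E (k + 4) →L[ℝ] E (k + 4) →L[ℝ] ℝ, (∀ u, DiagAt B u) ∧
      (∀ u, 1 ≤ rad (discDirs k) u → B u = twistForm α u) ∧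
      (∃ δ : ℝ, 0 < δ ∧ ∀ u, ‖nP (discDirs k) u - c • (basisVec 2 : E (k + 4))‖ ≤ δ →
        ∀ x y, B u x y = inner ℝ x y) ∧
      ∀ (u : E (k + 4)) (t : ℝ), B (u + t • (basisVec 0 : E (k + 4))) = B u := by
  classical
  obtain ⟨lam, R, hlam, hR⟩ := exists_eigen (shear (k := k) α) (shear_injective α)
  set L := Real.log c with hL
  let Ω : Set (E (k + 4)) := {u | u ∈ half k ∧ cdist L (lp u) < 11 / 100}
  let B : E (k + 4) → E (k + 4) →L[ℝ] E (k + 4) →L[ℝ] ℝ := fun u =>
    if u ∈ Ω then pull lp (lpForm α L lam R) u else twistForm α u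
  have hΩo : IsOpen Ω := by
    have h1 : ContinuousOn (fun u : E (k + 4) => cdist L (lp u)) (half k) :=
      (continuous_cdist _).comp_continuousOn contDiffOn_lp.continuousOn
    exact h1.isOpen_inter_preimage isOpen_half isOpen_Iio
  have hBin : ∀ u ∈ Ω, B u = pull lp (lpForm α L lam R) u := fun u hu => if_pos hu
  have hBout : ∀ u, u ∉ Ω → B u = twistForm α u := fun u hu => if_neg hu
  have hout : ∀ u ∈ half k, 1 / 10 < cdist L (lp u) →
      pull lp (lpForm α L lam R) u = twistForm α u := by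
    intro u hu h
    ext a b
    rw [pull_apply, lpForm_first α L lam R hR (by linarith), form1_out α L (by linarith),
      twistForm_apply, dm_eq_fderiv, lp_twist α hu]
  refine ⟨B, fun u => ?_, fun u hu => ?_, ?_, fun u t => ?_⟩
  · by_cases hu : u ∈ Ω
    · exact (DiagAt.pull (localDiffeo_lp hu.1) (diagAt_lpForm α L lam R hlam hR _)).congr
        hΩo hu hBin
    · refine (diagAt_twistForm α u).congr (isClosed_swirl hc).isOpen_compl
        (fun h => hu ⟨h.1, lt_of_le_of_lt h.2 (by norm_num)⟩) (fun v hv => ?_)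
      by_cases hvΩ : v ∈ Ω
      · rw [hBin v hvΩ]
        refine hout v hvΩ.1 ?_
        by_contra hcon
        push Not at hcon
        exact hv ⟨hvΩ.1, hcon⟩
      · exact hBout v hvΩ
  · refine hBout u fun h => ?_
    have := rad_lt_of_cdist hc hc2 h.1 h.2
    linarith
  · obtain ⟨δ, hδ, h⟩ := exists_near (k := k) hc
    refine ⟨δ, hδ, fun u hu x y => ?_⟩
    obtain ⟨h1, h2⟩ := h u hu
    have h3 : u ∈ Ω := ⟨h1, by linarith⟩
    rw [hBin u h3, pull_apply, lpForm_third α L lam R (by linarith), form3_in L (by linarith),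
      dm_eq_fderiv, lp_inner h1]
  · have hiff : u + t • (basisVec 0 : E (k + 4)) ∈ Ω ↔ u ∈ Ω := by
      change (_ ∧ _) ↔ (_ ∧ _)
      rw [half_add_zeroth, lp_add_zeroth, cdist_add_zeroth]
    by_cases hu : u ∈ Ω
    · rw [hBin _ (hiff.2 hu), hBin u hu]
      ext x y
      rw [pull_apply, pull_apply, dm_eq_fderiv, dm_eq_fderiv, fderiv_lp_add_zeroth hu.1,
        fderiv_lp_add_zeroth hu.1, lp_add_zeroth, lpForm_add_zeroth]
    · rw [hBout _ (fun h => hu (hiff.1 h)), hBout u hu]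
      obtain ⟨n10, n20, n30, n21, n31, n32⟩ := ne_facts (k := k)
      ext x y
      rw [twistForm_apply, twistForm_apply]
      unfold twist
      rw [add_zeroth n20, add_zeroth n30]

end Pool.Agent.OrthCoord
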