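import Pool.Agent.OrthCoord.Flip

set_option autoImplicit false
open Bundle Set ContinuousLinearMap
open scoped Manifold ContDiff Topology

namespace Pool.Agent.OrthCoord

variable {n : ℕ} {S : Finset (Fin n)} {Λ : Set (E n)} {ι : Type}
  {N M : Type} [TopologicalSpace N] [ChartedSpace (E n) N] [TopologicalSpace M]
  [ChartedSpace (E n) M] {T : ι → Bool → E n → N}

theorem Tubes.add_period (hT : Tubes n S Λ T) {a : ι} {j : Bool} {u w : E n} (hu : rad S u < 2)
    (hw : w ∈ Λ) : T a j (u + w) = T a j u := by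
  refine ((hT.inj a j a j u (u + w) hu ?_).2 ⟨rfl, rfl, ?_⟩).symm
  · rw [rad_add_period S (hT.period w hw)]
    exact hu
  · rw [add_sub_cancel_left]
    exact hw

theorem Tubes.rad_eq_of (hT : Tubes n S Λ T) {u v : E n} (h : v - u ∈ Λ) : rad S v = rad S u := by
  have h1 := rad_add_period S (u := u) (hT.period _ h)
  rwa [add_sub_cancel] at h1

theorem Tubes.mem_iff (hT : Tubes n S Λ T) {a b : ι} {j k : Bool} {u : E n} {r : ℝ}
    (hu : rad S u < 2) (hr : r < 2) :
    T a j u ∈ T b k '' {v | rad S v ≤ r} ↔ a = b ∧ j = k ∧ rad S u ≤ r := by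
  constructor
  · rintro ⟨v, hv, hvu⟩
    have hv' : rad S v ≤ r := hv
    obtain ⟨h1, h2, h3⟩ := (hT.inj b k a j v u (hv'.trans_lt hr) hu).1 hvu
    refine ⟨h1.symm, h2.symm, ?_⟩
    rw [hT.rad_eq_of h3]
    exact hv'
  · rintro ⟨rfl, rfl, h⟩
    exact ⟨u, h, rfl⟩

theorem Tubes.inCore_iff (hT : Tubes n S Λ T) {a : ι} {j : Bool} {u : E n} (hu : rad S u < 2) :
    ¬ InTubeCore S T (T a j u) ↔ 1 / 2 < rad S u := by
  constructor
  · intro h
    by_contra hcon
    push Not at hcon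
    exact h ⟨a, j, u, hcon, rfl⟩
  · rintro h ⟨b, k, v, hv, hvu⟩
    have h1 : T a j u ∈ T b k '' {v | rad S v ≤ 1 / 2} := ⟨v, hv, hvu⟩
    have h2 := ((hT.mem_iff hu (by norm_num)).1 h1).2.2
    linarith

theorem dm_eq_of_comp {P Q : Type} [TopologicalSpace P] [ChartedSpace (E n) P]
    [TopologicalSpace Q] [ChartedSpace (E n) Q] {τ : P → Q} {p : P → M} {p' : Q → M} {u : P}
    (hτ : IsLocalDiffeomorphAt (𝓡 n) (𝓡 n) ∞ τ u)
    (hp' : IsLocalDiffeomorphAt (𝓡 n) (𝓡 n) ∞ p' (τ u)) (h : ∀ᶠ v in 𝓝 u, p' (τ v) = p v)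
    (a : E n) : dm p u a = dm p' (τ u) (dm τ u a) := by
  rw [← dm_comp hp' hτ]
  have h1 : dm (n := n) p u = dm (n := n) (p' ∘ τ) u := by
    apply dm_congr
    filter_upwards [h] with v hv
    exact hv.symm
  rw [h1]

theorem IsTubeSum.hasOrthogonalMetric_of_forms [Finite ι] [IsManifold (𝓡 n) ∞ M]
    (hT : Tubes n S Λ T) {i : N → M} (H : IsTubeSum n S T i)
    {β : N → E n →L[ℝ] E n →L[ℝ] ℝ}
    (hβ : ∀ y, (∀ a j, y ∉ T a j '' {u | rad S u ≤ 19 / 10}) → DiagAt β y)
    {b : ι → Bool → E n → E n →L[ℝ] E n →L[ℝ] ℝ}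
    (hb : ∀ a j u, 9 / 10 < rad S u → rad S u < 2 → DiagAt (b a j) u)
    (hper : ∀ a j u w, w ∈ Λ → rad S u < 2 → b a j (u + w) = b a j u)
    (hout : ∀ a j u, 19 / 10 < rad S u → rad S u < 2 → ∀ x y,
      β (T a j u) (dm (T a j) u x) (dm (T a j) u y) = b a j u x y)
    (hcyl : ∀ a j u, 9 / 10 < rad S u → rad S u < 6 / 5 → ∀ x y, b a j u x y = cyl S u x y) :
    HasOrthogonalMetric n M := by
  set V : Set N := {y | ∀ a j, y ∉ T a j '' {u | rad S u ≤ 19 / 10}} with hV
  have hVo : IsOpen V := by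
    have h1 : V = ⋂ a, ⋂ j, (T a j '' {u | rad S u ≤ 19 / 10})ᶜ := by
      ext y
      simp [hV]
    rw [h1]
    exact isOpen_iInter_of_finite fun a => isOpen_iInter_of_finite fun j =>
      (hT.closed a j _ (by norm_num)).isOpen_compl
  have hVC : ∀ y ∈ V, ¬ InTubeCore S T y := by
    rintro y hy ⟨a, j, u, hu, rfl⟩
    exact hy a j ⟨u, hu.trans (by norm_num), rfl⟩
  have hVr : ∀ a j u, rad S u < 2 → T a j u ∈ V → 19 / 10 < rad S u := by
    intro a j u hu hy
    by_contra hcon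
    push Not at hcon
    exact hy a j ⟨u, hcon, rfl⟩
  have hW : IsOpen {u : E n | 9 / 10 < rad S u ∧ rad S u < 2} :=
    (isOpen_lt continuous_const (continuous_rad S)).inter
      (isOpen_lt (continuous_rad S) continuous_const)
  have hW' : IsOpen {u : E n | 1 / 2 < rad S u ∧ rad S u < 2} :=
    (isOpen_lt continuous_const (continuous_rad S)).inter
      (isOpen_lt (continuous_rad S) continuous_const)
  have hiT : ∀ a j u, 1 / 2 < rad S u → rad S u < 2 →
      IsLocalDiffeomorphAt (𝓡 n) (𝓡 n) ∞ i (T a j u) := fun a j u h1 h2 =>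
    H.loc _ ((hT.inCore_iff h2).2 h1)
  have hp : ∀ a j u, 1 / 2 < rad S u → rad S u < 2 →
      IsLocalDiffeomorphAt (𝓡 n) (𝓡 n) ∞ (i ∘ T a j) u := by
    intro a j u h1 h2
    have h3 : IsLocalDiffeomorphAt (𝓡 n) (𝓡 n) ∞ (T a j) u := hT.loc a j u h2
    exact h3.comp _ _ (hiT a j u h1 h2)
  have hflip2 : ∀ u : E n, 1 / 2 < rad S u → rad S (flip S u) < 2 := by
    intro u hu
    rw [rad_flip S (by linarith), inv_lt_comm₀ (by linarith) (by norm_num)]
    linarith
  have hflip1 : ∀ u : E n, 1 / 2 < rad S u → rad S u < 2 → 1 / 2 < rad S (flip S u) := by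
    intro u hu hu2
    rw [rad_flip S (by linarith), lt_inv_comm₀ (by norm_num) (by linarith)]
    linarith
  have hlink : ∀ a j u, 1 / 2 < rad S u → rad S u < 2 → i (T a (!j) (flip S u)) = i (T a j u) := by
    intro a j u h1 h2
    refine ((H.glue _ _ ((hT.inCore_iff h2).2 h1)
      ((hT.inCore_iff (hflip2 u h1)).2 (hflip1 u h1 h2))).2 (Or.inr ?_)).symm
    exact ⟨a, j, u, h1, h2, rfl, rfl⟩
  -- the three coincidence lemmas
  have hNN : ∀ y ∈ V, ∀ z ∈ V, i y = i z → y = z := by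
    intro y hy z hz h
    rcases (H.glue y z (hVC y hy) (hVC z hz)).1 h with h | ⟨a, j, u, h1, h2, rfl, rfl⟩
    · exact h
    · have h3 := hVr a j u h2 hy
      have h4 := hVr a (!j) (flip S u) (hflip2 u h1) hz
      rw [rad_flip S (by linarith), lt_inv_comm₀ (by norm_num) (by linarith)] at h4
      linarith
  have hNT : ∀ y ∈ V, ∀ a j u, 9 / 10 < rad S u → rad S u < 2 → i y = i (T a j u) →
      y = T a j u ∧ 19 / 10 < rad S u := by
    intro y hy a j u h1 h2 h
    have hc := (hT.inCore_iff (a := a) (j := j) h2).2 (by linarith : (1 : ℝ) / 2 < rad S u)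
    rcases (H.glue y _ (hVC y hy) hc).1 h with h3 | ⟨a₁, j₁, u₁, h3, h4, h5, h6⟩
    · refine ⟨h3, hVr a j u h2 ?_⟩
      rw [← h3]
      exact hy
    · exfalso
      have h7 := hVr a₁ j₁ u₁ h4 (by rw [h5]; exact hy)
      have h8 := ((hT.inj _ _ _ _ _ _ (hflip2 u₁ h3) h2).1 h6).2.2
      have h9 := hT.rad_eq_of h8
      rw [rad_flip S (by linarith)] at h9
      rw [h9, lt_inv_comm₀ (by norm_num) (by linarith)] at h1
      linarith
  have hTT : ∀ a j u, 9 / 10 < rad S u → rad S u < 2 → ∀ b k v, 9 / 10 < rad S v →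
      rad S v < 2 → i (T a j u) = i (T b k v) →
      (a = b ∧ j = k ∧ v - u ∈ Λ) ∨ (a = b ∧ (!j) = k ∧ v - flip S u ∈ Λ) := by
    intro a j u h1 h2 b k v h3 h4 h
    have hc := (hT.inCore_iff (a := a) (j := j) h2).2 (by linarith : (1 : ℝ) / 2 < rad S u)
    have hc' := (hT.inCore_iff (a := b) (j := k) h4).2 (by linarith : (1 : ℝ) / 2 < rad S v)
    rcases (H.glue _ _ hc hc').1 h with h5 | ⟨a₁, j₁, u₁, h5, h6, h7, h8⟩
    · exact Or.inl ((hT.inj _ _ _ _ _ _ h2 h4).1 h5)
    · right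
      obtain ⟨rfl, rfl, h9⟩ := (hT.inj _ _ _ _ _ _ h6 h2).1 h7
      obtain ⟨rfl, rfl, h10⟩ := (hT.inj _ _ _ _ _ _ (hflip2 u₁ h5) h4).1 h8
      refine ⟨rfl, rfl, ?_⟩
      have h11 : flip S u = flip S u₁ + (u - u₁) := by
        rw [← flip_add_period S (hT.period _ h9), add_sub_cancel]
      have h12 : T a₁ (!j₁) (flip S u) = T a₁ (!j₁) v := by
        rw [h11, hT.add_period (hflip2 u₁ h5) h9]
        exact h8
      exact ((hT.inj _ _ _ _ _ _ (hflip2 u (by linarith)) h4).1 h12).2.2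
  let G : M → (E n →L[ℝ] E n) → (E n →L[ℝ] E n →L[ℝ] ℝ) → Prop := fun x L γ =>
    (∃ y ∈ V, i y = x ∧ dm i y = L ∧ β y = γ) ∨
    (∃ a j u, 9 / 10 < rad S u ∧ rad S u < 2 ∧ i (T a j u) = x ∧ dm (i ∘ T a j) u = L ∧
      b a j u = γ)
  have hcov' : ∀ x, (∃ y ∈ V, i y = x) ∨
      (∃ a j u, 9 / 10 < rad S u ∧ rad S u < 2 ∧ i (T a j u) = x) := by
    intro x
    obtain ⟨y, hy, rfl⟩ := H.surj x
    by_cases hyV : y ∈ V
    · exact Or.inl ⟨y, hyV, rfl⟩
    · right
      have h0 : ∃ a j, y ∈ T a j '' {u | rad S u ≤ 19 / 10} := by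
        by_contra hcon
        push Not at hcon
        exact hyV hcon
      obtain ⟨a, j, u, hu, rfl⟩ := h0
      have hu' : rad S u ≤ 19 / 10 := hu
      have hu2 : rad S u < 2 := by linarith
      have hu1 : 1 / 2 < rad S u := (hT.inCore_iff hu2).1 hy
      rcases lt_or_ge (9 / 10) (rad S u) with h1 | h1
      · exact ⟨a, j, u, h1, hu2, rfl⟩
      · refine ⟨a, !j, flip S u, ?_, hflip2 u hu1, hlink a j u hu1 hu2⟩
        rw [rad_flip S (by linarith), lt_inv_comm₀ (by norm_num) (by linarith)]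
        linarith
  have hbij : ∀ x L γ, G x L γ → Function.Bijective L := by
    rintro x L γ (⟨y, hy, -, rfl, -⟩ | ⟨a, j, u, h1, h2, -, rfl, -⟩)
    · exact dm_bijective (H.loc y (hVC y hy))
    · exact dm_bijective (hp a j u (by linarith) h2)
  have hcov : ∀ x, ∃ L γ, G x L γ := by
    intro x
    rcases hcov' x with ⟨y, hy, h⟩ | ⟨a, j, u, h1, h2, h⟩
    · exact ⟨_, _, Or.inl ⟨y, hy, h, rfl, rfl⟩⟩
    · exact ⟨_, _, Or.inr ⟨a, j, u, h1, h2, h, rfl, rfl⟩⟩
  -- compatibility of a form on `N` and a form on a tube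
  have hkeyNT : ∀ y ∈ V, ∀ a j u, 9 / 10 < rad S u → rad S u < 2 → i y = i (T a j u) →
      ∀ x c x' c', dm i y x = dm (i ∘ T a j) u x' → dm i y c = dm (i ∘ T a j) u c' →
      β y x c = b a j u x' c' := by
    intro y hy a j u h1 h2 h x c x' c' hx hc
    obtain ⟨rfl, h3⟩ := hNT y hy a j u h1 h2 h
    have hiy := hiT a j u (by linarith) h2
    have hd : ∀ x x' : E n, dm i (T a j u) x = dm (i ∘ T a j) u x' → x = dm (T a j) u x' := by
      intro x x' hx
      rw [dm_comp hiy (hT.loc a j u h2)] at hx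
      exact dm_injective hiy hx
    rw [hd x x' hx, hd c c' hc]
    exact hout a j u h3 h2 x' c'
  have hcons : ∀ x L γ L' γ', G x L γ → G x L' γ' → ∀ a c a' c', L a = L' a' → L c = L' c' →
      γ a c = γ' a' c' := by
    rintro x L γ L' γ' (⟨y, hy, rfl, rfl, rfl⟩ | ⟨a, j, u, h1, h2, rfl, rfl, rfl⟩)
      (⟨z, hz, hx, rfl, rfl⟩ | ⟨b', k, v, h3, h4, hx, rfl, rfl⟩) α δ α' δ' hα hδ
    · have h5 := hNN z hz y hy hx
      subst h5
      have hinj := dm_injective (H.loc z (hVC z hz))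
      rw [hinj hα, hinj hδ]
    · exact hkeyNT y hy b' k v h3 h4 hx.symm α δ α' δ' hα hδ
    · exact (hkeyNT z hz a j u h1 h2 hx α' δ' α δ hα.symm hδ.symm).symm
    · have hpv := hp b' k v (by linarith) h4
      rcases hTT a j u h1 h2 b' k v h3 h4 hx.symm with ⟨rfl, rfl, h5⟩ | ⟨rfl, rfl, h5⟩
      · -- translation
        have hv : v = u + (v - u) := by abel
        have hd : ∀ x x' : E n, dm (i ∘ T a j) u x = dm (i ∘ T a j) v x' → x' = x := by
          intro x x' hxx
          have h6 := dm_eq_of_comp (p := i ∘ T a j) (p' := i ∘ T a j) (τ := fun z => z + (v - u))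
            (localDiffeo_add (v - u) u) (by
              change IsLocalDiffeomorphAt (𝓡 n) (𝓡 n) ∞ (i ∘ T a j) (u + (v - u))
              rw [← hv]
              exact hpv) (by
              filter_upwards [hW.mem_nhds ⟨h1, h2⟩] with z hz
              change i (T a j (z + (v - u))) = i (T a j z)
              rw [hT.add_period hz.2 h5]) x
          rw [dm_add, ← hv] at h6
          exact dm_injective hpv (hxx.symm.trans h6)
        rw [hd _ _ hα, hd _ _ hδ, hv, hper a j u _ h5 h2]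
      · -- inversion and translation
        set w := v - flip S u with hw
        have hv : v = flip S u + w := by rw [hw]; abel
        have hpos : 0 < rad S u := by linarith
        have hτ : IsLocalDiffeomorphAt (𝓡 n) (𝓡 n) ∞ ((fun z : E n => z + w) ∘ flip S) u :=
          (localDiffeo_flip S hpos).comp _ _ (localDiffeo_add w _)
        have hd : ∀ x x' : E n, dm (i ∘ T a j) u x = dm (i ∘ T a (!j)) v x' →
            x' = fderiv ℝ (flip S) u x := by
          intro x x' hxx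
          have h6 := dm_eq_of_comp (p := i ∘ T a j) (p' := i ∘ T a (!j))
            (τ := (fun z : E n => z + w) ∘ flip S) hτ (by
              change IsLocalDiffeomorphAt (𝓡 n) (𝓡 n) ∞ (i ∘ T a (!j)) (flip S u + w)
              rw [← hv]
              exact hpv) (by
              filter_upwards [hW'.mem_nhds ⟨by linarith, h2⟩] with z hz
              change i (T a (!j) (flip S z + w)) = i (T a j z)
              rw [hT.add_period (hflip2 z hz.1) h5]
              exact hlink a j z hz.1 hz.2) x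
          rw [dm_comp (localDiffeo_add w _) (localDiffeo_flip S hpos), dm_add,
            dm_eq_fderiv] at h6
          have h7 : ((fun z : E n => z + w) ∘ flip S) u = v := hv.symm
          rw [h7] at h6
          exact dm_injective hpv (hxx.symm.trans h6)
        have h8 : rad S v = (rad S u)⁻¹ := by
          rw [hv, rad_add_period S (hT.period _ h5), rad_flip S hpos]
        have h9 : rad S u < 6 / 5 := by
          rw [h8, lt_inv_comm₀ (by norm_num) hpos] at h3
          linarith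
        have h10 : rad S v < 6 / 5 := by
          rw [h8, inv_lt_comm₀ hpos (by norm_num)]
          linarith
        have h11 : ∀ x y : E n, cyl S v x y = cyl S (flip S u) x y := by
          intro x y
          unfold cyl
          rw [hv, rad_add_period S (hT.period _ h5)]
        rw [hcyl a j u h1 h9, hcyl a (!j) v h3 h10, hd _ _ hα, hd _ _ hδ, h11, cyl_flip S hpos]
  obtain ⟨B, hB⟩ := exists_field G hbij hcov hcons
  refine hasOrthogonalMetric_of_diagAt (b := B) fun x => ?_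
  rcases hcov' x with ⟨y, hy, rfl⟩ | ⟨a, j, u, h1, h2, rfl⟩
  · exact DiagAt.push (H.loc y (hVC y hy)) (hβ y hy) hVo hy
      (fun z hz α γ => hB _ _ _ (Or.inl ⟨z, hz, rfl, rfl, rfl⟩) α γ)
  · exact DiagAt.push (f := i ∘ T a j) (hp a j u (by linarith) h2) (hb a j u h1 h2) hW ⟨h1, h2⟩
      (fun z hz α γ => hB _ _ _ (Or.inr ⟨a, j, z, hz.1, hz.2, rfl, rfl, rfl⟩) α γ)

end Pool.Agent.OrthCoord
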