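import Pool.Agent.OrthCoord.OddDefs

set_option autoImplicit false
open Set
open scoped Manifold ContDiff

namespace Pool.Agent.OrthCoord

/-- The map `u ↦ (u₀, u₁, e^(iα u₀) (u₂ + i u₃), u₄, …)`, which turns the plane of the coordinates
`2` and `3` with speed `α` along the zeroth coordinate. -/
noncomputable def turn {k : ℕ} (α : ℝ) (u : E (k + 4)) : E (k + 4) :=
  WithLp.toLp 2 fun j =>
    if j = 2 then Real.cos (α * u 0) * u 2 - Real.sin (α * u 0) * u 3
    else if j = 3 then Real.sin (α * u 0) * u 2 + Real.cos (α * u 0) * u 3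
    else u j

/-- The coordinates `(θ, e^(iα θ) v)` of the tubes `T a j`, with the speeds `α a j`, are orthogonal
coordinates of the metric `g`. -/
def TurnAdapted (k : ℕ) {ι N : Type} [TopologicalSpace N] [ChartedSpace (E (k + 4)) N]
    [IsManifold (𝓡 (k + 4)) ∞ N] (g : RMetric (k + 4) N) (T : ι → Bool → E (k + 4) → N)
    (α : ι → Bool → ℝ) : Prop :=
  ∀ a j u, rad (discDirs k) u < 2 → ∀ p q : Fin (k + 4), p ≠ q →
    coef g (fun v => T a j (turn (α a j) v)) u p q = 0

/-- The round tube in the disc `φ j`, framed by `m j` turns. -/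
noncomputable def framedTubes {k : ℕ} {N : Type} (m : Bool → ℤ) (φ : Bool → E (k + 4) → N) :
    Unit → Bool → E (k + 4) → N :=
  fun _ j u => φ j (evenTube (turn (m j) u))

end Pool.Agent.OrthCoord
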