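import Pool.Agent.OrthCoord.OddInj
import Pool.Agent.OrthCoord.TurnDefs

set_option autoImplicit false
open Bundle Set ContinuousLinearMap
open scoped Manifold ContDiff Topology

namespace Pool.Agent.OrthCoord

section
variable {n : ℕ}

theorem hasFDerivAt_cosmul (ρ τ : E n →L[ℝ] ℝ) (u : E n) :
    HasFDerivAt (fun x => Real.cos (ρ x) * τ x)
      (Real.cos (ρ u) • τ - (τ u * Real.sin (ρ u)) • ρ) u := by
  have h1 : HasFDerivAt (fun x => Real.cos (ρ x)) (-Real.sin (ρ u) • ρ) u := ρ.hasFDerivAt.cos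
  have h3 := h1.mul τ.hasFDerivAt
  refine h3.congr_fderiv ?_
  ext v
  simp
  ring

theorem hasFDerivAt_sinmul (ρ τ : E n →L[ℝ] ℝ) (u : E n) :
    HasFDerivAt (fun x => Real.sin (ρ x) * τ x)
      (Real.sin (ρ u) • τ + (τ u * Real.cos (ρ u)) • ρ) u := by
  have h1 : HasFDerivAt (fun x => Real.sin (ρ x)) (Real.cos (ρ u) • ρ) u := ρ.hasFDerivAt.sin
  have h3 := h1.mul τ.hasFDerivAt
  refine h3.congr_fderiv ?_
  ext v
  simp
  ring

end

variable {k : ℕ}

theorem turn_two (α : ℝ) (u : E (k + 4)) :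
    turn α u 2 = Real.cos (α * u 0) * u 2 - Real.sin (α * u 0) * u 3 := by
  simp only [turn, if_true]

theorem turn_three (α : ℝ) (u : E (k + 4)) :
    turn α u 3 = Real.sin (α * u 0) * u 2 + Real.cos (α * u 0) * u 3 := by
  obtain ⟨n10, n20, n30, n21, n31, n32⟩ := ne_facts (k := k)
  simp only [turn, if_neg n32, if_true]

theorem turn_other (α : ℝ) (u : E (k + 4)) {j : Fin (k + 4)} (h2 : j ≠ 2) (h3 : j ≠ 3) :
    turn α u j = u j := by
  simp only [turn, if_neg h2, if_neg h3]

theorem turn_zero_apply (α : ℝ) (u : E (k + 4)) : turn α u 0 = u 0 := by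
  obtain ⟨n10, n20, n30, n21, n31, n32⟩ := ne_facts (k := k)
  exact turn_other α u n20.symm n30.symm

theorem turn_one_apply (α : ℝ) (u : E (k + 4)) : turn α u 1 = u 1 := by
  obtain ⟨n10, n20, n30, n21, n31, n32⟩ := ne_facts (k := k)
  exact turn_other α u n21.symm n31.symm

theorem turn_neg_turn (α : ℝ) (u : E (k + 4)) : turn (-α) (turn α u) = u := by
  have hs := Real.sin_sq_add_cos_sq (α * u 0)
  ext j
  by_cases h2 : j = 2
  · subst h2
    rw [turn_two, turn_two, turn_three, turn_zero_apply, neg_mul, Real.cos_neg, Real.sin_neg]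
    linear_combination u 2 * hs
  by_cases h3 : j = 3
  · subst h3
    rw [turn_three, turn_two, turn_three, turn_zero_apply, neg_mul, Real.cos_neg, Real.sin_neg]
    linear_combination u 3 * hs
  rw [turn_other _ _ h2 h3, turn_other _ _ h2 h3]

theorem turn_turn_neg (α : ℝ) (u : E (k + 4)) : turn α (turn (-α) u) = u := by
  have h := turn_neg_turn (-α) u
  rwa [neg_neg] at h

theorem rad_turn (α : ℝ) (u : E (k + 4)) : rad (discDirs k) (turn α u) = rad (discDirs k) u := by
  have h1 := rad_sq (turn α u)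
  have h2 := rad_sq u
  have hs := Real.sin_sq_add_cos_sq (α * u 0)
  have h3 : ∀ j : Fin k, turn α u (j.addNat 4) = u (j.addNat 4) := by
    intro j
    obtain ⟨m0, m1, m2, m3⟩ := ne_addNat j
    exact turn_other α u m2 m3
  simp only [h3] at h1
  rw [turn_one_apply, turn_two, turn_three] at h1
  have h4 : rad (discDirs k) (turn α u) ^ 2 = rad (discDirs k) u ^ 2 := by
    rw [h1, h2]
    linear_combination (u 2 ^ 2 + u 3 ^ 2) * hs
  have h5 := rad_nonneg (discDirs k) (turn α u)
  have h6 := rad_nonneg (discDirs k) u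
  exact (sq_eq_sq₀ h5 h6).1 h4

theorem contDiff_turn (α : ℝ) : ContDiff ℝ ∞ (turn (k := k) α) := by
  rw [contDiff_euclidean]
  intro j
  have h := contDiff_coord (n := k + 4)
  have hc : ContDiff ℝ ∞ (fun u : E (k + 4) => Real.cos (α * u 0)) :=
    (contDiff_const.mul (h 0)).cos
  have hs : ContDiff ℝ ∞ (fun u : E (k + 4) => Real.sin (α * u 0)) :=
    (contDiff_const.mul (h 0)).sin
  by_cases h2 : j = 2
  · subst h2
    simp only [turn_two]
    exact (hc.mul (h 2)).sub (hs.mul (h 3))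
  by_cases h3 : j = 3
  · subst h3
    simp only [turn_three]
    exact (hs.mul (h 2)).add (hc.mul (h 3))
  simp only [turn_other _ _ h2 h3]
  exact h j

/-- A multiple of the zeroth coordinate functional. -/
noncomputable def apr (α : ℝ) : E (k + 4) →L[ℝ] ℝ := α • pr 0

theorem apr_apply (α : ℝ) (x : E (k + 4)) : apr α x = α * x 0 := by
  simp [apr]

theorem fderiv_turn_two (α : ℝ) (u a : E (k + 4)) : fderiv ℝ (turn α) u a 2 =
    Real.cos (α * u 0) * a 2 - Real.sin (α * u 0) * a 3 -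
      α * a 0 * (Real.sin (α * u 0) * u 2 + Real.cos (α * u 0) * u 3) := by
  have h1 := hasFDerivAt_cosmul (apr (k := k) α) (pr (k := k) 2) u
  have h2 := hasFDerivAt_sinmul (apr (k := k) α) (pr (k := k) 3) u
  rw [fderiv_comp_apply' (contDiff_turn α) (h1.sub h2) (fun x => by
    rw [turn_two]; simp [apr_apply]) a]
  simp [apr_apply]
  ring

theorem fderiv_turn_three (α : ℝ) (u a : E (k + 4)) : fderiv ℝ (turn α) u a 3 =
    Real.sin (α * u 0) * a 2 + Real.cos (α * u 0) * a 3 +
      α * a 0 * (Real.cos (α * u 0) * u 2 - Real.sin (α * u 0) * u 3) := by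
  have h1 := hasFDerivAt_sinmul (apr (k := k) α) (pr (k := k) 2) u
  have h2 := hasFDerivAt_cosmul (apr (k := k) α) (pr (k := k) 3) u
  rw [fderiv_comp_apply' (contDiff_turn α) (h1.add h2) (fun x => by
    rw [turn_three]; simp [apr_apply]) a]
  simp [apr_apply]
  ring

theorem fderiv_turn_other (α : ℝ) (u a : E (k + 4)) {j : Fin (k + 4)} (h2 : j ≠ 2) (h3 : j ≠ 3) :
    fderiv ℝ (turn α) u a j = a j := by
  have h := (pr (k := k) j).hasFDerivAt (x := u)
  rw [fderiv_comp_apply' (contDiff_turn α) h (fun x => by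
    rw [turn_other _ _ h2 h3]; simp) a]
  simp

/-- The pull-back of the Euclidean metric by `turn`. -/
noncomputable def twist (α : ℝ) (u a c : E (k + 4)) : ℝ :=
  a 0 * c 0 + a 1 * c 1 + (a 2 - α * a 0 * u 3) * (c 2 - α * c 0 * u 3) +
    (a 3 + α * a 0 * u 2) * (c 3 + α * c 0 * u 2) +
    ∑ j : Fin k, a (j.addNat 4) * c (j.addNat 4)

theorem inner_eq_sum_four (a c : E (k + 4)) : inner ℝ a c =
    a 0 * c 0 + a 1 * c 1 + a 2 * c 2 + a 3 * c 3 +
      ∑ j : Fin k, a (j.addNat 4) * c (j.addNat 4) := by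
  rw [PiLp.inner_apply, sum_four]
  simp only [RCLike.inner_apply, conj_trivial]
  have h : ∀ j : Fin k, c (j.addNat 4) * a (j.addNat 4) = a (j.addNat 4) * c (j.addNat 4) :=
    fun j => mul_comm _ _
  simp only [h]
  ring

theorem inner_fderiv_turn (α : ℝ) (u a c : E (k + 4)) :
    inner ℝ (fderiv ℝ (turn α) u a) (fderiv ℝ (turn α) u c) = twist α u a c := by
  obtain ⟨n10, n20, n30, n21, n31, n32⟩ := ne_facts (k := k)
  have hs := Real.sin_sq_add_cos_sq (α * u 0)
  have h : ∀ (a : E (k + 4)) (j : Fin k), fderiv ℝ (turn α) u a (j.addNat 4) = a (j.addNat 4) := by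
    intro a j
    obtain ⟨m0, m1, m2, m3⟩ := ne_addNat j
    exact fderiv_turn_other α u a m2 m3
  rw [inner_eq_sum_four, fderiv_turn_other α u a n20.symm n30.symm,
    fderiv_turn_other α u c n20.symm n30.symm, fderiv_turn_other α u a n21.symm n31.symm,
    fderiv_turn_other α u c n21.symm n31.symm, fderiv_turn_two, fderiv_turn_two,
    fderiv_turn_three, fderiv_turn_three]
  simp only [h]
  unfold twist
  set C := Real.cos (α * u 0)
  set D := Real.sin (α * u 0)
  linear_combination ((a 2 - α * a 0 * u 3) * (c 2 - α * c 0 * u 3) +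
    (a 3 + α * a 0 * u 2) * (c 3 + α * c 0 * u 2)) * hs

theorem localDiffeo_turn (α : ℝ) (u : E (k + 4)) :
    IsLocalDiffeomorphAt (𝓡 (k + 4)) (𝓡 (k + 4)) ∞ (turn (k := k) α) u := by
  refine localDiffeo_of_fderiv (contDiff_turn α) (fun v => ?_) u
  rw [injective_iff_map_eq_zero]
  intro a ha
  have hz : ∀ j, fderiv ℝ (turn α) v a j = 0 := fun j => by rw [ha]; rfl
  obtain ⟨n10, n20, n30, n21, n31, n32⟩ := ne_facts (k := k)
  have h0 := hz 0
  rw [fderiv_turn_other α v a n20.symm n30.symm] at h0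
  have h1 := inner_fderiv_turn α v a a
  rw [ha, inner_zero_left] at h1
  unfold twist at h1
  rw [h0] at h1
  have hsum : 0 ≤ ∑ j : Fin k, a (j.addNat 4) * a (j.addNat 4) :=
    Finset.sum_nonneg fun j _ => mul_self_nonneg _
  have h2 : a 2 = 0 := by nlinarith [sq_nonneg (a 1), sq_nonneg (a 2), sq_nonneg (a 3)]
  have h3 : a 3 = 0 := by nlinarith [sq_nonneg (a 1), sq_nonneg (a 2), sq_nonneg (a 3)]
  ext j
  change a j = 0
  by_cases e2 : j = 2
  · rw [e2, h2]
  by_cases e3 : j = 3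
  · rw [e3, h3]
  have h4 := hz j
  rwa [fderiv_turn_other α v a e2 e3] at h4

end Pool.Agent.OrthCoord
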