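import Pool.Agent.OrthCoord.Move
import Pool.Agent.OrthCoord.OddSum

set_option autoImplicit false
open Bundle Set ContinuousLinearMap
open scoped Manifold ContDiff Topology

namespace Pool.Agent.OrthCoord

variable {k : ℕ} {ι : Type} {N M : Type} [TopologicalSpace N] [ChartedSpace (E (k + 4)) N]
  [TopologicalSpace M] [ChartedSpace (E (k + 4)) M] {T : ι → Bool → E (k + 4) → N}

/-- A smooth function of the radius: `1` for `rad ≤ 17/10` and `0` for `rad ≥ 19/10`. -/
noncomputable def rcut (u : E (k + 4)) : ℝ :=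
  1 - Real.smoothTransition ((rad (discDirs k) u ^ 2 - (17 / 10) ^ 2) /
    ((19 / 10) ^ 2 - (17 / 10) ^ 2))

theorem contDiff_rcut : ContDiff ℝ ∞ (rcut (k := k)) := by
  have h1 : ContDiff ℝ ∞ (fun u : E (k + 4) => rad (discDirs k) u ^ 2) :=
    (contDiff_norm_sq ℝ).comp (nP (discDirs k)).contDiff
  exact contDiff_const.sub (Real.smoothTransition.contDiff.comp
    ((h1.sub contDiff_const).div_const _))

theorem rcut_nonneg (u : E (k + 4)) : 0 ≤ rcut u := by
  have := Real.smoothTransition.le_one ((rad (discDirs k) u ^ 2 - (17 / 10) ^ 2) /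
    ((19 / 10) ^ 2 - (17 / 10) ^ 2))
  unfold rcut
  linarith

theorem rcut_le_one (u : E (k + 4)) : rcut u ≤ 1 := by
  have := Real.smoothTransition.nonneg ((rad (discDirs k) u ^ 2 - (17 / 10) ^ 2) /
    ((19 / 10) ^ 2 - (17 / 10) ^ 2))
  unfold rcut
  linarith

theorem rcut_one {u : E (k + 4)} (hu : rad (discDirs k) u ≤ 17 / 10) : rcut u = 1 := by
  unfold rcut
  rw [Real.smoothTransition.zero_of_nonpos, sub_zero]
  refine div_nonpos_of_nonpos_of_nonneg ?_ (by norm_num)
  have h := pow_le_pow_left₀ (rad_nonneg (discDirs k) u) hu 2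
  linarith

theorem rcut_zero {u : E (k + 4)} (hu : 19 / 10 ≤ rad (discDirs k) u) : rcut u = 0 := by
  unfold rcut
  rw [Real.smoothTransition.one_of_one_le, sub_self]
  rw [le_div_iff₀ (by norm_num)]
  have h := pow_le_pow_left₀ (by norm_num) hu 2
  linarith

theorem rcut_turn (α : ℝ) (u : E (k + 4)) : rcut (turn α u) = rcut u := by
  unfold rcut
  rw [rad_turn]

/-- The outer form in the turned coordinates. -/
noncomputable def outForm (w : E (k + 4) → Fin (k + 4) → ℝ) (u : E (k + 4)) :
    E (k + 4) →L[ℝ] E (k + 4) →L[ℝ] ℝ :=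
  dform (fun p => (1 - rcut u) * w u p + rcut u * 1)
    (ContinuousLinearMap.id ℝ (E (k + 4)))

theorem diagAt_outForm {w : E (k + 4) → Fin (k + 4) → ℝ}
    (hw : ∀ p, ContDiffOn ℝ ∞ (fun u => w u p) {u | rad (discDirs k) u < 2})
    (hpos : ∀ u p, rad (discDirs k) u < 2 → 0 < w u p) {u : E (k + 4)}
    (hu : rad (discDirs k) u < 2) : DiagAt (outForm w) u := by
  refine ⟨{u | rad (discDirs k) u < 2}, fun v => v, fun u p =>
    (1 - rcut u) * w u p + rcut u * 1,
    isOpen_lt (continuous_rad _) continuous_const, hu, fun y _ => isLocalDiffeomorphAt_id y,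
    fun p => ?_, fun y hy p => ?_, fun y _ => ?_⟩
  · refine contMDiffOn_iff_contDiffOn.2 ?_
    have h1 := contDiff_rcut (k := k)
    exact ((contDiff_const.sub h1).contDiffOn.mul (hw p)).add
      (h1.contDiffOn.mul contDiffOn_const)
  · exact mix_pos (rcut_nonneg _) (rcut_le_one _) (hpos y p hy) one_pos
  · rw [dq_id]
    rfl

/-- Gluing along circle tubes whose coordinates become orthogonal after turning. -/
theorem IsTubeSum.hasOrthogonalMetric_of_turned [Finite ι] [IsManifold (𝓡 (k + 4)) ∞ M]
    (hT : Tubes (k + 4) (discDirs k) (turns k) T) {i : N → M}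
    (H : IsTubeSum (k + 4) (discDirs k) T i)
    {β : N → E (k + 4) →L[ℝ] E (k + 4) →L[ℝ] ℝ} (hβD : ∀ y, DiagAt β y)
    (α : ι → Bool → ℝ) {w : ι → Bool → E (k + 4) → Fin (k + 4) → ℝ}
    (hw : ∀ a j p, ContDiffOn ℝ ∞ (fun u => w a j u p) {u | rad (discDirs k) u < 2})
    (hpos : ∀ a j u p, rad (discDirs k) u < 2 → 0 < w a j u p)
    (hβ : ∀ a j u, rad (discDirs k) u < 2 → ∀ x y : E (k + 4),
      β (T a j (turn (α a j) u)) (dm (fun v => T a j (turn (α a j) v)) u x)
        (dm (fun v => T a j (turn (α a j) v)) u y) = ∑ p, w a j u p * x p * y p) :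
    HasOrthogonalMetric (k + 4) M := by
  classical
  set S := discDirs k with hS
  have hcore := fun (a : ι) (j : Bool) => exists_core k (-α a j)
  choose B ε hε hBD hBout hBin hBt using hcore
  let ε' : ι → Bool → E (k + 4) → Fin (k + 4) → ℝ := fun a j _ p => if p ∈ S then ε a j ^ 2 else 1
  let O : ι → Bool → E (k + 4) → E (k + 4) →L[ℝ] E (k + 4) →L[ℝ] ℝ := fun a j =>
    pull (turn (-α a j)) (outForm (w a j))
  let b : ι → Bool → E (k + 4) → E (k + 4) →L[ℝ] E (k + 4) →L[ℝ] ℝ := fun a j u =>
    if rad S u < 3 / 2 then tubeForm S (ε' a j) u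
    else if rad S u < 17 / 10 then B a j u else O a j u
  -- the outer form
  have hO : ∀ a j u, rad S u < 2 → ∀ x y, O a j u x y =
      (1 - rcut u) * β (T a j u) (dm (T a j) u x) (dm (T a j) u y) +
        rcut u * twist (-α a j) u x y := by
    intro a j u hu x y
    have hv : rad S (turn (-α a j) u) < 2 := by
      rw [hS, rad_turn]
      exact hu
    have hTu : T a j (turn (α a j) (turn (-α a j) u)) = T a j u := by rw [turn_turn_neg]
    have hloc : IsLocalDiffeomorphAt (𝓡 (k + 4)) (𝓡 (k + 4)) ∞
        (fun v => T a j (turn (α a j) v)) (turn (-α a j) u) := by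
      have h1 : IsLocalDiffeomorphAt (𝓡 (k + 4)) (𝓡 (k + 4)) ∞ (T a j)
          (turn (α a j) (turn (-α a j) u)) := by
        rw [turn_turn_neg]
        exact hT.loc a j u hu
      exact (localDiffeo_turn (α a j) (turn (-α a j) u)).comp _ _ h1
    have hd : ∀ x : E (k + 4), dm (fun v => T a j (turn (α a j) v)) (turn (-α a j) u)
        (dm (turn (-α a j)) u x) = dm (T a j) u x := by
      intro x
      refine (dm_eq_of_comp (p := T a j) (p' := fun v => T a j (turn (α a j) v))
        (τ := turn (-α a j)) (localDiffeo_turn _ u) hloc ?_ x).symm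
      exact Filter.Eventually.of_forall fun v => by rw [turn_turn_neg]
    have h1 := hβ a j (turn (-α a j) u) hv (dm (turn (-α a j)) u x) (dm (turn (-α a j)) u y)
    rw [hd, hd, hTu] at h1
    have h2 : ∑ p, dm (turn (-α a j)) u x p * dm (turn (-α a j)) u y p =
        twist (-α a j) u x y := by
      rw [← inner_fderiv_turn, dm_eq_fderiv, PiLp.inner_apply]
      refine Finset.sum_congr rfl fun p _ => ?_
      simp [mul_comm]
    change outForm (w a j) (turn (-α a j) u) (dm (turn (-α a j)) u x)
      (dm (turn (-α a j)) u y) = _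
    rw [h1, ← h2]
    unfold outForm
    rw [dform_apply, rcut_turn, Finset.mul_sum, Finset.mul_sum, ← Finset.sum_add_distrib]
    refine Finset.sum_congr rfl fun p _ => ?_
    simp only [ContinuousLinearMap.id_apply]
    ring
  have hOD : ∀ a j u, rad S u < 2 → DiagAt (O a j) u := by
    intro a j u hu
    refine DiagAt.pull (localDiffeo_turn _ u) (diagAt_outForm (hw a j) (hpos a j) ?_)
    rw [rad_turn]
    exact hu
  have hOB : ∀ a j u, 8 / 5 ≤ rad S u → rad S u ≤ 17 / 10 → O a j u = B a j u := by
    intro a j u h1 h2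
    ext x y
    rw [hBout a j u h1, twistForm_apply, hO a j u (by linarith), rcut_one h2]
    ring
  have hTB : ∀ a j u, 7 / 5 ≤ rad S u → rad S u ≤ 3 / 2 →
      tubeForm S (ε' a j) u = B a j u := by
    intro a j u h1 h2
    ext x y
    rw [tubeForm_out h1, hBin a j u h2, PiLp.inner_apply, PiLp.inner_apply, Finset.mul_sum,
      ← Finset.sum_add_distrib]
    refine Finset.sum_congr rfl fun p _ => ?_
    simp only [nP_apply, normalPart_apply, PiLp.sub_apply, ε']
    split_ifs <;> simp <;> ring
  have hb1 : ∀ a j u, rad S u < 3 / 2 → b a j u = tubeForm S (ε' a j) u := fun a j u h => if_pos h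
  have hb2 : ∀ a j u, 7 / 5 < rad S u → rad S u < 17 / 10 → b a j u = B a j u := by
    intro a j u h1 h2
    by_cases h3 : rad S u < 3 / 2
    · rw [hb1 a j u h3, hTB a j u h1.le h3.le]
    · change (if rad S u < 3 / 2 then tubeForm S (ε' a j) u
        else if rad S u < 17 / 10 then B a j u else O a j u) = _
      rw [if_neg h3, if_pos h2]
  have hb3 : ∀ a j u, 8 / 5 < rad S u → b a j u = O a j u := by
    intro a j u h1
    by_cases h2 : rad S u < 17 / 10
    · rw [hb2 a j u (by linarith) h2, hOB a j u h1.le h2.le]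
    · change (if rad S u < 3 / 2 then tubeForm S (ε' a j) u
        else if rad S u < 17 / 10 then B a j u else O a j u) = _
      rw [if_neg (by linarith), if_neg h2]
  refine H.hasOrthogonalMetric_of_forms hT (β := β) (b := b) (fun y _ => hβD y) ?_ ?_ ?_ ?_
  · intro a j u h1 h2
    rcases lt_or_ge (rad S u) (3 / 2) with h3 | h3
    · have h4 : DiagAt (tubeForm S (ε' a j)) u := by
        refine diagAt_tubeForm (w := ε' a j) (r := 2) (fun p => contDiffOn_const)
          (fun v p _ => ?_) (by linarith) h2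
        change 0 < if p ∈ S then ε a j ^ 2 else (1 : ℝ)
        have := hε a j
        split_ifs <;> positivity
      exact h4.congr (isOpen_lt (continuous_rad S) continuous_const) h3
        (fun y hy => hb1 a j y hy)
    rcases lt_or_ge (rad S u) (17 / 10) with h4 | h4
    · exact (hBD a j u).congr (O' := {u | 7 / 5 < rad S u ∧ rad S u < 17 / 10})
        ((isOpen_lt continuous_const (continuous_rad S)).inter
          (isOpen_lt (continuous_rad S) continuous_const)) ⟨by linarith, h4⟩
        (fun y hy => hb2 a j y hy.1 hy.2)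
    · exact (hOD a j u h2).congr (O' := {u | 8 / 5 < rad S u})
        (isOpen_lt continuous_const (continuous_rad S))
        (by change (8 : ℝ) / 5 < rad S u; linarith) (fun y hy => hb3 a j y hy)
  · intro a j u v hv hu
    obtain ⟨m, hm⟩ := id hv
    have hr : rad S (u + v) = rad S u := rad_add_period S (normalPart_turns hv)
    rcases lt_or_ge (rad S u) (3 / 2) with h3 | h3
    · rw [hb1 a j u h3, hb1 a j (u + v) (by rw [hr]; exact h3)]
      exact tubeForm_period (normalPart_turns hv) rfl
    rcases lt_or_ge (rad S u) (17 / 10) with h4 | h4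
    · rw [hb2 a j u (by linarith) h4, hb2 a j (u + v) (by rw [hr]; linarith)
        (by rw [hr]; exact h4), hm]
      exact hBt a j u _
    · rw [hb3 a j u (by linarith), hb3 a j (u + v) (by rw [hr]; linarith)]
      obtain ⟨n10, n20, n30, n21, n31, n32⟩ := ne_facts (k := k)
      ext x y
      have htw : twist (-α a j) (u + v) x y = twist (-α a j) u x y := by
        unfold twist
        rw [add_turns_apply hv n20, add_turns_apply hv n30]
      have htc : rcut (u + v) = rcut u := by
        unfold rcut
        rw [hr]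
      rw [hO a j (u + v) (by rw [hr]; exact hu), hO a j u hu, htw, htc,
        hT.add_period hu hv, hT.dm_period hu hv, hT.dm_period hu hv]
  · intro a j u h1 h2 x y
    rw [hb3 a j u (by linarith), hO a j u h2, rcut_zero h1.le]
    ring
  · intro a j u h1 h2 x y
    rw [hb1 a j u (by linarith)]
    exact tubeForm_cyl h2.le x y

end Pool.Agent.OrthCoord
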